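import Pool.Agent.Work.MP_dd0d16_nt.S.Defs

/-!
Definitions used in the statement about sums of arbitrary roots of unity.
-/

set_option autoImplicit false

namespace Pool.Agent.Work.MP_dd0d16_nt.T

variable {p : ℕ} [Fact p.Prime]

/-- `z` is a root of unity whose order divides `N * p ^ s` for some `N` prime to `p`. -/
def RootS (s : ℕ) (z : PadicAlgCl p) : Prop := ∃ N : ℕ, ¬ p ∣ N ∧ z ^ (N * p ^ s) = 1

/-- The field generated by these roots of unity. -/
noncomputable def Cyc (p : ℕ) [Fact p.Prime] (s : ℕ) : IntermediateField ℚ_[p] (PadicAlgCl p) :=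
  IntermediateField.adjoin ℚ_[p] {z : PadicAlgCl p | RootS s z}

/-- `x` is a sum of `B` terms `t * z` with `t` in `T` and `RootS s z`. -/
def CombS (s : ℕ) (T : Set (PadicAlgCl p)) (B : ℕ) (x : PadicAlgCl p) : Prop :=
  ∃ t z : Fin B → PadicAlgCl p, (∀ j, t j ∈ T ∧ RootS s (z j)) ∧ x = ∑ j, t j * z j

/-- `a` is a root of a nonzero polynomial of degree at most `B` with coefficients in
`CombS s K B`. -/
def AlgS (s : ℕ) (K : Set (PadicAlgCl p)) (B : ℕ) (a : PadicAlgCl p) : Prop :=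
  ∃ f : Fin (B + 1) → PadicAlgCl p, f ≠ 0 ∧ (∀ i, CombS s K B (f i)) ∧ ∑ i, f i * a ^ (i : ℕ) = 0

end Pool.Agent.Work.MP_dd0d16_nt.T
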