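import Pool.Agent.Work.MP_dd0d16_nt.T.Mat
import Pool.Agent.Work.MP_dd0d16_nt.S.Defs
import Pool.Agent.Work.MP_dd0d16_nt.G.Defs

-- merged part: Pool.Agent.Work.MP_dd0d16_nt.R.Base
section
/-!
Adjoining a root of a monic polynomial with constant coefficients.

PLAN. `ar_ex`, `ar_uniq`: trivial if `S` is trivial; otherwise `Monic.natDegree_map` and
`AdjoinRoot.powerBasis'`.
`ar_domain`: `WittVector p k` is a discrete valuation ring (`WittVector.isDiscreteValuationRing`,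
`WittVector.irreducible`); `Monic.isEisensteinAt_of_mem_of_notMem`, `IsEisensteinAt.irreducible`,
`Irreducible.prime` (unique factorisation), `AdjoinRoot.isDomain_of_prime`.
`ar_inj`, `ar_one`, `ar_char`: compare components (`1 = of 1 * root ^ 0`).
`asep_base`: let `g i = ∑ d, of (c i d) * root ^ d`. For a `Test τ κ a N Ψ δ` let
`gQ = gk.map (rho N)`, `Q' = AdjoinRoot gQ`, `ρ' = AdjoinRoot.map (rho N) gk gQ _`,
`Ψ1 : WittVector p F →+* DualNumber Q'` the composite of `Ψ` and the map of dual numbers induced by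
`of gQ` (build it by hand as a `RingHom`: `fun z => ⟨of z.fst, of z.snd⟩`, or `TrivSqZeroExt.map`),
`Ψ' = AdjoinRoot.lift Ψ1 (inl (root gQ)) _` (the coefficients of `gF` are constants, so `Ψ1` maps them
to `inl` of the coefficients of `gQ`), `δ' i = of (δ i)`. For `x = ∑ d, of (x d) * root ^ d` we get
`(Ψ' x).fst = ∑ d, of (Ψ (x d)).fst * root ^ d`, same for `snd`. This is an `ATest`; the hypothesis
and `ar_uniq` give `∑ i, rho N (c i d) * δ i = 0` for every `d`, so `c · d = 0` by `Sep`.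
-/

set_option autoImplicit false

namespace Pool.Agent.Work.MP_dd0d16_nt.T

open Polynomial AdjoinRoot

section gen
variable {A S : Type} [CommRing A] [CommRing S] {g : A[X]} {f : A →+* S} {g' : S[X]}

theorem Base_basis (hg : g'.Monic) {n : ℕ} (h : g'.natDegree = n) :
    ∃ b : Module.Basis (Fin n) S (AdjoinRoot g'), ∀ d, b d = root g' ^ (d : ℕ) := by
  subst h
  exact ⟨(powerBasis' hg).basis, (powerBasis' hg).basis_eq_pow⟩

theorem ar_ex (hg : g.Monic) (h : g' = g.map f) (z : AdjoinRoot g') :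
    ∃ c : Fin g.natDegree → S, z = ∑ d, of g' (c d) * root g' ^ (d : ℕ) := by
  rcases subsingleton_or_nontrivial S with hS | hS
  · have := Module.subsingleton S (AdjoinRoot g')
    exact ⟨0, Subsingleton.elim _ _⟩
  · obtain ⟨b, hb⟩ := Base_basis (h ▸ hg.map f) (n := g.natDegree) (h ▸ hg.natDegree_map f)
    refine ⟨b.repr z, (b.sum_repr z).symm.trans (Finset.sum_congr rfl fun d _ => ?_)⟩
    rw [hb, Algebra.smul_def, AdjoinRoot.algebraMap_eq]

theorem ar_uniq (hg : g.Monic) (h : g' = g.map f) (c : Fin g.natDegree → S)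
    (h0 : ∑ d, of g' (c d) * root g' ^ (d : ℕ) = 0) : c = 0 := by
  rcases subsingleton_or_nontrivial S with hS | hS
  · exact Subsingleton.elim _ _
  · obtain ⟨b, hb⟩ := Base_basis (h ▸ hg.map f) (n := g.natDegree) (h ▸ hg.natDegree_map f)
    refine funext (Fintype.linearIndependent_iff.1 b.linearIndependent c ?_)
    rw [← h0]
    exact Finset.sum_congr rfl fun d _ => by rw [hb, Algebra.smul_def, AdjoinRoot.algebraMap_eq]

theorem ar_inj (hg : g.Monic) (h : g' = g.map f) (hf : Function.Injective f) (d : g' ∣ g.map f) :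
    Function.Injective (AdjoinRoot.map f g g' d) := by
  refine (injective_iff_map_eq_zero _).2 fun z hz => ?_
  obtain ⟨c, rfl⟩ := ar_ex hg (Polynomial.map_id (p := g)).symm z
  have h1 := ar_uniq hg h (fun i => f (c i)) (by simpa using hz)
  refine Finset.sum_eq_zero fun i _ => ?_
  rw [(injective_iff_map_eq_zero _).1 hf _ (congrFun h1 i), map_zero, zero_mul]

theorem Eis.map {p : ℕ} [Nontrivial S] (h : Eis p g) (f : A →+* S) : Eis p (g.map f) := by
  have e := h.monic.natDegree_map f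
  refine ⟨h.monic.map f, e ▸ h.pos, fun a ha => ?_, ?_⟩
  · simpa using map_dvd f (h.dvd a (e ▸ ha))
  · obtain ⟨u, hu⟩ := h.unit
    exact ⟨Units.map (f : A →* S) u, by simp [hu]⟩

theorem Base_dvd (hg : g.Monic) (h : 0 < g.natDegree) {a b : A} {x : AdjoinRoot g}
    (h0 : of g a + of g b * x = 0) : b ∣ a := by
  obtain ⟨c, rfl⟩ := ar_ex hg (Polynomial.map_id (p := g)).symm x
  have h1 := ar_uniq hg (Polynomial.map_id (p := g)).symm
    (fun d => (if d = ⟨0, h⟩ then a else 0) + b * c d) (by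
      rw [← h0, Finset.mul_sum]
      simp only [map_add, map_mul, add_mul, Finset.sum_add_distrib, mul_assoc]
      congr 1
      rw [Finset.sum_eq_single ⟨0, h⟩ (fun d _ e => by simp [e]) (by simp)]
      simp)
  have h2 := congrFun h1 ⟨0, h⟩
  simp only [if_true, Pi.zero_apply] at h2
  exact ⟨-c ⟨0, h⟩, by linear_combination h2⟩

/-- The map of dual numbers induced by a ring homomorphism. -/
def Base_dm (f : A →+* S) : DualNumber A →+* DualNumber S where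
  toFun z := (f z.fst, f z.snd)
  map_one' := TrivSqZeroExt.ext (map_one f) (map_zero f)
  map_mul' z w := TrivSqZeroExt.ext (map_mul f _ _) (by
    rw [DualNumber.snd_mul]
    change f (z * w).snd = f z.fst * f w.snd + f z.snd * f w.fst
    rw [DualNumber.snd_mul, map_add, map_mul, map_mul])
  map_zero' := TrivSqZeroExt.ext (map_zero f) (map_zero f)
  map_add' z w := TrivSqZeroExt.ext (map_add f _ _) (map_add f _ _)

theorem Base_fst (f : A →+* S) (z : DualNumber A) : (Base_dm f z).fst = f z.fst := rfl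

theorem Base_snd (f : A →+* S) (z : DualNumber A) : (Base_dm f z).snd = f z.snd := rfl

theorem Base_test {p m : ℕ} {R0 RF R Q : Type} [CommRing R0] [CommRing RF] [CommRing R]
    [CommRing Q] {τ : RF →+* R} {κ : R0 →+* RF} {a : Fin m → RF} {ρ : R →+* Q}
    {Ψ : RF →+* DualNumber Q} {δ : Fin m → Q} (h : ATest p τ κ a ρ Ψ δ) {g0 : R0[X]}
    (hg : g0.Monic) {gF : RF[X]} {gk : R[X]} (h1 : gF = g0.map κ) (h2 : gk = gF.map τ)
    (d1 : gF ∣ g0.map κ) (d2 : gk ∣ gF.map τ) :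
    ∃ Ψ', ATest p (AdjoinRoot.map τ gF gk d2) (AdjoinRoot.map κ g0 gF d1) (fun i => of gF (a i))
      (AdjoinRoot.map ρ gk (gk.map ρ) dvd_rfl) Ψ' fun i => of (gk.map ρ) (δ i) := by
  set gQ := gk.map ρ with hQ
  have h3 : gQ = g0.map ((ρ.comp τ).comp κ) := by
    rw [hQ, h2, h1, Polynomial.map_map, Polynomial.map_map]
  have h4 : gF.eval₂ ((Base_dm (of gQ)).comp Ψ) (TrivSqZeroExt.inl (root gQ)) = 0 := by
    have e : ((Base_dm (of gQ)).comp Ψ).comp κ =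
        (TrivSqZeroExt.inlHom _ _).comp ((of gQ).comp ((ρ.comp τ).comp κ)) :=
      RingHom.ext fun c => TrivSqZeroExt.ext (congrArg (of gQ) (h.fst _))
        ((congrArg (of gQ) (h.const c)).trans (map_zero _))
    rw [h1, eval₂_map, e]
    refine (hom_eval₂ (T := DualNumber (AdjoinRoot gQ)) g0 _ (TrivSqZeroExt.inlHom _ _)
      (root gQ)).symm.trans ?_
    rw [← eval₂_map, ← h3, eval₂_root, map_zero]
  have key : ∀ c : Fin g0.natDegree → RF, lift _ _ h4 (∑ d, of gF (c d) * root gF ^ (d : ℕ)) =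
      ∑ d, Base_dm (of gQ) (Ψ (c d)) * TrivSqZeroExt.inl (root gQ ^ (d : ℕ)) := fun c => by
    simp only [map_sum, map_mul, map_pow, lift_of, lift_root, RingHom.comp_apply,
      TrivSqZeroExt.inl_pow]
  refine ⟨lift _ _ h4, ?_, fun x => ?_, fun x hx => ?_, fun c => ?_, fun i => ?_⟩
  · obtain ⟨N, hN⟩ := h.nil
    exact ⟨N, by simpa using congrArg (of gQ) hN⟩
  · obtain ⟨c, rfl⟩ := ar_ex hg h1 x
    rw [key]
    simp [TrivSqZeroExt.fst_sum, Base_fst, h.fst, gQ]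
  · obtain ⟨c, rfl⟩ := ar_ex hg h1 x
    rw [key] at hx ⊢
    have h5 := ar_uniq hg h3 (fun d => (Ψ (c d)).fst) (by
      simpa [TrivSqZeroExt.fst_sum, Base_fst] using hx)
    refine Finset.sum_eq_zero fun d _ => ?_
    rw [h.ker _ (congrFun h5 d), map_zero, zero_mul]
  · obtain ⟨c, rfl⟩ := ar_ex hg (Polynomial.map_id (p := g0)).symm c
    have e := key fun d => κ (c d)
    simp only [map_sum (AdjoinRoot.map κ g0 gF d1), map_mul (AdjoinRoot.map κ g0 gF d1),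
      map_pow (AdjoinRoot.map κ g0 gF d1), map_of, map_root]
    rw [e, TrivSqZeroExt.snd_sum]
    refine Finset.sum_eq_zero fun d _ => ?_
    rw [DualNumber.snd_mul, Base_snd, h.const, map_zero, TrivSqZeroExt.snd_inl, mul_zero, zero_mul,
      add_zero]
  · rw [lift_of, RingHom.comp_apply, Base_snd, Base_fst, h.teich, map_mul]

end gen

variable {p : ℕ} [Fact p.Prime] {k0 F k : Type} [Field k0] [Field F] [Field k] [CharP k p]

theorem ar_domain [PerfectRing k p] {g : (WittVector p k)[X]} (h : Eis p g) :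
    IsDomain (AdjoinRoot g) := by
  have hp : Irreducible (p : WittVector p k) := WittVector.irreducible p
  have hP : (Ideal.span {(p : WittVector p k)}).IsPrime :=
    (Ideal.span_singleton_prime hp.ne_zero).2 hp.prime
  have hE : g.IsEisensteinAt (Ideal.span {(p : WittVector p k)}) :=
    h.monic.isEisensteinAt_of_mem_of_notMem hP.ne_top
      (fun hn => Ideal.mem_span_singleton.2 (h.dvd _ hn)) fun e => by
        obtain ⟨u, hu⟩ := h.unit
        rw [Ideal.span_singleton_pow, Ideal.mem_span_singleton, hu, pow_two,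
          mul_dvd_mul_iff_left hp.ne_zero] at e
        exact hp.not_isUnit (isUnit_of_dvd_unit e u.isUnit)
  exact isDomain_of_prime (hE.irreducible hP h.monic.isPrimitive h.pos).prime

theorem Base_wchar (k : Type) [Field k] [CharP k p] : CharZero (WittVector p k) := by
  rcases CharP.char_is_prime_or_zero (WittVector p k) (ringChar (WittVector p k)) with h | h
  · exfalso
    have h1 : ((ringChar (WittVector p k) : ℕ) : WittVector p k) = 0 := ringChar.Nat.cast_ringChar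
    have h2 := congrArg (WittVector.constantCoeff (p := p) (R := k)) h1
    rw [map_natCast, map_zero, CharP.cast_eq_zero_iff k p,
      Nat.prime_dvd_prime_iff_eq Fact.out h] at h2
    rw [← h2] at h1
    exact WittVector.p_nonzero p k h1
  · exact (CharP.ringChar_zero_iff_CharZero _).1 h

theorem ar_char {g : (WittVector p k)[X]} (h : Eis p g) : CharZero (AdjoinRoot g) := by
  have := Base_wchar (p := p) k
  refine charZero_of_injective_ringHom (f := of g) ((injective_iff_map_eq_zero _).2 fun a ha => ?_)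
  exact zero_dvd_iff.1 (Base_dvd h.monic h.pos (x := 0) (by rw [ha, mul_zero, add_zero]))

theorem ar_one {g : (WittVector p k)[X]} (h : Eis p g) (x : AdjoinRoot g) : 1 + p * x ≠ 0 := by
  intro e
  have h1 : (p : WittVector p k) ∣ 1 :=
    Base_dvd h.monic h.pos (x := x) (by rwa [map_one, map_natCast])
  have h2 := map_dvd (WittVector.constantCoeff (p := p) (R := k)) h1
  rw [map_natCast, map_one, CharP.cast_eq_zero, zero_dvd_iff] at h2
  exact one_ne_zero h2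

theorem asep_base {m : ℕ} {τ : F →+* k} {κ : k0 →+* F} {a : Fin m → F}
    {g0 : (WittVector p k0)[X]} (hg : g0.Monic) {gF : (WittVector p F)[X]}
    {gk : (WittVector p k)[X]} (h1 : gF = g0.map (WittVector.map κ))
    (h2 : gk = gF.map (WittVector.map τ)) (d1 : gF ∣ g0.map (WittVector.map κ))
    (d2 : gk ∣ gF.map (WittVector.map τ)) (hs : Sep p τ κ a) :
    ASep p (AdjoinRoot.map (WittVector.map τ) gF gk d2) (AdjoinRoot.map (WittVector.map κ) g0 gF d1)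
      fun i => of gF (WittVector.teichmuller p (a i)) := by
  intro g hg'
  have h3 : gk = g0.map ((WittVector.map τ).comp (WittVector.map κ)) := by
    rw [h2, h1, Polynomial.map_map]
  choose c hc using fun i => ar_ex hg h3 (g i)
  have h4 : ∀ d, (fun i => c i d) = 0 := fun d => hs _ fun N Ψ δ ht => by
    have ha : ATest p (WittVector.map τ) (WittVector.map κ)
        (fun i => WittVector.teichmuller p (a i)) (rho N) Ψ δ :=
      ⟨⟨N + 1, by
        rw [← map_natCast (Ideal.Quotient.mk _), ← map_pow, Ideal.Quotient.eq_zero_iff_mem]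
        exact Ideal.mem_span_singleton_self _⟩, ht.fst, ht.ker, ht.const, ht.teich⟩
    obtain ⟨Ψ', h'⟩ := Base_test ha hg h1 h2 d1 d2
    have h5 := hg' _ _ _ _ h'
    refine congrFun (ar_uniq hg (g' := gk.map (rho N)) (by rw [h3, Polynomial.map_map])
      (fun d => ∑ i, rho N (c i d) * δ i) ?_) d
    rw [← h5]
    simp only [hc, map_sum, map_mul, map_pow, map_of, map_root, Finset.sum_mul]
    rw [Finset.sum_comm]
    exact Finset.sum_congr rfl fun i _ => Finset.sum_congr rfl fun d _ => by ring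
  funext i
  rw [hc, Pi.zero_apply]
  refine Finset.sum_eq_zero fun d _ => ?_
  rw [show c i d = 0 from congrFun (h4 d) i, map_zero, zero_mul]

end Pool.Agent.Work.MP_dd0d16_nt.T
end

-- merged part: Pool.Agent.Work.MP_dd0d16_nt.R.Ram
section
/-!
The integers of a finite extension of the maximal unramified extension.

PLAN. `exists_root_close`: `unit_pow_close` (PAdic) gives `N ≠ 0` with `‖u ^ N - 1‖ < 1`; write
`N = p ^ a * N'`; `‖z ^ p - 1‖ < 1` implies `‖z - 1‖ < 1` (`(z - 1) ^ p - (z ^ p - 1)` is `p` times an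
element of norm at most one: `exists_add_pow_prime_eq`), and `u ^ N' - 1 = ∏ (u - ω)` over the `N'`-th
roots of unity (`X_pow_sub_one_eq_prod`), each factor has norm at most one.
`Br.norm_unr`: `Br.unr`, `WittVector.exists_eq_pow_p_mul'`, `BLog_dvd`; an element `w` of `O` with
`j w` a unit has norm one (otherwise `‖w ^ n / p‖ ≤ 1` for some `n`, `Br.sat`, so `p ∣ (j w) ^ n`).
`exists_unif`: `W = Unr p ⊔ F0` has finite degree `d` over `Unr p`; the norm of `z ∈ W` satisfies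
`‖z‖ ^ deg = ‖coeff 0 (minpoly (Unr p) z)‖` (all roots of the minimal polynomial are conjugate over
`ℚ_[p]` and have the same norm: `spectralNorm_eq_of_equiv`, or `PadicAlgCl.spectralNorm_eq` and the
dependence of `spectralNorm` on `minpoly ℚ_[p]` only), so `‖z‖ ^ d! ∈ p ^ ℤ`. The set of `r : ℤ` with
`‖z‖ ^ d! = p ^ (-r)` for some `z ∈ W`, `z ≠ 0` is a subgroup of `ℤ` that contains `d!`
(`Int.subgroup_cyclic`); take `π` for the positive generator.
`exists_span`: for `z ∈ W` of norm at most one subtract `ω * π ^ a` (`exists_root_close`) to see by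
induction on `n` that `z = ∑ d, c d * π ^ d + z'` with `c d ∈ O`, `‖z'‖ ≤ ‖π‖ ^ n` (write
`n = e * q + a`, `‖p ^ q * π ^ a‖ = ‖π‖ ^ n`). So the `Unr p`-span `V` of the `π ^ d` is dense in `W`.
A linear form on `W` over `Unr p` is `z ↦ trace (c * z)` (`Algebra.traceForm_nondegenerate`,
`LinearMap.BilinForm.toDual`), a sum of conjugates (`trace_eq_sum_embeddings`), so it is bounded by
`‖c‖ * ‖z‖`; if it kills `V` it is zero; so `V = W` (`Submodule.exists_dual_map_eq_bot_of_lt_top`).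
The norms `‖c d * π ^ d‖` are different for different `d < e`, so the norm of the sum is the largest
one (`orth`), which gives `c d ∈ O`.
`exists_ram`: `π ^ e = ∑ d, c d * π ^ d`, `g = X ^ e - ∑ d, C (c d) * X ^ d`; `orth` gives
`‖c d‖ < 1`, `‖c 0‖ = ‖p‖`; `φ = AdjoinRoot.lift`. Normal form with `M = e * p ^ e`: `‖α‖ = ‖π‖ ^ a`,
`u = α ^ e / p ^ a` has norm one, `‖u / ω - 1‖ ≤ ‖π‖`, so `p ∣ (u / ω - 1) ^ e` in `O'` and
`p ∣ (u / ω) ^ p ^ e - 1` (`exists_add_pow_prime_pow_eq`, `e ≤ p ^ e`).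
-/

set_option autoImplicit false

namespace Pool.Agent.Work.MP_dd0d16_nt.T

variable {p : ℕ} [Fact p.Prime] {O : Subring (PadicAlgCl p)} {j : O →+* WittVector p (K0 p)}

theorem Ram_one_lt : (1 : ℝ) < p := by exact_mod_cast (Fact.out : p.Prime).one_lt

theorem Ram_inv_lt : (p : ℝ)⁻¹ < 1 := inv_lt_one_of_one_lt₀ Ram_one_lt

theorem Ram_inv_pos : 0 < (p : ℝ)⁻¹ := inv_pos.2 (zero_lt_one.trans Ram_one_lt)

theorem Ram_p_ne : (p : PadicAlgCl p) ≠ 0 := Nat.cast_ne_zero.2 (Fact.out : p.Prime).ne_zero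

theorem Ram_sub_le (x y : PadicAlgCl p) : ‖x - y‖ ≤ max ‖x‖ ‖y‖ := by
  rw [sub_eq_add_neg, ← norm_neg y]
  exact IsUltrametricDist.norm_add_le_max _ _

/-- The elements of norm at most one. -/
def Ram_B (p : ℕ) [Fact p.Prime] : Subring (PadicAlgCl p) where
  carrier := {z | ‖z‖ ≤ 1}
  mul_mem' ha hb := (norm_mul _ _).trans_le (mul_le_one₀ ha (norm_nonneg _) hb)
  one_mem' := norm_one.le
  add_mem' ha hb := (IsUltrametricDist.norm_add_le_max _ _).trans (max_le ha hb)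
  zero_mem' := norm_zero.trans_le zero_le_one
  neg_mem' ha := (norm_neg _).trans_le ha

theorem Ram_pow {x : PadicAlgCl p} (hx : ‖x‖ ≤ 1) (n : ℕ) :
    ‖(x + 1) ^ p ^ n - 1 - x ^ p ^ n‖ ≤ (p : ℝ)⁻¹ := by
  obtain ⟨r, hr⟩ := exists_add_pow_prime_pow_eq (Fact.out : p.Prime) (⟨x, hx⟩ : Ram_B p) 1 n
  have h := congrArg (Ram_B p).subtype hr
  simp only [map_add, map_pow, map_mul, map_one, map_natCast, Subring.subtype_apply, one_pow,
    mul_one] at h
  rw [h, show x ^ p ^ n + 1 + p * x * r - 1 - x ^ p ^ n = p * (x * r) by ring, norm_mul, norm_p_eq]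
  exact mul_le_of_le_one_right Ram_inv_pos.le ((Ram_B p).mul_mem hx r.2)

theorem Ram_root_norm {ω : PadicAlgCl p} (h : Root ω) : ‖ω‖ = 1 := by
  obtain ⟨N, h1, h2⟩ := h
  have h3 := congrArg norm h2
  rw [norm_pow, norm_one] at h3
  exact (pow_eq_one_iff_of_nonneg (norm_nonneg _) (by rintro rfl; exact h1 (dvd_zero p))).1 h3

theorem Ram_root_mem {ω : PadicAlgCl p} (h : Root ω) : ω ∈ Unr p :=
  IntermediateField.subset_adjoin _ _ h

theorem exists_root_close {u : PadicAlgCl p} (hu : ‖u‖ = 1) : ∃ ω, Root ω ∧ ‖u - ω‖ < 1 := by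
  have h1 := unit_pow_close hu le_rfl
  obtain ⟨a, N, hN, e⟩ := Nat.exists_eq_pow_mul_and_not_dvd
    (Nat.factorial_ne_zero (p ^ (2 * (minpoly ℚ_[p] u).natDegree))) p (Fact.out : p.Prime).ne_one
  rw [e, mul_comm, pow_mul] at h1
  have h2 : ‖u ^ N - 1‖ ≤ 1 := (Ram_B p).sub_mem ((Ram_B p).pow_mem hu.le N) (Ram_B p).one_mem
  have h3 := Ram_pow h2 a
  rw [sub_add_cancel] at h3
  have h4 : ‖(u ^ N - 1) ^ p ^ a‖ < 1 := by
    have := Ram_sub_le ((u ^ N) ^ p ^ a - 1) ((u ^ N) ^ p ^ a - 1 - (u ^ N - 1) ^ p ^ a)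
    rw [sub_sub_cancel] at this
    exact this.trans_lt (max_lt (by linarith) (h3.trans_lt Ram_inv_lt))
  rw [norm_pow, pow_lt_one_iff_of_nonneg (norm_nonneg _)
    (pow_ne_zero _ (Fact.out : p.Prime).ne_zero)] at h4
  have hN0 : N ≠ 0 := by rintro rfl; exact hN (dvd_zero p)
  have : NeZero (N : PadicAlgCl p) := ⟨Nat.cast_ne_zero.2 hN0⟩
  have : NeZero N := ⟨hN0⟩
  obtain ⟨ζ, hζ⟩ := HasEnoughRootsOfUnity.exists_primitiveRoot (PadicAlgCl p) N
  have h5 := congrArg (Polynomial.eval u)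
    (Polynomial.X_pow_sub_one_eq_prod (Nat.pos_of_ne_zero hN0) hζ)
  simp only [Polynomial.eval_sub, Polynomial.eval_pow, Polynomial.eval_X, Polynomial.eval_one,
    Polynomial.eval_prod, Polynomial.eval_C] at h5
  by_contra hc
  push Not at hc
  rw [h5, norm_prod] at h4
  exact h4.not_ge (Finset.one_le_prod fun ω hω => hc ω
    ⟨N, hN, (Polynomial.mem_nthRootsFinset (Nat.pos_of_ne_zero hN0) 1).1 hω⟩)

theorem Ram_nat {N : ℕ} (h : ¬ p ∣ N) : ‖(N : PadicAlgCl p)‖ = 1 := by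
  rw [← map_natCast (algebraMap ℚ_[p] (PadicAlgCl p)), norm_algebraMap']
  refine le_antisymm (by simpa using Padic.norm_int_le_one (p := p) N) (not_lt.1 fun k => h ?_)
  have := (Padic.norm_intCast_lt_one_iff (p := p) (k := N)).1 (by simpa using k)
  exact_mod_cast this

theorem Ram_far {ω ω' : PadicAlgCl p} {N : ℕ} (h : ¬ p ∣ N) (h1 : ω ^ N = 1) (h2 : ω' ^ N = 1)
    (hne : ω ≠ ω') : 1 ≤ ‖ω - ω'‖ := by
  have r1 : Root ω' := ⟨N, h, h2⟩
  have r2 : Root (ω / ω') := ⟨N, h, by rw [div_pow, h1, h2, div_one]⟩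
  have h3 : ω / ω' - 1 ≠ 0 := sub_ne_zero.2 fun k => hne ((div_eq_one_iff_eq r1.ne_zero).1 k)
  have h4 : ∑ i ∈ Finset.range N, (ω / ω') ^ i = 0 := by
    have := geom_sum_mul (ω / ω') N
    rw [div_pow, h1, h2, div_one, sub_self] at this
    exact (mul_eq_zero.1 this).resolve_right h3
  have h5 : ‖ω - ω'‖ = ‖ω / ω' - 1‖ := by
    rw [div_sub_one r1.ne_zero, norm_div, Ram_root_norm r1, div_one]
  have h6 : (N : PadicAlgCl p) = ∑ i ∈ Finset.range N, (1 - (ω / ω') ^ i) := by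
    rw [Finset.sum_sub_distrib, h4]; simp
  rw [h5, ← Ram_nat h, h6]
  refine IsUltrametricDist.norm_sum_le_of_forall_le_of_nonneg (norm_nonneg _) fun i _ => ?_
  rw [norm_sub_rev, ← geom_sum_mul, norm_mul]
  exact mul_le_of_le_one_left (norm_nonneg _)
    ((Ram_B p).sum_mem fun k _ => (Ram_B p).pow_mem (Ram_root_norm r2).le k)

theorem Ram_krasner {u ω : PadicAlgCl p} (h : Root ω) (hu : ‖u - ω‖ < 1)
    {E : IntermediateField ℚ_[p] (PadicAlgCl p)} (hE : u ∈ E) : ω ∈ E := by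
  obtain ⟨N, h1, h2⟩ := h
  refine IntermediateField.adjoin_simple_le_iff.2 hE (IsKrasner.krasner
    (Algebra.IsSeparable.isSeparable ℚ_[p] ω) (IsAlgClosed.splits _)
    (Algebra.IsIntegral.isIntegral u) fun ω' hc hne => ?_)
  have h3 : ω' ^ N = 1 := by
    have h4 : Polynomial.aeval ω (Polynomial.X ^ N - 1 : Polynomial ℚ_[p]) = 0 := by simp [h2]
    have h5 := Polynomial.aeval_eq_zero_of_dvd_aeval_eq_zero (minpoly.dvd _ _ h4) hc.aeval_eq_zero
    simpa [sub_eq_zero] using h5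
  rw [norm_sub_rev]
  exact hu.trans_le (Ram_far h1 h2 h3 hne)

theorem Ram_orth {ι : Type} (s : Finset ι) (a : ι → PadicAlgCl p)
    (h : ∀ i ∈ s, ∀ k ∈ s, a i ≠ 0 → ‖a i‖ = ‖a k‖ → i = k) {i : ι} (hi : i ∈ s) :
    ‖a i‖ ≤ ‖∑ k ∈ s, a k‖ := by
  classical
  by_cases h0 : a i = 0
  · rw [h0, norm_zero]; exact norm_nonneg _
  have hi' : i ∈ s.filter fun k => a k ≠ 0 := Finset.mem_filter.2 ⟨hi, h0⟩
  rw [← Finset.sum_filter_ne_zero, IsUltrametricDist.norm_sum_eq_sup'_of_pairwise_ne ⟨i, hi'⟩]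
  · exact Finset.le_sup' (fun k => ‖a k‖) hi'
  · intro x hx y hy hxy e
    obtain ⟨x1, x2⟩ := Finset.mem_filter.1 hx
    exact hxy (h x x1 y (Finset.mem_filter.1 hy).1 x2 e)

theorem Br.norm_unr (hb : Br O j) {z : PadicAlgCl p} (hz : z ∈ Unr p) (h0 : z ≠ 0) :
    ∃ r : ℤ, ‖z‖ = (p : ℝ) ^ r := by
  obtain ⟨r, hr⟩ := hb.unr z hz
  have h1 : j ⟨_, hr⟩ ≠ 0 := fun k => mul_ne_zero (pow_ne_zero r Ram_p_ne) h0
    (congrArg Subtype.val (hb.inj (k.trans (map_zero j).symm)))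
  obtain ⟨m, b, h2⟩ := WittVector.exists_eq_pow_p_mul' _ h1
  obtain ⟨w, hw⟩ := BLog_dvd hb m _ _ h2
  have h3 : (p : PadicAlgCl p) ^ r * z = p ^ m * w := by
    have : (⟨_, hr⟩ : O) = p ^ m * w := hb.inj (by rw [h2, map_mul, map_pow, map_natCast, hw])
    simpa using congrArg O.subtype this
  have h4 : ‖(w : PadicAlgCl p)‖ = 1 := by
    refine le_antisymm (hb.le _ w.2) (not_lt.1 fun k => ?_)
    obtain ⟨n, hn⟩ := exists_pow_lt_of_lt_one (Ram_inv_pos (p := p)) k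
    have h5 : (w : PadicAlgCl p) ^ n / p ∈ O := by
      refine hb.sat _ (div_mem (pow_mem (hb.sub _ w.2) n) (natCast_mem _ p)) ?_
      rw [norm_div, norm_pow, norm_p_eq, div_le_one Ram_inv_pos]
      exact hn.le
    have h6 : w ^ n = p * ⟨_, h5⟩ := Subtype.ext (by
      push_cast
      rw [mul_div_cancel₀ _ Ram_p_ne])
    have h7 := congrArg j h6
    rw [map_pow, hw, map_mul, map_natCast] at h7
    exact (WittVector.irreducible p (k := K0 p)).not_isUnit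
      (isUnit_of_mul_isUnit_left (h7 ▸ b.isUnit.pow n))
  have h5 := congrArg norm h3
  rw [norm_mul, norm_mul, norm_pow, norm_pow, norm_p_eq, h4, mul_one] at h5
  have hp : (p : ℝ) ≠ 0 := (zero_lt_one.trans Ram_one_lt).ne'
  refine ⟨r - m, ?_⟩
  rw [zpow_sub₀ hp, zpow_natCast, zpow_natCast, eq_div_iff (pow_ne_zero _ hp)]
  rw [inv_pow, inv_pow, inv_mul_eq_iff_eq_mul₀ (pow_ne_zero _ hp)] at h5
  rw [h5, mul_assoc, inv_mul_cancel₀ (pow_ne_zero _ hp), mul_one]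

theorem Ram_disc (hb : Br O j) {z : PadicAlgCl p} (hz : z ∈ Unr p) (h : ‖z‖ < p) : z ∈ O := by
  refine hb.sat z hz ?_
  by_cases h0 : z = 0
  · rw [h0, norm_zero]; exact zero_le_one
  obtain ⟨r, hr⟩ := hb.norm_unr hz h0
  rw [hr] at h ⊢
  have : r < 1 := (zpow_lt_zpow_iff_right₀ (Ram_one_lt (p := p))).1 (by rwa [zpow_one])
  exact zpow_le_one_of_nonpos₀ Ram_one_lt.le (by omega)

theorem Ram_bound (hb : Br O j) (F0 : IntermediateField ℚ_[p] (PadicAlgCl p))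
    [FiniteDimensional ℚ_[p] F0] : ∃ D : ℕ, D ≠ 0 ∧
      ∀ z ∈ Unr p ⊔ F0, z ≠ 0 → ∃ r : ℤ, ‖z‖ ^ D = (p : ℝ)⁻¹ ^ r := by
  obtain ⟨θ, hθ⟩ := Field.exists_primitive_element ℚ_[p] F0
  have h1 : IntermediateField.adjoin ℚ_[p] {(θ : PadicAlgCl p)} = F0 := by
    rw [← IntermediateField.lift_adjoin_simple, hθ, IntermediateField.lift_top]
  have h2 : IsIntegral (Unr p) (θ : PadicAlgCl p) :=
    (Algebra.IsIntegral.isIntegral (R := ℚ_[p]) _).tower_top
  have := IntermediateField.adjoin.finiteDimensional h2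
  refine ⟨(Module.finrank (Unr p)
    (IntermediateField.adjoin (Unr p) {(θ : PadicAlgCl p)})).factorial,
    Nat.factorial_ne_zero _, fun z hz h0 => ?_⟩
  rw [← h1, ← IntermediateField.restrictScalars_adjoin_eq_sup,
    IntermediateField.mem_restrictScalars] at hz
  have h3 := minpoly.natDegree_le (A := Unr p) (⟨z, hz⟩ : IntermediateField.adjoin (Unr p) {θ.1})
  rw [IntermediateField.minpoly_eq] at h3
  have h4 : IsIntegral (Unr p) z := (Algebra.IsIntegral.isIntegral (R := ℚ_[p]) _).tower_top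
  have h5 := minpoly.aeval (Unr p) z
  rw [Polynomial.aeval_eq_sum_range] at h5
  have hp : (0 : ℝ) < p := zero_lt_one.trans Ram_one_lt
  have hz0 : ‖z‖ ≠ 0 := norm_ne_zero_iff.2 h0
  have key : ∀ (i k : ℕ) (c c' : Unr p), i < k → k ≤ (minpoly (Unr p) z).natDegree →
      c • z ^ i ≠ 0 → ‖c • z ^ i‖ = ‖c' • z ^ k‖ → ∃ r : ℤ, ‖z‖ ^ (Module.finrank (Unr p)
        (IntermediateField.adjoin (Unr p) {(θ : PadicAlgCl p)})).factorial = (p : ℝ)⁻¹ ^ r := by
    intro i k c c' hik hk hc e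
    have hc' : c' • z ^ k ≠ 0 := norm_ne_zero_iff.1 (e ▸ norm_ne_zero_iff.2 hc)
    obtain ⟨a, ha⟩ := hb.norm_unr c.2 (left_ne_zero_of_mul hc)
    obtain ⟨a', ha'⟩ := hb.norm_unr c'.2 (left_ne_zero_of_mul hc')
    obtain ⟨t, ht⟩ := Nat.dvd_factorial (Nat.sub_pos_of_lt hik) ((Nat.sub_le k i).trans (hk.trans h3))
    change ‖c.1 * z ^ i‖ = ‖c'.1 * z ^ k‖ at e
    rw [norm_mul, norm_mul, norm_pow, norm_pow, ha, ha', ← pow_sub_mul_pow ‖z‖ hik.le, ← mul_assoc,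
      mul_left_inj' (pow_ne_zero _ hz0)] at e
    refine ⟨(a' - a) * t, ?_⟩
    rw [ht, pow_mul, zpow_mul, zpow_natCast, inv_zpow, zpow_sub₀ hp.ne', inv_div, e,
      mul_div_cancel_left₀ _ (zpow_ne_zero _ hp.ne')]
  by_contra hc
  have h6 := Ram_orth (Finset.range ((minpoly (Unr p) z).natDegree + 1))
    (fun i => (minpoly (Unr p) z).coeff i • z ^ i) (fun i hi k hk hne e => by
      have hi := Nat.lt_succ_iff.1 (Finset.mem_range.1 hi)
      have hk := Nat.lt_succ_iff.1 (Finset.mem_range.1 hk)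
      rcases lt_trichotomy i k with h | h | h
      · exact absurd (key i k _ _ h hk hne e) hc
      · exact h
      · exact absurd (key k i _ _ h hi (norm_ne_zero_iff.1 (e ▸ norm_ne_zero_iff.2 hne)) e.symm) hc)
    (Finset.self_mem_range_succ _)
  rw [h5, (minpoly.monic h4).coeff_natDegree, one_smul, norm_zero, norm_le_zero_iff] at h6
  exact pow_ne_zero _ h0 h6

theorem exists_unif (hb : Br O j) (F0 : IntermediateField ℚ_[p] (PadicAlgCl p))
    [FiniteDimensional ℚ_[p] F0] : ∃ (π : PadicAlgCl p) (e : ℕ), π ∈ Unr p ⊔ F0 ∧ 0 < e ∧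
      ‖π‖ ^ e = (p : ℝ)⁻¹ ∧ ∀ z ∈ Unr p ⊔ F0, z ≠ 0 → ∃ a : ℤ, ‖z‖ = ‖π‖ ^ a := by
  obtain ⟨D, hD, h⟩ := Ram_bound hb F0
  let H : AddSubgroup ℤ :=
    { carrier := {r | ∃ z ∈ Unr p ⊔ F0, z ≠ 0 ∧ ‖z‖ ^ D = (p : ℝ)⁻¹ ^ r}
      add_mem' := by
        rintro r r' ⟨z, h1, h2, h3⟩ ⟨z', h4, h5, h6⟩
        exact ⟨z * z', mul_mem h1 h4, mul_ne_zero h2 h5, by
          rw [norm_mul, mul_pow, h3, h6, zpow_add₀ Ram_inv_pos.ne']⟩
      zero_mem' := ⟨1, one_mem _, one_ne_zero, by simp⟩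
      neg_mem' := by
        rintro r ⟨z, h1, h2, h3⟩
        exact ⟨z⁻¹, inv_mem h1, inv_ne_zero h2, by rw [norm_inv, inv_pow, h3, zpow_neg]⟩ }
  obtain ⟨a, ha⟩ := Int.subgroup_cyclic H
  have h1 : ∀ r ∈ H, (a.natAbs : ℤ) ∣ r := fun r hr => by
    rw [ha, AddSubgroup.mem_closure_singleton] at hr
    obtain ⟨n, rfl⟩ := hr
    exact Int.natAbs_dvd.2 (dvd_mul_left _ _)
  have h2 : (a.natAbs : ℤ) ∈ H := by
    have : a ∈ H := ha ▸ AddSubgroup.mem_closure_singleton_self a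
    rw [Int.natCast_natAbs]
    exact abs_mem_iff.2 this
  obtain ⟨π, h3, -, h4⟩ := h2
  obtain ⟨e, he⟩ := Int.natCast_dvd_natCast.1 (h1 D ⟨p, natCast_mem _ p, Ram_p_ne, by
    rw [norm_p_eq, zpow_natCast]⟩)
  refine ⟨π, e, h3, Nat.pos_of_ne_zero (by rintro rfl; exact hD he), ?_, fun z hz h0 => ?_⟩
  · refine (pow_left_inj₀ (by positivity) Ram_inv_pos.le hD).1 ?_
    rw [← pow_mul, mul_comm, pow_mul, h4, zpow_natCast, ← pow_mul, ← he]
  · obtain ⟨r, hr⟩ := h z hz h0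
    obtain ⟨n, hn⟩ := h1 r ⟨z, hz, h0, hr⟩
    refine ⟨n, (pow_left_inj₀ (norm_nonneg _) (by positivity) hD).1 ?_⟩
    rw [hr, hn, zpow_mul, ← h4, ← zpow_natCast, ← zpow_natCast, ← zpow_mul, ← zpow_mul, mul_comm]

theorem Ram_pi {π : PadicAlgCl p} {e : ℕ} (hπ : ‖π‖ ^ e = (p : ℝ)⁻¹) : 0 < ‖π‖ ∧ ‖π‖ < 1 := by
  have he : e ≠ 0 := by
    rintro rfl
    exact Ram_inv_lt.ne (hπ.symm.trans (pow_zero _))
  refine ⟨(norm_nonneg π).lt_of_ne' fun k => ?_,
    (pow_lt_one_iff_of_nonneg (norm_nonneg _) he).1 (hπ ▸ Ram_inv_lt)⟩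
  rw [k, zero_pow he] at hπ
  exact Ram_inv_pos.ne hπ

theorem Ram_zpow {π : PadicAlgCl p} {e : ℕ} (hπ : ‖π‖ ^ e = (p : ℝ)⁻¹) (r : ℤ) :
    (p : ℝ) ^ r = ‖π‖ ^ (e * -r) := by
  rw [zpow_mul, zpow_natCast, hπ, inv_zpow', neg_neg]

theorem orth (hb : Br O j) {π : PadicAlgCl p} {e : ℕ} (hπ : ‖π‖ ^ e = (p : ℝ)⁻¹)
    (c : Fin e → PadicAlgCl p) (hc : ∀ d, c d ∈ Unr p) (d : Fin e) :
    ‖c d * π ^ (d : ℕ)‖ ≤ ‖∑ d, c d * π ^ (d : ℕ)‖ := by
  obtain ⟨h1, h2⟩ := Ram_pi hπ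
  refine Ram_orth Finset.univ (fun d => c d * π ^ (d : ℕ)) (fun i _ k _ hi h => ?_)
    (Finset.mem_univ d)
  have hk : c k * π ^ (k : ℕ) ≠ 0 := norm_ne_zero_iff.1 (h ▸ norm_ne_zero_iff.2 hi)
  obtain ⟨a, ha⟩ := hb.norm_unr (hc i) (left_ne_zero_of_mul hi)
  obtain ⟨b, hb'⟩ := hb.norm_unr (hc k) (left_ne_zero_of_mul hk)
  simp only [norm_mul, norm_pow] at h
  rw [ha, hb', Ram_zpow hπ, Ram_zpow hπ, ← zpow_natCast, ← zpow_natCast, ← zpow_add₀ h1.ne',
    ← zpow_add₀ h1.ne', zpow_right_inj₀ h1 h2.ne] at h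
  have h3 := congrArg (· % (e : ℤ)) h
  simp only [Int.mul_add_emod_self_left] at h3
  rw [Int.emod_eq_of_lt (by positivity) (by exact_mod_cast i.2),
    Int.emod_eq_of_lt (by positivity) (by exact_mod_cast k.2)] at h3
  exact Fin.ext (by exact_mod_cast h3)

theorem Ram_small {W : IntermediateField ℚ_[p] (PadicAlgCl p)} {π : PadicAlgCl p} (h1 : 0 < ‖π‖)
    (h1' : ‖π‖ < 1) (h2 : ∀ z ∈ W, z ≠ 0 → ∃ a : ℤ, ‖z‖ = ‖π‖ ^ a) {z : PadicAlgCl p} (hz : z ∈ W)
    (h : ‖z‖ < 1) : ‖z‖ ≤ ‖π‖ := by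
  by_cases h0 : z = 0
  · rw [h0, norm_zero]; exact h1.le
  obtain ⟨a, ha⟩ := h2 z hz h0
  rw [ha] at h ⊢
  have := (zpow_lt_one_iff_right_of_lt_one₀ h1 h1').1 h
  exact (zpow_le_zpow_right_of_le_one₀ h1 h1'.le (show 1 ≤ a by omega)).trans (zpow_one _).le

theorem exists_span (hb : Br O j) (F0 : IntermediateField ℚ_[p] (PadicAlgCl p))
    [FiniteDimensional ℚ_[p] F0] {π : PadicAlgCl p} {e : ℕ} (h1 : π ∈ Unr p ⊔ F0) (he : 0 < e)
    (hπ : ‖π‖ ^ e = (p : ℝ)⁻¹) (h2 : ∀ z ∈ Unr p ⊔ F0, z ≠ 0 → ∃ a : ℤ, ‖z‖ = ‖π‖ ^ a)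
    {z : PadicAlgCl p} (hz : z ∈ Unr p ⊔ F0) :
    ∃ c : Fin e → PadicAlgCl p, (∀ d, c d ∈ Unr p) ∧ z = ∑ d, c d * π ^ (d : ℕ) := by
  obtain ⟨p1, p2⟩ := Ram_pi hπ
  have π0 : π ≠ 0 := norm_pos_iff.1 p1
  let E := IntermediateField.adjoin ℚ_[p] {π, z}
  have : FiniteDimensional ℚ_[p] E := IntermediateField.finiteDimensional_adjoin_pair
    (Algebra.IsIntegral.isIntegral _) (Algebra.IsIntegral.isIntegral _)
  have hE : E ≤ Unr p ⊔ F0 := IntermediateField.adjoin_le_iff.2 (Set.pair_subset h1 hz)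
  have πE : π ∈ E := IntermediateField.subset_adjoin _ _ (Set.mem_insert _ _)
  have zE : z ∈ E := IntermediateField.subset_adjoin _ _ (Set.mem_insert_of_mem _ rfl)
  let V : Submodule ℚ_[p] (PadicAlgCl p) :=
    { carrier := {x | ∃ c : Fin e → PadicAlgCl p, (∀ d, c d ∈ Unr p ⊓ E) ∧
        x = ∑ d, c d * π ^ (d : ℕ)}
      add_mem' := by
        rintro _ _ ⟨c, c1, rfl⟩ ⟨c', c2, rfl⟩
        exact ⟨c + c', fun d => add_mem (c1 d) (c2 d), by simp [add_mul, Finset.sum_add_distrib]⟩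
      zero_mem' := ⟨0, fun _ => zero_mem _, by simp⟩
      smul_mem' := by
        rintro t _ ⟨c, c1, rfl⟩
        exact ⟨t • c, fun d => IntermediateField.smul_mem _ (c1 d), by simp [Finset.smul_sum]⟩ }
  have hV : V ≤ E.toSubmodule := by
    rintro _ ⟨c, c1, rfl⟩
    exact (sum_mem fun d _ => mul_mem (c1 d).2 (pow_mem πE _) : _ ∈ E)
  have : FiniteDimensional ℚ_[p] E.toSubmodule := this
  have : FiniteDimensional ℚ_[p] V := Submodule.finiteDimensional_of_le hV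
  have step : ∀ x ∈ E, ∃ v ∈ V, ‖x - v‖ ≤ ‖x‖ * ‖π‖ := by
    intro x hx
    by_cases x0 : x = 0
    · exact ⟨0, V.zero_mem, by simp [x0]⟩
    obtain ⟨a, ha⟩ := h2 x (hE hx) x0
    have he' : (0 : ℤ) < e := by exact_mod_cast he
    obtain ⟨d, hd⟩ : ∃ d : Fin e, ((d : ℕ) : ℤ) = a % e :=
      ⟨⟨(a % e).toNat, by have := Int.emod_lt_of_pos a he'; omega⟩,
        Int.toNat_of_nonneg (Int.emod_nonneg a he'.ne')⟩
    have y0 : (p : PadicAlgCl p) ^ (a / e) * π ^ (d : ℕ) ≠ 0 :=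
      mul_ne_zero (zpow_ne_zero _ Ram_p_ne) (pow_ne_zero _ π0)
    have hy : ‖(p : PadicAlgCl p) ^ (a / e) * π ^ (d : ℕ)‖ = ‖x‖ := by
      rw [norm_mul, norm_zpow, norm_pow, norm_p_eq, ← hπ, ← zpow_natCast, ← zpow_natCast,
        ← zpow_mul, ← zpow_add₀ p1.ne', hd, Int.mul_ediv_add_emod, ha]
    have uE : x / ((p : PadicAlgCl p) ^ (a / e) * π ^ (d : ℕ)) ∈ E :=
      div_mem hx (mul_mem (zpow_mem (natCast_mem _ p) _) (pow_mem πE _))
    obtain ⟨ω, o1, o2⟩ := exists_root_close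
      (u := x / ((p : PadicAlgCl p) ^ (a / e) * π ^ (d : ℕ)))
      (by rw [norm_div, hy, div_self (norm_ne_zero_iff.2 x0)])
    have o3 := Ram_krasner o1 o2 uE
    have o4 := Ram_small p1 p2 h2 (hE (sub_mem uE o3)) o2
    refine ⟨ω * p ^ (a / e) * π ^ (d : ℕ), ⟨Pi.single d (ω * p ^ (a / e)), fun k => ?_, ?_⟩, ?_⟩
    · rw [Pi.single_apply]
      split_ifs
      · exact mul_mem ⟨Ram_root_mem o1, o3⟩ (zpow_mem (natCast_mem _ p) _)
      · exact zero_mem _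
    · rw [Finset.sum_eq_single d (fun k _ hk => by rw [Pi.single_eq_of_ne hk, zero_mul])
        (fun k => absurd (Finset.mem_univ d) k), Pi.single_eq_same]
    · rw [← hy]
      refine le_trans (le_of_eq ?_) (mul_le_mul_of_nonneg_left o4 (norm_nonneg _))
      rw [← norm_mul, mul_sub, mul_div_cancel₀ _ y0]
      congr 1
      ring
  have iter : ∀ n : ℕ, ∃ v ∈ V, ‖z - v‖ ≤ ‖z‖ * ‖π‖ ^ n := by
    intro n
    induction n with
    | zero => exact ⟨0, V.zero_mem, by simp⟩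
    | succ n ih =>
      obtain ⟨v, v1, v2⟩ := ih
      obtain ⟨w, w1, w2⟩ := step (z - v) (sub_mem zE (hV v1))
      refine ⟨v + w, V.add_mem v1 w1, ?_⟩
      rw [← sub_sub, pow_succ, ← mul_assoc]
      exact w2.trans (mul_le_mul_of_nonneg_right v2 p1.le)
  have hzV : z ∈ V := by
    refine V.closed_of_finiteDimensional.closure_subset (Metric.mem_closure_iff.2 fun ε hε => ?_)
    obtain ⟨n, hn⟩ := exists_pow_lt_of_lt_one (div_pos hε (show 0 < ‖z‖ + 1 by positivity)) p2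
    obtain ⟨v, v1, v2⟩ := iter n
    refine ⟨v, v1, ?_⟩
    rw [dist_eq_norm]
    rw [lt_div_iff₀ (by positivity)] at hn
    nlinarith [pow_pos p1 n]
  obtain ⟨c, c1, c2⟩ := hzV
  exact ⟨c, fun d => (c1 d).1, c2⟩

theorem Ram_int (hb : Br O j) (F0 : IntermediateField ℚ_[p] (PadicAlgCl p))
    [FiniteDimensional ℚ_[p] F0] {π : PadicAlgCl p} {e : ℕ} (h1 : π ∈ Unr p ⊔ F0) (he : 0 < e)
    (hπ : ‖π‖ ^ e = (p : ℝ)⁻¹) (h2 : ∀ z ∈ Unr p ⊔ F0, z ≠ 0 → ∃ a : ℤ, ‖z‖ = ‖π‖ ^ a)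
    {z : PadicAlgCl p} (hz : z ∈ Unr p ⊔ F0) (hz1 : ‖z‖ ≤ 1) :
    ∃ c : Fin e → O, z = ∑ d, c d * π ^ (d : ℕ) := by
  obtain ⟨p1, p2⟩ := Ram_pi hπ
  obtain ⟨c, c1, c2⟩ := exists_span hb F0 h1 he hπ h2 hz
  refine ⟨fun d => ⟨c d, Ram_disc hb (c1 d) ?_⟩, c2⟩
  have h3 := (orth hb hπ c c1 d).trans (c2 ▸ hz1)
  have h4 : (p : ℝ)⁻¹ < ‖π‖ ^ (d : ℕ) := hπ ▸ pow_lt_pow_right_of_lt_one₀ p1 p2 d.2
  rw [norm_mul, norm_pow, ← le_div_iff₀ (pow_pos p1 _), one_div] at h3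
  exact h3.trans_lt (inv_lt_of_inv_lt₀ (zero_lt_one.trans Ram_one_lt) h4)

theorem exists_ram (hb : Br O j) (F0 : IntermediateField ℚ_[p] (PadicAlgCl p))
    [FiniteDimensional ℚ_[p] F0] : ∃ (g : Polynomial O) (φ : AdjoinRoot g →+* PadicAlgCl p) (M : ℕ),
      Eis p g ∧ Function.Injective φ ∧ (∀ c : O, φ (AdjoinRoot.of g c) = c) ∧
      (∀ z, z ∈ φ.range ↔ z ∈ Unr p ⊔ F0 ∧ ‖z‖ ≤ 1) ∧ M ≠ 0 ∧
      ∀ α ∈ φ.range, α ≠ 0 → ∃ (r : ℕ) (ω y : PadicAlgCl p), Root ω ∧ y ∈ φ.range ∧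
        ‖α‖ ^ M = (p : ℝ)⁻¹ ^ r ∧ α ^ M = p ^ r * ω * (1 + p * y) := by
  obtain ⟨π, e, h1, he, hπ, h2⟩ := exists_unif hb F0
  obtain ⟨p1, p2⟩ := Ram_pi hπ
  have n1 : ‖π ^ e / p‖ = 1 := by rw [norm_div, norm_pow, hπ, norm_p_eq, div_self Ram_inv_pos.ne']
  obtain ⟨c, hc⟩ := Ram_int hb F0 h1 he hπ h2 (div_mem (pow_mem h1 e) (natCast_mem _ p)) n1.le
  have c0 : ‖(c ⟨0, he⟩ : PadicAlgCl p)‖ = 1 := by
    refine le_antisymm (hb.le _ (c _).2) (not_lt.1 fun k => ?_)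
    obtain ⟨d, -, hd⟩ := IsUltrametricDist.exists_norm_finsetSum_le_of_nonempty
      (⟨⟨0, he⟩, Finset.mem_univ _⟩ : (Finset.univ : Finset (Fin e)).Nonempty)
      fun d => (c d : PadicAlgCl p) * π ^ (d : ℕ)
    rw [← hc, n1, norm_mul, norm_pow] at hd
    refine hd.not_gt ?_
    by_cases d0 : (d : ℕ) = 0
    · rw [d0, pow_zero, mul_one, show d = ⟨0, he⟩ from Fin.ext d0]; exact k
    · exact mul_lt_one_of_nonneg_of_lt_one_right (hb.le _ (c d).2) (by positivity)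
        (pow_lt_one₀ p1.le p2 d0)
  have c1 : (c ⟨0, he⟩ : PadicAlgCl p) ≠ 0 := norm_ne_zero_iff.1 (c0 ▸ one_ne_zero)
  have c2 : IsUnit (c ⟨0, he⟩) := IsUnit.of_mul_eq_one
    ⟨_, hb.sat _ (inv_mem (hb.sub _ (c ⟨0, he⟩).2)) (by rw [norm_inv, c0, inv_one])⟩
    (Subtype.ext (mul_inv_cancel₀ c1))
  obtain ⟨g, hg⟩ : ∃ g : Polynomial O,
    g = Polynomial.X ^ e - ∑ d : Fin e, Polynomial.C (p * c d) * Polynomial.X ^ (d : ℕ) := ⟨_, rfl⟩
  have g1 := Polynomial.degree_sum_fin_lt fun d => (p : O) * c d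
  have g2 : g.Monic := hg ▸ Polynomial.monic_X_pow_sub g1
  have g3 : g.natDegree = e := by
    rw [hg, Polynomial.natDegree_eq_of_degree_eq_some (n := e)]
    rw [Polynomial.degree_sub_eq_left_of_degree_lt (by rwa [Polynomial.degree_X_pow]),
      Polynomial.degree_X_pow]
  have g4 : ∀ d : Fin e, g.coeff d = -(p * c d) := fun d => by
    rw [hg, Polynomial.coeff_sub, Polynomial.coeff_X_pow, if_neg d.2.ne, zero_sub,
      Polynomial.finsetSum_coeff, Finset.sum_eq_single d]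
    · rw [Polynomial.coeff_C_mul_X_pow, if_pos rfl]
    · intro k _ hk
      rw [Polynomial.coeff_C_mul_X_pow, if_neg fun h => hk (Fin.ext h).symm]
    · exact fun k => absurd (Finset.mem_univ d) k
  have g5 : g.eval₂ O.subtype π = 0 := by
    rw [div_eq_iff Ram_p_ne, Finset.sum_mul] at hc
    rw [hg]
    simp only [Polynomial.eval₂_sub, Polynomial.eval₂_finsetSum, Polynomial.eval₂_mul,
      Polynomial.eval₂_pow, Polynomial.eval₂_X, Polynomial.eval₂_C, map_mul, map_natCast,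
      Polynomial.eval₂_natCast, Subring.subtype_apply]
    rw [sub_eq_zero, hc]
    exact Finset.sum_congr rfl fun d _ => by ring
  subst g3
  have f1 : ∀ b : Fin g.natDegree → O, AdjoinRoot.lift O.subtype π g5
      (∑ d, AdjoinRoot.of g (b d) * AdjoinRoot.root g ^ (d : ℕ)) = ∑ d, b d * π ^ (d : ℕ) :=
    fun b => by simp only [map_sum, map_mul, map_pow, AdjoinRoot.lift_of, AdjoinRoot.lift_root,
      Subring.subtype_apply]
  have f2 : ∀ z, z ∈ (AdjoinRoot.lift O.subtype π g5).range ↔ z ∈ Unr p ⊔ F0 ∧ ‖z‖ ≤ 1 := by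
    intro z
    constructor
    · rintro ⟨x, rfl⟩
      obtain ⟨b, rfl⟩ := ar_ex g2 Polynomial.map_id.symm x
      rw [f1]
      exact ⟨sum_mem fun d _ => mul_mem ((le_sup_left : Unr p ≤ _) (hb.sub _ (b d).2)) (pow_mem h1 _),
        (Ram_B p).sum_mem fun d _ => (Ram_B p).mul_mem (hb.le _ (b d).2) ((Ram_B p).pow_mem p2.le _)⟩
    · rintro ⟨z1, z2⟩
      obtain ⟨b, rfl⟩ := Ram_int hb F0 h1 he hπ h2 z1 z2
      exact ⟨_, f1 b⟩
  refine ⟨g, AdjoinRoot.lift O.subtype π g5, g.natDegree * p ^ g.natDegree,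
    ⟨g2, he, fun a ha => ?_, -c2.unit, ?_⟩, ?_, fun b => AdjoinRoot.lift_of _, f2,
    mul_ne_zero he.ne' (pow_ne_zero _ (Fact.out : p.Prime).ne_zero), fun α hα α0 => ?_⟩
  · rw [g4 ⟨a, ha⟩]
    exact (dvd_mul_right _ _).neg_right
  · rw [g4 ⟨0, he⟩, Units.val_neg, IsUnit.unit_spec, mul_neg]
  · rw [injective_iff_map_eq_zero]
    intro x hx
    obtain ⟨b, rfl⟩ := ar_ex g2 Polynomial.map_id.symm x
    rw [f1] at hx
    refine Finset.sum_eq_zero fun d _ => ?_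
    have h3 := orth hb hπ (fun d => (b d : PadicAlgCl p)) (fun d => hb.sub _ (b d).2) d
    rw [hx, norm_zero, norm_le_zero_iff, mul_eq_zero,
      or_iff_left (pow_ne_zero _ (norm_pos_iff.1 p1))] at h3
    rw [show b d = 0 from Subtype.ext h3, map_zero, zero_mul]
  obtain ⟨α1, α2⟩ := (f2 α).1 hα
  obtain ⟨a, ha⟩ := h2 α α1 α0
  obtain ⟨a, rfl⟩ := Int.eq_ofNat_of_zero_le
    ((zpow_le_one_iff_right_of_lt_one₀ p1 p2).1 (ha ▸ α2) : 0 ≤ a)
  have n2 : ‖α‖ ^ g.natDegree = (p : ℝ)⁻¹ ^ a := by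
    rw [ha, zpow_natCast, ← pow_mul, mul_comm, pow_mul, hπ]
  obtain ⟨ω, o1, o2⟩ := exists_root_close (u := α ^ g.natDegree / (p : PadicAlgCl p) ^ a)
    (by rw [norm_div, norm_pow, norm_pow, n2, norm_p_eq, div_self (pow_pos Ram_inv_pos _).ne'])
  obtain ⟨x, hx⟩ : ∃ x, x = (α ^ g.natDegree / (p : PadicAlgCl p) ^ a - ω) / ω := ⟨_, rfl⟩
  have oW : ω ∈ Unr p ⊔ F0 := (le_sup_left : Unr p ≤ _) (Ram_root_mem o1)
  have x1 : x ∈ Unr p ⊔ F0 :=
    hx ▸ div_mem (sub_mem (div_mem (pow_mem α1 _) (pow_mem (natCast_mem _ p) _)) oW) oW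
  have x2 : ‖x‖ ≤ ‖π‖ :=
    Ram_small p1 p2 h2 x1 (by rwa [hx, norm_div, Ram_root_norm o1, div_one])
  have x3 : α ^ g.natDegree = p ^ a * ω * (x + 1) := by
    have := o1.ne_zero
    have := Ram_p_ne (p := p)
    rw [hx]; field_simp; ring
  have x4 : ‖(x + 1) ^ p ^ g.natDegree - 1‖ ≤ (p : ℝ)⁻¹ := by
    have k1 := IsUltrametricDist.norm_add_le_max
      ((x + 1) ^ p ^ g.natDegree - 1 - x ^ p ^ g.natDegree) (x ^ p ^ g.natDegree)
    rw [sub_add_cancel] at k1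
    refine k1.trans (max_le (Ram_pow (x2.trans p2.le) _) ?_)
    rw [norm_pow, ← hπ]
    exact (pow_le_pow_left₀ (norm_nonneg _) x2 _).trans (pow_le_pow_of_le_one p1.le p2.le
      (Nat.lt_pow_self (Fact.out : p.Prime).one_lt).le)
  refine ⟨a * p ^ g.natDegree, ω ^ p ^ g.natDegree, ((x + 1) ^ p ^ g.natDegree - 1) / p, ?_,
    (f2 _).2 ⟨div_mem (sub_mem (pow_mem (add_mem x1 (one_mem _)) _) (one_mem _)) (natCast_mem _ p),
      ?_⟩, ?_, ?_⟩
  · obtain ⟨N, N1, N2⟩ := o1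
    exact ⟨N, N1, by rw [← pow_mul, mul_comm, pow_mul, N2, one_pow]⟩
  · rwa [norm_div, norm_p_eq, div_le_one Ram_inv_pos]
  · rw [pow_mul, n2, pow_mul]
  · rw [pow_mul, x3, mul_div_cancel₀ _ Ram_p_ne, add_sub_cancel, mul_pow, mul_pow, pow_mul]

end Pool.Agent.Work.MP_dd0d16_nt.T
end

-- merged part: Pool.Agent.Work.MP_dd0d16_nt.G.Cyc
section
/-!
Cyclotomic fields.

PLAN. `RootS.split`: Bezout for `N` and `p ^ s` (`Nat.gcd_eq_gcd_ab`, `zpow`), `ω = z ^ (p ^ s * a)`,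
`ρ = z ^ (N * b)`. `rootS_of_fin`: `Nat.exists_eq_pow_mul_and_not_dvd`. `ev_Cyc`:
`IntermediateField.adjoin_induction`, `Filter.Eventually`. `Cyc_normal`: as `Unr_normal` (S/Disj).
`exists_prim`: `HasEnoughRootsOfUnity.exists_primitiveRoot`.
-/

set_option autoImplicit false

namespace Pool.Agent.Work.MP_dd0d16_nt.T

open Filter

variable {p : ℕ} [Fact p.Prime] {z w : PadicAlgCl p} {s : ℕ}

/-- `z` is a root of unity of `p`-power order. -/
def PR (z : PadicAlgCl p) : Prop := ∃ a : ℕ, z ^ p ^ a = 1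

/-- The field generated by all roots of unity. -/
noncomputable def Ab (p : ℕ) [Fact p.Prime] : IntermediateField ℚ_[p] (PadicAlgCl p) :=
  IntermediateField.adjoin ℚ_[p] {z : PadicAlgCl p | IsOfFinOrder z}

/-- All nontrivial monomials in `X` have order close to `p ^ N`. -/
def Gen {ι σ : Type} [Fintype σ] (U : Ultrafilter ι) (X : ι → σ → PadicAlgCl p) (N : ι → ℕ) :
    Prop :=
  ∀ ω : σ → ℤ, ω ≠ 0 → ∃ c : ℕ, ∀ᶠ n in U, (∏ d, X n d ^ ω d) ^ p ^ (N n - c) ≠ 1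

theorem fin_norm (h : IsOfFinOrder z) : ‖z‖ = 1 := by
  obtain ⟨n, h1, h2⟩ := isOfFinOrder_iff_pow_eq_one.1 h
  have h3 : ‖z‖ ^ n = 1 := by rw [← norm_pow, h2, norm_one]
  exact (pow_eq_one_iff_of_nonneg (norm_nonneg _) h1.ne').1 h3

theorem fin_ne (h : IsOfFinOrder z) : z ≠ 0 := by
  exact norm_ne_zero_iff.1 (fin_norm h ▸ one_ne_zero)

theorem log_fin {L : PadicAlgCl p → PadicAlgCl p} (hL : IsLog L) (h : IsOfFinOrder z) :
    L z = 0 := by
  obtain ⟨n, h1, h2⟩ := isOfFinOrder_iff_pow_eq_one.1 h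
  have h3 := log_pow hL (fin_ne h) n
  rw [h2, log_one hL] at h3
  exact (mul_eq_zero.1 h3.symm).resolve_left (Nat.cast_ne_zero.2 h1.ne')

theorem PR.fin (h : PR z) : IsOfFinOrder z := by
  obtain ⟨a, h⟩ := h
  exact isOfFinOrder_iff_pow_eq_one.2 ⟨_, pow_pos (Fact.out : p.Prime).pos a, h⟩

theorem Root.fin (h : Root z) : IsOfFinOrder z := by
  obtain ⟨N, h1, h2⟩ := h
  exact isOfFinOrder_iff_pow_eq_one.2 ⟨N, Nat.pos_of_ne_zero fun k => h1 (k ▸ dvd_zero p), h2⟩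

theorem RootS.fin (h : RootS s z) : IsOfFinOrder z := by
  obtain ⟨N, h1, h2⟩ := h
  exact isOfFinOrder_iff_pow_eq_one.2 ⟨N * p ^ s, Nat.pos_of_ne_zero (mul_ne_zero
    (fun k => h1 (k ▸ dvd_zero p)) (pow_ne_zero s (Fact.out : p.Prime).ne_zero)), h2⟩

theorem PR.prod_zpow {σ : Type} (t : Finset σ) {x : σ → PadicAlgCl p} (hx : ∀ d, PR (x d))
    (e : σ → ℤ) : PR (∏ d ∈ t, x d ^ e d) := by
  refine Finset.prod_induction _ PR ?_ ⟨0, one_pow _⟩ fun d _ => ?_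
  · rintro a b ⟨m, hm⟩ ⟨n, hn⟩
    exact ⟨m + n, by rw [mul_pow, pow_add, pow_mul, hm, pow_mul', hn, one_pow, one_pow, one_mul]⟩
  · obtain ⟨a, ha⟩ := hx d
    exact ⟨a, by rw [← zpow_natCast, ← zpow_mul, mul_comm, zpow_mul, zpow_natCast, ha, one_zpow]⟩

theorem prod_zpow_pow {σ : Type} (t : Finset σ) {x : σ → PadicAlgCl p} {n : ℕ}
    (hx : ∀ d, x d ^ n = 1) (e : σ → ℤ) : (∏ d ∈ t, x d ^ e d) ^ n = 1 := by
  rw [← Finset.prod_pow]
  exact Finset.prod_eq_one fun d _ => by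
    rw [← zpow_natCast, ← zpow_mul, mul_comm, zpow_mul, zpow_natCast, hx d, one_zpow]

theorem RootS.split (h : RootS s z) : ∃ ω ρ : PadicAlgCl p, Root ω ∧ ρ ^ p ^ s = 1 ∧ z = ω * ρ := by
  have h0 := fin_ne h.fin
  obtain ⟨N, h1, h2⟩ := h
  have h3 : Nat.Coprime (p ^ s) N :=
    ((Nat.Prime.coprime_iff_not_dvd (Fact.out : p.Prime)).2 h1).pow_left s
  have h4 := Nat.gcd_eq_gcd_ab (p ^ s) N
  rw [h3.gcd_eq_one, Nat.cast_one] at h4
  have key : ∀ (a b : ℕ) (c : ℤ), a * b = N * p ^ s → (z ^ ((a : ℤ) * c)) ^ b = 1 := by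
    intro a b c e
    rw [← zpow_natCast, ← zpow_mul, mul_right_comm, ← Nat.cast_mul, e, zpow_mul, zpow_natCast, h2,
      one_zpow]
  refine ⟨_, _, ⟨N, h1, key (p ^ s) N (Nat.gcdA (p ^ s) N) (mul_comm _ _)⟩,
    key N (p ^ s) (Nat.gcdB (p ^ s) N) rfl, ?_⟩
  rw [← zpow_add₀ h0, ← h4, zpow_one]

theorem rootS_of_fin (h : IsOfFinOrder z) : ∃ s, RootS s z := by
  obtain ⟨n, h1, h2⟩ := isOfFinOrder_iff_pow_eq_one.1 h
  obtain ⟨a, N, h3, rfl⟩ := Nat.exists_eq_pow_mul_and_not_dvd h1.ne' p (Fact.out : p.Prime).ne_one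
  exact ⟨a, N, h3, by rwa [mul_comm]⟩

theorem RootS.mem (h : RootS s z) : z ∈ Cyc p s := by
  exact IntermediateField.subset_adjoin _ _ h

theorem mem_Cyc (h : z ^ p ^ s = 1) : z ∈ Cyc p s := by
  exact RootS.mem ⟨1, (Fact.out : p.Prime).not_dvd_one, by rwa [one_mul]⟩

theorem Unr_le_Cyc (s : ℕ) : Unr p ≤ Cyc p s := by
  refine IntermediateField.adjoin.mono _ _ _ ?_
  rintro z ⟨N, h1, h2⟩
  exact ⟨N, h1, by rw [pow_mul, h2, one_pow]⟩

theorem Cyc_mono : Monotone (Cyc p) := by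
  intro s t h
  refine IntermediateField.adjoin.mono _ _ _ ?_
  rintro z ⟨N, h1, h2⟩
  obtain ⟨k, rfl⟩ := Nat.exists_eq_add_of_le h
  exact ⟨N, h1, by rw [pow_add, ← mul_assoc, pow_mul, h2, one_pow]⟩

theorem mem_Ab (h : IsOfFinOrder z) : z ∈ Ab p := by
  exact IntermediateField.subset_adjoin _ _ h

theorem Cyc_le_Ab (s : ℕ) : Cyc p s ≤ Ab p := by
  exact IntermediateField.adjoin.mono _ _ _ fun _ h => RootS.fin h

theorem ev_Cyc (h : z ∈ Ab p) : ∀ᶠ s in atTop, z ∈ Cyc p s := by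
  induction h using IntermediateField.adjoin_induction with
  | mem x hx =>
    obtain ⟨s, hs⟩ := rootS_of_fin hx
    exact (eventually_ge_atTop s).mono fun t ht => Cyc_mono ht hs.mem
  | algebraMap x => exact Eventually.of_forall fun s => IntermediateField.algebraMap_mem _ x
  | add x y _ _ hx hy => exact (hx.and hy).mono fun s h => add_mem h.1 h.2
  | inv x _ hx => exact hx.mono fun s h => inv_mem h
  | mul x y _ _ hx hy => exact (hx.and hy).mono fun s h => mul_mem h.1 h.2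

theorem Cyc_normal (s : ℕ) (σ : PadicAlgCl p ≃ₐ[ℚ_[p]] PadicAlgCl p) :
    ∀ z ∈ Cyc p s, σ z ∈ Cyc p s := by
  have : Cyc p s ≤ (Cyc p s).comap σ.toAlgHom := IntermediateField.adjoin_le_iff.2 <| by
    rintro z ⟨N, h1, h2⟩
    exact IntermediateField.subset_adjoin ℚ_[p] _ ⟨N, h1, by rw [← map_pow, h2, map_one]⟩
  exact this

theorem exists_prim (p : ℕ) [Fact p.Prime] (N : ℕ) :
    ∃ ζ : PadicAlgCl p, IsPrimitiveRoot ζ (p ^ N) := by
  have h0 : p ^ N ≠ 0 := pow_ne_zero _ (Fact.out : p.Prime).ne_zero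
  have : NeZero ((p ^ N : ℕ) : PadicAlgCl p) := ⟨Nat.cast_ne_zero.2 h0⟩
  have : NeZero (p ^ N) := ⟨h0⟩
  exact HasEnoughRootsOfUnity.exists_primitiveRoot (PadicAlgCl p) (p ^ N)

end Pool.Agent.Work.MP_dd0d16_nt.T
end
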