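import Pool.Agent.Work.MP_dd0d16_nt.T.Mat
import Pool.Agent.Work.MP_dd0d16_nt.T.ThmD
import Mathlib

-- merged part: Pool.Agent.Work.MP_dd0d16_nt.G.Alg2
section
-- merged part: Pool.Agent.Work.MP_dd0d16_nt.G.LDefs
section
/-!
Valued fields, the scale above `p`: definitions (overview: /team-store/h29_dd0d16_G.md).
-/

set_option autoImplicit false

namespace Pool.Agent.Work.MP_dd0d16_nt.T

open MvPolynomial

variable {Ω Γ : Type} [Field Ω] [LinearOrderedCommGroupWithZero Γ]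

/-- A power of `z` is divisible by `p`. -/
def Sm (v : Valuation Ω Γ) (p : ℕ) (z : Ω) : Prop := ∃ q : ℕ, v z ^ q ≤ v p

/-- All `p * z ^ q` are integral. -/
def Bd (v : Valuation Ω Γ) (p : ℕ) (z : Ω) : Prop := ∀ q : ℕ, v p * v z ^ q ≤ 1

/-- Strong independence: the monomials in `y` are nearly orthogonal over `E`. -/
def SSI (v : Valuation Ω Γ) (p : ℕ) (E : Subfield Ω) {σ : Type} (y : σ → Ω) : Prop :=
  ∀ (P : MvPolynomial σ E) (μ : σ →₀ ℕ) (q : ℕ),
    v p * v (P.coeff μ : E) ^ q ≤ v (aeval y P) ^ q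

/-- The powers `ζ ^ j`, `j < p`, are nearly orthogonal over `F`. -/
def Ort (v : Valuation Ω Γ) (p : ℕ) (F : Subfield Ω) (ζ : Ω) : Prop :=
  ∀ c : Fin p → Ω, (∀ j, c j ∈ F) → ∀ (j : Fin p) (q : ℕ),
    v p * v (c j) ^ q ≤ v (∑ j, c j * ζ ^ (j : ℕ)) ^ q

/-- Uniform convergence of the series of the logarithm at the scale of `p`. -/
def Tail (p : ℕ) (v : Valuation Ω Γ) (L : Ω → Ω) : Prop :=
  ∀ M : ℕ, ∀ᶠ T : ℕ in Filter.atTop, ∀ s : Ω, v s ^ 2 ≤ v p →
    v (L (1 + s) - ∑ n ∈ Finset.range T, (-1 : Ω) ^ n * s ^ (n + 1) / ((n : Ω) + 1)) ≤ v p ^ M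

/-- Multiplicative relation or algebraic independence, for every subfamily of `α`. -/
def Dic (L : Ω → Ω) (E : Subfield Ω) {τ I : Type} [Fintype τ] (X : τ → Ω) (α : I → Ω) : Prop :=
  ∀ (I' : Type) [Fintype I'] (ε : I' → I),
    (∃ r : I' → ℤ, r ≠ 0 ∧ ∃ ω : τ → ℤ, (∏ d, X d ^ ω d) * ∏ i, α (ε i) ^ r i ∈ E) ∨
      AlgebraicIndependent E (Sum.elim X fun i => L (α (ε i)))

/-- A multiplicative map that is additive modulo `p` on integral elements. -/
structure Frl (v : Valuation Ω Γ) (p : ℕ) (Φ : Ω →*₀ Ω) : Prop where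
  le : ∀ a, v a ≤ 1 → v (Φ a) ≤ 1
  add : ∀ a b, v a ≤ 1 → v b ≤ 1 → v (Φ (a + b) - Φ a - Φ b) ≤ v p

open Classical in
/-- The numerator of `c0 + ∑ i, c i * (D i / P i) ^ p ^ σ i`, where `P i = ∑ s, a i s` and
`D i = ∑ s, lam i s * a i s`. -/
noncomputable def zc (p : ℕ) {Q S : Type} [Fintype Q] [Fintype S] (a : Q → S → Ω)
    (lam : Q → S → ℕ) (σ : Q → ℕ) (c0 : ℕ) (c : Q → ℕ) : Ω :=
  c0 * ∏ j, (∑ s, a j s) ^ p ^ σ j + ∑ i, c i * ((∑ s, lam i s * a i s) ^ p ^ σ i *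
    ∏ j ∈ Finset.univ.erase i, (∑ s, a j s) ^ p ^ σ j)

end Pool.Agent.Work.MP_dd0d16_nt.T
end

-- merged part: Pool.Agent.Work.MP_dd0d16_nt.S.Theta
section
/-!
Euler derivations on the field of rational functions and their continuity.

PLAN. Use `exists_theta` (T/Ext) with `R = Ω` and
`G z g := ∃ P, z = aeval y P ∧ ∀ a, g a = aeval y (X a * pderiv a P)`; uniqueness comes from
`SI.algInd`; `Gf.of` gives the formula. Continuity: every element of the closure is `P y / H y` with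
`H y ≠ 0` (`Subfield.closure_induction`, or `Subfield.mem_closure_iff` and `Subring.closure`). Let
`α`, `β` be the largest values of coefficients of `P`, `H` (`exists_max_coeff`). Then `P y` and
`(X a * pderiv a P) y` have value at most `α` (`coeff_pderiv`, `v_aeval_le`, natural numbers have value
at most one), same for `H`, and `γ0 ^ c * α ≤ v (P y)`, `γ0 ^ c' * β ≤ v (H y)`, `γ ≤ γ0 ^ (c + c')`.
The quotient rule (`Derivation.leibniz_div`) gives the bound.
-/

set_option autoImplicit false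

namespace Pool.Agent.Work.MP_dd0d16_nt.T

open MvPolynomial

variable {Ω Γ : Type} [Field Ω] [CharZero Ω] [LinearOrderedCommGroupWithZero Γ]
  {v : Valuation Ω Γ} {E : Subfield Ω} {γ0 γ : Γ} {m : ℕ}

omit [CharZero Ω] in
theorem Theta_mem (y : Fin m → Ω) (P : MvPolynomial (Fin m) E) :
    aeval y P ∈ Subfield.closure ((E : Set Ω) ∪ Set.range y) := by
  induction P using MvPolynomial.induction_on with
  | C a =>
    rw [aeval_C]
    exact Subfield.subset_closure (Or.inl a.2)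
  | add p q hp hq =>
    rw [map_add]
    exact add_mem hp hq
  | mul_X p i hp =>
    rw [map_mul, aeval_X]
    exact mul_mem hp (Subfield.subset_closure (Or.inr ⟨i, rfl⟩))

omit [CharZero Ω] in
theorem Theta_frac (y : Fin m → Ω) {z : Ω} (hz : z ∈ Subfield.closure ((E : Set Ω) ∪ Set.range y)) :
    ∃ P H : MvPolynomial (Fin m) E, aeval y H ≠ 0 ∧ z * aeval y H = aeval y P := by
  induction hz using Subfield.closure_induction with
  | mem x hx =>
    rcases hx with hx | ⟨i, rfl⟩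
    · exact ⟨C ⟨x, hx⟩, 1, by simp, by rw [map_one, mul_one, aeval_C]; rfl⟩
    · exact ⟨X i, 1, by simp, by simp⟩
  | one => exact ⟨1, 1, by simp, by simp⟩
  | add x z _ _ hx hz =>
    obtain ⟨P, H, h1, h2⟩ := hx
    obtain ⟨P', H', h1', h2'⟩ := hz
    refine ⟨P * H' + P' * H, H * H', by rw [map_mul]; exact mul_ne_zero h1 h1', ?_⟩
    simp only [map_add, map_mul, ← h2, ← h2']
    ring
  | neg x _ hx =>
    obtain ⟨P, H, h1, h2⟩ := hx
    exact ⟨-P, H, h1, by rw [map_neg, ← h2, neg_mul]⟩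
  | inv x _ hx =>
    obtain ⟨P, H, h1, h2⟩ := hx
    by_cases h0 : x = 0
    · exact ⟨0, 1, by simp, by simp [h0]⟩
    · exact ⟨H, P, h2 ▸ mul_ne_zero h0 h1, by rw [← h2, inv_mul_cancel_left₀ h0]⟩
  | mul x z _ _ hx hz =>
    obtain ⟨P, H, h1, h2⟩ := hx
    obtain ⟨P', H', h1', h2'⟩ := hz
    refine ⟨P * P', H * H', by rw [map_mul]; exact mul_ne_zero h1 h1', ?_⟩
    simp only [map_mul, ← h2, ← h2']
    ring

omit [CharZero Ω] in
theorem Theta_nat (v : Valuation Ω Γ) (n : ℕ) : v (n : Ω) ≤ 1 := by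
  induction n with
  | zero => simp
  | succ n ih =>
    rw [Nat.cast_succ]
    exact v.map_add_le ih v.map_one.le

omit [CharZero Ω] in
theorem Theta_coeff {P : MvPolynomial (Fin m) E} {δ : Γ} (hP : ∀ μ, v (P.coeff μ : E) ≤ δ)
    (a : Fin m) (μ : Fin m →₀ ℕ) : v ((X a * pderiv a P).coeff μ : E) ≤ δ := by
  rw [coeff_X_mul']
  split_ifs
  · rw [coeff_pderiv, ← Nat.cast_succ, Subfield.coe_mul, map_mul, SubringClass.coe_natCast]
    exact (mul_le_mul' (hP _) (Theta_nat v _)).trans (mul_one δ).le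
  · simp

theorem exists_Theta (y : Fin m → Ω) (hy : ∀ s, v (y s) ≤ 1) (h0 : γ0 ≠ 0) (hs : SI v E γ0 y)
    (hγ : ∀ c : ℕ, γ ≤ γ0 ^ c) :
    ∃ Θ : Fin m → Derivation ℚ (Subfield.closure ((E : Set Ω) ∪ Set.range y))
        (Subfield.closure ((E : Set Ω) ∪ Set.range y)),
      (∀ a (P : MvPolynomial (Fin m) E) (e : Subfield.closure ((E : Set Ω) ∪ Set.range y)),
        (e : Ω) = aeval y P → (Θ a e : Ω) = aeval y (X a * pderiv a P)) ∧
      ∀ a e, v (Θ a e) * γ ≤ v e := by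
  have hi : Function.Injective (aeval y : MvPolynomial (Fin m) E →ₐ[E] Ω) := hs.algInd h0
  let G : Ω → (Fin m → Ω) → Prop := fun z g =>
    ∃ P : MvPolynomial (Fin m) E, z = aeval y P ∧ ∀ a, g a = aeval y (X a * pderiv a P)
  have g1 : G 1 0 := ⟨1, by simp, fun a => by simp⟩
  have gf : ∀ P : MvPolynomial (Fin m) E, Gf G (aeval y P) fun a => aeval y (X a * pderiv a P) :=
    fun P => Gf.of (R := Ω) (Ω := Ω) g1 ⟨P, rfl, fun _ => rfl⟩
  obtain ⟨Θ, hΘ⟩ := exists_theta (R := Ω) (Ω := Ω) (fun _ _ h => h) G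
    (by
      rintro _ g _ g' ⟨P, rfl, h⟩ ⟨P', rfl, h'⟩
      exact ⟨P + P', by simp, fun a => by simp [h, h', mul_add]⟩)
    (by
      rintro _ g ⟨P, rfl, h⟩
      exact ⟨-P, by simp, fun a => by simp [h]⟩)
    (by
      rintro _ g _ g' ⟨P, rfl, h⟩ ⟨P', rfl, h'⟩
      refine ⟨P * P', by simp, fun a => ?_⟩
      simp only [h, h', pderiv_mul, map_mul, map_add]
      ring)
    g1
    (by
      rintro g ⟨P, h1, h2⟩
      obtain rfl : P = 0 := hi (by rw [← h1, map_zero])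
      funext a
      simp [h2])
    ((E : Set Ω) ∪ Set.range y)
    (by
      rintro s (hs | ⟨i, rfl⟩)
      · exact ⟨_, (show aeval y (C ⟨s, hs⟩ : MvPolynomial (Fin m) E) = s from aeval_C _ _) ▸
          gf (C ⟨s, hs⟩), fun a => Theta_mem y _⟩
      · exact ⟨_, aeval_X (R := E) y i ▸ gf (X i), fun a => Theta_mem y _⟩)
  have key : ∀ a (P : MvPolynomial (Fin m) E) (e : Subfield.closure ((E : Set Ω) ∪ Set.range y)),
      (e : Ω) = aeval y P → (Θ a e : Ω) = aeval y (X a * pderiv a P) :=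
    fun a P e he => hΘ e _ (he ▸ gf P) a
  refine ⟨Θ, key, fun a e => ?_⟩
  obtain ⟨P, H, h1, h2⟩ := Theta_frac y e.2
  by_cases hP : P = 0
  · rw [hP, map_zero] at h2
    obtain rfl : e = 0 := Subtype.ext ((mul_eq_zero.1 h2).resolve_right h1)
    simp
  have hH : H ≠ 0 := fun k => h1 (by rw [k, map_zero])
  obtain ⟨ν, -, hν⟩ := exists_max_coeff v hP
  obtain ⟨ν', -, hν'⟩ := exists_max_coeff v hH
  obtain ⟨c, hc⟩ := hs P ν
  obtain ⟨c', hc'⟩ := hs H ν'
  have h3 := key a P (e * ⟨_, Theta_mem y H⟩) h2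
  rw [Derivation.leibniz, smul_eq_mul, smul_eq_mul, Subfield.coe_add, Subfield.coe_mul,
    Subfield.coe_mul, key a H ⟨_, Theta_mem y H⟩ rfl] at h3
  have h4 : (Θ a e : Ω) * (aeval y H * aeval y H) =
      aeval y (X a * pderiv a P) * aeval y H - aeval y P * aeval y (X a * pderiv a H) := by
    rw [← h3, ← h2]
    ring
  have h5 : v (Θ a e) * (v (aeval y H) * v (aeval y H)) ≤
      v (P.coeff ν : E) * v (H.coeff ν' : E) := by
    rw [← map_mul, ← map_mul, h4]
    refine v.map_sub_le ?_ ?_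
    · rw [map_mul]
      exact mul_le_mul' (v_aeval_le hy (Theta_coeff hν a)) (v_aeval_le hy hν')
    · rw [map_mul]
      exact mul_le_mul' (v_aeval_le hy hν) (v_aeval_le hy (Theta_coeff hν' a))
  have h6 : v (aeval y H) ≠ 0 := (map_ne_zero v).2 h1
  refine le_of_mul_le_mul_right (a := v (aeval y H) * v (aeval y H)) ?_
    (zero_lt_iff.2 (mul_ne_zero h6 h6))
  calc v (Θ a e) * γ * (v (aeval y H) * v (aeval y H))
      = v (Θ a e) * (v (aeval y H) * v (aeval y H)) * γ := mul_right_comm _ _ _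
    _ ≤ v (P.coeff ν : E) * v (H.coeff ν' : E) * γ0 ^ (c + c') := mul_le_mul' h5 (hγ _)
    _ = γ0 ^ c * v (P.coeff ν : E) * (γ0 ^ c' * v (H.coeff ν' : E)) := by
      rw [pow_add, mul_comm, mul_mul_mul_comm]
    _ ≤ v (aeval y P) * v (aeval y H) := mul_le_mul' hc hc'
    _ = v e * (v (aeval y H) * v (aeval y H)) := by rw [← h2, map_mul, mul_assoc]

end Pool.Agent.Work.MP_dd0d16_nt.T
end

-- merged part: Pool.Agent.Work.MP_dd0d16_nt.S.AxCore
section
/-!
The theorem of Ax at one scale.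

PLAN. `app_log`: for `s : E1` with `v s ^ 2 ≤ γ` the finite sums
`e T = ∑ n ∈ range T, (-1) ^ n * s ^ (n + 1) / (n + 1)` lie in `E1`, `Θ a (e T) * (1 + s) =
Θ a s * (1 - (-s) ^ T)` (induction on `T`), `v (1 + s) = 1`; take `T = 2 M + 2`, `LF.tail` and `hΘ`.
`ax_core`: take `Θ` (`exists_Theta`), `k, A, res` (`exists_res`; `LF.nat`, `not_inf_of_le`), and
`S = {z : A | z ∈ E} ∪ range y ∪ range μ`, `μ i = L (1 + s i)`, `s i = d i y / g i y`. By `SI`,
`γ0 ^ c ≤ v (g i y)` and `γ0 ^ c ≤ v (y a)`, so `v (s i) ^ 2 ≤ γ ≤ γ0 ^ (2 (T + 1))`, and `g i y`,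
`(g i + d i) y = g i y * (1 + s i)`, `y a` have nonzero residues. Elements `e` of `E1` have
`App v γ Θ e (Θ · e)`. `res_theta` gives `θ` on `B`; `θ` kills residues of constants. If `SI` fails
for `P`, divide `P` by a largest coefficient (`exists_max_coeff`): the coefficients are integral, one
is `1`, the value is infinitesimal. Reduce coefficients (for an integral `P` over `E` put
`red P = ∑ μ ∈ P.support, monomial μ (res (coeff μ P))` over `B`, or work over the subring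
`E0 = {c : E | c ∈ A}` with `MvPolynomial.map` and lift `g`, `d`, `P` to it by
`mem_range_map_iff_coeffs_subset`). `log_indep` (T/Abs) with `y i = res (1 + s i)`, `l i = res (μ i)`
gives `r`; if `r = n • r'` then `θ (∏ y ^ r') = 0` (`logd_prod`, `logd_zpow` in Fields);
`prop_of_const` with `t = ∏ y ^ r'` (see `prod_zpow_split` in T/Core for the exponents) gives `Prop2`
of the reductions, that is `Near`.
-/

set_option autoImplicit false

namespace Pool.Agent.Work.MP_dd0d16_nt.T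

open MvPolynomial

theorem AxCore_der {K : Type} [Field K] [CharZero K] (D : Derivation ℚ K K) (s : K) (T : ℕ) :
    D (∑ n ∈ Finset.range T, (-1 : K) ^ n * s ^ (n + 1) / ((n : K) + 1)) * (1 + s) =
      D s * (1 - (-s) ^ T) := by
  induction T with
  | zero => simp
  | succ T ih =>
    have h1 : D ((T : K) + 1) = 0 := by rw [map_add, D.map_natCast, D.map_one_eq_zero, add_zero]
    have h2 : D ((-1 : K) ^ T) = 0 := by simp [Derivation.leibniz_pow]
    have h3 : (T : K) + 1 ≠ 0 := by exact_mod_cast T.succ_ne_zero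
    rw [Finset.sum_range_succ, map_add, add_mul, ih, D.leibniz_div_const _ _ h1, D.leibniz, h2,
      D.leibniz_pow, neg_pow s (T + 1), neg_pow s T]
    simp only [smul_eq_mul, nsmul_eq_mul, Nat.add_sub_cancel]
    push_cast
    field_simp
    ring

theorem AxCore_split {B I : Type} [Field B] [Fintype I] (F G : I → B) (hF : ∀ i, F i ≠ 0)
    (hG : ∀ i, G i ≠ 0) (r : I → ℤ) :
    ∏ i, F i ^ (r i).toNat * G i ^ (-r i).toNat =
      (∏ i, (F i / G i) ^ r i) * ∏ i, F i ^ (-r i).toNat * G i ^ (r i).toNat := by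
  rw [← Finset.prod_mul_distrib]
  refine Finset.prod_congr rfl fun i _ => ?_
  have h1 := hF i
  have h2 := hG i
  obtain ⟨n, h | h⟩ := (r i).eq_nat_or_neg
  · simp only [h, Int.toNat_natCast, Int.toNat_neg_natCast, zpow_natCast, div_pow]
    field_simp
  · simp only [h, neg_neg, Int.toNat_natCast, Int.toNat_neg_natCast, zpow_neg, zpow_natCast,
      div_pow]
    field_simp

theorem AxCore_mem {R K σ : Type} [CommRing R] [Field K] (f : R →+* K) (x : σ → K) {T : Set K}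
    (hT : ∀ c, f c ∈ T) (Q : MvPolynomial σ R) :
    eval₂ f x Q ∈ Subfield.closure (T ∪ Set.range x) :=
  eval₂_mem (s := Subfield.closure (T ∪ Set.range x))
    (fun _ _ => Subfield.subset_closure (Set.mem_union_left _ (hT _)))
    fun b => Subfield.subset_closure (Set.mem_union_right _ ⟨b, rfl⟩)

theorem AxCore_abs {R B I : Type} [CommRing R] [Field B] [CharZero B] [Fintype I] {m : ℕ}
    (θ : Fin m → Derivation ℚ B B) (ψ : MvPolynomial (Fin m) R →+* B)
    (hψ : ∀ a P, θ a (ψ P) = ψ (X a * pderiv a P)) (hX : ∀ b, ψ (X b) ≠ 0)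
    (g d : I → MvPolynomial (Fin m) R) (hg : ∀ i, ψ (g i) ≠ 0) (hf : ∀ i, ψ (g i + d i) ≠ 0)
    (l : I → B) (hl : ∀ a i, θ a (l i) * (ψ (g i) * ψ (g i + d i)) =
      ψ (g i * (X a * pderiv a (d i)) - d i * (X a * pderiv a (g i))))
    (P : MvPolynomial (Fin m ⊕ I) R) (hP : map (ψ.comp C) P ≠ 0)
    (h0 : eval₂ (ψ.comp C) (Sum.elim (fun b => ψ (X b)) l) P = 0) :
    ∃ r : I → ℤ, r ≠ 0 ∧ ∀ (r' : I → ℤ) (n : ℤ), n ≠ 0 → r = n • r' →
      Prop2 (map (ψ.comp C) (∏ i, (g i + d i) ^ (r' i).toNat * g i ^ (-r' i).toNat))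
        (map (ψ.comp C) (∏ i, (g i + d i) ^ (-r' i).toNat * g i ^ (r' i).toNat)) := by
  have hθ : ∀ a b, θ a (ψ (X b)) = if a = b then ψ (X b) else 0 := fun a b => by
    rw [hψ, pderiv_X]
    split_ifs with h
    · simp [h]
    · simp [Pi.single_eq_of_ne (Ne.symm h)]
  have hc : ∀ {σ : Type} (Q : MvPolynomial σ R) μ a, θ a ((map (ψ.comp C) Q).coeff μ) = 0 :=
    fun Q μ a => by simp [coeff_map, hψ]
  have he : ∀ Q, eval (fun b => ψ (X b)) (map (ψ.comp C) Q) = ψ Q := fun Q => by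
    rw [eval_map, ← hom_eval₂, eval₂_eta]
  have hm : ∀ Q, ψ Q ∈ Subfield.closure ({z | ∀ a, θ a z = 0} ∪ Set.range fun b => ψ (X b)) :=
    fun Q => by
      rw [← he, eval_map]
      exact AxCore_mem _ _ (fun c a => by simp [hψ]) Q
  have hy : ∀ i, ψ (g i + d i) / ψ (g i) ≠ 0 := fun i => div_ne_zero (hf i) (hg i)
  obtain ⟨r, hr, h⟩ := log_indep θ _ hX hθ (fun i => ψ (g i + d i) / ψ (g i)) l hy
    (fun i => div_mem (hm _) (hm _)) (fun a i => by
      have h1 := hl a i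
      have h2 := hg i
      have h3 := hf i
      rw [Derivation.leibniz_div, hψ, hψ]
      simp only [map_add, map_mul, map_sub, smul_eq_mul] at h1 h3 ⊢
      field_simp
      linear_combination h1) _ (hc P) hP (by rwa [eval_map])
  refine ⟨r, hr, fun r' n hn e => prop_of_const θ _ hX hθ _ _ (hc _) (hc _)
    (t := ∏ i, (ψ (g i + d i) / ψ (g i)) ^ r' i) (fun a => ?_) ?_⟩
  · have h1 := logd_prod (θ a) Finset.univ _ fun i => zpow_ne_zero (r i) (hy i)
    have h2 := logd_prod (θ a) Finset.univ _ fun i => zpow_ne_zero (r' i) (hy i)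
    rw [h a, zero_div] at h1
    simp only [logd_zpow _ (hy _)] at h1 h2
    simp only [e, Pi.smul_apply, smul_eq_mul, Int.cast_mul, mul_assoc, ← Finset.mul_sum] at h1
    rw [(mul_eq_zero.1 h1.symm).resolve_left (Int.cast_ne_zero.2 hn)] at h2
    exact (div_eq_zero_iff.1 h2).resolve_right
      (Finset.prod_ne_zero_iff.2 fun i _ => zpow_ne_zero _ (hy i))
  · rw [he, he]
    simp only [map_prod, map_mul, map_pow]
    exact AxCore_split _ _ hf hg r'

theorem AxCore_lift {K σ : Type} [CommRing K] (R : Subring K) (P : MvPolynomial σ K)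
    (hP : ∀ μ, P.coeff μ ∈ R) : ∃ P' : MvPolynomial σ R, map R.subtype P' = P :=
  mem_range_map_iff_coeffs_subset.2 fun c hc => by
    obtain ⟨μ, -, rfl⟩ := mem_coeffs_iff.1 hc
    exact ⟨⟨_, hP μ⟩, rfl⟩

variable {Ω Γ : Type} [Field Ω] [CharZero Ω] [LinearOrderedCommGroupWithZero Γ]
  {v : Valuation Ω Γ} {L : Ω → Ω} {E : Subfield Ω} {p : ℕ} {γ0 γ : Γ} {m : ℕ}

theorem app_log (h : LF p v L E) (h0 : γ ≠ 0) (h1 : γ < 1) {E1 : Subfield Ω}
    (Θ : Fin m → Derivation ℚ E1 E1) (hΘ : ∀ a e, v (Θ a e) * γ ≤ v e) (s : E1)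
    (hs : v s ^ 2 ≤ γ) (hs' : ∀ T : ℕ, v s ≤ v p ^ T) :
    App v γ Θ (L (1 + s)) fun a => Θ a s / (1 + s) := by
  intro M
  have a1 : v s < 1 := ((hs' 1).trans_eq (pow_one _)).trans_lt h.p1
  have a2 := v.map_one_add_of_lt a1
  have a3 : (1 + s : Ω) ≠ 0 := (v.ne_zero_iff).1 (a2 ▸ one_ne_zero)
  have a4 : v s ^ (2 * (M + 1)) ≤ γ * γ ^ M := by
    rw [pow_mul, ← pow_succ']
    exact pow_le_pow_left' hs _
  refine ⟨∑ n ∈ Finset.range (2 * (M + 1)), (-1 : E1) ^ n * s ^ (n + 1) / ((n : E1) + 1), ?_,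
    fun a => ?_⟩
  · push_cast
    exact (h.tail _ s (hs' _)).trans (a4.trans (mul_le_of_le_one_left' h1.le))
  · have b1 := congrArg Subtype.val (AxCore_der (Θ a) s (2 * (M + 1)))
    generalize Θ a (∑ n ∈ Finset.range (2 * (M + 1)),
      (-1 : E1) ^ n * s ^ (n + 1) / ((n : E1) + 1)) = t at b1 ⊢
    push_cast at b1
    have b2 : (Θ a s : Ω) / (1 + s) - t = Θ a s * (-s) ^ (2 * (M + 1)) / (1 + s) := by
      field_simp
      linear_combination -b1
    rw [b2, map_div₀, a2, div_one, map_mul, map_pow, Valuation.map_neg]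
    calc v (Θ a s) * v s ^ (2 * (M + 1)) ≤ v (Θ a s) * (γ * γ ^ M) := mul_le_mul' le_rfl a4
      _ ≤ γ ^ M := by
        rw [← mul_assoc]
        exact mul_le_of_le_one_left' ((hΘ a s).trans a1.le)

omit [CharZero Ω] in
theorem AxCore_s (h0 : γ0 ≠ 0) (hp : γ0 ≤ v p) (hγ : ∀ c : ℕ, γ ≤ γ0 ^ c) {G D : Ω} {c : ℕ}
    (hG : γ0 ^ c ≤ v G) (hD : v D ≤ γ) :
    G ≠ 0 ∧ v (D / G) ^ 2 ≤ γ ∧ ∀ T : ℕ, v (D / G) ≤ v p ^ T := by
  have h1 : 0 < v G := (pow_pos (zero_lt_iff.2 h0) c).trans_le hG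
  refine ⟨(v.ne_zero_iff).1 h1.ne', ?_, fun T => ?_⟩
  · rw [map_div₀, div_pow, div_le_iff₀ (pow_pos h1 2)]
    calc v D ^ 2 ≤ γ * γ := by rw [sq]; exact mul_le_mul' hD hD
      _ ≤ γ * (γ0 ^ c) ^ 2 := mul_le_mul' le_rfl (by rw [← pow_mul]; exact hγ _)
      _ ≤ γ * v G ^ 2 := mul_le_mul' le_rfl (pow_le_pow_left' hG 2)
  · rw [map_div₀, div_le_iff₀ h1]
    calc v D ≤ γ0 ^ (T + c) := hD.trans (hγ _)
      _ ≤ v p ^ T * v G := by rw [pow_add]; exact mul_le_mul' (pow_le_pow_left' hp T) hG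

omit [CharZero Ω] in
theorem AxCore_norm {σ : Type} {x : σ → Ω} (h : ¬ SI v E γ x) :
    ∃ (P : MvPolynomial σ E) (ν : σ →₀ ℕ), P.coeff ν = 1 ∧ (∀ μ, v (P.coeff μ : E) ≤ 1) ∧
      Inf v γ (aeval x P) := by
  simp only [SI, not_forall, not_exists, not_le] at h
  obtain ⟨P, μ, h⟩ := h
  have h1 : P ≠ 0 := by
    rintro rfl
    simpa using h 0
  obtain ⟨ν, h2, h3⟩ := exists_max_coeff v h1
  have h4 : 0 < v (P.coeff ν : E) := zero_lt_iff.2 ((v.ne_zero_iff).2 (by exact_mod_cast h2))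
  refine ⟨C (P.coeff ν)⁻¹ * P, ν, by rw [coeff_C_mul, inv_mul_cancel₀ h2], fun μ => ?_,
    fun c => ?_⟩
  · rw [coeff_C_mul]
    push_cast
    rw [map_mul, map_inv₀, inv_mul_le_iff₀ h4, mul_one]
    exact h3 μ
  · rw [map_mul, aeval_C, map_mul, map_inv₀, map_inv₀]
    refine (inv_mul_le_iff₀' h4).2 ?_
    exact (h c).le.trans (mul_le_mul' le_rfl (h3 μ))

theorem ax_core (h : LF p v L E) (h0 : γ0 ≠ 0) (hp : γ0 ≤ v p) (hγ0 : γ ≠ 0)
    (hγ : ∀ c : ℕ, γ ≤ γ0 ^ c) (y : Fin m → Ω) (hy : ∀ s, v (y s) ≤ 1) (hs : SI v E γ0 y)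
    {I : Type} [Fintype I] (g d : I → MvPolynomial (Fin m) E)
    (hg : ∀ i μ, v ((g i).coeff μ : E) ≤ 1) (hg1 : ∀ i, ∃ ν, (g i).coeff ν = 1)
    (hd : ∀ i μ, v ((d i).coeff μ : E) ≤ γ) :
    SI v E γ (Sum.elim y fun i => L (1 + aeval y (d i) / aeval y (g i))) ∨
      ∃ r : I → ℤ, r ≠ 0 ∧ ∀ (r' : I → ℤ) (n : ℤ), n ≠ 0 → r = n • r' →
        Near v γ (∏ i, (g i + d i) ^ (r' i).toNat * g i ^ (-r' i).toNat)
          (∏ i, (g i + d i) ^ (-r' i).toNat * g i ^ (r' i).toNat) := by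
  refine or_iff_not_imp_left.2 fun hSI => ?_
  obtain ⟨P, ν, p1, p2, p3⟩ := AxCore_norm hSI
  have γ1 : γ ≤ γ0 := (hγ 1).trans_eq (pow_one _)
  have h1 : γ < 1 := (γ1.trans hp).trans_lt h.p1
  have ni : ∀ {c : ℕ} {z : Ω}, γ0 ^ c ≤ v z → ¬ Inf v γ z := fun hz =>
    not_inf_of_le hγ0 h1 ((pow_le_pow_left' γ1 _).trans hz)
  obtain ⟨Θ, t1, t2⟩ := exists_Theta y hy h0 hs hγ
  have mE : ∀ Q : MvPolynomial (Fin m) E,
      aeval y Q ∈ Subfield.closure ((E : Set Ω) ∪ Set.range y) := fun Q =>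
    AxCore_mem (algebraMap E Ω) y (fun c => c.2) Q
  generalize Subfield.closure ((E : Set Ω) ∪ Set.range y) = E1 at Θ t1 t2 mE
  obtain ⟨k, _, _, A, res, hA, hres⟩ := exists_res v hγ0 h1 fun n hn => by
    obtain ⟨c, hc⟩ := h.nat n hn
    exact ni ((pow_le_pow_left' hp c).trans hc)
  have mA : ∀ {z : Ω}, v z ≤ 1 → z ∈ A := fun hz => (hA _).2 ⟨0, by simpa using hz⟩
  obtain ⟨g, rfl⟩ : ∃ g0 : I → MvPolynomial (Fin m) (A.comap E.subtype),
      g = fun i => map (A.comap E.subtype).subtype (g0 i) := by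
    choose g0 h using fun i => AxCore_lift (A.comap E.subtype) (g i) fun μ => mA (hg i μ)
    exact ⟨g0, funext fun i => (h i).symm⟩
  obtain ⟨d, rfl⟩ : ∃ d0 : I → MvPolynomial (Fin m) (A.comap E.subtype),
      d = fun i => map (A.comap E.subtype).subtype (d0 i) := by
    choose d0 h using fun i =>
      AxCore_lift (A.comap E.subtype) (d i) fun μ => mA ((hd i μ).trans h1.le)
    exact ⟨d0, funext fun i => (h i).symm⟩
  obtain ⟨P, rfl⟩ := AxCore_lift (A.comap E.subtype) P fun μ => mA (p2 μ)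
  obtain ⟨ι, hι⟩ : ∃ ι : A.comap E.subtype →+* A, ∀ c, (ι c : Ω) = (c : E) :=
    ⟨(E.subtype.comp (A.comap E.subtype).subtype).codRestrict A fun c => c.2, fun _ => rfl⟩
  generalize A.comap E.subtype = R at g d P ι hι hg hg1 hd hSI p1 p2 p3 ⊢
  have e0 : ∀ {σ : Type} (x : σ → A) (Q : MvPolynomial σ R),
      ((eval₂ ι x Q : A) : Ω) = aeval (fun i => (x i : Ω)) (map R.subtype Q) := fun x Q => by
    rw [aeval_def, eval₂_map]
    exact (hom_eval₂ Q ι A.subtype x).trans (by congr 1; exact RingHom.ext hι)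
  obtain ⟨ev, e1, e2, e3⟩ : ∃ ev : MvPolynomial (Fin m) R →+* A,
      (∀ Q, (ev Q : Ω) = aeval y (map R.subtype Q)) ∧ (∀ c, ev (C c) = ι c) ∧
        ∀ b, (ev (X b) : Ω) = y b :=
    ⟨eval₂Hom ι fun b => ⟨y b, mA (hy b)⟩, fun Q => e0 _ Q, fun c => by simp, fun b => by simp⟩
  have a0 : ∀ a Q (e : E1), (e : Ω) = ev Q → (Θ a e : Ω) = ev (X a * pderiv a Q) :=
    fun a Q e he => by rw [t1 a (map R.subtype Q) e (he.trans (e1 Q)), e1,
      map_mul (map R.subtype), map_X, pderiv_map]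
  have a1 : ∀ Q, App v γ Θ (ev Q) fun a => ev (X a * pderiv a Q) := fun Q M =>
    ⟨⟨_, mE (map R.subtype Q)⟩, by simp [e1], fun a => by
      rw [a0 a Q _ (e1 Q).symm, sub_self, map_zero]
      exact zero_le⟩
  have g1 : ∀ i, ∃ c : ℕ, γ0 ^ c ≤ v (ev (g i)) := fun i => by
    obtain ⟨ν, hν⟩ := hg1 i
    obtain ⟨c, hc⟩ := hs (map R.subtype (g i)) ν
    exact ⟨c, by simpa [hν, e1] using hc⟩
  choose c g1 using g1
  have g2 := fun i => AxCore_s h0 hp hγ (g1 i) (D := ev (d i)) (e1 _ ▸ v_aeval_le hy (hd i))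
  have g3 : ∀ i, v (1 + ev (d i) / ev (g i) : Ω) = 1 := fun i =>
    v.map_one_add_of_lt ((((g2 i).2.2 1).trans_eq (pow_one _)).trans_lt h.p1)
  have g4 : ∀ i, (ev (g i + d i) : Ω) = ev (g i) * (1 + ev (d i) / ev (g i)) := fun i => by
    have := (g2 i).1
    rw [map_add]
    push_cast
    field_simp
  have g5 : ∀ i, res (ev (g i)) ≠ 0 ∧ res (ev (g i + d i)) ≠ 0 := fun i =>
    ⟨fun e => ni (g1 i) ((hres _).1 e), fun e => ni (c := c i) (by
      rw [g4, map_mul, g3, mul_one]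
      exact g1 i) ((hres _).1 e)⟩
  obtain ⟨μ, m1⟩ : ∃ μ : I → A, ∀ i, (μ i : Ω) = L (1 + ev (d i) / ev (g i)) :=
    ⟨fun i => ⟨_, mA (by simpa using h.tail 0 _ ((g2 i).2.2 _))⟩, fun _ => rfl⟩
  have m2 : ∀ i, ∃ u : Fin m → A, App v γ Θ (μ i) (fun a => u a) ∧ ∀ a,
      u a * (ev (g i) * ev (g i + d i)) =
        ev (g i * (X a * pderiv a (d i)) - d i * (X a * pderiv a (g i))) := fun i => by
    obtain ⟨G, hG⟩ : ∃ G : E1, (G : Ω) = ev (g i) := ⟨⟨_, mE _⟩, (e1 _).symm⟩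
    obtain ⟨D, hD⟩ : ∃ D : E1, (D : Ω) = ev (d i) := ⟨⟨_, mE _⟩, (e1 _).symm⟩
    have b1 : ((D / G : E1) : Ω) = ev (d i) / ev (g i) := by rw [← hG, ← hD]; rfl
    have b2 := app_log h hγ0 h1 Θ t2 (D / G) (b1 ▸ (g2 i).2.1) (b1 ▸ (g2 i).2.2)
    rw [b1] at b2
    refine ⟨fun a => ⟨Θ a (D / G) / (1 + ev (d i) / ev (g i)), (hA _).2 ⟨1, ?_⟩⟩, m1 i ▸ b2,
      fun a => Subtype.ext ?_⟩
    · rw [map_div₀, g3, div_one, pow_one]
      exact (t2 a _).trans (by simpa [b1] using (g2 i).2.2 0)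
    · have b4 := (g2 i).1
      have b5 : (1 + ev (d i) / ev (g i) : Ω) ≠ 0 := (v.ne_zero_iff).1 (g3 i ▸ one_ne_zero)
      rw [map_sub, map_mul ev (g i), map_mul ev (d i)]
      simp only [Derivation.leibniz_div, smul_eq_mul]
      push_cast
      rw [g4, a0 _ _ _ hG, a0 _ _ _ hD, hG, hD]
      generalize (1 + ev (d i) / ev (g i) : Ω) = w at b5
      field_simp
  choose u m2 m3 using m2
  have s1 : ∀ Q, res (ev Q) ∈ Subfield.closure (res '' (Set.range ev ∪ Set.range μ)) := fun Q =>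
    Subfield.subset_closure ⟨_, Or.inl ⟨Q, rfl⟩, rfl⟩
  obtain ⟨θ, hθ⟩ := res_theta hγ0 h1 hA hres Θ t2 (Set.range ev ∪ Set.range μ) (by
    rintro _ (⟨Q, rfl⟩ | ⟨i, rfl⟩)
    · exact ⟨_, a1 Q, fun a => s1 _⟩
    · refine ⟨u i, m2 i, fun a => ?_⟩
      have b1 := congrArg res (m3 i a)
      rw [map_mul, map_mul, ← eq_div_iff (mul_ne_zero (g5 i).1 (g5 i).2)] at b1
      exact b1 ▸ div_mem (s1 _) (mul_mem (s1 _) (s1 _)))
  obtain ⟨l, hl⟩ : ∃ l : I → Subfield.closure (res '' (Set.range ev ∪ Set.range μ)),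
      ∀ i, (l i : k) = res (μ i) :=
    ⟨fun i => ⟨_, Subfield.subset_closure ⟨_, Or.inr ⟨i, rfl⟩, rfl⟩⟩, fun _ => rfl⟩
  generalize Subfield.closure (res '' (Set.range ev ∪ Set.range μ)) = B at s1 θ hθ l hl
  obtain ⟨ψ, hψ⟩ : ∃ ψ : MvPolynomial (Fin m) R →+* B, ∀ Q, (ψ Q : k) = res (ev Q) :=
    ⟨(res.comp ev).codRestrict B s1, fun _ => rfl⟩
  have n0 : ∀ Q, res (ev Q) ≠ 0 → ψ Q ≠ 0 := fun Q hQ e => hQ (by rw [← hψ, e]; rfl)
  obtain ⟨r, hr, H⟩ := AxCore_abs θ ψ
    (fun a Q => Subtype.ext ((hθ _ _ _ (hψ Q) (a1 Q) a).trans (hψ _).symm))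
    (fun b => n0 _ fun e => by
      obtain ⟨c, hc⟩ := hs (X b) (Finsupp.single b 1)
      exact ni (c := c) (by simpa [e3] using hc) ((hres _).1 e))
    g d (fun i => n0 _ (g5 i).1) (fun i => n0 _ (g5 i).2) l (fun a i => Subtype.ext (by
      push_cast
      rw [hθ _ _ _ (hl i) (m2 i) a, hψ, hψ, hψ, ← map_mul, ← map_mul, m3])) P
    (fun e => by
      have b1 : P.coeff ν = 1 := Subtype.ext (by simpa [coeff_map] using p1)
      have b2 := congrArg (coeff ν) e
      simp [coeff_map, b1] at b2)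
    (Subtype.ext (by
      have b1 : res (eval₂ ι (Sum.elim (fun b => ev (X b)) μ) P) = 0 := (hres _).2 (by
        rw [e0]
        convert p3 using 3
        ext j
        rcases j with j | j <;> simp [e3, m1, e1])
      rw [hom_eval₂] at b1
      refine (hom_eval₂ P _ B.subtype _).trans (Eq.trans ?_ b1)
      congr 1
      · exact RingHom.ext fun c => (hψ _).trans (congrArg res (e2 c))
      · ext j
        rcases j with j | j
        exacts [hψ _, hl j]))
  refine ⟨r, hr, fun r' n hn e μ' ν' => ?_⟩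
  have b1 := H r' n hn e μ' ν'
  simp only [← map_add, ← map_pow, ← map_mul, ← map_prod]
  generalize ∏ i, (g i + d i) ^ (r' i).toNat * g i ^ (-r' i).toNat = F at b1 ⊢
  generalize ∏ i, (g i + d i) ^ (-r' i).toNat * g i ^ (r' i).toNat = G at b1 ⊢
  simp only [coeff_map, ← map_mul, ← map_sub] at b1 ⊢
  rw [← sub_eq_zero, ← map_sub] at b1
  have b2 := congrArg Subtype.val b1
  rw [RingHom.comp_apply, hψ, e2] at b2
  have b3 := (hres _).1 b2
  rwa [hι] at b3

end Pool.Agent.Work.MP_dd0d16_nt.T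
end

-- merged part: Pool.Agent.Work.MP_dd0d16_nt.S.Exch
section
/-!
Two facts on algebraic independence.

PLAN. `exch`: let `T = Algebra.adjoin E (range b)`. If `b` is not algebraically independent then the
transcendence degree of `T` is smaller than `card β` (a transcendence basis inside `range b`:
`exists_isTranscendenceBasis_subset`, or the matroid `AlgebraicIndependent.matroid`), while `a`
is an independent family in `T` (`AlgebraicIndependent.cardinalMk_le_trdeg`).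
`exists_up`: `E'` is the relative algebraic closure of the field generated by `E` and `x`
(`algebraicClosure`); `AlgebraicIndependent.sumElim_iff`, `AlgebraicIndependent.extendScalars` or
`AlgebraicIndependent.algebraicClosure`, `IntermediateField.isAlgebraic_adjoin_iff`,
`IsAlgebraic.trans`, `mem_algebraicClosure_iff`.
-/

set_option autoImplicit false

namespace Pool.Agent.Work.MP_dd0d16_nt.T

variable {Ω : Type} [Field Ω] {E : Subfield Ω}

theorem exch {α β : Type} [Fintype α] [Fintype β] {a : α → Ω} {b : β → Ω}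
    (ha : AlgebraicIndependent E a) (hc : Fintype.card β ≤ Fintype.card α)
    (hab : ∀ i, a i ∈ Algebra.adjoin E (Set.range b)) : AlgebraicIndependent E b := by
  let T := Algebra.adjoin E (Set.range b)
  let b' : β → T := fun j => ⟨b j, Algebra.subset_adjoin ⟨j, rfl⟩⟩
  have h1 : AlgebraicIndependent E fun i => (⟨a i, hab i⟩ : T) :=
    AlgebraicIndependent.of_comp T.val ha
  have h2 : Algebra.adjoin E (Set.range b') = ⊤ := by
    rw [← Algebra.adjoin_adjoin_coe_preimage]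
    congr 1
    ext y
    exact ⟨fun ⟨j, hj⟩ => ⟨j, congrArg Subtype.val hj⟩, fun ⟨j, hj⟩ => ⟨j, Subtype.ext hj⟩⟩
  have : Algebra.IsAlgebraic (Algebra.adjoin E (Set.range b')) T :=
    ⟨fun y => isAlgebraic_algebraMap (⟨y, h2.ge trivial⟩ : Algebra.adjoin E (Set.range b'))⟩
  have h3 := Algebra.IsAlgebraic.isTranscendenceBasis_of_le_trdeg_of_finite E b'
    (le_trans (by simpa using hc) h1.cardinalMk_le_trdeg)
  exact h3.1.map' (f := T.val) Subtype.val_injective

theorem exists_up (E : Subfield Ω) {σ : Type} (x : σ → Ω) : ∃ E' : Subfield Ω, E ≤ E' ∧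
    (∀ s, x s ∈ E') ∧
    (∀ (n : ℕ) (f : Fin (n + 1) → Ω) (a : Ω), f ≠ 0 → (∀ i, f i ∈ E') →
      ∑ i, f i * a ^ (i : ℕ) = 0 → a ∈ E') ∧
    ∀ (I : Type) (w : I → Ω), AlgebraicIndependent E (Sum.elim x w) → AlgebraicIndependent E' w := by
  classical
  let F := IntermediateField.adjoin E (Set.range x)
  let L := algebraicClosure F Ω
  have hF : ∀ y ∈ F, y ∈ L := fun y hy => L.algebraMap_mem ⟨y, hy⟩
  refine ⟨L.toSubfield, fun y hy => hF y (F.algebraMap_mem ⟨y, hy⟩),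
    fun s => hF _ (IntermediateField.subset_adjoin _ _ ⟨s, rfl⟩), fun n f a hf hfL h => ?_,
    fun I w h => ?_⟩
  · let g : Fin (n + 1) → L := fun i => ⟨f i, hfL i⟩
    have h1 : IsAlgebraic L a := by
      refine ⟨Polynomial.ofFn (n + 1) g, fun h0 => hf ?_, ?_⟩
      · have h2 : g = 0 := Polynomial.injective_ofFn (n + 1) (h0.trans (map_zero _).symm)
        exact funext fun i => congrArg Subtype.val (congrFun h2 i)
      · rw [Polynomial.ofFn_eq_sum_monomial, map_sum]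
        simp only [Polynomial.aeval_monomial]
        exact h
    exact mem_algebraicClosure_iff.2 (h1.restrictScalars F)
  · have h1 : AlgebraicIndependent E (Sum.elim w x) := by
      have h2 := h.comp Sum.swap Sum.swap_leftInverse.injective
      convert h2 using 1
      ext (_ | _) <;> rfl
    exact (IntermediateField.algebraicIndependent_adjoin_iff.2
      (AlgebraicIndependent.sumElim_iff.1 h1).2).algebraicClosure

end Pool.Agent.Work.MP_dd0d16_nt.T
end

-- merged part: Pool.Agent.Work.MP_dd0d16_nt.G.Res0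
section
/-!
Small and bounded elements.

PLAN. In the ordered group `x ^ 2 ≤ y ^ 2` gives `x ≤ y` (`pow_le_pow_left_iff`-type lemmas,
`le_of_sq_le_sq`, or by contradiction with `mul_lt_mul''`). `Bd.mul`: `(v p * (a b) ^ q) ^ 2 =
(v p * a ^ (2 q)) * (v p * b ^ (2 q))`. `Sm.mul_bd`: if `v a ^ q ≤ v p` then
`v (a b) ^ (2 q) ≤ v p * (v p * v b ^ (2 q))`. `Sm.of_orth`: use the exponent `2 q`. Sums: the value of
`a + b` is at most the value of `a` or of `b`.
`Frl.sum`, `Frl.nat`: induction (`Theta_nat` in S/Theta).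
-/

set_option autoImplicit false

namespace Pool.Agent.Work.MP_dd0d16_nt.T

variable {Ω Γ : Type} [Field Ω] [LinearOrderedCommGroupWithZero Γ] {v : Valuation Ω Γ}
  {L : Ω → Ω} {E : Subfield Ω} {p : ℕ} {a b z : Ω}

theorem Bd.of_le (h1 : v p < 1) (h : v z ≤ 1) : Bd v p z :=
  fun _ => mul_le_one' h1.le (pow_le_one' h _)

theorem Bd.add (ha : Bd v p a) (hb : Bd v p b) : Bd v p (a + b) := fun q =>
  (v.map_add' a b).elim (fun k => (mul_le_mul_right (pow_le_pow_left' k q) _).trans (ha q))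
    fun k => (mul_le_mul_right (pow_le_pow_left' k q) _).trans (hb q)

theorem Bd.neg (ha : Bd v p a) : Bd v p (-a) := fun q => by
  rw [v.map_neg]
  exact ha q

theorem Bd.mul (ha : Bd v p a) (hb : Bd v p b) : Bd v p (a * b) := fun q => by
  refine (pow_le_one_iff two_ne_zero).1 (le_of_eq_of_le ?_ (mul_le_one' (ha (q * 2)) (hb (q * 2))))
  rw [map_mul, mul_pow, mul_pow, mul_pow, pow_mul, pow_mul, sq (v p), mul_mul_mul_comm]

theorem Bd.pow (h1 : v p < 1) (ha : Bd v p a) (n : ℕ) : Bd v p (a ^ n) := by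
  induction n with
  | zero => exact .of_le h1 (by simp)
  | succ n ih => exact pow_succ a n ▸ ih.mul ha

theorem Bd.sum (h1 : v p < 1) {I : Type} (s : Finset I) {f : I → Ω} (h : ∀ i ∈ s, Bd v p (f i)) :
    Bd v p (∑ i ∈ s, f i) :=
  Finset.sum_induction f (Bd v p) (fun _ _ => Bd.add) (.of_le h1 (by simp)) h

theorem Bd.prod (h1 : v p < 1) {I : Type} (s : Finset I) {f : I → Ω} (h : ∀ i ∈ s, Bd v p (f i)) :
    Bd v p (∏ i ∈ s, f i) :=
  Finset.prod_induction f (Bd v p) (fun _ _ => Bd.mul) (.of_le h1 (by simp)) h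

theorem Bd.p_mul (h : Bd v p z) : v (p * z) ^ 2 ≤ v p := by
  rw [map_mul, mul_pow, sq (v p), mul_assoc]
  exact mul_le_of_le_one_right' (h 2)

theorem Sm.of_le (h : v z ≤ v p) : Sm v p z :=
  ⟨1, by rwa [pow_one]⟩

theorem Sm.lt (h1 : v p < 1) (h : Sm v p z) : v z < 1 :=
  let ⟨q, k⟩ := h
  not_le.1 fun r => ((one_le_pow_of_one_le' r q).trans k).not_gt h1

theorem Sm.bd (h1 : v p < 1) (h : Sm v p z) : Bd v p z :=
  .of_le h1 (h.lt h1).le

theorem Sm.add (ha : Sm v p a) (hb : Sm v p b) : Sm v p (a + b) :=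
  (v.map_add' a b).elim (fun k => ha.imp fun q => (pow_le_pow_left' k q).trans)
    fun k => hb.imp fun q => (pow_le_pow_left' k q).trans

theorem Sm.neg (ha : Sm v p a) : Sm v p (-a) :=
  ha.imp fun q k => by rwa [v.map_neg]

theorem Sm.sub (ha : Sm v p a) (hb : Sm v p b) : Sm v p (a - b) :=
  sub_eq_add_neg a b ▸ ha.add hb.neg

theorem Sm.mul_bd (h0 : v p ≠ 0) (ha : Sm v p a) (hb : Bd v p b) : Sm v p (a * b) := by
  obtain ⟨q, k⟩ := ha
  refine ⟨q * 2, ?_⟩
  rw [map_mul, mul_pow, pow_mul, sq, mul_assoc]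
  exact (mul_le_mul' k ((mul_le_mul_left k _).trans (hb _))).trans (mul_one _).le

theorem Sm.sum {I : Type} (s : Finset I) {f : I → Ω} (h : ∀ i ∈ s, Sm v p (f i)) :
    Sm v p (∑ i ∈ s, f i) :=
  Finset.sum_induction f (Sm v p) (fun _ _ => Sm.add) (.of_le (by simp)) h

theorem Sm.of_orth (h0 : v p ≠ 0) (h : ∀ q : ℕ, v p * v a ^ q ≤ v b ^ q) (hb : Sm v p b) :
    Sm v p a := by
  obtain ⟨q, k⟩ := hb
  refine ⟨q * 2, le_of_mul_le_mul_left ((h _).trans ?_) (zero_lt_iff.2 h0)⟩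
  rw [pow_mul, sq]
  exact mul_le_mul' k k

theorem Bd.inv_of_not_sm (h : ¬ Sm v p z) : Bd v p z⁻¹ := fun q => by
  rw [map_inv₀, inv_pow]
  exact mul_inv_le_one_of_le₀ (not_le.1 fun k => h ⟨q, k⟩).le zero_le

theorem not_sm_ne (h : ¬ Sm v p z) : z ≠ 0 :=
  fun k => h (.of_le (by simp [k]))

theorem not_sm_mul (ha : ¬ Sm v p a) (hb : ¬ Sm v p b) : ¬ Sm v p (a * b) := by
  rintro ⟨q, k⟩
  rw [map_mul] at k
  rcases le_total (v a) (v b) with r | r
  · exact ha ⟨2 * q, by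
      rw [pow_mul, sq]
      exact (pow_le_pow_left' (mul_le_mul_right r _) q).trans k⟩
  · exact hb ⟨2 * q, by
      rw [pow_mul, sq]
      exact (pow_le_pow_left' (mul_le_mul_left r _) q).trans k⟩

theorem not_sm_prod (h1 : v p < 1) {I : Type} (s : Finset I) {f : I → Ω}
    (h : ∀ i ∈ s, ¬ Sm v p (f i)) : ¬ Sm v p (∏ i ∈ s, f i) :=
  Finset.prod_induction f (fun z => ¬ Sm v p z) (fun _ _ => not_sm_mul)
    (fun k => (k.lt h1).ne v.map_one) h

theorem not_sm_pow (h1 : v p < 1) (h : ¬ Sm v p z) (n : ℕ) : ¬ Sm v p (z ^ n) := by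
  simpa using not_sm_prod h1 (Finset.range n) (f := fun _ => z) fun _ _ => h

theorem SSI.si {σ : Type} {y : σ → Ω} (h : SSI v p E y) : SI v E (v p) y :=
  fun P μ => ⟨1, by simpa only [pow_one] using h P μ 1⟩

theorem Res0_one (h1 : v p < 1) (ha : v (a - 1) ≤ v p) : v a = 1 := by
  rw [← add_sub_cancel 1 a]
  exact v.map_one_add_of_lt (ha.trans_lt h1)

theorem Res0_mul (h1 : v p < 1) (ha : v (a - 1) ≤ v p) (hb : v (b - 1) ≤ v p) :
    v (a * b - 1) ≤ v p := by
  rw [show a * b - 1 = (a - 1) * b + (b - 1) by ring]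
  exact v.map_add_le (by rwa [map_mul, Res0_one h1 hb, mul_one]) hb

theorem Res0_pow (h1 : v p < 1) (ha : v (a - 1) ≤ v p) (n : ℕ) : v (a ^ n - 1) ≤ v p := by
  induction n with
  | zero => simp
  | succ n ih => exact pow_succ a n ▸ Res0_mul h1 ih ha

theorem Res0_inv (h1 : v p < 1) (ha : v (a - 1) ≤ v p) : v (a⁻¹ - 1) ≤ v p := by
  have k := Res0_one h1 ha
  have h0 : a ≠ 0 := (map_ne_zero v).1 (k ▸ one_ne_zero)
  rwa [show a⁻¹ - 1 = -(a - 1) / a by field_simp; ring, map_div₀, k, div_one, v.map_neg]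

theorem one_prod_zpow (h1 : v p < 1) {I : Type} (s : Finset I) {w : I → Ω}
    (hw : ∀ i, v (w i - 1) ≤ v p) (r : I → ℤ) : v (∏ i ∈ s, w i ^ r i - 1) ≤ v p := by
  refine Finset.prod_induction _ (fun z => v (z - 1) ≤ v p) (fun _ _ => Res0_mul h1) (by simp)
    fun i _ => ?_
  obtain ⟨n, k | k⟩ := (r i).eq_nat_or_neg
  · rw [k, zpow_natCast]
    exact Res0_pow h1 (hw i) n
  · rw [k, zpow_neg, zpow_natCast]
    exact Res0_inv h1 (Res0_pow h1 (hw i) n)

theorem Frl.sum {Φ : Ω →*₀ Ω} (h : Frl v p Φ) {I : Type} (s : Finset I) {f : I → Ω}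
    (hf : ∀ i ∈ s, v (f i) ≤ 1) : v (Φ (∑ i ∈ s, f i) - ∑ i ∈ s, Φ (f i)) ≤ v p := by
  induction s using Finset.cons_induction with
  | empty => simp
  | cons i s hi ih =>
    rw [Finset.forall_mem_cons] at hf
    rw [Finset.sum_cons, Finset.sum_cons]
    refine le_of_eq_of_le (congrArg v ?_)
      (v.map_add_le (h.add _ _ hf.1 (v.map_sum_le hf.2)) (ih hf.2))
    ring

theorem Frl.nat {Φ : Ω →*₀ Ω} (h : Frl v p Φ) (n : ℕ) : v (Φ n - n) ≤ v p := by
  simpa using h.sum (Finset.range n) (f := fun _ => 1) fun _ _ => v.map_one.le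

end Pool.Agent.Work.MP_dd0d16_nt.T
end

-- merged part: Pool.Agent.Work.MP_dd0d16_nt.G.Alg3
section
/-!
Integer matrices.

PLAN. `int_basis`: as in `elim2` (S/Lead) take a maximal independent set of rows over `ℚ`
(`exists_linearIndepOn_extension`), and clear the finitely many denominators.
`right_inv`: the rows are independent over `ℚ`, so `vecMul` is injective and `mulVec` (the
transpose) is surjective over `ℚ` (`Matrix.vecMul_injective_iff`, ranks; or `LinearMap.exists_leftInverse_of_injective`);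
clear denominators.
`algInd_lin`: let `P` vanish at `(X, z)`. The substitution `Z i ↦ c i + ∑ j, B i j * Y j`
(`c i = z i - ∑ j, B i j * w j`) sends `P` to a polynomial that vanishes at `(X, w)`, so to zero; compose
with the evaluation `Y j ↦ D⁻¹ * ∑ i, C j i * (Z i - c i)` to get `P` back (`aeval`, `MvPolynomial.algHom_ext`).
`lat_split`: the quotient of `Fin m → ℤ` by `Λ` is finite and torsion free, so free
(`Module.free_of_finite_type_torsion_free'`); `A` lifts a basis of the quotient, `B` is a basis of `Λ`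
(`Submodule.basisOfPid` or `Module.finBasis`); `m2 < m` since the quotient is nontrivial
(`Submodule.finrank_quotient_add_finrank`, `Module.finrank_pos`).
-/

set_option autoImplicit false

namespace Pool.Agent.Work.MP_dd0d16_nt.T

theorem int_basis {I Q : Type} [Fintype I] [Fintype Q] (o : I → Q → ℤ) :
    ∃ (s : Finset I) (D : ℤ) (q : I → s → ℤ), D ≠ 0 ∧
      (∀ c : s → ℤ, (∀ j, ∑ l, c l * o l j = 0) → c = 0) ∧
      ∀ k j, D * o k j = ∑ l, q k l * o l j := by
  classical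
  obtain ⟨t, h1, h2⟩ := exists_maximal_linearIndepOn ℤ o
  have h3 : ∀ i, ∃ a : ℤ, a ≠ 0 ∧ a • o i ∈ Submodule.span ℤ (o '' t) := by
    intro i
    by_cases hi : i ∈ t
    · exact ⟨1, one_ne_zero, by
        rw [one_smul]
        exact Submodule.subset_span ⟨i, hi, rfl⟩⟩
    · exact h2 i hi
  choose a a1 a2 using h3
  obtain ⟨s, rfl⟩ : ∃ s : Finset I, (s : Set I) = t := ⟨t.toFinset, Set.coe_toFinset t⟩
  have h4 : ∀ k, ∃ c : s → ℤ, ∑ l, c l • o l = (∏ i, a i) • o k := by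
    intro k
    have h5 : (∏ i, a i) • o k ∈ Submodule.span ℤ (o '' (s : Set I)) := by
      rw [← Finset.prod_erase_mul _ _ (Finset.mem_univ k), mul_smul]
      exact Submodule.smul_mem _ _ (a2 k)
    rw [Set.image_eq_range] at h5
    exact (Submodule.mem_span_range_iff_exists_fun ℤ).1 h5
  choose q hq using h4
  refine ⟨s, ∏ i, a i, q, Finset.prod_ne_zero_iff.2 fun i _ => a1 i, fun c hc => ?_,
    fun k j => ?_⟩
  · funext l
    refine Fintype.linearIndependent_iff.1 h1 c ?_ l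
    funext j
    rw [Finset.sum_apply]
    exact hc j
  · have h6 := congrFun (hq k) j
    rw [Finset.sum_apply] at h6
    exact h6.symm

theorem right_inv {I Q : Type} [Fintype I] [DecidableEq I] [Fintype Q] (B : I → Q → ℤ)
    (hB : ∀ c : I → ℤ, (∀ j, ∑ i, c i * B i j = 0) → c = 0) :
    ∃ (D : ℤ) (C : Q → I → ℤ), D ≠ 0 ∧ ∀ i i', ∑ j, B i j * C j i' = if i = i' then D else 0 := by
  obtain ⟨A, hA⟩ : ∃ A : Matrix I Q ℤ, A = Matrix.of B := ⟨_, rfl⟩
  refine ⟨(A * A.transpose).det, A.transpose * (A * A.transpose).adjugate, fun h => ?_,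
    fun i i' => ?_⟩
  · obtain ⟨c, c1, c2⟩ := Matrix.exists_vecMul_eq_zero_iff.2 h
    have h1 : Matrix.vecMul c A ⬝ᵥ Matrix.vecMul c A = 0 := by
      have h2 : Matrix.vecMul c (A * A.transpose) ⬝ᵥ c = 0 := by rw [c2, zero_dotProduct]
      rw [← Matrix.vecMul_vecMul, ← Matrix.dotProduct_mulVec, Matrix.mulVec_transpose] at h2
      exact h2
    have h3 := dotProduct_self_eq_zero.1 h1
    refine c1 (hB c fun j => ?_)
    have h4 := congrFun h3 j
    rw [hA] at h4
    exact h4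
  · have h1 := congrFun (congrFun (Matrix.mul_adjugate (A * A.transpose)) i) i'
    rw [Matrix.mul_assoc, Matrix.mul_apply, Matrix.smul_apply, Matrix.one_apply] at h1
    have h2 : ∀ j, A i j = B i j := fun j => by rw [hA]; rfl
    simp only [h2] at h1
    rw [h1]
    split_ifs <;> simp

theorem algInd_lin {Ω : Type} [Field Ω] [CharZero Ω] {E : Subfield Ω} {τ I Q : Type} [Fintype I]
    [Fintype Q] {X : τ → Ω} {w : Q → Ω} (h : AlgebraicIndependent E (Sum.elim X w))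
    (B : I → Q → ℤ) (hB : ∀ c : I → ℤ, (∀ j, ∑ i, c i * B i j = 0) → c = 0) {z : I → Ω}
    (hz : ∀ i, z i - ∑ j, B i j * w j ∈ E) : AlgebraicIndependent E (Sum.elim X z) := by
  classical
  obtain ⟨D, C, hD, hC⟩ := right_inv B hB
  obtain ⟨c, hc⟩ : ∃ c : I → E, ∀ i, (c i : Ω) = z i - ∑ j, B i j * w j :=
    ⟨fun i => ⟨_, hz i⟩, fun _ => rfl⟩
  obtain ⟨φ, hφ⟩ : ∃ φ : MvPolynomial (τ ⊕ I) E →ₐ[E] MvPolynomial (τ ⊕ Q) E,
      φ = MvPolynomial.aeval (Sum.elim (fun d => MvPolynomial.X (Sum.inl d)) fun i =>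
        MvPolynomial.C (c i) + ∑ j, (B i j : MvPolynomial (τ ⊕ Q) E) *
          MvPolynomial.X (Sum.inr j)) := ⟨_, rfl⟩
  obtain ⟨ψ, hψ⟩ : ∃ ψ : MvPolynomial (τ ⊕ Q) E →ₐ[E] MvPolynomial (τ ⊕ I) E,
      ψ = MvPolynomial.aeval (Sum.elim (fun d => MvPolynomial.X (Sum.inl d)) fun j =>
        MvPolynomial.C ((D : E)⁻¹) * ∑ i, (C j i : MvPolynomial (τ ⊕ I) E) *
          (MvPolynomial.X (Sum.inr i) - MvPolynomial.C (c i))) := ⟨_, rfl⟩
  have hDE : (D : E) ≠ 0 := Int.cast_ne_zero.2 hD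
  have hinv : (MvPolynomial.C ((D : E)⁻¹) : MvPolynomial (τ ⊕ I) E) * D = 1 := by
    rw [← map_intCast (MvPolynomial.C : E →+* MvPolynomial (τ ⊕ I) E), ← map_mul,
      inv_mul_cancel₀ hDE, map_one]
  have h1 : ψ.comp φ = AlgHom.id E _ := by
    refine MvPolynomial.algHom_ext fun x => ?_
    rcases x with d | i
    · simp [hφ, hψ]
    · have h2 : ∀ (u : MvPolynomial (τ ⊕ I) E) (y : I → MvPolynomial (τ ⊕ I) E),
          ∑ j, (B i j : MvPolynomial (τ ⊕ I) E) * (u * ∑ i', C j i' * y i') = u * D * y i := by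
        intro u y
        have h3 : ∀ i', ∑ j, (B i j : MvPolynomial (τ ⊕ I) E) * C j i' =
            if i = i' then (D : MvPolynomial (τ ⊕ I) E) else 0 := by
          intro i'
          have h4 := congrArg (Int.cast : ℤ → MvPolynomial (τ ⊕ I) E) (hC i i')
          push_cast at h4
          exact h4
        calc _ = ∑ j, ∑ i', u * y i' * ((B i j : MvPolynomial (τ ⊕ I) E) * C j i') := by
              refine Finset.sum_congr rfl fun j _ => ?_
              rw [Finset.mul_sum, Finset.mul_sum]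
              exact Finset.sum_congr rfl fun i' _ => by ring
          _ = ∑ i', u * y i' * ∑ j, (B i j : MvPolynomial (τ ⊕ I) E) * C j i' := by
              rw [Finset.sum_comm]
              exact Finset.sum_congr rfl fun i' _ => (Finset.mul_sum _ _ _).symm
          _ = _ := by
              simp only [h3, mul_ite, mul_zero, Finset.sum_ite_eq, Finset.mem_univ, if_true]
              ring
      rw [AlgHom.comp_apply, hφ, MvPolynomial.aeval_X, Sum.elim_inr, map_add, map_sum]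
      simp only [map_mul, map_intCast, hψ, MvPolynomial.aeval_X, Sum.elim_inr,
        MvPolynomial.aeval_C, MvPolynomial.algebraMap_eq]
      rw [h2, hinv, AlgHom.id_apply]
      ring
  have h2 : (MvPolynomial.aeval (Sum.elim X w) : MvPolynomial (τ ⊕ Q) E →ₐ[E] Ω).comp φ =
      MvPolynomial.aeval (Sum.elim X z) := by
    refine MvPolynomial.algHom_ext fun x => ?_
    rcases x with d | i
    · simp [hφ]
    · rw [AlgHom.comp_apply, hφ, MvPolynomial.aeval_X, Sum.elim_inr, map_add, map_sum]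
      simp only [map_mul, map_intCast, MvPolynomial.aeval_X, Sum.elim_inr, MvPolynomial.aeval_C]
      have h3 : algebraMap E Ω (c i) = z i - ∑ j, B i j * w j := hc i
      rw [h3]
      ring
  have h3 : Function.Injective φ :=
    Function.LeftInverse.injective (g := ψ) fun P => DFunLike.congr_fun h1 P
  unfold AlgebraicIndependent at h ⊢
  rw [← h2]
  exact h.comp h3

theorem lat_split {m : ℕ} (Λ : Submodule ℤ (Fin m → ℤ))
    (hsat : ∀ (k : ℤ) (x : Fin m → ℤ), k ≠ 0 → k • x ∈ Λ → x ∈ Λ) (hne : Λ ≠ ⊤) :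
    ∃ (m1 m2 : ℕ) (A : Fin m1 → Fin m → ℤ) (B : Fin m2 → Fin m → ℤ), m2 < m ∧ (∀ k, B k ∈ Λ) ∧
      (∀ ω : Fin m1 → ℤ, ∑ k, ω k • A k ∈ Λ → ω = 0) ∧
      ∀ x : Fin m → ℤ, ∃ (a : Fin m1 → ℤ) (b : Fin m2 → ℤ),
        x = ∑ k, a k • A k + ∑ k, b k • B k := by
  have ht : Module.IsTorsionFree ℤ ((Fin m → ℤ) ⧸ Λ) := by
    refine Module.IsTorsionFree.of_smul_eq_zero fun r y h => ?_
    obtain ⟨x, rfl⟩ := Λ.mkQ_surjective y
    by_cases hr : r = 0
    · exact Or.inl hr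
    · rw [← map_smul, Submodule.mkQ_apply, Submodule.Quotient.mk_eq_zero] at h
      exact Or.inr ((Submodule.Quotient.mk_eq_zero Λ).2 (hsat r x hr h))
  have hn : Nontrivial ((Fin m → ℤ) ⧸ Λ) := Submodule.Quotient.nontrivial_iff.2 hne
  obtain ⟨bN⟩ : Nonempty (Module.Basis (Fin (Module.finrank ℤ ((Fin m → ℤ) ⧸ Λ))) ℤ
    ((Fin m → ℤ) ⧸ Λ)) := ⟨Module.finBasis ℤ _⟩
  obtain ⟨bL⟩ : Nonempty (Module.Basis (Fin (Module.finrank ℤ Λ)) ℤ Λ) := ⟨Module.finBasis ℤ _⟩
  choose A hA using fun k => Λ.mkQ_surjective (bN k)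
  have hs : ∀ ω : _ → ℤ, Λ.mkQ (∑ k, ω k • A k) = ∑ k, ω k • bN k := by
    intro ω
    rw [map_sum]
    exact Finset.sum_congr rfl fun k _ => by rw [map_smul, hA]
  refine ⟨_, _, A, fun k => bL k, ?_, fun k => (bL k).2, fun ω h => ?_, fun x => ?_⟩
  · have h1 := Submodule.finrank_quotient_add_finrank Λ
    have h2 : 0 < Module.finrank ℤ ((Fin m → ℤ) ⧸ Λ) := Module.finrank_pos
    rw [Module.finrank_fin_fun] at h1
    omega
  · funext k
    refine Fintype.linearIndependent_iff.1 bN.linearIndependent ω ?_ k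
    rw [← hs]
    exact (Submodule.Quotient.mk_eq_zero Λ).2 h
  · have h1 : x - ∑ k, bN.repr (Λ.mkQ x) k • A k ∈ Λ := by
      rw [← Submodule.Quotient.mk_eq_zero, ← Submodule.mkQ_apply, map_sub, hs, bN.sum_repr,
        sub_self]
    refine ⟨fun k => bN.repr (Λ.mkQ x) k, fun k => bL.repr ⟨_, h1⟩ k, ?_⟩
    have h2 := congrArg Λ.subtype (bL.sum_repr ⟨_, h1⟩)
    rw [map_sum] at h2
    simp only [map_smul, Submodule.subtype_apply] at h2
    rw [h2]
    abel

end Pool.Agent.Work.MP_dd0d16_nt.T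
end

-- merged part: Pool.Agent.Work.MP_dd0d16_nt.G.SiRes
section
/-!
Stability of independence at a scale.

PLAN. `v_aeval_sub`: induction or `aeval_def`, `eval₂_eq`; for monomials `a b - a' b' =
a (b - b') + (a - a') b'`. `SI.perturb`: let `ν` be the place of a largest coefficient
(`exists_max_coeff`); `γ ^ c * v (coeff ν) ≤ v (P y)` and `v (P y' - P y) ≤ γ ^ (c + 1) * v (coeff ν)`,
so the values of `P y'` and `P y` agree (`Valuation.map_add_eq_of_lt_left`).
`si_join`: by `SI.perturb` twice it is enough to treat `t` in place of `T`. For `P` in the variables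
`σ ⊕ τ` let `P'` over `E'` be the polynomial in `σ` obtained by evaluating the variables of `τ` at `t`:
`P' = map (eval at t) (sumAlgEquiv E σ τ P)`; its coefficient at `μ1` is the value at `t` of
`coeff μ1 (sumAlgEquiv E σ τ P)`, whose coefficient at `μ2` is the coefficient of `P` at
`Finsupp.sumElim μ1 μ2` (`Finsupp.sumFinsuppEquivProdFinsupp`; prove it for monomials).
`si_lin`: `right_inv` gives `D`, `C`. Let `R = P (∑ j, B i j * Y j)`; substitution of `∑ i, C j i * Z i`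
gives `P (D * Z)`, whose coefficient at `μ` is `D ^ degree μ * coeff μ P`; a substitution by
polynomials with integral coefficients does not increase the largest coefficient (`v_coeff_prod`,
`v_coeff_pow`). `LF.nat` for `D.natAbs`. Then `SI.perturb`.
-/

set_option autoImplicit false

namespace Pool.Agent.Work.MP_dd0d16_nt.T

open MvPolynomial

variable {Ω Γ : Type} [Field Ω] [LinearOrderedCommGroupWithZero Γ] {v : Valuation Ω Γ}
  {L : Ω → Ω} {E E' : Subfield Ω} {p : ℕ} {γ : Γ} {σ τ : Type}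

theorem SiRes_mul {δ : Γ} {a b a' b' : Ω} (h : v a ≤ 1 ∧ v a' ≤ 1 ∧ v (a - a') ≤ δ)
    (k : v b ≤ 1 ∧ v b' ≤ 1 ∧ v (b - b') ≤ δ) :
    v (a * b) ≤ 1 ∧ v (a' * b') ≤ 1 ∧ v (a * b - a' * b') ≤ δ := by
  refine ⟨?_, ?_, ?_⟩
  · rw [map_mul]; exact mul_le_one' h.1 k.1
  · rw [map_mul]; exact mul_le_one' h.2.1 k.2.1
  · have e : a * b - a' * b' = a * (b - b') + (a - a') * b' := by ring
    rw [e]
    refine v.map_add_le ?_ ?_
    · rw [map_mul]; simpa using mul_le_mul' h.1 k.2.2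
    · rw [map_mul]; simpa using mul_le_mul' h.2.2 k.2.1

theorem SiRes_pow {δ : Γ} {a a' : Ω} (h : v a ≤ 1 ∧ v a' ≤ 1 ∧ v (a - a') ≤ δ) (n : ℕ) :
    v (a ^ n) ≤ 1 ∧ v (a' ^ n) ≤ 1 ∧ v (a ^ n - a' ^ n) ≤ δ := by
  induction n with
  | zero => simp
  | succ n ih => rw [pow_succ, pow_succ]; exact SiRes_mul ih h

theorem SiRes_prod {δ : Γ} (s : Finset σ) {a a' : σ → Ω}
    (h : ∀ i, v (a i) ≤ 1 ∧ v (a' i) ≤ 1 ∧ v (a i - a' i) ≤ δ) :
    v (∏ i ∈ s, a i) ≤ 1 ∧ v (∏ i ∈ s, a' i) ≤ 1 ∧ v (∏ i ∈ s, a i - ∏ i ∈ s, a' i) ≤ δ := by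
  classical
  induction s using Finset.induction_on with
  | empty => simp
  | insert i s hi ih => rw [Finset.prod_insert hi, Finset.prod_insert hi]; exact SiRes_mul (h i) ih

theorem v_aeval_sub {y y' : σ → Ω} (hy : ∀ s, v (y s) ≤ 1) (hy' : ∀ s, v (y' s) ≤ 1) {δ δ' : Γ}
    (h : ∀ s, v (y' s - y s) ≤ δ) {P : MvPolynomial σ E} (hP : ∀ μ, v (P.coeff μ : E) ≤ δ') :
    v (aeval y' P - aeval y P) ≤ δ * δ' := by
  rw [aeval_def, aeval_def, eval₂_eq, eval₂_eq, ← Finset.sum_sub_distrib]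
  refine v.map_sum_le fun μ _ => ?_
  rw [← mul_sub, map_mul, mul_comm]
  exact mul_le_mul' (SiRes_prod μ.support fun i => SiRes_pow ⟨hy' i, hy i, h i⟩ (μ i)).2.2 (hP μ)

theorem SiRes_int {a b : Ω} (ha : v a ≤ 1) (h : Inf v γ (b - a)) : v b ≤ 1 := by
  have e : b = a + (b - a) := by ring
  rw [e]
  exact v.map_add_le ha (by simpa using h 0)

theorem SiRes_neg {a b : Ω} (h : Inf v γ (b - a)) : Inf v γ (a - b) := fun c => by
  rw [v.map_sub_swap]; exact h c

theorem SI.perturb (h0 : γ ≠ 0) (h1 : γ < 1) {y y' : σ → Ω} (hs : SI v E γ y)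
    (hy : ∀ s, v (y s) ≤ 1) (h : ∀ s, Inf v γ (y' s - y s)) : SI v E γ y' := by
  intro P μ
  by_cases hP : P = 0
  · exact ⟨0, by simp [hP]⟩
  obtain ⟨ν, hν, hm⟩ := exists_max_coeff v hP
  obtain ⟨c, hc⟩ := hs P ν
  have hv : 0 < v (P.coeff ν : E) := by
    rw [zero_lt_iff, v.ne_zero_iff]
    exact fun e => hν (Subtype.ext e)
  have hd := v_aeval_sub hy (fun s => SiRes_int (hy s) (h s)) (fun s => h s (c + 1)) hm
  have hlt : γ ^ (c + 1) * v (P.coeff ν : E) < γ ^ c * v (P.coeff ν : E) := by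
    refine mul_lt_mul_of_pos_right ?_ hv
    rw [pow_succ]
    exact mul_lt_of_lt_one_right (zero_lt_iff.2 (pow_ne_zero _ h0)) h1
  have e : aeval y' P = aeval y P + (aeval y' P - aeval y P) := by ring
  refine ⟨c, ?_⟩
  rw [e, v.map_add_eq_of_lt_left (hd.trans_lt (hlt.trans_le hc))]
  exact (mul_le_mul' le_rfl (hm μ)).trans hc

theorem SiRes_coeff {R : Type} [CommRing R] (P : MvPolynomial (σ ⊕ τ) R) (a : σ →₀ ℕ)
    (b : τ →₀ ℕ) : ((sumAlgEquiv R σ τ P).coeff a).coeff b = P.coeff (a.sumElim b) := by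
  simp [sumAlgEquiv, coeff, AddMonoidAlgebra.curryAlgEquiv, AddMonoidAlgebra.curryRingEquiv,
    AddMonoidAlgebra.curryAddEquiv]

theorem si_join (h0 : γ ≠ 0) (h1 : γ < 1) (hE : E ≤ E') {y : σ → Ω} {T t : τ → Ω}
    (hy : ∀ s, v (y s) ≤ 1) (hs : SI v E' γ y) (hT : ∀ i, v (T i) ≤ 1) (hT' : SI v E γ T)
    (ht : ∀ i, t i ∈ E' ∧ Inf v γ (T i - t i)) : SI v E γ (Sum.elim y T) := by
  have hti : ∀ i, v (t i) ≤ 1 := fun i => SiRes_int (hT i) (SiRes_neg (ht i).2)
  have hst : SI v E γ t := hT'.perturb h0 h1 hT fun i => SiRes_neg (ht i).2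
  have key : SI v E γ (Sum.elim y t) := by
    intro P μ
    let φ : MvPolynomial τ E →+* E' := eval₂Hom (Subfield.inclusion hE) fun i => ⟨t i, (ht i).1⟩
    have hφ : ∀ Q : MvPolynomial τ E, (φ Q : Ω) = aeval t Q := by
      intro Q
      have : E'.subtype.comp φ = (aeval t : MvPolynomial τ E →ₐ[E] Ω).toRingHom := by
        ext x
        · simp [φ]; rfl
        · simp [φ]
      exact RingHom.congr_fun this Q
    have hev : aeval y (MvPolynomial.map φ (sumAlgEquiv E σ τ P)) = aeval (Sum.elim y t) P := by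
      have : ((aeval y : MvPolynomial σ E' →ₐ[E'] Ω).toRingHom.comp (MvPolynomial.map φ)).comp
          (sumAlgEquiv E σ τ).toRingEquiv.toRingHom =
          (aeval (Sum.elim y t) : MvPolynomial (σ ⊕ τ) E →ₐ[E] Ω).toRingHom := by
        ext x
        · simp [φ]; rfl
        · rcases x with x | x
          · simp
          · simp [φ]; rfl
      exact RingHom.congr_fun this P
    obtain ⟨⟨a, b⟩, rfl⟩ := (Finsupp.sumFinsuppEquivProdFinsupp (α := σ) (β := τ) (γ := ℕ)).symm.surjective μ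
    obtain ⟨c, hc⟩ := hs (MvPolynomial.map φ (sumAlgEquiv E σ τ P)) a
    obtain ⟨c', hc'⟩ := hst ((sumAlgEquiv E σ τ P).coeff a) b
    rw [hev, coeff_map, hφ] at hc
    rw [SiRes_coeff] at hc'
    refine ⟨c + c', le_trans ?_ hc⟩
    rw [pow_add, mul_assoc]
    exact mul_le_mul' le_rfl hc'
  refine key.perturb h0 h1 ?_ ?_
  · rintro (s | s)
    · exact hy s
    · exact hti s
  · rintro (s | s)
    · simpa using LF_inf_zero
    · exact (ht s).2

theorem SiRes_intv (v : Valuation Ω Γ) (n : ℤ) : v (n : Ω) ≤ 1 := by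
  obtain ⟨k, rfl | rfl⟩ := Int.eq_nat_or_neg n
  · simpa using Theta_nat v k
  · simpa using Theta_nat v k

theorem SiRes_bind {f : σ → MvPolynomial τ E} (hf : ∀ s μ, v ((f s).coeff μ : E) ≤ 1)
    {P : MvPolynomial σ E} {δ : Γ} (hP : ∀ μ, v (P.coeff μ : E) ≤ δ) (ν : τ →₀ ℕ) :
    v ((aeval f P).coeff ν : E) ≤ δ := by
  rw [aeval_def, eval₂_eq, coeff_sum]
  push_cast
  refine v.map_sum_le fun μ _ => ?_
  rw [algebraMap_eq, coeff_C_mul]
  push_cast
  rw [map_mul]
  simpa using mul_le_mul' (hP μ) (v_coeff_prod μ.support (fun i => f i ^ μ i)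
    (fun i => v_coeff_pow (hf i) (μ i)) ν)

theorem SiRes_scale {R : Type} [CommRing R] (D : R) (P : MvPolynomial σ R) (μ : σ →₀ ℕ) :
    (aeval (fun i => C D * X i : σ → MvPolynomial σ R) P).coeff μ =
      D ^ (μ.sum fun _ n => n) * P.coeff μ := by
  classical
  induction P using MvPolynomial.induction_on' with
  | monomial d a =>
    have e : aeval (fun i => C D * X i : σ → MvPolynomial σ R) (monomial d a) =
        monomial d (D ^ (d.sum fun _ n => n) * a) := by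
      rw [aeval_monomial, monomial_eq, algebraMap_eq]
      simp only [mul_pow, Finsupp.prod, Finset.prod_mul_distrib, Finsupp.sum,
        Finset.prod_pow_eq_pow_sum, map_mul, map_pow]
      ring
    rw [e, coeff_monomial, coeff_monomial]
    split_ifs with hd
    · rw [hd]
    · simp
  | add P Q hP hQ => rw [map_add, coeff_add, hP, hQ, coeff_add, mul_add]

theorem SiRes_lin {I : Type} [Fintype I] (c : I → ℤ) (μ : I →₀ ℕ) :
    v ((∑ i, C (c i : E) * X i : MvPolynomial I E).coeff μ : E) ≤ 1 := by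
  classical
  rw [coeff_sum]
  push_cast
  refine v.map_sum_le fun i _ => ?_
  rw [coeff_C_mul, coeff_X]
  split_ifs
  · simpa using SiRes_intv v (c i)
  · simp

theorem si_lin [CharZero Ω] (h : LF p v L E) {I Q : Type} [Fintype I] [Fintype Q] {T : Q → Ω}
    (hT : ∀ j, v (T j) ≤ 1) (hs : SI v E (v p) T) (B : I → Q → ℤ)
    (hB : ∀ c : I → ℤ, (∀ j, ∑ i, c i * B i j = 0) → c = 0) {z : I → Ω}
    (hz : ∀ i, Inf v (v p) (z i - ∑ j, B i j * T j)) : SI v E (v p) z := by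
  classical
  obtain ⟨D, A, hD, hA⟩ := right_inv B hB
  obtain ⟨d, hd⟩ := h.nat D.natAbs (Int.natAbs_ne_zero.2 hD)
  have hd' : v (p : Ω) ^ d ≤ v (D : Ω) := by
    rcases Int.natAbs_eq D with e | e
    · rw [e]; simpa using hd
    · rw [e]; simpa using hd
  have key : SI v E (v p) fun i => ∑ j, (B i j : Ω) * T j := by
    intro P μ
    set R : MvPolynomial Q E := aeval (fun i => ∑ j, C (B i j : E) * X j) P with hR
    have h1 : aeval T R = aeval (fun i => ∑ j, (B i j : Ω) * T j) P := by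
      rw [hR, ← AlgHom.comp_apply, comp_aeval]
      simp
    have h2 : aeval (fun j => ∑ i, C (A j i : E) * X i : Q → MvPolynomial I E) R =
        aeval (fun i => C (D : E) * X i : I → MvPolynomial I E) P := by
      rw [hR, ← AlgHom.comp_apply, comp_aeval]
      congr 2
      funext i
      simp only [map_sum, map_mul, aeval_X, aeval_C, algebraMap_eq, Finset.mul_sum]
      rw [Finset.sum_comm]
      have : ∀ i', ∑ j, C (B i j : E) * (C (A j i' : E) * X i' : MvPolynomial I E) =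
          if i = i' then C (D : E) * X i' else 0 := by
        intro i'
        simp only [← mul_assoc, ← map_mul, ← Finset.sum_mul, ← map_sum, ← Int.cast_mul,
          ← Int.cast_sum, hA]
        split_ifs <;> simp
      rw [Finset.sum_congr rfl fun i' _ => this i', Finset.sum_ite_eq, if_pos (Finset.mem_univ _)]
    by_cases hR0 : R = 0
    · have h3 := SiRes_scale (D : E) P μ
      rw [← h2, hR0] at h3
      have h4 : P.coeff μ = 0 := by
        have : (D : E) ≠ 0 := by exact_mod_cast hD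
        simpa [this] using h3.symm
      exact ⟨0, by simp [h4]⟩
    obtain ⟨ν, -, hm⟩ := exists_max_coeff v hR0
    obtain ⟨c, hc⟩ := hs R ν
    have h3 := SiRes_bind (fun j μ => SiRes_lin (v := v) (E := E) (A j) μ) hm μ
    rw [h2, SiRes_scale] at h3
    push_cast at h3
    rw [map_mul, map_pow] at h3
    refine ⟨c + d * μ.sum fun _ n => n, ?_⟩
    rw [← h1, pow_add, pow_mul, mul_assoc]
    refine le_trans (mul_le_mul' le_rfl (le_trans ?_ h3)) hc
    exact mul_le_mul' (pow_le_pow_left' hd' _) le_rfl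
  refine key.perturb h.p0 h.p1 (fun i => v.map_sum_le fun j _ => ?_) hz
  rw [map_mul]
  exact mul_le_one' (SiRes_intv v _) (hT j)

end Pool.Agent.Work.MP_dd0d16_nt.T
end

-- merged part: Pool.Agent.Work.MP_dd0d16_nt.G.TaLin
section
/-!
Linearisation of an algebraic relation.

PLAN. `taylor1`: induction on `P` (`MvPolynomial.induction_on`) for the statement over a commutative
ring, `∃ R, eval (x + t • y) P = eval x P + t * ∑ i, eval x (pderiv i P) * y i + t ^ 2 * R`; apply it in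
the ring `v.integer` (lift the coefficients, `AxCore_lift` or `P.as_sum`), or prove the bound directly
for monomials.
`min_rel`: `AxCore_norm` gives `P` with integral coefficients, one of them not infinitesimal, and
infinitesimal value. Strong induction on the total degree. Some coefficient at `ν ≠ 0` is not
infinitesimal (otherwise `P y - coeff 0 P` is infinitesimal by `v_aeval_le`, hence all coefficients
are). If `ν i ≠ 0` then `pderiv i P` has the coefficient `ν i * coeff ν P` at `ν - single i 1`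
(`coeff_pderiv`, `LF.nat`, `not_inf_mul`, `not_inf_of_le`), integral coefficients, and a smaller total
degree (every monomial of it has degree `< totalDegree P`).
`ta_lin`: `P`, `i1`, `c` with `v p ^ c < v (G i1)`, `G i = (pderiv i P) (T · 0)`. Put `n0 = c + 2`,
`H n i = T i 0 - p ^ n * T i n ∈ F n`, `G' i = (pderiv i P) (H n0) ∈ F n0`,
`v (G' i - G i) ≤ v p ^ n0` (`v_aeval_sub`). `i0` is a place where `v (G' i)` is largest, so
`v p ^ c < v (G' i0)`; `g i = G' i / G' i0`, `z = - P (H n) / (p ^ (n + 1) * G' i0)`; `taylor1` with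
`t = - p ^ n`.
-/

set_option autoImplicit false

namespace Pool.Agent.Work.MP_dd0d16_nt.T

open MvPolynomial

variable {Ω Γ : Type} [Field Ω] [LinearOrderedCommGroupWithZero Γ] {v : Valuation Ω Γ}
  {L : Ω → Ω} {E : Subfield Ω} {p : ℕ} {Q : Type} [Fintype Q]

theorem TaLin_ring {R : Type} [CommRing R] (x y : Q → R) (t : R) (P : MvPolynomial Q R) :
    ∃ r, eval (fun i => x i + t * y i) P =
      eval x P + t * ∑ i, eval x (pderiv i P) * y i + t ^ 2 * r := by
  classical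
  induction P using MvPolynomial.induction_on with
  | C a => exact ⟨0, by simp⟩
  | add P P' h h' =>
    obtain ⟨r, h⟩ := h
    obtain ⟨r', h'⟩ := h'
    refine ⟨r + r', ?_⟩
    simp only [map_add, add_mul, Finset.sum_add_distrib, h, h']
    ring
  | mul_X P j h =>
    obtain ⟨r, h⟩ := h
    refine ⟨(∑ i, eval x (pderiv i P) * y i) * y j + r * (x j + t * y j), ?_⟩
    have k : ∑ i, eval x (pderiv i (P * X j)) * y i =
        eval x P * y j + (∑ i, eval x (pderiv i P) * y i) * x j := by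
      rw [Finset.sum_mul, ← Finset.sum_ite_eq_of_mem Finset.univ j (fun i => eval x P * y i)
        (Finset.mem_univ j), ← Finset.sum_add_distrib]
      refine Finset.sum_congr rfl fun i _ => ?_
      rw [Derivation.leibniz, pderiv_X, Pi.single_apply]
      split_ifs <;> simp <;> ring
    rw [map_mul, map_mul, eval_X, eval_X, h, k]
    ring

theorem taylor1 {x y : Q → Ω} (hx : ∀ i, v (x i) ≤ 1) (hy : ∀ i, v (y i) ≤ 1) {t : Ω}
    (ht : v t ≤ 1) {P : MvPolynomial Q E} (hP : ∀ μ, v (P.coeff μ : E) ≤ 1) :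
    v (aeval (fun i => x i + t * y i) P - aeval x P - t * ∑ i, aeval x (pderiv i P) * y i) ≤
      v t ^ 2 := by
  obtain ⟨P', hP'⟩ := AxCore_lift v.integer (map (algebraMap E Ω) P) fun μ => by
    rw [coeff_map]
    exact hP μ
  obtain ⟨r, hr⟩ := TaLin_ring (R := v.integer) (fun i => ⟨x i, hx i⟩) (fun i => ⟨y i, hy i⟩)
    ⟨t, ht⟩ P'
  have k := congrArg v.integer.subtype hr
  simp only [map_add, map_mul, map_sum, map_pow, map_eval, ← pderiv_map, hP'] at k
  simp only [pderiv_map, eval_map, ← aeval_def] at k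
  have k' : aeval (fun i => x i + t * y i) P =
      aeval x P + t * ∑ i, aeval x (pderiv i P) * y i + t ^ 2 * r := k
  rw [k', show ∀ a b c : Ω, a + b + c - a - b = c from fun a b c => by ring, map_mul, map_pow]
  exact mul_le_of_le_one_right' r.2

omit [Fintype Q] in
theorem TaLin_der {P : MvPolynomial Q E} (hP : ∀ μ, v (P.coeff μ : E) ≤ 1) (i : Q) (μ : Q →₀ ℕ) :
    v ((pderiv i P).coeff μ : E) ≤ 1 := by
  rw [coeff_pderiv]
  push_cast
  rw [map_mul]
  refine mul_le_one' (hP _) ?_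
  exact_mod_cast natCast_mem v.integer (μ i + 1)

theorem TaLin_ind (h : LF p v L E) {y : Q → Ω} (hy : ∀ i, v (y i) ≤ 1) (n : ℕ) :
    ∀ P : MvPolynomial Q E, (∀ μ, P.coeff μ ≠ 0 → μ.degree < n) → (∀ μ, v (P.coeff μ : E) ≤ 1) →
      (∃ ν, ¬ Inf v (v p) (P.coeff ν : E)) → Inf v (v p) (aeval y P) →
      ∃ (P : MvPolynomial Q E) (i : Q), (∀ μ, v (P.coeff μ : E) ≤ 1) ∧ Inf v (v p) (aeval y P) ∧
        ¬ Inf v (v p) (aeval y (pderiv i P)) := by
  classical
  induction n with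
  | zero =>
    rintro P h1 - ⟨ν, h3⟩ -
    have : P.coeff ν = 0 := by_contra fun k => Nat.not_lt_zero _ (h1 ν k)
    rw [this] at h3
    exact (h3 LF_inf_zero).elim
  | succ n ih =>
    rintro P h1 h2 ⟨ν, h3⟩ h4
    obtain ⟨ν, n0, n1⟩ : ∃ ν, ν ≠ 0 ∧ ¬ Inf v (v p) (P.coeff ν : E) := by
      by_contra k
      have k1 : ∀ μ, μ ≠ 0 → Inf v (v p) (P.coeff μ : E) := fun μ r => by_contra fun r' => k ⟨μ, r, r'⟩
      refine h3 ?_
      by_cases r : ν = 0
      · intro c
        have k2 : v (aeval y (P - C (P.coeff 0))) ≤ v p ^ c := v_aeval_le hy fun μ => by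
          rw [coeff_sub, coeff_C]
          split_ifs with r'
          · rw [← r', sub_self]
            exact LF_inf_zero c
          · rw [sub_zero]
            exact k1 μ (Ne.symm r') c
        have k3 := v.map_sub_le (h4 c) k2
        rw [map_sub (aeval (R := E) y), aeval_C, sub_sub_cancel] at k3
        rw [r]
        exact k3
      · exact k1 ν r
    obtain ⟨i, hi⟩ : ∃ i, ν i ≠ 0 := by
      by_contra k
      exact n0 (Finsupp.ext fun i => by_contra fun r => k ⟨i, r⟩)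
    by_cases h5 : Inf v (v p) (aeval y (pderiv i P))
    · refine ih (pderiv i P) (fun μ hμ => ?_) (TaLin_der h2 i) ⟨ν - Finsupp.single i 1, ?_⟩ h5
      · rw [coeff_pderiv] at hμ
        have := h1 _ (left_ne_zero_of_mul hμ)
        rw [map_add, Finsupp.degree_single] at this
        omega
      · rw [coeff_pderiv, tsub_add_cancel_of_le (Finsupp.single_le_iff.2 (by omega))]
        obtain ⟨c, hc⟩ := h.nat ((ν - Finsupp.single i 1 : Q →₀ ℕ) i + 1) (Nat.succ_ne_zero _)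
        have := not_inf_mul h.p1.le n1 (not_inf_of_le h.p0 h.p1 hc)
        push_cast at this ⊢
        exact this
    · exact ⟨P, i, h2, h4, h5⟩

theorem min_rel (h : LF p v L E) {y : Q → Ω} (hy : ∀ i, v (y i) ≤ 1) (hn : ¬ SI v E (v p) y) :
    ∃ (P : MvPolynomial Q E) (i : Q), (∀ μ, v (P.coeff μ : E) ≤ 1) ∧ Inf v (v p) (aeval y P) ∧
      ¬ Inf v (v p) (aeval y (pderiv i P)) := by
  obtain ⟨P, ν, h1, h2, h3⟩ := AxCore_norm hn
  refine TaLin_ind h hy (P.support.sup Finsupp.degree + 1) P (fun μ hμ => Nat.lt_succ_of_le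
    (Finset.le_sup (f := Finsupp.degree) (mem_support_iff.2 hμ))) h2 ⟨ν, ?_⟩ h3
  rw [h1]
  exact not_inf_of_le h.p0 h.p1 (c := 0) (by simp)

omit [Fintype Q] in
theorem TaLin_mem {E' : Subfield Ω} (hE : E ≤ E') {x : Q → Ω} (hx : ∀ i, x i ∈ E')
    (P : MvPolynomial Q E) : aeval x P ∈ E' := by
  induction P using MvPolynomial.induction_on with
  | C a =>
    rw [aeval_C]
    exact hE a.2
  | add P P' h h' =>
    rw [map_add]
    exact add_mem h h'
  | mul_X P j h =>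
    rw [map_mul, aeval_X]
    exact mul_mem h (hx j)

theorem ta_lin (F : ℕ → Subfield Ω) (h : LF p v L (F 0)) (hF : Monotone F) (T : Q → ℕ → Ω)
    (hT : ∀ i n, v (T i n) ≤ 1) (hH : ∀ i n, T i 0 - p ^ n * T i n ∈ F n)
    (hn : ¬ SI v (F 0) (v p) fun i => T i 0) :
    ∃ (g : Q → Ω) (i0 : Q) (n0 : ℕ), g i0 = 1 ∧ (∀ i, v (g i) ≤ 1) ∧ ∀ n, n0 ≤ n →
      (∀ i, g i ∈ F n) ∧ ∃ z ∈ F n, v (z - ∑ i, g i * (T i n / p)) ≤ v p := by
  obtain ⟨P, i1, h1, h2, h3⟩ := min_rel h (fun i => hT i 0) hn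
  obtain ⟨c, hc⟩ : ∃ c : ℕ, v p ^ c < v (aeval (fun i => T i 0) (pderiv i1 P)) := by
    by_contra k
    exact h3 fun c => not_lt.1 fun r => k ⟨c, r⟩
  have hp : (p : Ω) ≠ 0 := fun k => h.p0 (by rw [k, map_zero])
  have vp : ∀ n : ℕ, v ((p : Ω) ^ n) ≤ 1 := fun n => by
    rw [map_pow]
    exact pow_le_one' h.p1.le n
  have vH : ∀ n i, v (T i 0 - p ^ n * T i n) ≤ 1 := fun n i =>
    v.map_sub_le (hT i 0) (by rw [map_mul]; exact mul_le_one' (vp n) (hT i n))
  obtain ⟨G, hG⟩ : ∃ G : Q → Ω,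
      G = fun i => aeval (fun j => T j 0 - p ^ (c + 2) * T j (c + 2)) (pderiv i P) := ⟨_, rfl⟩
  have g1 : ∀ i, G i ∈ F (c + 2) := fun i =>
    hG ▸ TaLin_mem (hF (Nat.zero_le _)) (fun j => hH j _) _
  have g2 : ∀ i, v (G i - aeval (fun i => T i 0) (pderiv i P)) ≤ v p ^ (c + 2) := fun i => by
    have := v_aeval_sub (fun i => hT i 0) (vH (c + 2)) (δ := v p ^ (c + 2)) (fun j => by
      rw [sub_sub_cancel_left, v.map_neg, map_mul, map_pow]
      exact mul_le_of_le_one_right' (hT j _)) (TaLin_der h1 i)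
    rw [mul_one] at this
    rw [hG]
    exact this
  obtain ⟨i0, -, hi0⟩ := Finset.exists_max_image Finset.univ (fun i => v (G i))
    ⟨i1, Finset.mem_univ _⟩
  have g3 : v p ^ c < v (G i0) := by
    refine lt_of_lt_of_le ?_ (hi0 i1 (Finset.mem_univ _))
    have k : v (G i1 - aeval (fun i => T i 0) (pderiv i1 P)) <
        v (aeval (fun i => T i 0) (pderiv i1 P)) :=
      ((g2 i1).trans (pow_le_pow_right_of_le_one' h.p1.le (by omega))).trans_lt hc
    have k' := v.map_add_eq_of_lt_right k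
    rw [sub_add_cancel] at k'
    exact k'.symm ▸ hc
  have g4 : 0 < v (G i0) := lt_of_le_of_lt zero_le g3
  have g5 : G i0 ≠ 0 := fun k => by simp [k] at g4
  refine ⟨fun i => G i / G i0, i0, c + 2, div_self g5, fun i => ?_, fun n hn => ⟨fun i =>
    hF hn (div_mem (g1 i) (g1 i0)), -aeval (fun j => T j 0 - p ^ n * T j n) P / (p ^ (n + 1) * G i0),
    div_mem (neg_mem (TaLin_mem (hF (Nat.zero_le _)) (fun j => hH j _) _))
      (mul_mem (pow_mem (natCast_mem _ _) _) (hF hn (g1 i0))), ?_⟩⟩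
  · rw [map_div₀]
    exact div_le_one_of_le₀ (hi0 i (Finset.mem_univ _)) zero_le
  · have t1 := taylor1 (fun i => hT i 0) (fun i => hT i n) (t := -(p : Ω) ^ n)
      (by rw [v.map_neg]; exact vp n) h1
    simp only [neg_mul, ← sub_eq_add_neg, v.map_neg, map_pow] at t1
    have t2 : v (p ^ n * ∑ i, (G i - aeval (fun i => T i 0) (pderiv i P)) * T i n) ≤
        v p ^ (n + (c + 2)) := by
      rw [map_mul, map_pow, pow_add]
      refine mul_le_mul_right (v.map_sum_le fun i _ => ?_) _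
      rw [map_mul]
      exact (mul_le_of_le_one_right' (hT i n)).trans (g2 i)
    have t3 := v.map_add_le (v.map_add_le (t1.trans (by
      rw [← pow_mul]
      exact pow_le_pow_right_of_le_one' h.p1.le (by omega))) (h2 (n + (c + 2)))) t2
    have e : -aeval (fun j => T j 0 - p ^ n * T j n) P / (p ^ (n + 1) * G i0) -
        ∑ i, G i / G i0 * (T i n / p) =
        -(aeval (fun j => T j 0 - p ^ n * T j n) P + p ^ n * ∑ i, G i * T i n) /
          (p ^ (n + 1) * G i0) := by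
      have : ∑ i, G i / G i0 * (T i n / p) = (∑ i, G i * T i n) / (G i0 * p) := by
        rw [Finset.sum_div]
        exact Finset.sum_congr rfl fun i _ => div_mul_div_comm _ _ _ _
      rw [this]
      field_simp
      ring
    have e' : ∑ i, (G i - aeval (fun i => T i 0) (pderiv i P)) * T i n =
        ∑ i, G i * T i n - ∑ i, aeval (fun i => T i 0) (pderiv i P) * T i n := by
      simp only [sub_mul, Finset.sum_sub_distrib]
    rw [e', show ∀ a b s s' q : Ω, a - b - -(q * s) + b + q * (s' - s) = a + q * s' from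
      fun a b s s' q => by ring] at t3
    rw [e, map_div₀, v.map_neg, map_mul, map_pow,
      div_le_iff₀ (mul_pos (pow_pos (zero_lt_iff.2 h.p0) _) g4)]
    refine t3.trans ?_
    rw [show n + (c + 2) = 1 + ((n + 1) + c) by ring, pow_add, pow_one, pow_add _ (n + 1)]
    exact mul_le_mul_right (mul_le_mul_right g3.le _) _

end Pool.Agent.Work.MP_dd0d16_nt.T
end

-- merged part: Pool.Agent.Work.MP_dd0d16_nt.G.Alg2
section
/-!
Factorisation of polynomials.

PLAN. `factor1`: `MvPolynomial σ k` is a unique factorisation domain. Let `T` be the finite set of all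
members of `UniqueFactorizationMonoid.normalizedFactors (f i)` (take a `NormalizationMonoid` from
`UniqueFactorizationMonoid.normalizationMonoid`; or use `Associates.factors` and `Quot.out`); two
members that divide each other are equal. `Q` is the subtype of the members with two monomials. A
prime with exactly one monomial is `C c * monomial μ 1`; collect these factors and the unit
(`MvPolynomial.isUnit_iff_eq_C_of_isReduced`) into `C κ * monomial ω 1` (the set of such polynomials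
with `κ ≠ 0` is closed under products; induction on the multiset of factors, with
`o i q = count q`). An alternative is induction over `UniqueFactorizationMonoid.induction_on_prime`.
`not_dvd_of_lam`: if `D = π * t` then `D ≠ 0` (else `lam` vanishes on the support), total degrees
(`totalDegree_mul_of_isDomain`, the support of `D` lies in the support of `π`) give `t = C c`, so
`lam μ = c` on the support.
`factor2`: `π i` divides all terms except the `i`-th one; `Prime.dvd_or_dvd`, `Prime.dvd_of_dvd_pow`,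
`Prime.exists_mem_finset_dvd`; a prime does not divide a nonzero constant.
-/

set_option autoImplicit false

namespace Pool.Agent.Work.MP_dd0d16_nt.T

open MvPolynomial

variable {k σ : Type} [Field k]

theorem Alg2_mono {x : MvPolynomial σ k} (hx : x ≠ 0)
    (h : ¬ ∃ μ ν, μ ≠ ν ∧ x.coeff μ ≠ 0 ∧ x.coeff ν ≠ 0) : ∃ μ c, c ≠ 0 ∧ x = monomial μ c := by
  classical
  obtain ⟨μ, hμ⟩ := exists_coeff_ne_zero hx
  refine ⟨μ, _, hμ, MvPolynomial.ext _ _ fun ν => ?_⟩
  rw [coeff_monomial]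
  split_ifs with e
  · rw [e]
  · exact by_contra fun k => h ⟨μ, ν, e, hμ, k⟩

theorem Alg2_prod (T : Finset (MvPolynomial σ k)) (s : Multiset (MvPolynomial σ k))
    (hs : ∀ x ∈ s, x ∈ T ∨ ∃ μ c, c ≠ 0 ∧ x = monomial μ c) :
    ∃ (o : T → ℕ) (c : k) (ω : σ →₀ ℕ), c ≠ 0 ∧ s.prod = monomial ω c * ∏ q : T, q.1 ^ o q := by
  classical
  induction s using Multiset.induction_on with
  | empty => exact ⟨0, 1, 0, one_ne_zero, by simp⟩
  | cons x s ih =>
    obtain ⟨o, c, ω, h1, h2⟩ := ih fun y hy => hs y (Multiset.mem_cons_of_mem hy)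
    rw [Multiset.prod_cons, h2]
    rcases hs x (Multiset.mem_cons_self _ _) with h | ⟨μ, d, h, rfl⟩
    · refine ⟨fun q => o q + if q = ⟨x, h⟩ then 1 else 0, c, ω, h1, ?_⟩
      simp only [pow_add, pow_ite, pow_one, pow_zero, Finset.prod_mul_distrib, Finset.prod_ite_eq',
        Finset.mem_univ, if_true]
      ring
    · exact ⟨o, d * c, μ + ω, mul_ne_zero h h1, by rw [← mul_assoc, monomial_mul]⟩

theorem factor1 [Fintype σ] {I : Type} [Fintype I] (f : I → MvPolynomial σ k) (hf : ∀ i, f i ≠ 0) :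
    ∃ (Q : Type) (_ : Fintype Q) (π : Q → MvPolynomial σ k) (o : I → Q → ℕ) (κ : I → k)
      (ω : I → σ →₀ ℕ), (∀ q, Prime (π q)) ∧ (∀ q q', π q ∣ π q' → q = q') ∧
      (∀ q, ∃ μ ν, μ ≠ ν ∧ (π q).coeff μ ≠ 0 ∧ (π q).coeff ν ≠ 0) ∧
      ∀ i, κ i ≠ 0 ∧ f i = monomial (ω i) (κ i) * ∏ q, π q ^ o i q := by
  classical
  let _ : StrongNormalizationMonoid (MvPolynomial σ k) :=
    UniqueFactorizationMonoid.strongNormalizationMonoid
  let T : Finset (MvPolynomial σ k) := (Finset.univ.biUnion fun i =>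
    (UniqueFactorizationMonoid.normalizedFactors (f i)).toFinset).filter
      fun x => ∃ μ ν, μ ≠ ν ∧ x.coeff μ ≠ 0 ∧ x.coeff ν ≠ 0
  have hT : ∀ q : T, Prime q.1 ∧ normalize q.1 = q.1 := fun q => by
    obtain ⟨i, -, hi⟩ := Finset.mem_biUnion.1 (Finset.mem_filter.1 q.2).1
    exact ⟨UniqueFactorizationMonoid.prime_of_normalized_factor _ (Multiset.mem_toFinset.1 hi),
      UniqueFactorizationMonoid.normalize_normalized_factor _ (Multiset.mem_toFinset.1 hi)⟩
  have key : ∀ i, ∃ (o : T → ℕ) (c : k) (ω : σ →₀ ℕ), c ≠ 0 ∧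
      f i = monomial ω c * ∏ q : T, q.1 ^ o q := fun i => by
    obtain ⟨o, c, ω, h1, h2⟩ := Alg2_prod T (UniqueFactorizationMonoid.normalizedFactors (f i))
      fun x hx => by
        by_cases h : ∃ μ ν, μ ≠ ν ∧ x.coeff μ ≠ 0 ∧ x.coeff ν ≠ 0
        · exact Or.inl (Finset.mem_filter.2 ⟨Finset.mem_biUnion.2
            ⟨i, Finset.mem_univ _, Multiset.mem_toFinset.2 hx⟩, h⟩)
        · exact Or.inr (Alg2_mono
            (UniqueFactorizationMonoid.prime_of_normalized_factor _ hx).ne_zero h)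
    obtain ⟨u, hu⟩ := UniqueFactorizationMonoid.prod_normalizedFactors (hf i)
    obtain ⟨r, h3, h4⟩ := isUnit_iff_eq_C_of_isReduced.1 u.isUnit
    refine ⟨o, c * r, ω, mul_ne_zero h1 h3.ne_zero, ?_⟩
    rw [← hu, h2, h4, mul_right_comm, C_apply, monomial_mul, add_zero]
  choose o κ ω h1 h2 using key
  refine ⟨T, inferInstance, Subtype.val, o, κ, ω, fun q => (hT q).1, fun q q' h => Subtype.ext ?_,
    fun q => (Finset.mem_filter.1 q.2).2, fun i => ⟨h1 i, h2 i⟩⟩
  rw [← (hT q).2, ← (hT q').2]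
  exact normalize_eq_normalize_iff_associated.2
    (((hT q).1.dvd_prime_iff_associated (hT q').1).1 h)

theorem not_dvd_of_lam {π D : MvPolynomial σ k} (lam : (σ →₀ ℕ) → k)
    (hD : ∀ μ, D.coeff μ = lam μ * π.coeff μ) {μ ν : σ →₀ ℕ} (hμ : π.coeff μ ≠ 0)
    (hν : π.coeff ν ≠ 0) (h : lam μ ≠ lam ν) : ¬ π ∣ D := by
  rintro ⟨t, rfl⟩
  have h0 : π ≠ 0 := fun e => hμ (by rw [e, coeff_zero])
  obtain ⟨c, rfl⟩ : ∃ c, t = C c := by
    by_cases ht : t = 0
    · exact ⟨0, by rw [ht, C_0]⟩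
    · have h1 := totalDegree_mul_of_isDomain h0 ht
      have h2 : (π * t).totalDegree ≤ π.totalDegree := totalDegree_le_of_support_subset fun x hx =>
        mem_support_iff.2 fun e => mem_support_iff.1 hx (by rw [hD, e, mul_zero])
      exact ⟨_, totalDegree_eq_zero_iff_eq_C.1 (by omega)⟩
  have h1 := hD μ
  have h2 := hD ν
  rw [mul_comm π, coeff_C_mul] at h1 h2
  exact h ((mul_right_cancel₀ hμ h1).symm.trans (mul_right_cancel₀ hν h2))

theorem factor2 {Q : Type} [Fintype Q] [DecidableEq Q] (π D : Q → MvPolynomial σ k)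
    (hπ : ∀ q, Prime (π q)) (hπ' : ∀ q q', π q ∣ π q' → q = q') (hD : ∀ q, ¬ π q ∣ D q)
    (n : Q → ℕ) (hn : ∀ q, n q ≠ 0) (c0 : k) (c : Q → k)
    (h : C c0 * ∏ j, π j ^ n j +
      ∑ i, C (c i) * (D i ^ n i * ∏ j ∈ Finset.univ.erase i, π j ^ n j) = 0) : c = 0 := by
  funext i
  by_contra hc
  have h1 : π i ∣ C c0 * ∏ j, π j ^ n j :=
    ((dvd_pow_self _ (hn i)).trans
      (Finset.dvd_prod_of_mem (fun j => π j ^ n j) (Finset.mem_univ i))).mul_left _
  have h2 : π i ∣ ∑ j ∈ Finset.univ.erase i,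
      C (c j) * (D j ^ n j * ∏ l ∈ Finset.univ.erase j, π l ^ n l) :=
    Finset.dvd_sum fun j hj => (((dvd_pow_self _ (hn i)).trans (Finset.dvd_prod_of_mem (fun j => π j ^ n j)
      (Finset.mem_erase.2 ⟨(Finset.mem_erase.1 hj).1.symm, Finset.mem_univ i⟩))).mul_left _).mul_left _
  rw [← Finset.sum_erase_add _ _ (Finset.mem_univ i), ← add_assoc] at h
  have h3 : π i ∣ C (c i) * (D i ^ n i * ∏ l ∈ Finset.univ.erase i, π l ^ n l) :=
    (dvd_add_right (dvd_add h1 h2)).1 (h ▸ dvd_zero _)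
  rcases (hπ i).dvd_or_dvd h3 with k | k
  · exact (hπ i).not_isUnit (isUnit_of_dvd_unit k ((Ne.isUnit hc).map C))
  rcases (hπ i).dvd_or_dvd k with k | k
  · exact hD i ((hπ i).dvd_of_dvd_pow k)
  · obtain ⟨j, hj, k⟩ := (hπ i).exists_mem_finset_dvd k
    exact (Finset.mem_erase.1 hj).1 (hπ' _ _ ((hπ i).dvd_of_dvd_pow k)).symm

end Pool.Agent.Work.MP_dd0d16_nt.T
end
end

-- merged part: Pool.Agent.Work.MP_dd0d16_nt.G.AxT1
section
-- merged part: Pool.Agent.Work.MP_dd0d16_nt.S.Scale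
section
/-!
Choice of the next scale.

PLAN. First for `σ = Fin m`; the general case follows with `e = Fintype.equivFin σ`, `y ∘ e.symm`,
`SI.comp`, `Small.rename` (note `Sum.elim y μ = Sum.elim (y ∘ e.symm) μ ∘ Sum.map e id`).
Choose `κ i, g i, d i, ν i` from `Small`. If some `d i = 0` then `u i = κ i` because `g i y ≠ 0`
(`SI`). Otherwise let `γ` be the largest value of a coefficient of some `d i` (`exists_max_coeff`,
`Finite.exists_max`), attained at `i0`, `μ0`; it is nonzero and `γ ≤ γ0 ^ c` for all `c`. Put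
`μ i = L (1 + d i y / g i y)`; `u i = κ i * (1 + d i y / g i y)`; `v (μ i) ≤ 1` by `LF.tail` with
`T = 0`. For `Unit`: `ax_core` for the family with the one member `i0`; in the second case take
`r' = 1`, `n = r ()`: `Near v γ (g + d) g` at `(μ0, ν i0)` says that `coeff μ0 d` is infinitesimal,
against `not_inf_of_le`. For `e : I' → I`: `ax_core` for `g ∘ e`, `d ∘ e`, `r' = r`, `n = 1`, then
`small_of_near` (values of the products are not infinitesimal: `not_inf_mul`, or directly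
`γ0 ^ c ≤ v`) for `∏ (1 + s) ^ r` and `Small.const_mul` with `∏ κ ^ r`.
-/

set_option autoImplicit false

namespace Pool.Agent.Work.MP_dd0d16_nt.T

open MvPolynomial

variable {Ω Γ : Type} [Field Ω] [CharZero Ω] [LinearOrderedCommGroupWithZero Γ]
  {v : Valuation Ω Γ} {L : Ω → Ω} {E : Subfield Ω} {p : ℕ} {γ0 : Γ}

omit [CharZero Ω] in
theorem Scale_nb {γ : Γ} {I : Type} (t : Finset I) (a b : I → Ω) (k l : I → ℕ)
    (ha : ∀ i, ∃ c : ℕ, γ ^ c ≤ v (a i)) (hb : ∀ i, ∃ c : ℕ, γ ^ c ≤ v (b i)) :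
    ∃ c : ℕ, γ ^ c ≤ v (∏ i ∈ t, a i ^ k i * b i ^ l i) := by
  choose c hc using ha
  choose c' hc' using hb
  refine ⟨∑ i ∈ t, (c i * k i + c' i * l i), ?_⟩
  rw [map_prod, ← Finset.prod_pow_eq_pow_sum]
  refine Finset.prod_le_prod' fun i _ => ?_
  rw [map_mul, map_pow, map_pow, pow_add, pow_mul, pow_mul]
  exact mul_le_mul' (pow_le_pow_left' (hc i) _) (pow_le_pow_left' (hc' i) _)

omit [CharZero Ω] in
theorem Scale_zpow {w G : Ω} (hw : w ≠ 0) (r : ℤ) :
    w ^ r * ((G * w) ^ (-r).toNat * G ^ r.toNat) = (G * w) ^ r.toNat * G ^ (-r).toNat := by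
  have h1 : w ^ r * w ^ (-r).toNat = w ^ r.toNat := by
    rw [← zpow_natCast, ← zpow_natCast, ← zpow_add₀ hw]
    congr 1
    omega
  rw [mul_pow, mul_pow, ← h1]
  ring

theorem Scale_fin (h : LF p v L E) (h0 : γ0 ≠ 0) (hp : γ0 ≤ v p) {m : ℕ} {I : Type}
    [Fintype I] [Nonempty I] (y : Fin m → Ω) (hy : ∀ s, v (y s) ≤ 1) (hs : SI v E γ0 y)
    (u : I → Ω) (hu : ∀ i, Small v E γ0 y (u i)) :
    (∃ i, u i ∈ E) ∨ ∃ (γ : Γ) (μ : I → Ω) (i0 : I), γ ≠ 0 ∧ γ ≤ γ0 ∧
      (∀ i, v (μ i) ≤ 1 ∧ μ i - L (u i) ∈ E) ∧ SI v E γ (Sum.elim y fun _ : Unit => μ i0) ∧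
      ∀ (I' : Type) [Fintype I'] (e : I' → I), SI v E γ (Sum.elim y fun i => μ (e i)) ∨
        ∃ r : I' → ℤ, r ≠ 0 ∧ Small v E γ y (∏ i, u (e i) ^ r i) := by
  classical
  choose κ g d ν hκ hg1 hd0 hg hd heq using hu
  have h01 : γ0 < 1 := hp.trans_lt h.p1
  have hgy : ∀ i, ∃ c : ℕ, γ0 ^ c ≤ v (aeval y (g i)) := by
    intro i
    obtain ⟨c, hc⟩ := hs (g i) (ν i)
    rw [hg1 i] at hc
    exact ⟨c, by simpa using hc⟩
  have hgv : ∀ i, v (aeval y (g i)) ≠ 0 := by
    intro i hz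
    obtain ⟨c, hc⟩ := hgy i
    rw [hz] at hc
    exact pow_ne_zero c h0 (le_zero_iff.mp hc)
  have hgn : ∀ i, aeval y (g i) ≠ 0 := fun i hz => hgv i (by rw [hz, map_zero])
  by_cases hz : ∃ i, d i = 0
  · obtain ⟨i, hi⟩ := hz
    have h1 := heq i
    rw [hi, add_zero] at h1
    exact Or.inl ⟨i, by rw [mul_right_cancel₀ (hgn i) h1]; exact (κ i).2⟩
  right
  push Not at hz
  choose μm hμ0 hμ using fun i => exists_max_coeff v (hz i)
  obtain ⟨i0, hi0⟩ := Finite.exists_max fun i => v ((d i).coeff (μm i) : E)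
  obtain ⟨γ, hγd⟩ : ∃ γ, γ = v ((d i0).coeff (μm i0) : E) := ⟨_, rfl⟩
  have hγ0 : γ ≠ 0 := by
    rw [hγd, Valuation.ne_zero_iff]
    exact fun hz' => hμ0 i0 (Subtype.ext hz')
  have hγ : ∀ c : ℕ, γ ≤ γ0 ^ c := fun c => hγd ▸ hd i0 (μm i0) c
  have hγ' : γ ≤ γ0 := by simpa using hγ 1
  have hγ1 : γ < 1 := hγ'.trans_lt h01
  have hdγ : ∀ i μ, v ((d i).coeff μ : E) ≤ γ := fun i μ => hγd ▸ (hμ i μ).trans (hi0 i)
  obtain ⟨s, hsd⟩ : ∃ s : I → Ω, s = fun i => aeval y (d i) / aeval y (g i) := ⟨_, rfl⟩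
  have hsv : ∀ i, v (s i) ≤ γ0 := by
    intro i
    obtain ⟨c, hc⟩ := hgy i
    rw [hsd]
    dsimp only
    rw [map_div₀, div_le_iff₀ (zero_lt_iff.mpr (hgv i))]
    refine (v_aeval_le hy (hdγ i)).trans ((hγ (c + 1)).trans ?_)
    rw [pow_succ']
    exact mul_le_mul' le_rfl hc
  have hw1 : ∀ i, v (1 + s i) = 1 := fun i => v.map_one_add_of_lt ((hsv i).trans_lt h01)
  have hw : ∀ i, 1 + s i ≠ 0 := by
    intro i hz'
    have h1 := hw1 i
    rw [hz', map_zero] at h1
    exact zero_ne_one h1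
  have hgd : ∀ i, aeval y (g i + d i) = aeval y (g i) * (1 + s i) := by
    intro i
    rw [map_add, hsd]
    dsimp only
    rw [mul_add, mul_one, mul_div_cancel₀ _ (hgn i)]
  have hue : ∀ i, u i = κ i * (1 + s i) := by
    intro i
    have h1 := heq i
    rw [hgd i] at h1
    refine mul_right_cancel₀ (hgn i) (h1.trans ?_)
    ring
  have hκ' : ∀ i, (κ i : Ω) ≠ 0 := fun i hz' => hκ i (Subtype.ext hz')
  have hμe : ∀ i, L (1 + s i) = L (1 + aeval y (d i) / aeval y (g i)) := fun i => by rw [hsd]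
  refine ⟨γ, fun i => L (1 + s i), i0, hγ0, hγ', fun i => ⟨?_, ?_⟩, ?_, ?_⟩
  · simpa using h.tail 0 (s i) (by simpa using (hsv i).trans hp)
  · rw [hue i, h.mul _ _ (hκ' i) (hw i)]
    have h1 : L (1 + s i) - (L (κ i) + L (1 + s i)) = -L (κ i) := by ring
    rw [h1]
    exact E.neg_mem (h.mem _ (κ i).2 (hκ' i))
  · rcases ax_core h h0 hp hγ0 hγ y hy hs (fun _ : Unit => g i0) (fun _ => d i0)
      (fun _ => hg i0) (fun _ => ⟨_, hg1 i0⟩) (fun _ => hdγ i0) with h1 | ⟨r, hr, h1⟩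
    · simpa only [hμe] using h1
    · exfalso
      have hn : r () ≠ 0 := fun hz' => hr (funext fun _ => hz')
      have h2 := h1 (fun _ => 1) (r ()) hn (funext fun _ => by simp) (μm i0) (ν i0)
      refine not_inf_of_le (v := v) (a := ((d i0).coeff (μm i0) : E)) hγ0 hγ1 (c := 1)
        (by rw [pow_one, hγd]) ?_
      convert h2 using 2
      simp [hg1 i0, hd0 i0]
  · intro I' _ e
    rcases ax_core h h0 hp hγ0 hγ y hy hs (fun i : I' => g (e i)) (fun i => d (e i))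
      (fun i => hg (e i)) (fun i => ⟨_, hg1 (e i)⟩) (fun i => hdγ (e i)) with h1 | ⟨r, hr, h1⟩
    · left
      simpa only [hμe] using h1
    · refine Or.inr ⟨r, hr, ?_⟩
      have h2 := h1 r 1 one_ne_zero (one_smul _ _).symm
      have hgd1 : ∀ i μ, v ((g i + d i).coeff μ : E) ≤ 1 := by
        intro i μ
        rw [coeff_add, Subfield.coe_add]
        exact v.map_add_le (hg i μ) ((hdγ i μ).trans hγ1.le)
      have hb : ∀ i, ∃ c : ℕ, γ ^ c ≤ v (aeval y (g i)) := by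
        intro i
        obtain ⟨c, hc⟩ := hgy i
        exact ⟨c, (pow_le_pow_left' hγ' c).trans hc⟩
      have ha : ∀ i, ∃ c : ℕ, γ ^ c ≤ v (aeval y (g i + d i)) := by
        intro i
        rw [hgd i, map_mul, hw1 i, mul_one]
        exact hb i
      have hni : ∀ k l : I' → ℕ, ¬ Inf v γ
          (aeval y (∏ i, (g (e i) + d (e i)) ^ k i * g (e i) ^ l i)) := by
        intro k l
        obtain ⟨c, hc⟩ := Scale_nb Finset.univ _ _ k l (fun i => ha (e i)) (fun i => hb (e i))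
        refine not_inf_of_le hγ0 hγ1 (c := c) ?_
        simpa only [map_prod, map_mul, map_pow] using hc
      have hco : ∀ (k l : I' → ℕ) μ,
          v ((∏ i, (g (e i) + d (e i)) ^ k i * g (e i) ^ l i).coeff μ : E) ≤ 1 := fun k l =>
        v_coeff_prod _ _ fun i => v_coeff_mul (v_coeff_pow (hgd1 _) _) (v_coeff_pow (hg _) _)
      have h3 : Small v E γ y (∏ i, (1 + s (e i)) ^ r i) := by
        refine small_of_near hγ0 hγ1 hy (hco _ _) (hco _ _) (hni _ _) (hni _ _) h2 ?_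
        rw [map_prod, map_prod, ← Finset.prod_mul_distrib]
        refine Finset.prod_congr rfl fun i _ => ?_
        rw [map_mul, map_mul, map_pow, map_pow, map_pow, map_pow, hgd]
        exact Scale_zpow (hw _) _
      have h4 := h3.const_mul (c := ∏ i, (κ (e i) : Ω) ^ r i)
        (prod_mem fun i _ => zpow_mem (κ (e i)).2 _)
        (Finset.prod_ne_zero_iff.mpr fun i _ => zpow_ne_zero _ (hκ' _))
      rw [← Finset.prod_mul_distrib] at h4
      simpa only [hue, mul_zpow] using h4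

theorem scale_ax (h : LF p v L E) (h0 : γ0 ≠ 0) (hp : γ0 ≤ v p) {σ I : Type} [Fintype σ]
    [Fintype I] [Nonempty I] (y : σ → Ω) (hy : ∀ s, v (y s) ≤ 1) (hs : SI v E γ0 y) (u : I → Ω)
    (hu : ∀ i, Small v E γ0 y (u i)) :
    (∃ i, u i ∈ E) ∨ ∃ (γ : Γ) (μ : I → Ω) (i0 : I), γ ≠ 0 ∧ γ ≤ γ0 ∧
      (∀ i, v (μ i) ≤ 1 ∧ μ i - L (u i) ∈ E) ∧ SI v E γ (Sum.elim y fun _ : Unit => μ i0) ∧
      ∀ (I' : Type) [Fintype I'] (e : I' → I), SI v E γ (Sum.elim y fun i => μ (e i)) ∨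
        ∃ r : I' → ℤ, r ≠ 0 ∧ Small v E γ y (∏ i, u (e i) ^ r i) := by
  let e := Fintype.equivFin σ
  have hye : (y ∘ e.symm) ∘ e = y := by
    funext s
    simp
  have tr : ∀ {γ : Γ} {J : Type} (μ : J → Ω), SI v E γ (Sum.elim (y ∘ e.symm) μ) →
      SI v E γ (Sum.elim y μ) := by
    intro γ J μ h1
    have h2 := h1.comp (e := Sum.map e id) (Sum.map_injective.mpr ⟨e.injective, fun _ _ h => h⟩)
    rwa [Sum.elim_comp_map, hye] at h2
  rcases Scale_fin h h0 hp (y ∘ e.symm) (fun s => hy _) (hs.comp e.symm.injective) u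
    (fun i => Small.rename (e := e) e.injective (by rw [hye]; exact hu i)) with
    h1 | ⟨γ, μ, i0, h1, h2, h3, h4, h5⟩
  · exact Or.inl h1
  · refine Or.inr ⟨γ, μ, i0, h1, h2, h3, tr _ h4, fun I' _ e' => ?_⟩
    rcases h5 I' e' with h6 | ⟨r, hr, h6⟩
    · exact Or.inl (tr _ h6)
    · exact Or.inr ⟨r, hr, Small.rename e.symm.injective h6⟩

end Pool.Agent.Work.MP_dd0d16_nt.T
end

-- merged part: Pool.Agent.Work.MP_dd0d16_nt.G.AxT0
section
/-!
The theorem of Ax at the scale of `p` for strongly independent variables.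

PLAN. `exists_Theta2`: copy `exists_Theta` (S/Theta; `SSI.si` gives `SI`); in the last step use `SSI`
with `q = 2` for `P` and `H`: `(v p * (α * β)) ^ 2 ≤ (v (P y) * v (H y)) ^ 2`.
`app_log2`: copy `app_log` (S/AxCore) with `T ≥ 2 * (M + 1)` large enough for `Tail`.
`ax_core2`: copy `ax_core` (S/AxCore) with `γ0 = γ = v p`, `r' = r`, `n = 1`; `v (L (1 + s)) ≤ 1` by
`LF.tail` with `T = 0`.
-/

set_option autoImplicit false

namespace Pool.Agent.Work.MP_dd0d16_nt.T

open MvPolynomial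

variable {Ω Γ : Type} [Field Ω] [CharZero Ω] [LinearOrderedCommGroupWithZero Γ]
  {v : Valuation Ω Γ} {L : Ω → Ω} {E : Subfield Ω} {p m : ℕ}

theorem exists_Theta2 (y : Fin m → Ω) (hy : ∀ s, v (y s) ≤ 1) (h0 : v p ≠ 0) (hs : SSI v p E y) :
    ∃ Θ : Fin m → Derivation ℚ (Subfield.closure ((E : Set Ω) ∪ Set.range y))
        (Subfield.closure ((E : Set Ω) ∪ Set.range y)),
      (∀ a (P : MvPolynomial (Fin m) E) (e : Subfield.closure ((E : Set Ω) ∪ Set.range y)),
        (e : Ω) = aeval y P → (Θ a e : Ω) = aeval y (X a * pderiv a P)) ∧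
      ∀ a e, v (Θ a e) * v p ≤ v e := by
  obtain ⟨Θ, key, -⟩ := exists_Theta (γ := 0) y hy h0 hs.si fun _ => zero_le
  refine ⟨Θ, key, fun a e => ?_⟩
  obtain ⟨P, H, h1, h2⟩ := Theta_frac y e.2
  by_cases hP : P = 0
  · rw [hP, map_zero] at h2
    obtain rfl : e = 0 := Subtype.ext ((mul_eq_zero.1 h2).resolve_right h1)
    simp
  have hH : H ≠ 0 := fun k => h1 (by rw [k, map_zero])
  obtain ⟨ν, -, hν⟩ := exists_max_coeff v hP
  obtain ⟨ν', -, hν'⟩ := exists_max_coeff v hH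
  have h3 := key a P (e * ⟨_, Theta_mem y H⟩) h2
  rw [Derivation.leibniz, smul_eq_mul, smul_eq_mul, Subfield.coe_add, Subfield.coe_mul,
    Subfield.coe_mul, key a H ⟨_, Theta_mem y H⟩ rfl] at h3
  have h4 : (Θ a e : Ω) * (aeval y H * aeval y H) =
      aeval y (X a * pderiv a P) * aeval y H - aeval y P * aeval y (X a * pderiv a H) := by
    rw [← h3, ← h2]
    ring
  have h5 : v (Θ a e) * (v (aeval y H) * v (aeval y H)) ≤
      v (P.coeff ν : E) * v (H.coeff ν' : E) := by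
    rw [← map_mul, ← map_mul, h4]
    refine v.map_sub_le ?_ ?_
    · rw [map_mul]
      exact mul_le_mul' (v_aeval_le hy (Theta_coeff hν a)) (v_aeval_le hy hν')
    · rw [map_mul]
      exact mul_le_mul' (v_aeval_le hy hν) (v_aeval_le hy (Theta_coeff hν' a))
  have h6 : v (aeval y H) ≠ 0 := (map_ne_zero v).2 h1
  refine le_of_mul_le_mul_right (a := v (aeval y H) * v (aeval y H)) ?_
    (zero_lt_iff.2 (mul_ne_zero h6 h6))
  have h7 : v p * (v (P.coeff ν : E) * v (H.coeff ν' : E)) ≤ v (aeval y P) * v (aeval y H) := by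
    refine le_of_pow_le_pow_left₀ two_ne_zero zero_le ?_
    rw [mul_pow, mul_pow, mul_pow, sq (v p), mul_mul_mul_comm]
    exact mul_le_mul' (hs P ν 2) (hs H ν' 2)
  calc v (Θ a e) * v p * (v (aeval y H) * v (aeval y H))
      = v p * (v (Θ a e) * (v (aeval y H) * v (aeval y H))) := by
        rw [mul_comm (v (Θ a e)), mul_assoc]
    _ ≤ v (aeval y P) * v (aeval y H) := (mul_le_mul' le_rfl h5).trans h7
    _ = v e * (v (aeval y H) * v (aeval y H)) := by rw [← h2, map_mul, mul_assoc]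

theorem app_log2 (h0 : v p ≠ 0) (h1 : v p < 1) (hT : Tail p v L) {E1 : Subfield Ω}
    (Θ : Fin m → Derivation ℚ E1 E1) (hΘ : ∀ a e, v (Θ a e) * v p ≤ v e) (s : E1)
    (hs : v s ^ 2 ≤ v p) : App v (v p) Θ (L (1 + s)) fun a => Θ a s / (1 + s) := by
  intro M
  obtain ⟨T, t1, t2⟩ := ((hT M).and (Filter.eventually_ge_atTop (2 * (M + 1)))).exists
  have a1 : v s < 1 := lt_of_pow_lt_pow_left₀ 2 zero_le (by rw [one_pow]; exact hs.trans_lt h1)
  have a2 := v.map_one_add_of_lt a1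
  have a3 : (1 + s : Ω) ≠ 0 := (v.ne_zero_iff).1 (a2 ▸ one_ne_zero)
  have a4 : v s ^ T ≤ v p * v p ^ M := by
    refine (pow_le_pow_of_le_one zero_le a1.le t2).trans ?_
    rw [pow_mul, ← pow_succ']
    exact pow_le_pow_left' hs _
  refine ⟨∑ n ∈ Finset.range T, (-1 : E1) ^ n * s ^ (n + 1) / ((n : E1) + 1), ?_, fun a => ?_⟩
  · push_cast
    exact t1 s hs
  · have b1 := congrArg Subtype.val (AxCore_der (Θ a) s T)
    generalize Θ a (∑ n ∈ Finset.range T, (-1 : E1) ^ n * s ^ (n + 1) / ((n : E1) + 1)) = t at b1 ⊢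
    push_cast at b1
    have b2 : (Θ a s : Ω) / (1 + s) - t = Θ a s * (-s) ^ T / (1 + s) := by
      field_simp
      linear_combination -b1
    rw [b2, map_div₀, a2, div_one, map_mul, map_pow, Valuation.map_neg]
    calc v (Θ a s) * v s ^ T ≤ v (Θ a s) * (v p * v p ^ M) := mul_le_mul' le_rfl a4
      _ ≤ v p ^ M := by
        rw [← mul_assoc]
        exact mul_le_of_le_one_left' ((hΘ a s).trans a1.le)

theorem ax_core2 (h : LF p v L E) (hT : Tail p v L) (y : Fin m → Ω) (hy : ∀ s, v (y s) ≤ 1)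
    (hs : SSI v p E y) {I : Type} [Fintype I] (g d : I → MvPolynomial (Fin m) E)
    (hg : ∀ i μ, v ((g i).coeff μ : E) ≤ 1) (hg1 : ∀ i, ∃ ν, (g i).coeff ν = 1)
    (hd : ∀ i μ, v ((d i).coeff μ : E) ≤ 1)
    (hd' : ∀ i, v (aeval y (d i) / aeval y (g i)) ≤ v p) :
    SI v E (v p) (Sum.elim y fun i => L (1 + aeval y (d i) / aeval y (g i))) ∨
      ∃ r : I → ℤ, r ≠ 0 ∧ Near v (v p) (∏ i, (g i + d i) ^ (r i).toNat * g i ^ (-r i).toNat)
        (∏ i, (g i + d i) ^ (-r i).toNat * g i ^ (r i).toNat) := by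
  refine or_iff_not_imp_left.2 fun hSI => ?_
  obtain ⟨P, ν, p1, p2, p3⟩ := AxCore_norm hSI
  have hγ0 := h.p0
  have h1 := h.p1
  have ni : ∀ {c : ℕ} {z : Ω}, v p ^ c ≤ v z → ¬ Inf v (v p) z := fun hz =>
    not_inf_of_le hγ0 h1 hz
  obtain ⟨Θ, t1, t2⟩ := exists_Theta2 y hy hγ0 hs
  replace hs := hs.si
  have mE : ∀ Q : MvPolynomial (Fin m) E,
      aeval y Q ∈ Subfield.closure ((E : Set Ω) ∪ Set.range y) := fun Q =>
    AxCore_mem (algebraMap E Ω) y (fun c => c.2) Q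
  generalize Subfield.closure ((E : Set Ω) ∪ Set.range y) = E1 at Θ t1 t2 mE
  obtain ⟨k, _, _, A, res, hA, hres⟩ := exists_res v hγ0 h1 fun n hn => by
    obtain ⟨c, hc⟩ := h.nat n hn
    exact ni hc
  have mA : ∀ {z : Ω}, v z ≤ 1 → z ∈ A := fun hz => (hA _).2 ⟨0, by simpa using hz⟩
  obtain ⟨g, rfl⟩ : ∃ g0 : I → MvPolynomial (Fin m) (A.comap E.subtype),
      g = fun i => map (A.comap E.subtype).subtype (g0 i) := by
    choose g0 h using fun i => AxCore_lift (A.comap E.subtype) (g i) fun μ => mA (hg i μ)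
    exact ⟨g0, funext fun i => (h i).symm⟩
  obtain ⟨d, rfl⟩ : ∃ d0 : I → MvPolynomial (Fin m) (A.comap E.subtype),
      d = fun i => map (A.comap E.subtype).subtype (d0 i) := by
    choose d0 h using fun i =>
      AxCore_lift (A.comap E.subtype) (d i) fun μ => mA (hd i μ)
    exact ⟨d0, funext fun i => (h i).symm⟩
  obtain ⟨P, rfl⟩ := AxCore_lift (A.comap E.subtype) P fun μ => mA (p2 μ)
  obtain ⟨ι, hι⟩ : ∃ ι : A.comap E.subtype →+* A, ∀ c, (ι c : Ω) = (c : E) :=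
    ⟨(E.subtype.comp (A.comap E.subtype).subtype).codRestrict A fun c => c.2, fun _ => rfl⟩
  generalize A.comap E.subtype = R at g d P ι hι hg hg1 hd hd' hSI p1 p2 p3 ⊢
  have e0 : ∀ {σ : Type} (x : σ → A) (Q : MvPolynomial σ R),
      ((eval₂ ι x Q : A) : Ω) = aeval (fun i => (x i : Ω)) (map R.subtype Q) := fun x Q => by
    rw [aeval_def, eval₂_map]
    exact (hom_eval₂ Q ι A.subtype x).trans (by congr 1; exact RingHom.ext hι)
  obtain ⟨ev, e1, e2, e3⟩ : ∃ ev : MvPolynomial (Fin m) R →+* A,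
      (∀ Q, (ev Q : Ω) = aeval y (map R.subtype Q)) ∧ (∀ c, ev (C c) = ι c) ∧
        ∀ b, (ev (X b) : Ω) = y b :=
    ⟨eval₂Hom ι fun b => ⟨y b, mA (hy b)⟩, fun Q => e0 _ Q, fun c => by simp, fun b => by simp⟩
  have a0 : ∀ a Q (e : E1), (e : Ω) = ev Q → (Θ a e : Ω) = ev (X a * pderiv a Q) :=
    fun a Q e he => by rw [t1 a (map R.subtype Q) e (he.trans (e1 Q)), e1,
      map_mul (map R.subtype), map_X, pderiv_map]
  have a1 : ∀ Q, App v (v p) Θ (ev Q) fun a => ev (X a * pderiv a Q) := fun Q M =>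
    ⟨⟨_, mE (map R.subtype Q)⟩, by simp [e1], fun a => by
      rw [a0 a Q _ (e1 Q).symm, sub_self, map_zero]
      exact zero_le⟩
  have g1 : ∀ i, ∃ c : ℕ, v p ^ c ≤ v (ev (g i)) := fun i => by
    obtain ⟨ν, hν⟩ := hg1 i
    obtain ⟨c, hc⟩ := hs (map R.subtype (g i)) ν
    exact ⟨c, by simpa [hν, e1] using hc⟩
  choose c g1 using g1
  have g0 : ∀ i, (ev (g i) : Ω) ≠ 0 := fun i =>
    (v.ne_zero_iff).1 ((pow_pos (zero_lt_iff.2 hγ0) _).trans_le (g1 i)).ne'
  have g2 : ∀ i, v (ev (d i) / ev (g i) : Ω) ≤ v p := fun i => by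
    rw [e1, e1]
    exact hd' i
  have g3 : ∀ i, v (1 + ev (d i) / ev (g i) : Ω) = 1 := fun i =>
    v.map_one_add_of_lt ((g2 i).trans_lt h1)
  have g4 : ∀ i, (ev (g i + d i) : Ω) = ev (g i) * (1 + ev (d i) / ev (g i)) := fun i => by
    have := g0 i
    rw [map_add]
    push_cast
    field_simp
  have g5 : ∀ i, res (ev (g i)) ≠ 0 ∧ res (ev (g i + d i)) ≠ 0 := fun i =>
    ⟨fun e => ni (g1 i) ((hres _).1 e), fun e => ni (c := c i) (by
      rw [g4, map_mul, g3, mul_one]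
      exact g1 i) ((hres _).1 e)⟩
  obtain ⟨μ, m1⟩ : ∃ μ : I → A, ∀ i, (μ i : Ω) = L (1 + ev (d i) / ev (g i)) :=
    ⟨fun i => ⟨_, mA (by simpa using h.tail 0 _ ((g2 i).trans_eq (pow_one _).symm))⟩, fun _ => rfl⟩
  have m2 : ∀ i, ∃ u : Fin m → A, App v (v p) Θ (μ i) (fun a => u a) ∧ ∀ a,
      u a * (ev (g i) * ev (g i + d i)) =
        ev (g i * (X a * pderiv a (d i)) - d i * (X a * pderiv a (g i))) := fun i => by
    obtain ⟨G, hG⟩ : ∃ G : E1, (G : Ω) = ev (g i) := ⟨⟨_, mE _⟩, (e1 _).symm⟩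
    obtain ⟨D, hD⟩ : ∃ D : E1, (D : Ω) = ev (d i) := ⟨⟨_, mE _⟩, (e1 _).symm⟩
    have b1 : ((D / G : E1) : Ω) = ev (d i) / ev (g i) := by rw [← hG, ← hD]; rfl
    have b2 := app_log2 hγ0 h1 hT Θ t2 (D / G) (by
      rw [b1, sq]
      exact (mul_le_of_le_one_left' ((g2 i).trans h1.le)).trans (g2 i))
    rw [b1] at b2
    refine ⟨fun a => ⟨Θ a (D / G) / (1 + ev (d i) / ev (g i)), (hA _).2 ⟨1, ?_⟩⟩, m1 i ▸ b2,
      fun a => Subtype.ext ?_⟩
    · rw [map_div₀, g3, div_one, pow_one]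
      exact (t2 a _).trans (b1 ▸ (g2 i).trans h1.le)
    · have b4 := g0 i
      have b5 : (1 + ev (d i) / ev (g i) : Ω) ≠ 0 := (v.ne_zero_iff).1 (g3 i ▸ one_ne_zero)
      rw [map_sub, map_mul ev (g i), map_mul ev (d i)]
      simp only [Derivation.leibniz_div, smul_eq_mul]
      push_cast
      rw [g4, a0 _ _ _ hG, a0 _ _ _ hD, hG, hD]
      generalize (1 + ev (d i) / ev (g i) : Ω) = w at b5
      field_simp
  choose u m2 m3 using m2
  have s1 : ∀ Q, res (ev Q) ∈ Subfield.closure (res '' (Set.range ev ∪ Set.range μ)) := fun Q =>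
    Subfield.subset_closure ⟨_, Or.inl ⟨Q, rfl⟩, rfl⟩
  obtain ⟨θ, hθ⟩ := res_theta hγ0 h1 hA hres Θ t2 (Set.range ev ∪ Set.range μ) (by
    rintro _ (⟨Q, rfl⟩ | ⟨i, rfl⟩)
    · exact ⟨_, a1 Q, fun a => s1 _⟩
    · refine ⟨u i, m2 i, fun a => ?_⟩
      have b1 := congrArg res (m3 i a)
      rw [map_mul, map_mul, ← eq_div_iff (mul_ne_zero (g5 i).1 (g5 i).2)] at b1
      exact b1 ▸ div_mem (s1 _) (mul_mem (s1 _) (s1 _)))
  obtain ⟨l, hl⟩ : ∃ l : I → Subfield.closure (res '' (Set.range ev ∪ Set.range μ)),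
      ∀ i, (l i : k) = res (μ i) :=
    ⟨fun i => ⟨_, Subfield.subset_closure ⟨_, Or.inr ⟨i, rfl⟩, rfl⟩⟩, fun _ => rfl⟩
  generalize Subfield.closure (res '' (Set.range ev ∪ Set.range μ)) = B at s1 θ hθ l hl
  obtain ⟨ψ, hψ⟩ : ∃ ψ : MvPolynomial (Fin m) R →+* B, ∀ Q, (ψ Q : k) = res (ev Q) :=
    ⟨(res.comp ev).codRestrict B s1, fun _ => rfl⟩
  have n0 : ∀ Q, res (ev Q) ≠ 0 → ψ Q ≠ 0 := fun Q hQ e => hQ (by rw [← hψ, e]; rfl)
  obtain ⟨r, hr, H⟩ := AxCore_abs θ ψ
    (fun a Q => Subtype.ext ((hθ _ _ _ (hψ Q) (a1 Q) a).trans (hψ _).symm))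
    (fun b => n0 _ fun e => by
      obtain ⟨c, hc⟩ := hs (X b) (Finsupp.single b 1)
      exact ni (c := c) (by simpa [e3] using hc) ((hres _).1 e))
    g d (fun i => n0 _ (g5 i).1) (fun i => n0 _ (g5 i).2) l (fun a i => Subtype.ext (by
      push_cast
      rw [hθ _ _ _ (hl i) (m2 i) a, hψ, hψ, hψ, ← map_mul, ← map_mul, m3])) P
    (fun e => by
      have b1 : P.coeff ν = 1 := Subtype.ext (by simpa [coeff_map] using p1)
      have b2 := congrArg (coeff ν) e
      simp [coeff_map, b1] at b2)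
    (Subtype.ext (by
      have b1 : res (eval₂ ι (Sum.elim (fun b => ev (X b)) μ) P) = 0 := (hres _).2 (by
        rw [e0]
        refine (congrArg (fun x => Inf v (v p) (aeval x (map R.subtype P))) (funext fun j => ?_)).mpr p3
        rcases j with j | j <;> simp [e3, m1, e1])
      rw [hom_eval₂] at b1
      refine (hom_eval₂ P _ B.subtype _).trans (Eq.trans ?_ b1)
      congr 1
      · exact RingHom.ext fun c => (hψ _).trans (congrArg res (e2 c))
      · ext j
        rcases j with j | j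
        exacts [hψ _, hl j]))
  refine ⟨r, hr, fun μ' ν' => ?_⟩
  have b1 := H r 1 one_ne_zero (one_smul _ _).symm μ' ν'
  simp only [← map_add, ← map_pow, ← map_mul, ← map_prod]
  generalize ∏ i, (g i + d i) ^ (r i).toNat * g i ^ (-r i).toNat = F at b1 ⊢
  generalize ∏ i, (g i + d i) ^ (-r i).toNat * g i ^ (r i).toNat = G at b1 ⊢
  simp only [coeff_map, ← map_mul, ← map_sub] at b1 ⊢
  rw [← sub_eq_zero, ← map_sub] at b1
  have b2 := congrArg Subtype.val b1
  rw [RingHom.comp_apply, hψ, e2] at b2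
  have b3 := (hres _).1 b2
  rwa [hι] at b3

end Pool.Agent.Work.MP_dd0d16_nt.T
end

-- merged part: Pool.Agent.Work.MP_dd0d16_nt.G.AxT1
section
/-!
The dichotomy at the scale of `p` with two fields of constants.

PLAN. `Theta_frac` (S/Theta) writes `w i = F i y / G i y` over `E`; divide both by a largest
coefficient of `G i` (`exists_max_coeff`), `g i = G i`, `d i = F i - G i`, so `w i = 1 + d i y / g i y`.
The value of `d i y` is at most `v p`, so by `SSI` (`q = 2`, for the image of `d i` over `E'`) the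
coefficients have `v c ^ 2 ≤ v p`. Apply `ax_core2` to the images under
`MvPolynomial.map (Subfield.inclusion hE)` (`aeval_map_algebraMap`-type lemma: `aeval_def`, `eval₂_map`).
`Near` for the images is `Near` over `E` (`coeff_map`). Finish as in the last part of `Scale_fin`
(S/Scale): `small_of_near`, `Scale_nb`, `Scale_zpow`, `v_coeff_prod`.
-/

set_option autoImplicit false

namespace Pool.Agent.Work.MP_dd0d16_nt.T

open MvPolynomial

variable {Ω Γ : Type} [Field Ω] [CharZero Ω] [LinearOrderedCommGroupWithZero Γ]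
  {v : Valuation Ω Γ} {L : Ω → Ω} {E E' : Subfield Ω} {p m : ℕ}

omit [CharZero Ω] in
theorem AxT1_aeval {σ : Type} (hE : E ≤ E') (y : σ → Ω) (P : MvPolynomial σ E) :
    aeval y (map (Subfield.inclusion hE) P) = aeval y P := by
  rw [aeval_def, eval₂_map, aeval_def]
  rfl

omit [CharZero Ω] in
theorem AxT1_coeff {σ : Type} (hE : E ≤ E') (P : MvPolynomial σ E) (μ : σ →₀ ℕ) :
    (((map (Subfield.inclusion hE) P).coeff μ : E') : Ω) = (P.coeff μ : E) := by
  rw [coeff_map]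
  rfl

omit [CharZero Ω] in
theorem SSI.mono {σ : Type} {y : σ → Ω} (h : SSI v p E' y) (hE : E ≤ E') : SSI v p E y := by
  intro P μ q
  rw [← AxT1_aeval hE, ← AxT1_coeff hE]
  exact h _ μ q

omit [CharZero Ω] in
theorem AxT1_near {σ : Type} {γ : Γ} (hE : E ≤ E') {P Q : MvPolynomial σ E}
    (h : Near v γ (map (Subfield.inclusion hE) P) (map (Subfield.inclusion hE) Q)) :
    Near v γ P Q := fun μ ν => by
  simpa only [AddSubgroupClass.coe_sub, Subfield.coe_mul, AxT1_coeff] using h μ ν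

omit [CharZero Ω] in
theorem AxT1_frac (h0 : v p ≠ 0) {y : Fin m → Ω} (hy : ∀ s, v (y s) ≤ 1) (hs : SSI v p E y) {w : Ω}
    (h1 : w ∈ Subfield.closure ((E : Set Ω) ∪ Set.range y)) (h2 : v (w - 1) ≤ v p) :
    ∃ g d : MvPolynomial (Fin m) E, (∀ μ, v (g.coeff μ : E) ≤ 1) ∧ (∃ ν, g.coeff ν = 1) ∧
      (∀ μ, v (d.coeff μ : E) ≤ 1) ∧ v p ≤ v (aeval y g) ∧ aeval y d / aeval y g = w - 1 ∧
      aeval y (g + d) = aeval y g * w := by
  obtain ⟨P, H, a1, a2⟩ := Theta_frac y h1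
  obtain ⟨ν, b1, b2⟩ := exists_max_coeff v (P := H) fun r => a1 (by rw [r, map_zero])
  have b3 : v (H.coeff ν : E) ≠ 0 := (Valuation.ne_zero_iff v).2 fun r => b1 (Subtype.ext r)
  have c1 : ∀ μ, v ((C (H.coeff ν)⁻¹ * H).coeff μ : E) ≤ 1 := fun μ => by
    rw [coeff_C_mul, Subfield.coe_mul, Subfield.coe_inv, map_mul, map_inv₀]
    exact inv_mul_le_one_of_le₀ (b2 μ) zero_le
  have c2 : (C (H.coeff ν)⁻¹ * H).coeff ν = 1 := by rw [coeff_C_mul, inv_mul_cancel₀ b1]
  have c3 : v p ≤ v (aeval y (C (H.coeff ν)⁻¹ * H)) := by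
    have c5 := hs (C (H.coeff ν)⁻¹ * H) ν 1
    rwa [pow_one, pow_one, c2, Subfield.coe_one, map_one, mul_one] at c5
  have c4 : aeval y (C (H.coeff ν)⁻¹ * (P - H)) = (w - 1) * aeval y (C (H.coeff ν)⁻¹ * H) := by
    rw [map_mul, map_mul, map_sub, ← a2]
    ring
  refine ⟨_, C (H.coeff ν)⁻¹ * (P - H), c1, ⟨ν, c2⟩, fun μ => ?_, c3, ?_, ?_⟩
  · have c5 := hs (C (H.coeff ν)⁻¹ * (P - H)) μ 1
    rw [pow_one, pow_one, c4, map_mul] at c5
    exact le_of_mul_le_mul_left (c5.trans (mul_le_mul' h2 (v_aeval_le hy c1))) (zero_lt_iff.2 h0)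
  · rw [c4, mul_div_cancel_right₀ _ fun r => h0 (le_zero_iff.1 (by rwa [r, map_zero] at c3))]
  · rw [map_add, c4]
    ring

theorem ax_top (h : LF p v L E') (hE : E ≤ E') (hT : Tail p v L) (y : Fin m → Ω)
    (hy : ∀ s, v (y s) ≤ 1) (hs : SSI v p E' y) {I : Type} [Fintype I] (w : I → Ω)
    (hw : ∀ i, w i ∈ Subfield.closure ((E : Set Ω) ∪ Set.range y) ∧ v (w i - 1) ≤ v p) :
    SI v E' (v p) (Sum.elim y fun i => L (w i)) ∨
      ∃ r : I → ℤ, r ≠ 0 ∧ Small v E (v p) y (∏ i, w i ^ r i) := by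
  classical
  choose g d hg hg1 hd hp he hgd using
    fun i => AxT1_frac h.p0 hy (hs.mono hE) (hw i).1 (hw i).2
  have hw1 : ∀ i, v (w i) = 1 := fun i => by
    simpa using v.map_one_add_of_lt ((hw i).2.trans_lt h.p1)
  have hw0 : ∀ i, w i ≠ 0 := fun i r => zero_ne_one (by rw [← hw1 i, r, map_zero] : (0 : Γ) = 1)
  rcases ax_core2 h hT y hy hs (fun i => map (Subfield.inclusion hE) (g i))
    (fun i => map (Subfield.inclusion hE) (d i)) (fun i μ => by rw [AxT1_coeff]; exact hg i μ)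
    (fun i => (hg1 i).imp fun ν r => by rw [coeff_map, r, map_one])
    (fun i μ => by rw [AxT1_coeff]; exact hd i μ)
    (fun i => by rw [AxT1_aeval, AxT1_aeval, he]; exact (hw i).2) with h1 | ⟨r, hr, h1⟩
  · left
    simpa only [AxT1_aeval, he, add_sub_cancel] using h1
  refine Or.inr ⟨r, hr, ?_⟩
  have hgd1 : ∀ i μ, v ((g i + d i).coeff μ : E) ≤ 1 := fun i μ => by
    rw [coeff_add, Subfield.coe_add]
    exact v.map_add_le (hg i μ) (hd i μ)
  have hb : ∀ i, ∃ c : ℕ, v p ^ c ≤ v (aeval y (g i)) := fun i => ⟨1, (pow_one _).trans_le (hp i)⟩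
  have ha : ∀ i, ∃ c : ℕ, v p ^ c ≤ v (aeval y (g i + d i)) := fun i => by
    rw [hgd i, map_mul, hw1 i, mul_one]
    exact hb i
  have hni : ∀ k l : I → ℕ, ¬ Inf v (v p) (aeval y (∏ i, (g i + d i) ^ k i * g i ^ l i)) := by
    intro k l
    obtain ⟨c, hc⟩ := Scale_nb Finset.univ _ _ k l ha hb
    refine not_inf_of_le h.p0 h.p1 (c := c) ?_
    simpa only [map_prod, map_mul, map_pow] using hc
  have hco : ∀ (k l : I → ℕ) μ, v ((∏ i, (g i + d i) ^ k i * g i ^ l i).coeff μ : E) ≤ 1 :=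
    fun k l => v_coeff_prod _ _ fun i => v_coeff_mul (v_coeff_pow (hgd1 _) _) (v_coeff_pow (hg _) _)
  refine small_of_near h.p0 h.p1 hy (hco _ _) (hco _ _) (hni _ _) (hni _ _)
    (AxT1_near hE (by simpa only [map_prod, map_mul, map_pow, map_add] using h1)) ?_
  rw [map_prod, map_prod, ← Finset.prod_mul_distrib]
  refine Finset.prod_congr rfl fun i _ => ?_
  rw [map_mul, map_mul, map_pow, map_pow, map_pow, map_pow, hgd]
  exact Scale_zpow (hw0 _) _

end Pool.Agent.Work.MP_dd0d16_nt.T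
end
end
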