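import Pool.Agent.Work.MP_dd0d16_nt.G.AxT1
import Pool.Agent.Work.MP_dd0d16_nt.R.Top2
import Pool.Agent.Work.MP_dd0d16_nt.T.Mat
import Pool.Agent.Work.MP_dd0d16_nt.G.Cyc
import Pool.Agent.Work.MP_dd0d16_nt.PAdic

-- merged part: Pool.Agent.Work.MP_dd0d16_nt.G.StepC
section
-- merged part: Pool.Agent.Work.MP_dd0d16_nt.S.Step
section
/-!
Induction over the scales.

PLAN. `step`: choose `s : Finset I` of largest cardinality with `SI v E γ (Sum.elim y (μ on s))`
(`Finset.exists_max_image`). For `i ∉ s` use `hd` for `↥(insert i s)`; the first case is impossible;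
extend `r` by zero to `ρ i : I → ℤ` and put `u' i = ∏ x ^ ω * ∏ u ^ ρ i`. We have `ρ i i ≠ 0`:
otherwise `Small.log` and `LF.prod_zpow` give `c ∈ E` with `∑ l : s, ρ i l * μ l - c` infinitesimal,
which contradicts `SI` for the polynomial `∑ l, C (ρ i l) * X (inr l) - C c` at a coefficient
`ρ i l ≠ 0` (`LF.nat` for `natAbs`, `not_inf_of_le`). Apply `IH` to `I' = {i // i ∉ s}`, the variables
`Sum.elim y (μ on s)` and `u'` (`Small.rename` with `Sum.inl`). First case: `r = ∑ i, ρ' i • ρ i`,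
nonzero at any `i ∉ s` with `ρ' i ≠ 0` because `ρ i' i = 0` for `i' ≠ i` outside `s`. Second case:
`exch`.
`small_main`: strong induction on the cardinality; empty family: `SI.algInd`, `SI.comp`; otherwise
`scale_ax`, then `Pi.single i 1`, or `step` with `τ = Empty`, `s0 = {i0}`.
`ladder`: `step` for `u ∘ e`, `μ ∘ e`, `s0 = ∅`.
-/

set_option autoImplicit false

namespace Pool.Agent.Work.MP_dd0d16_nt.T

open MvPolynomial

variable {Ω Γ : Type} [Field Ω] [CharZero Ω] [LinearOrderedCommGroupWithZero Γ]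
  {v : Valuation Ω Γ} {L : Ω → Ω} {E : Subfield Ω} {p : ℕ} {γ : Γ}

/-- The dichotomy for families indexed by `I` that are constant at the given scale. -/
def Main (p : ℕ) (v : Valuation Ω Γ) (L : Ω → Ω) (E : Subfield Ω) (I : Type) [Fintype I] : Prop :=
  ∀ (σ : Type) [Fintype σ] (γ : Γ) (y : σ → Ω) (u : I → Ω), γ ≠ 0 → γ ≤ v p →
    (∀ s, v (y s) ≤ 1) → SI v E γ y → (∀ i, Small v E γ y (u i)) →
    (∃ r : I → ℤ, r ≠ 0 ∧ ∏ i, u i ^ r i ∈ E) ∨
      AlgebraicIndependent E (Sum.elim y fun i => L (u i))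

omit [CharZero Ω] in
theorem Step_sum {ι : Type} (s : Finset ι) {a : Ω} (ha : a ≠ 0) (f : ι → ℤ) :
    a ^ ∑ i ∈ s, f i = ∏ i ∈ s, a ^ f i := by
  induction s using Finset.cons_induction with
  | empty => simp
  | cons i s hi ih => rw [Finset.sum_cons, Finset.prod_cons, zpow_add₀ ha, ih]

omit [CharZero Ω] in
theorem Step_zpow {ι τ : Type} [Fintype ι] [Fintype τ] {x : τ → Ω} (hx : ∀ a, x a ≠ 0)
    (ω : ι → τ → ℤ) (r : ι → ℤ) :
    ∏ i, (∏ a, x a ^ ω i a) ^ r i = ∏ a, x a ^ ∑ i, ω i a * r i := by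
  simp only [← Finset.prod_zpow, ← zpow_mul, Step_sum _ (hx _)]
  exact Finset.prod_comm

theorem Step_lin (h : LF p v L E) (h0 : γ ≠ 0) (hp : γ ≤ v p) {κ : Type} [Fintype κ] {z : κ → Ω}
    (hz : SI v E γ z) (ρ : κ → ℤ) {c : Ω} (hc : c ∈ E) (hi : Inf v γ (∑ l, ρ l * z l - c)) :
    ρ = 0 := by
  classical
  funext l
  by_contra hl
  obtain ⟨a, ha⟩ := hz (∑ l, C (ρ l : E) * X l - C ⟨c, hc⟩) (Finsupp.single l 1)
  obtain ⟨b, hb⟩ := h.nat _ (Int.natAbs_ne_zero.2 hl)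
  have e1 : (∑ l, C (ρ l : E) * X l - C ⟨c, hc⟩ : MvPolynomial κ E).coeff (Finsupp.single l 1) =
      ρ l := by
    rw [coeff_sub, coeff_sum, coeff_C, if_neg (Finsupp.single_ne_zero.2 one_ne_zero).symm, sub_zero,
      Finset.sum_eq_single l (fun j _ hj => by
        rw [coeff_C_mul, coeff_X, if_neg (by
          rwa [Finsupp.single_left_inj one_ne_zero]), mul_zero]) (by simp),
      coeff_C_mul, coeff_X, if_pos rfl, mul_one]
  have e2 : aeval z (∑ l, C (ρ l : E) * X l - C ⟨c, hc⟩ : MvPolynomial κ E) =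
      ∑ l, ρ l * z l - c := by
    simp only [map_sub, map_sum, map_mul, aeval_C, aeval_X, map_intCast]
    rfl
  have e3 : v (((ρ l).natAbs : ℕ) : Ω) = v (((ρ l : E) : Ω)) := by
    rw [SubringClass.coe_intCast, ← Int.cast_natCast, Int.natCast_natAbs]
    rcases abs_choice (ρ l) with e | e <;> simp [e]
  rw [e1, e2] at ha
  refine not_inf_of_le h0 (hp.trans_lt h.p1) (c := a + b) (le_trans ?_ ha) hi
  rw [pow_add, ← e3]
  exact mul_le_mul_right ((pow_le_pow_left₀ zero_le hp b).trans hb) _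

theorem step (h : LF p v L E) (h0 : γ ≠ 0) (hp : γ ≤ v p) {σ I τ : Type} [Fintype σ] [Fintype I]
    [Fintype τ] (y : σ → Ω) (hy : ∀ s, v (y s) ≤ 1) (x : τ → Ω) (hx : ∀ a, x a ≠ 0 ∧ L (x a) = 0)
    (u μ : I → Ω) (hu : ∀ i, u i ≠ 0) (hμ : ∀ i, v (μ i) ≤ 1 ∧ μ i - L (u i) ∈ E)
    (hd : ∀ (I' : Type) [Fintype I'] (e : I' → I), SI v E γ (Sum.elim y fun i => μ (e i)) ∨
      ∃ r : I' → ℤ, r ≠ 0 ∧ ∃ ω : τ → ℤ, Small v E γ y ((∏ a, x a ^ ω a) * ∏ i, u (e i) ^ r i))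
    (s0 : Finset I) (hs0 : SI v E γ (Sum.elim y fun i : s0 => μ i))
    (IH : ∀ (I' : Type) [Fintype I'], Fintype.card I' + s0.card ≤ Fintype.card I →
      Main p v L E I') :
    (∃ r : I → ℤ, r ≠ 0 ∧ ∃ ω : τ → ℤ, (∏ a, x a ^ ω a) * ∏ i, u i ^ r i ∈ E) ∨
      AlgebraicIndependent E (Sum.elim y fun i => L (u i)) := by
  classical
  obtain ⟨s, hs, hm⟩ := Finset.exists_max_image
    (Finset.univ.filter fun s : Finset I => SI v E γ (Sum.elim y fun i : s => μ i)) Finset.card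
    ⟨s0, by simpa using hs0⟩
  simp only [Finset.mem_filter, Finset.mem_univ, true_and] at hs hm
  have h1 : ∀ i : {i // i ∉ s}, ∃ (n : ℤ) (ρ : s → ℤ) (ω : τ → ℤ), (n ≠ 0 ∨ ρ ≠ 0) ∧
      Small v E γ y ((∏ a, x a ^ ω a) * (u i ^ n * ∏ l : s, u l ^ ρ l)) := by
    intro i
    rcases hd (Option s) (fun o => o.elim i.1 Subtype.val) with k | ⟨r, r0, ω, k⟩
    · have e : ∀ j : ↥(insert i.1 s), ∃ o : Option s, o.elim i.1 Subtype.val = j.1 := fun j =>
        (Finset.mem_insert.1 j.2).elim (fun k => ⟨none, k.symm⟩) fun k => ⟨some ⟨_, k⟩, rfl⟩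
      choose f hf using e
      have k1 := k.comp (e := Sum.map id f) (Function.injective_id.sumMap fun j j' e =>
        Subtype.ext (by rw [← hf j, e, hf]))
      rw [Sum.elim_comp_map] at k1
      have k2 := hm (insert i.1 s) (by simpa only [Function.comp_def, hf, id_eq] using k1)
      rw [Finset.card_insert_of_notMem i.2] at k2
      omega
    · rw [Fintype.prod_option] at k
      refine ⟨r none, fun l => r (some l), ω, by_contra fun k1 => r0 (funext fun o => ?_), k⟩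
      rw [not_or, not_not, not_not] at k1
      cases o with
      | none => exact k1.1
      | some l => exact congrFun k1.2 l
  choose n ρ ω h1 h2 using h1
  have h3 : ∀ i, L ((∏ a, x a ^ ω i a) * (u i ^ n i * ∏ l : s, u l ^ ρ i l)) =
      n i * L (u i) + ∑ l : s, ρ i l * L (u l) := by
    intro i
    have k := h.prod_zpow Finset.univ (Sum.elim x (Sum.elim (fun _ : Unit => u i) fun l : s => u l))
      (by rintro (a | a | a) <;> simp [hx, hu]) (Sum.elim (ω i) (Sum.elim (fun _ => n i) (ρ i)))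
    simpa [Fintype.prod_sum_type, Fintype.sum_sum_type, hx] using k
  have hs' : SI v E γ y := by simpa only [Sum.elim_comp_inl] using hs.comp Sum.inl_injective
  have h4 : ∀ i, n i ≠ 0 := by
    intro i k
    obtain ⟨-, c, c1, c2⟩ := (h2 i).log h h0 hp hy hs'
    have c3 : SI v E γ fun l : s => μ l := by
      simpa only [Sum.elim_comp_inr] using hs.comp Sum.inr_injective
    have c4 : c + ∑ l : s, ρ i l * (μ l - L (u l)) ∈ E :=
      add_mem c1 (sum_mem fun l _ => mul_mem (intCast_mem E _) (hμ l).2)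
    refine (h1 i).elim (fun e => e k) fun e => e (Step_lin h h0 hp c3 (ρ i) c4 ?_)
    rw [h3, k] at c2
    convert c2 using 1
    simp only [mul_sub, Finset.sum_sub_distrib]
    push_cast
    ring
  have h5 : s.card + Fintype.card {i // i ∉ s} = Fintype.card I := by
    rw [← Fintype.card_coe, ← Fintype.card_sum]
    exact Fintype.card_congr (Equiv.sumCompl (· ∈ s))
  rcases IH {i // i ∉ s} (by have := hm s0 hs0; omega) (σ ⊕ s) γ (Sum.elim y fun i : s => μ i) _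
    h0 hp (by rintro (a | a); exacts [hy a, (hμ a).1]) hs
    (fun i => Small.rename Sum.inl_injective (by rw [Sum.elim_comp_inl]; exact h2 i)) with ⟨r, r0, k⟩ | k
  · refine Or.inl ⟨fun j => if hj : j ∈ s then ∑ i, ρ i ⟨j, hj⟩ * r i else n ⟨j, hj⟩ * r ⟨j, hj⟩,
      fun e => r0 (funext fun i => ?_), fun a => ∑ i, ω i a * r i, ?_⟩
    · have := congrFun e i
      rw [dif_neg i.2] at this
      exact (mul_eq_zero.1 this).resolve_left (h4 i)
    · simp only [mul_zpow, Finset.prod_mul_distrib, ← zpow_mul] at k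
      rw [Step_zpow fun a => (hx a).1, Step_zpow fun l : s => hu l, mul_comm (∏ i, u _ ^ _)] at k
      rw [← Fintype.prod_subtype_mul_prod_subtype (· ∈ s)]
      convert k using 3
      · exact Finset.prod_congr (by ext; simp) fun l _ => congrArg _ (dif_pos l.2)
      · exact Finset.prod_congr rfl fun i _ => congrArg _ (dif_neg i.2)
  · refine Or.inr (exch k (by simp only [Fintype.card_sum, Fintype.card_coe]; omega) ?_)
    have k1 : ∀ i, L (u i) ∈ Algebra.adjoin E (Set.range (Sum.elim y fun i => L (u i))) :=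
      fun i => Algebra.subset_adjoin ⟨Sum.inr i, rfl⟩
    rintro ((a | a) | a)
    · exact Algebra.subset_adjoin ⟨Sum.inl a, rfl⟩
    · rw [Sum.elim_inl, Sum.elim_inr, ← sub_add_cancel (μ a) (L (u a))]
      exact add_mem (Subalgebra.algebraMap_mem _ (⟨_, (hμ a).2⟩ : E)) (k1 a)
    · rw [Sum.elim_inr, h3]
      exact add_mem (mul_mem (intCast_mem _ _) (k1 _))
        (sum_mem fun l _ => mul_mem (intCast_mem _ _) (k1 _))

theorem small_main (h : LF p v L E) (I : Type) [Fintype I] : Main p v L E I := by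
  classical
  induction hn : Fintype.card I using Nat.strong_induction_on generalizing I with
  | _ n ih =>
  intro σ _ γ y u h0 hp hy hs hu
  rcases isEmpty_or_nonempty I with hI | hI
  · refine Or.inr ?_
    convert (hs.algInd h0).comp _ (Equiv.sumEmpty σ I).injective using 1
    funext a
    rcases a with a | a
    exacts [rfl, isEmptyElim a]
  rcases scale_ax h h0 hp y hy hs u hu with ⟨i, hi⟩ | ⟨γ', μ, i0, k0, k1, k2, k3, k4⟩
  · refine Or.inl ⟨Pi.single i 1, by simp, ?_⟩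
    rwa [Finset.prod_eq_single i (fun j _ hj => by rw [Pi.single_eq_of_ne hj, zpow_zero])
      (by simp), Pi.single_eq_same, zpow_one]
  refine (step h k0 (k1.trans hp) (τ := Empty) y hy Empty.elim (fun a => a.elim) u μ
    (fun i => ((hu i).log h h0 hp hy hs).1) k2
    (fun I' _ e => (k4 I' e).imp_right fun ⟨r, r0, k⟩ => ⟨r, r0, Empty.elim, by simpa using k⟩)
    {i0} ?_ fun I' _ k => ih _ (by rw [Finset.card_singleton] at k; omega) I' rfl).imp_left
      fun ⟨r, r0, _, k⟩ => ⟨r, r0, by simpa using k⟩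
  convert k3.comp (e := Sum.map id fun _ : ({i0} : Finset I) => ())
    (Function.injective_id.sumMap fun _ _ _ => Subsingleton.elim _ _) using 1
  funext a
  rcases a with a | a
  exacts [rfl, congrArg μ (Finset.mem_singleton.1 a.2)]

theorem ladder (h : LF p v L E) (h0 : γ ≠ 0) (hp : γ ≤ v p) {σ I τ : Type} [Fintype σ]
    [Fintype τ] (y : σ → Ω) (hy : ∀ s, v (y s) ≤ 1) (x : τ → Ω) (hx : ∀ a, x a ≠ 0 ∧ L (x a) = 0)
    (u μ : I → Ω) (hu : ∀ i, u i ≠ 0) (hμ : ∀ i, v (μ i) ≤ 1 ∧ μ i - L (u i) ∈ E)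
    (hd : ∀ (I' : Type) [Fintype I'] (e : I' → I), SI v E γ (Sum.elim y fun i => μ (e i)) ∨
      ∃ r : I' → ℤ, r ≠ 0 ∧ ∃ ω : τ → ℤ, Small v E γ y ((∏ a, x a ^ ω a) * ∏ i, u (e i) ^ r i))
    (I' : Type) [Fintype I'] (e : I' → I) :
    (∃ r : I' → ℤ, r ≠ 0 ∧ ∃ ω : τ → ℤ, (∏ a, x a ^ ω a) * ∏ i, u (e i) ^ r i ∈ E) ∨
      AlgebraicIndependent E (Sum.elim y fun i => L (u (e i))) := by
  exact step h h0 hp y hy x hx (fun i => u (e i)) (fun i => μ (e i)) (fun _ => hu _) (fun _ => hμ _)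
    (fun I'' _ e' => hd I'' fun i => e (e' i)) ∅
    ((hd (∅ : Finset I') fun i => e i).resolve_right fun ⟨_, r0, _⟩ => r0 (Subsingleton.elim _ _))
    fun I'' _ _ => small_main h I''

end Pool.Agent.Work.MP_dd0d16_nt.T
end

-- merged part: Pool.Agent.Work.MP_dd0d16_nt.S.Dich
section
/-!
Exact relation or algebraic independence.

PLAN. First call of `top` with `I = Empty`: `m', x', η', e', N0'`; `K' = K0 ⊔ adjoin (range η')`
(finite, inside `Unr p ⊔ K0`); `I' = Empty` and `SI.comp` give `SI` for `x'` over `K'`. Let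
`J2 = ↥(Finset.univ.image e')`, `c n i μ = ∑ j with e' j = μ, t n i j * η' j ∈ K'`,
`u' n = ∏ d, x' n d ^ N0'`; eventually `α n i * u' n = ∑ μ, c n i μ * x' n ^ μ`
(`Finset.sum_fiberwise`-type lemma). Let `κ n i` be a `c n i μ` of largest norm (or `1` if all vanish)
and `b n i μ = c n i μ / κ n i`. One `μ0` is eventually the place of the maximum
(`Ultrafilter.eventually_exists_iff`), so the polynomial `∑ μ, monomial μ (gm b μ)` has a
coefficient `1` and by `SI` its value `α' i = α i * u' / κ i` is not infinitesimal.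
Second call of `top` with base field `K'`, index type `J ⊕ J2 ⊕ Unit`, roots
`Sum.elim (ζ n) (Sum.elim (fun μ => x' n ^ μ) fun _ => u' n)` (products of roots are roots) and
coefficients `Sum.elim 0 (Sum.elim (b n i) 0)`; `K1 = K' ⊔ adjoin (range η)`. Apply `ladder` (with
`lf_germ`) to `u i = α' i ^ M`, `μ i = LG U L (u i)`. In the first case use
`α' i = α i * u' / κ i` and `u' = η * ∏ x ^ (e - N0)`: `r` becomes `M • r`. In the second case
`LG U L (α' i ^ M) = M * (LG U L (α i) - LG U L (κ i))`, use `exch` (S/Exch).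
-/

set_option autoImplicit false

namespace Pool.Agent.Work.MP_dd0d16_nt.T

open Filter MvPolynomial

variable {p : ℕ} [Fact p.Prime] {ι : Type} {L : PadicAlgCl p → PadicAlgCl p}

theorem Root.mul {z w : PadicAlgCl p} (hz : Root z) (hw : Root w) : Root (z * w) := by
  obtain ⟨N, h1, h2⟩ := hz
  obtain ⟨M, h3, h4⟩ := hw
  refine ⟨N * M, fun h => ((Fact.out : p.Prime).dvd_mul.1 h).elim h1 h3, ?_⟩
  rw [mul_pow, pow_mul, h2, pow_mul', h4, one_pow, one_pow, one_mul]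

theorem Root.prod_pow {σ : Type} (s : Finset σ) {z : σ → PadicAlgCl p} (hz : ∀ d, Root (z d))
    (e : σ → ℕ) : Root (∏ d ∈ s, z d ^ e d) := by
  have h1 : Root (1 : PadicAlgCl p) := ⟨1, (Fact.out : p.Prime).not_dvd_one, one_pow 1⟩
  refine Finset.prod_induction _ Root (fun _ _ => Root.mul) h1 fun d _ => ?_
  induction e d with
  | zero => rwa [pow_zero]
  | succ n ih => exact pow_succ (z d) n ▸ ih.mul (hz d)

theorem Root.norm {z : PadicAlgCl p} (hz : Root z) : ‖z‖ = 1 := by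
  obtain ⟨N, h1, h2⟩ := hz
  have h3 : ‖z‖ ^ N = 1 := by rw [← norm_pow, h2, norm_one]
  exact (pow_eq_one_iff_of_nonneg (norm_nonneg _) fun h : N = 0 => h1 (h ▸ dvd_zero p)).1 h3

theorem Dich_adj (K : IntermediateField ℚ_[p] (PadicAlgCl p)) [FiniteDimensional ℚ_[p] K]
    {J : Type} [Fintype J] {η : J → PadicAlgCl p} (hη : ∀ j, Root (η j)) :
    ∃ K' : IntermediateField ℚ_[p] (PadicAlgCl p), FiniteDimensional ℚ_[p] K' ∧ K ≤ K' ∧
      K' ≤ Unr p ⊔ K ∧ ∀ j, η j ∈ K' := by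
  have := IntermediateField.finiteDimensional_adjoin (K := ℚ_[p]) (S := Set.range η)
    fun x _ => Algebra.IsIntegral.isIntegral x
  refine ⟨K ⊔ IntermediateField.adjoin ℚ_[p] (Set.range η), inferInstance, le_sup_left,
    sup_le le_sup_right (le_sup_of_le_left (IntermediateField.adjoin.mono _ _ _ ?_)),
    fun j => (le_sup_right : IntermediateField.adjoin ℚ_[p] (Set.range η) ≤ _)
      (IntermediateField.subset_adjoin _ _ ⟨j, rfl⟩)⟩
  rintro _ ⟨j, rfl⟩
  exact hη j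

theorem Dich_fib {J τ R : Type} [Fintype J] [DecidableEq τ] [CommSemiring R] (e : J → τ)
    (a : J → R) (w : τ → R) :
    ∑ μ ∈ Finset.univ.image e, (∑ j with e j = μ, a j) * w μ = ∑ j, a j * w (e j) := by
  rw [← Finset.sum_fiberwise_of_maps_to (g := e) fun j hj => Finset.mem_image_of_mem e hj]
  refine Finset.sum_congr rfl fun μ _ => ?_
  rw [Finset.sum_mul]
  exact Finset.sum_congr rfl fun j hj => by rw [(Finset.mem_filter.1 hj).2]

theorem Dich_mon (U : Ultrafilter ι) {σ : Type} [Fintype σ] (x : ι → σ → PadicAlgCl p)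
    (e : σ → ℕ) : ∏ d, (gm U fun n => x n d) ^ e d = gm U fun n => ∏ d, x n d ^ e d := by
  simp only [← map_pow, ← map_prod]
  exact congrArg _ (funext fun n => by simp only [Finset.prod_apply, Pi.pow_apply])

theorem Dich_norm (hL : IsLog L) (U : Ultrafilter ι) {σ : Type} [Fintype σ]
    {K : IntermediateField ℚ_[p] (PadicAlgCl p)} {x : ι → σ → PadicAlgCl p}
    (hs : SI (vG U) (GS U fun _ => K) (vG U (p : GF p U)) fun d => gm U fun n => x n d)
    (S : Finset (σ →₀ ℕ)) (c : (σ →₀ ℕ) → ι → PadicAlgCl p) (hc : ∀ μ n, c μ n ∈ K)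
    (h0 : ∀ᶠ n in U, ∑ μ ∈ S, c μ n * ∏ d, x n d ^ μ d ≠ 0) :
    ∃ κ : ι → PadicAlgCl p, (∀ n, κ n ∈ K ∧ κ n ≠ 0 ∧ ∀ μ ∈ S, ‖c μ n / κ n‖ ≤ 1) ∧
      ¬ Inf (vG U) (vG U (p : GF p U))
        (gm U fun n => ∑ μ ∈ S, c μ n / κ n * ∏ d, x n d ^ μ d) := by
  classical
  have h1 : ∀ n, ∃ κ, (κ ∈ K ∧ κ ≠ 0 ∧ ∀ μ ∈ S, ‖c μ n / κ‖ ≤ 1) ∧
      (∑ μ ∈ S, c μ n * ∏ d, x n d ^ μ d ≠ 0 → ∃ μ ∈ (S : Set (σ →₀ ℕ)), c μ n / κ = 1) := by
    intro n
    by_cases hn : ∀ μ ∈ S, c μ n = 0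
    · exact ⟨1, ⟨one_mem _, one_ne_zero, fun μ hμ => by simp [hn μ hμ]⟩,
        fun h => absurd (Finset.sum_eq_zero fun μ hμ => by rw [hn μ hμ, zero_mul]) h⟩
    · push Not at hn
      obtain ⟨ν, h2, h3⟩ := hn
      obtain ⟨μ, h4, h5⟩ := S.exists_max_image (fun μ => ‖c μ n‖) ⟨ν, h2⟩
      have h6 : c μ n ≠ 0 := norm_pos_iff.1 ((norm_pos_iff.2 h3).trans_le (h5 ν h2))
      refine ⟨c μ n, ⟨hc μ n, h6, fun ν h => ?_⟩, fun _ => ⟨μ, h4, div_self h6⟩⟩
      rw [norm_div]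
      exact div_le_one_of_le₀ (h5 ν h) (norm_nonneg _)
  choose κ h2 h3 using h1
  obtain ⟨μ, h4, h5⟩ := (Ultrafilter.eventually_exists_mem_iff S.finite_toSet
    (P := fun μ n => c μ n / κ n = 1)).1 (h0.mono h3)
  have h6 : ∀ μ n, c μ n / κ n ∈ K := fun μ n => div_mem (hc μ n) (h2 n).1
  obtain ⟨k, hk⟩ := hs (∑ μ ∈ S, monomial μ ⟨gm U fun n => c μ n / κ n, _, h6 μ, rfl⟩) μ
  rw [Germ_aeval U (fun _ => K) x S _ h6, coeff_sum] at hk
  simp only [coeff_monomial, Finset.sum_ite_eq', if_pos (Finset.mem_coe.1 h4), map_sum,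
    aeval_monomial, Finsupp.prod_pow] at hk
  rw [((gm_eq U).2 h5).trans (map_one (gm U)), map_one, mul_one] at hk
  exact ⟨κ, h2, not_inf_of_le (lf_germ U hL fun _ => K).p0 (lf_germ U hL fun _ => K).p1 hk⟩

theorem Dich_fin {Ω Γ : Type} [Field Ω] [LinearOrderedCommGroupWithZero Γ] {v : Valuation Ω Γ}
    {L : Ω → Ω} {E : Subfield Ω} {p : ℕ} (h : LF p v L E) {τ I : Type} [Fintype τ] [Fintype I]
    {X : τ → Ω} (hX : ∀ d, X d ≠ 0 ∧ L (X d) = 0) {α α' k : I → Ω} (hα : ∀ i, α i ≠ 0)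
    (hk : ∀ i, k i ∈ E ∧ k i ≠ 0) {f : τ → ℕ} {N M : ℕ} (hM : M ≠ 0)
    (e : ∀ i, α' i * ∏ d, X d ^ N = α i * (k i * ∏ d, X d ^ f d))
    (H : (∃ r : I → ℤ, r ≠ 0 ∧ ∃ ω : τ → ℤ, (∏ d, X d ^ ω d) * ∏ i, (α' i ^ M) ^ r i ∈ E) ∨
      AlgebraicIndependent E (Sum.elim X fun i => L (α' i ^ M))) :
    (∃ r : I → ℤ, r ≠ 0 ∧ ∃ ω : τ → ℤ, (∏ d, X d ^ ω d) * ∏ i, α i ^ r i ∈ E) ∨
      AlgebraicIndependent E (Sum.elim X fun i => L (α i)) := by
  have h1 : ∀ g : τ → ℤ, ∏ d, X d ^ g d ≠ 0 := fun g =>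
    Finset.prod_ne_zero_iff.2 fun d _ => zpow_ne_zero _ (hX d).1
  have h2 : ∀ i, α' i = α i * (k i * ∏ d, X d ^ ((f d : ℤ) - N)) := fun i => by
    simp only [zpow_sub₀ (hX _).1, zpow_natCast, Finset.prod_div_distrib, ← mul_div_assoc]
    exact eq_div_of_mul_eq (Finset.prod_ne_zero_iff.2 fun d _ => pow_ne_zero _ (hX d).1) (e i)
  refine H.imp ?_ fun H => exch H le_rfl ?_
  · rintro ⟨r, h3, ω, h4⟩
    refine ⟨fun i => M * r i, fun h5 => h3 (funext fun i => ?_),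
      fun d => ω d + ∑ i, ((f d : ℤ) - N) * (M * r i), ?_⟩
    · exact (mul_eq_zero.1 (congrFun h5 i)).resolve_left (Int.natCast_ne_zero.2 hM)
    · have h5 := mul_mem h4 (inv_mem (prod_mem (t := Finset.univ) fun i _ =>
        zpow_mem (hk i).1 (M * r i)))
      have h6 : ∏ i, k i ^ (M * r i) ≠ 0 :=
        Finset.prod_ne_zero_iff.2 fun i _ => zpow_ne_zero _ (hk i).2
      simp only [← zpow_natCast _ M, ← zpow_mul, h2, mul_zpow, Finset.prod_mul_distrib,
        Step_zpow fun d => (hX d).1] at h5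
      simp only [zpow_add₀ (hX _).1, Finset.prod_mul_distrib]
      convert h5 using 1
      field_simp
  · rintro (d | i)
    · exact Algebra.subset_adjoin ⟨.inl d, rfl⟩
    · have h3 := h.prod_zpow Finset.univ (fun _ : Unit => α' i) (fun _ => by
        rw [h2]
        exact mul_ne_zero (hα i) (mul_ne_zero (hk i).2 (h1 _))) fun _ => M
      simp only [Finset.univ_unique, Finset.prod_singleton, Finset.sum_singleton,
        zpow_natCast] at h3
      rw [Sum.elim_inr, h3, h2, h.mul _ _ (hα i) (mul_ne_zero (hk i).2 (h1 _)),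
        h.mul _ _ (hk i).2 (h1 _), h.prod_zpow _ _ fun d => (hX d).1]
      simp only [(hX _).2, mul_zero, Finset.sum_const_zero, add_zero]
      exact mul_mem (intCast_mem _ _) (add_mem (Algebra.subset_adjoin ⟨.inr i, rfl⟩)
        (Subalgebra.algebraMap_mem _ (⟨_, h.mem _ (hk i).1 (hk i).2⟩ : E)))

theorem dich (hL : IsLog L) (U : Ultrafilter ι) {J I : Type} [Fintype J] [Fintype I]
    (ζ : ι → J → PadicAlgCl p) (hζ : ∀ n j, Root (ζ n j))
    (K0 : IntermediateField ℚ_[p] (PadicAlgCl p)) [FiniteDimensional ℚ_[p] K0]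
    (t : ι → I → J → PadicAlgCl p) (ht : ∀ n i j, t n i j ∈ K0)
    (hα0 : ∀ᶠ n in U, ∀ i, ∑ j, t n i j * ζ n j ≠ 0)
    (α : I → GF p U) (hα : ∀ i, α i = gm U fun n => ∑ j, t n i j * ζ n j) :
    ∃ (m : ℕ) (x : ι → Fin m → PadicAlgCl p) (η : J → PadicAlgCl p) (e : J → Fin m →₀ ℕ) (N0 : ℕ)
      (K1 : IntermediateField ℚ_[p] (PadicAlgCl p)), FiniteDimensional ℚ_[p] K1 ∧ K0 ≤ K1 ∧
      K1 ≤ Unr p ⊔ K0 ∧ (∀ j, η j ∈ K1) ∧ (∀ n d, Root (x n d)) ∧ (∀ j, Root (η j)) ∧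
      (∀ᶠ n in U, ∀ j, ζ n j * ∏ d, x n d ^ N0 = η j * ∏ d, x n d ^ e j d) ∧
      ∀ (I' : Type) [Fintype I'] (ε : I' → I),
        (∃ r : I' → ℤ, r ≠ 0 ∧ ∃ ω : Fin m → ℤ,
          (∏ d, (gm U fun n => x n d) ^ ω d) * ∏ i, α (ε i) ^ r i ∈ GS U fun _ => K1) ∨
        AlgebraicIndependent (GS U fun _ => K1)
          (Sum.elim (fun d => gm U fun n => x n d) fun i => LG U L (α (ε i))) := by
  classical
  obtain ⟨m', x', η', e', N', M', -, hx', hη', hev', -, H'⟩ := top2 hL U (I := Empty) ζ hζ K0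
    (fun _ i => i.elim) (fun _ i => i.elim) (fun i => i.elim) (fun i => i.elim) fun i => i.elim
  obtain ⟨K', _, k1, k2, k3⟩ := Dich_adj K0 hη'
  have hs := ((H' K' k1 k2 k3 Empty id).resolve_right fun ⟨r, h, _⟩ =>
    h (Subsingleton.elim _ _)).comp Sum.inl_injective
  rw [Sum.elim_comp_inl] at hs
  obtain ⟨S, c, hc, he⟩ : ∃ (S : Finset (Fin m' →₀ ℕ)) (c : I → (Fin m' →₀ ℕ) → ι → PadicAlgCl p),
      (∀ i μ n, c i μ n ∈ K') ∧ ∀ᶠ n in U, ∀ i, ∑ μ ∈ S, c i μ n * ∏ d, x' n d ^ μ d =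
        (∑ j, t n i j * ζ n j) * ∏ d, x' n d ^ N' :=
    ⟨Finset.univ.image e', fun i μ n => ∑ j with e' j = μ, t n i j * η' j,
      fun i μ n => sum_mem fun j _ => mul_mem (k1 (ht n i j)) (k3 j), hev'.mono fun n hn i => by
        rw [Dich_fib, Finset.sum_mul]
        exact Finset.sum_congr rfl fun j _ => by rw [mul_assoc, mul_assoc, hn]⟩
  have hu' : ∀ n, Root (∏ d, x' n d ^ N') := fun n => Root.prod_pow _ (hx' n) _
  choose κ hκ hinf using fun i => Dich_norm hL U hs S (c i) (hc i) ((he.and hα0).mono fun n hn => by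
    rw [hn.1]
    exact mul_ne_zero (hn.2 i) (hu' n).ne_zero)
  obtain ⟨α', hα'⟩ : ∃ α' : I → GF p U,
      ∀ i, α' i = gm U fun n => ∑ μ ∈ S, c i μ n / κ i n * ∏ d, x' n d ^ μ d := ⟨_, fun _ => rfl⟩
  simp only [← hα'] at hinf
  obtain ⟨m, x, η, e, N0, M, hM, hx, hη, hev, hle, H⟩ := top2 hL U (J := J ⊕ S ⊕ Unit)
    (fun n => Sum.elim (ζ n) (Sum.elim (fun μ => ∏ d, x' n d ^ μ.1 d) fun _ => ∏ d, x' n d ^ N'))
    (by
      rintro n (j | μ | _)
      exacts [hζ n j, Root.prod_pow Finset.univ (hx' n) μ.1, hu' n])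
    K'
    (fun n i => Sum.elim 0 (Sum.elim (fun μ => c i μ n / κ i n) 0))
    (by
      rintro n i (j | μ | _)
      · exact ⟨zero_mem _, norm_zero.trans_le zero_le_one⟩
      · exact ⟨div_mem (hc i μ n) (hκ i n).1, (hκ i n).2.2 μ μ.2⟩
      · exact ⟨zero_mem _, norm_zero.trans_le zero_le_one⟩)
    α' (fun i => (hα' i).trans (congrArg _ (funext fun n => by
      simp only [Fintype.sum_sum_type, Sum.elim_inl, Sum.elim_inr, Pi.zero_apply, zero_mul,
        Finset.sum_const_zero, zero_add, add_zero]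
      exact (Finset.sum_coe_sort S _).symm))) hinf
  obtain ⟨K1, _, l1, l2, l3⟩ := Dich_adj K' hη
  refine ⟨m, x, fun j => η (.inl j), fun j => e (.inl j), N0, K1, inferInstance, k1.trans l1,
    l2.trans (sup_le le_sup_left k2), fun j => l3 _, hx, fun j => hη _, hev.mono fun n hn j => hn (.inl j), fun I' _ ε => ?_⟩
  have hF := lf_germ U hL fun _ => K1
  have hX : ∀ d, (gm U fun n => x n d) ≠ 0 ∧ LG U L (gm U fun n => x n d) = 0 := fun d =>
    ⟨(gm_ne U).2 (Eventually.of_forall fun n => (hx n d).ne_zero),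
      ((gm_eq U).2 (Eventually.of_forall fun n => log_root hL (hx n d))).trans (map_zero (gm U))⟩
  refine Dich_fin hF hX (α' := fun i => α' (ε i))
    (k := fun i => gm U fun n => η (.inr (.inr ())) / κ (ε i) n)
    (f := e (.inr (.inr ()))) (N := N0) (fun i => ?_) (fun i => ⟨?_, ?_⟩) hM (fun i => ?_)
    (ladder hF hF.p0 le_rfl _ (fun d => (vG_le_one U _).2 (Eventually.of_forall fun n =>
      (hx n d).norm.le)) _ hX (fun i => α' i ^ M) (fun i => LG U L (α' i ^ M))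
      (fun i => pow_ne_zero M fun h : α' i = 0 => hinf i (h ▸ LF_inf_zero))
      (fun i => ⟨hle i, by rw [sub_self]; exact zero_mem _⟩) (H K1 l1 l2 l3) I' ε)
  · rw [hα]
    exact (gm_ne U).2 (hα0.mono fun n hn => hn _)
  · exact ⟨_, fun n => div_mem (l3 _) (l1 (hκ _ n).1), rfl⟩
  · exact (gm_ne U).2 (Eventually.of_forall fun n => div_ne_zero (hη _).ne_zero (hκ _ n).2.1)
  · rw [hα, hα', Dich_mon, Dich_mon, ← map_mul, ← map_mul, ← map_mul, gm_eq]
    refine (he.and hev).mono fun n hn => ?_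
    have h1 : (∏ d, x' n d ^ N') * _ = _ := hn.2 (.inr (.inr ()))
    simp only [Pi.mul_apply, div_mul_eq_mul_div, ← Finset.sum_div, hn.1]
    rw [mul_assoc, h1, mul_div_assoc]

end Pool.Agent.Work.MP_dd0d16_nt.T
end

-- merged part: Pool.Agent.Work.MP_dd0d16_nt.G.Res1
section
/-!
The residue field of characteristic `p`.

PLAN. `exists_res0`: copy `exists_res` (S/Res) with `Bd`, `Sm`;
`CharP`: `p` is `Sm`, `CharP.charP_iff_prime_eq_zero` or `ringChar`; the subfield: inverses by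
`Bd.inv_of_not_sm`. `pow_close`: `z = 1 + s`, `v s < 1`, `exists_add_pow_prime_pow_eq` in the subring
`v.integer`, `p ^ a ≥ q`. `v_nat`: if `p` does not divide `b` then `v b = 1` (Bezout,
`Theta_nat` in S/Theta). `log_res`: `ε = -1` for `p = 2` and `0` otherwise; take `Tail` with `M = 2`,
`T ≥ 2`, `s = p y`; the term `n` divided by `p` is `(-1) ^ n * (p ^ n / (n + 1)) * y ^ (n + 1)` and
`v (p ^ n / (n + 1)) ≤ v p` for `n ≥ 1` unless `p = 2`, `n = 1` (write `n + 1 = p ^ a * b`; if `n ≤ a`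
then `p ^ n ≤ n + 1`).
-/

set_option autoImplicit false

namespace Pool.Agent.Work.MP_dd0d16_nt.T

variable {Ω Γ : Type} [Field Ω] [LinearOrderedCommGroupWithZero Γ] {v : Valuation Ω Γ}
  {L : Ω → Ω} {E : Subfield Ω} {p : ℕ} {a b z : Ω}

variable [Fact p.Prime]

omit [Fact p.Prime] in
theorem Res1_int (c : ℤ) : v (c : Ω) ≤ 1 := intCast_mem v.integer c

theorem Res1_add (ha : v a ≤ 1) (hb : v b ≤ 1) (n : ℕ) :
    v ((a + b) ^ p ^ n - a ^ p ^ n - b ^ p ^ n) ≤ v p := by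
  obtain ⟨r, hr⟩ := exists_add_pow_prime_pow_eq (Fact.out : p.Prime) (⟨a, ha⟩ : v.integer) ⟨b, hb⟩ n
  have e : (a + b) ^ p ^ n = a ^ p ^ n + b ^ p ^ n + p * a * b * r := by
    simpa using congrArg Subtype.val hr
  rw [show (a + b) ^ p ^ n - a ^ p ^ n - b ^ p ^ n = p * (a * b * r) by rw [e]; ring, map_mul,
    map_mul, map_mul]
  exact mul_le_of_le_one_right' (mul_le_one' (mul_le_one' ha hb) r.2)

theorem v_nat (h1 : v p < 1) {n : ℕ} (h : ¬ p ∣ n) : v (n : Ω) = 1 := by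
  refine (Theta_nat v n).antisymm (not_lt.1 fun h2 => ?_)
  obtain ⟨a, b, e⟩ := Nat.isCoprime_iff_coprime.2 ((Nat.Prime.coprime_iff_not_dvd Fact.out).2 h)
  have e' : (a : Ω) * p + b * n = 1 := by exact_mod_cast congrArg (Int.cast : ℤ → Ω) e
  have k : ∀ (c : ℤ) (x : Ω), v x < 1 → v (c * x) < 1 := fun c x hx => by
    rw [map_mul]
    exact (mul_le_of_le_one_left' (Res1_int c)).trans_lt hx
  have h3 := v.map_add_lt (k a _ h1) (k b _ h2)
  rw [e', map_one] at h3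
  exact lt_irrefl _ h3

theorem v_sum_pow {I : Type} (s : Finset I) {f : I → Ω} (hf : ∀ i ∈ s, v (f i) ≤ 1) (n : ℕ) :
    v ((∑ i ∈ s, f i) ^ p ^ n - ∑ i ∈ s, f i ^ p ^ n) ≤ v p := by
  classical
  induction s using Finset.induction_on with
  | empty => simp [(Fact.out : p.Prime).ne_zero]
  | insert i s hi ih =>
    have h1 : ∀ j ∈ s, v (f j) ≤ 1 := fun j hj => hf j (Finset.mem_insert_of_mem hj)
    have h2 := v.map_add_le (Res1_add (p := p) (hf i (Finset.mem_insert_self i s))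
      (v.map_sum_le h1) n) (ih h1)
    rw [Finset.sum_insert hi, Finset.sum_insert hi]
    convert h2 using 2
    ring

theorem exists_res0 (h0 : v p ≠ 0) (h1 : v p < 1) :
    ∃ (k : Type) (_ : Field k) (_ : CharP k p) (A : Subring Ω) (res : A →+* k),
      (∀ z, z ∈ A ↔ Bd v p z) ∧ (∀ z : A, res z = 0 ↔ Sm v p (z : Ω)) ∧
      ∀ F : Subfield Ω, ∃ K : Subfield k, ∀ y, y ∈ K ↔ ∃ x : A, (x : Ω) ∈ F ∧ res x = y := by
  let A : Subring Ω :=
    { carrier := {z | Bd v p z}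
      mul_mem' := Bd.mul
      one_mem' := Bd.of_le h1 v.map_one.le
      add_mem' := Bd.add
      zero_mem' := Bd.of_le h1 (by simp)
      neg_mem' := Bd.neg }
  let I : Ideal A :=
    { carrier := {z | Sm v p (z : Ω)}
      add_mem' := Sm.add
      zero_mem' := Sm.of_le (by simp)
      smul_mem' := fun a b hb => by
        show Sm v p ((a : Ω) * b)
        rw [mul_comm]
        exact Sm.mul_bd h0 hb a.2 }
  have hI : I.IsMaximal := by
    refine Ideal.isMaximal_iff.2 ⟨fun k => (Sm.lt h1 k).ne v.map_one, fun J x _ hx hJ => ?_⟩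
    have e : (⟨_, Bd.inv_of_not_sm hx⟩ : A) * x = 1 := Subtype.ext (inv_mul_cancel₀ (not_sm_ne hx))
    exact e ▸ J.mul_mem_left _ hJ
  let _ : Field (A ⧸ I) := Ideal.Quotient.field I
  have : CharP (A ⧸ I) p := (CharP.charP_iff_prime_eq_zero Fact.out).2 (by
    rw [← map_natCast (Ideal.Quotient.mk I), Ideal.Quotient.eq_zero_iff_mem]
    exact Sm.of_le (by simp))
  refine ⟨A ⧸ I, inferInstance, inferInstance, A, Ideal.Quotient.mk I, fun _ => Iff.rfl,
    fun z => Ideal.Quotient.eq_zero_iff_mem, fun F => ⟨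
      { ((F.toSubring.comap A.subtype).map (Ideal.Quotient.mk I)) with inv_mem' := ?_ },
      fun _ => Iff.rfl⟩⟩
  rintro _ ⟨x, hx, rfl⟩
  by_cases h : x ∈ I
  · exact ⟨x, hx, by rw [Ideal.Quotient.eq_zero_iff_mem.2 h, inv_zero]⟩
  · have e : (⟨_, Bd.inv_of_not_sm h⟩ : A) * x = 1 := Subtype.ext (inv_mul_cancel₀ (not_sm_ne h))
    exact ⟨⟨_, Bd.inv_of_not_sm h⟩, F.inv_mem hx,
      eq_inv_of_mul_eq_one_left (by rw [← map_mul, e, map_one])⟩

theorem pow_close (h1 : v p < 1) (h : Sm v p (z - 1)) :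
    ∀ᶠ n : ℕ in Filter.atTop, v (z ^ p ^ n - 1) ≤ v p := by
  have h2 := (h.lt h1).le
  obtain ⟨q, hq⟩ := h
  filter_upwards [Filter.eventually_ge_atTop q] with n hn
  have h3 : v ((z - 1) ^ p ^ n) ≤ v p := by
    rw [map_pow]
    exact (pow_le_pow_right_of_le_one' h2
      (hn.trans (Nat.lt_pow_self (Fact.out : p.Prime).one_lt).le)).trans hq
  have h4 := v.map_add_le (Res1_add (p := p) h2 v.map_one.le n) h3
  convert h4 using 2
  rw [sub_add_cancel, one_pow]
  ring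

theorem Res1_term [CharZero Ω] (h0 : v p ≠ 0) (h1 : v p < 1) {y : Ω} (hy : Bd v p y) {n : ℕ}
    (hn : 1 ≤ n) (h : ¬ (p = 2 ∧ n = 1)) :
    Sm v p ((-1 : Ω) ^ n * (p * y) ^ (n + 1) / ((n : Ω) + 1) / p) := by
  have hp : (p : Ω) ≠ 0 := (map_ne_zero v).1 h0
  have h2 := (Fact.out : p.Prime).two_le
  obtain ⟨a, b, hb, e⟩ := Nat.exists_eq_pow_mul_and_not_dvd n.succ_ne_zero p (by omega)
  have h3 : a + 1 ≤ n := by
    by_contra k
    have k1 : p ^ n ≤ n + 1 := (Nat.pow_le_pow_right (by omega) (by omega)).trans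
      (Nat.le_of_dvd n.succ_pos ⟨b, e⟩)
    obtain ⟨m, rfl⟩ := Nat.exists_eq_add_of_le' hn
    have k2 := Nat.pow_le_pow_left h2 (m + 1)
    have k3 : m < 2 ^ m := Nat.lt_two_pow_self
    rw [pow_succ] at k2
    obtain rfl : m = 0 := by omega
    rw [zero_add, pow_one] at k1
    omega
  have e' : (n : Ω) + 1 = p ^ a * b := by exact_mod_cast e
  have h4 : (-1 : Ω) ^ n * (p * y) ^ (n + 1) / ((n : Ω) + 1) / p =
      p ^ n / ((n : Ω) + 1) * ((-1) ^ n * y ^ (n + 1)) := by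
    field_simp
    ring
  rw [h4]
  refine Sm.mul_bd h0 (Sm.of_le ?_) ((Bd.of_le h1 (by simp)).mul (hy.pow h1 _))
  rw [e', map_div₀, map_mul, v_nat h1 hb, mul_one, map_pow, map_pow,
    div_le_iff₀ (zero_lt_iff.2 (pow_ne_zero _ h0)), ← pow_succ']
  exact pow_le_pow_right_of_le_one' h1.le h3

theorem log_res [CharZero Ω] (h0 : v p ≠ 0) (h1 : v p < 1) (hT : Tail p v L) :
    ∃ ε : ℤ, ∀ y, Bd v p y → Sm v p (L (1 + p * y) / p - (y + ε * y ^ p)) := by
  have hp : (p : Ω) ≠ 0 := (map_ne_zero v).1 h0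
  obtain ⟨T, hT, h2⟩ := ((hT 2).and (Filter.eventually_ge_atTop 2)).exists
  obtain ⟨T, rfl⟩ := Nat.exists_eq_add_of_le' h2
  refine ⟨if p = 2 then -1 else 0, fun y hy => ?_⟩
  have h3 := hT _ hy.p_mul
  have h4 : ∀ ε : Ω, L (1 + p * y) / p - (y + ε * y ^ p) = (L (1 + p * y) -
      ∑ n ∈ Finset.range (T + 2), (-1 : Ω) ^ n * (p * y) ^ (n + 1) / ((n : Ω) + 1)) / p +
      (∑ n ∈ Finset.range T, (-1 : Ω) ^ (n + 2) * (p * y) ^ (n + 2 + 1) /
        (((n + 2 : ℕ) : Ω) + 1) / p +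
      ((-1 : Ω) ^ 1 * (p * y) ^ (1 + 1) / (((1 : ℕ) : Ω) + 1) / p - ε * y ^ p)) := fun ε => by
    rw [Finset.sum_range_succ', Finset.sum_range_succ', ← Finset.sum_div]
    simp only [zero_add, Nat.cast_zero, pow_zero, pow_one, div_one, one_mul]
    field_simp
    ring
  rw [h4]
  refine Sm.add (Sm.of_le ?_) (Sm.add (Sm.sum _ fun n _ =>
    Res1_term h0 h1 hy (by omega) (by omega)) ?_)
  · rw [map_div₀, div_le_iff₀ (zero_lt_iff.2 h0), ← sq]
    exact h3
  · split_ifs with h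
    · subst h
      refine Sm.of_le (le_of_eq_of_le ((map_eq_zero v).2 ?_) zero_le)
      push_cast
      field_simp
      ring
    · rw [Int.cast_zero, zero_mul, sub_zero]
      exact Res1_term h0 h1 hy le_rfl fun k => h k.1

theorem log_bd [CharZero Ω] (h0 : v p ≠ 0) (h1 : v p < 1) (hT : Tail p v L) {y : Ω}
    (hy : Bd v p y) : Bd v p (L (1 + p * y) / p) := by
  obtain ⟨ε, h⟩ := log_res h0 h1 hT
  have h2 := ((h y hy).bd h1).add (hy.add ((Bd.of_le h1 (Res1_int ε)).mul (hy.pow h1 p)))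
  rwa [sub_add_cancel] at h2

end Pool.Agent.Work.MP_dd0d16_nt.T
end

-- merged part: Pool.Agent.Work.MP_dd0d16_nt.G.StepC
section
/-!
The dichotomy over one level.

PLAN. Replace `α, u, κ, o, ω` by their compositions with `ε` (prove a lemma for a finite family).
`int_basis` for `o` gives `s, D, q`; `pow_close` gives `a` with `v (u k ^ p ^ a - 1) ≤ v p` for all `k`.
`L (u k) = L (u k ^ p ^ a) / p ^ a` and `v (L (u k ^ p ^ a)) ≤ 1` (`LF.tail` with `T = 0`), so
`ϖ * L (u k)` is infinitesimal. For `l : s` put `T' l = ∑ i, o l i * p ^ tt i * T i + ϖ * L (u l)`: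
`si_lin` with the matrix `o l i * p ^ tt i` (independent rows) gives `SI`; `t' l = ∑ i, o l i * p ^ tt i * t i`;
`T' l - ϖ * L (α l) ∈ E`. For `k ∉ s` put `w k = (u k ^ p ^ a) ^ D * ∏ l : s, (u l ^ p ^ a) ^ (-q k l)`
(`one_prod_zpow`); `w k` lies in the closure and `(α k ^ D * ∏ l : s, α l ^ (-q k l)) ^ p ^ a` is `w k`
times an element of `E` times a monomial in `X` (the powers of `P i` cancel). Apply `ladder` (S/Step)
with `y = Sum.elim X T'`, `x = X`, `u = w`, `μ = L ∘ w`, `I' = {k // k ∉ s}`, `e = id`; its hypothesis comes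
from `ax_top`, `si_join`, `SI.comp` (reorder the variables with an injective map) and `Small.rename`
(`ω = 0`). First case: the exponent of `α k`, `k ∉ s`, is `D * p ^ a * r k`. Second case: `exch`. See the
end of `step` (S/Step) for the bookkeeping (`Step_zpow`, `Fintype.prod_subtype_mul_prod_subtype`).
-/

set_option autoImplicit false

namespace Pool.Agent.Work.MP_dd0d16_nt.T

variable {Ω Γ : Type} [Field Ω] [CharZero Ω] [LinearOrderedCommGroupWithZero Γ]
  {v : Valuation Ω Γ} {L : Ω → Ω} {E E' : Subfield Ω} {p m : ℕ} [Fact p.Prime]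

omit [CharZero Ω] [Fact p.Prime] in
theorem StepC_pow (h : LF p v L E) {z : Ω} (hz : z ≠ 0) (n : ℕ) : L (z ^ n) = n * L z := by
  induction n with
  | zero => simp [h.one]
  | succ n ih =>
    rw [pow_succ, h.mul _ _ (pow_ne_zero n hz) hz, ih]
    push_cast
    ring

omit [CharZero Ω] [Fact p.Prime] in
theorem StepC_le (h : LF p v L E) {z : Ω} (hz : v (z - 1) ≤ v p) : v (L z) ≤ 1 := by
  simpa using h.tail 0 (z - 1) (by simpa using hz)

omit [CharZero Ω] [Fact p.Prime] in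
theorem StepC_inf_add {γ : Γ} {a b : Ω} (ha : Inf v γ a) (hb : Inf v γ b) : Inf v γ (a + b) :=
  fun c => v.map_add_le (ha c) (hb c)

omit [CharZero Ω] [Fact p.Prime] in
theorem StepC_inf_sum {γ : Γ} {Q : Type} [Fintype Q] (n : Q → ℕ) {f : Q → Ω}
    (hf : ∀ i, Inf v γ (f i)) : Inf v γ (∑ i, n i * f i) :=
  fun c => v.map_sum_le fun i _ => by
    rw [map_mul]
    exact (mul_le_of_le_one_left' (Theta_nat v _)).trans (hf i c)

theorem StepC_rows {I Q : Type} [Fintype I] [DecidableEq I] [Fintype Q] (o : I → Q → ℤ) {N : ℤ}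
    (hN : N ≠ 0) : ∃ (s : Finset I) (ρ : {k // k ∉ s} → I → ℤ),
      (∀ c : s → ℤ, (∀ j, ∑ l, c l * o l j = 0) → c = 0) ∧
      (∀ k i, ∑ j, o j i * (N * ρ k j) = 0) ∧
      ∀ r : {k // k ∉ s} → ℤ, (∀ j, ∑ k, N * ρ k j * r k = 0) → r = 0 := by
  obtain ⟨s, D, q, hD, h1, h2⟩ := int_basis o
  refine ⟨s, fun k j => if hj : j ∈ s then -q k ⟨j, hj⟩ else if j = k then D else 0, h1,
    fun k i => ?_, fun r hr => funext fun k => ?_⟩
  · beta_reduce
    rw [← Fintype.sum_subtype_add_sum_subtype (· ∈ s), Finset.sum_eq_single k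
      (fun j _ hj => by rw [dif_neg j.2, if_neg (fun e => hj (Subtype.ext e)), mul_zero, mul_zero])
      (by simp), dif_neg k.2, if_pos rfl]
    have e : ∑ l : s, o l i * (N * if hj : l.1 ∈ s then -q k ⟨l, hj⟩ else if l.1 = k then D else 0) =
        -(N * ∑ l : s, q k l * o l i) := by
      rw [Finset.mul_sum, ← Finset.sum_neg_distrib]
      exact Finset.sum_congr rfl fun l _ => by rw [dif_pos l.2]; ring
    have e' := h2 k i
    refine (congrArg (· + _) (Eq.trans ?_ e)).trans (by rw [← e']; ring)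
    exact Finset.sum_congr (by ext; simp) fun _ _ => rfl
  · have := hr k
    beta_reduce at this
    rw [Finset.sum_eq_single k (fun j _ hj => by
      rw [dif_neg k.2, if_neg (fun e => hj (Subtype.ext e.symm)), mul_zero, zero_mul])
      (by simp), dif_neg k.2, if_pos rfl] at this
    exact (mul_eq_zero.1 this).resolve_left (mul_ne_zero hN hD)

omit [CharZero Ω] in
theorem StepC_prod {Q I : Type} [Fintype Q] [Fintype I] {X : Fin m → Ω} (hX : ∀ d, X d ≠ 0)
    {P : Q → Ω} (hP : ∀ i, P i ≠ 0) {α u κ : I → Ω} {o : I → Q → ℕ} {ω : I → Fin m → ℤ}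
    (hα : ∀ k, α k = κ k * (∏ d, X d ^ ω k d) * (∏ i, P i ^ o k i) * u k) {r : I → ℤ}
    (hr : ∀ i, ∑ j, (o j i : ℤ) * r j = 0) :
    ∏ j, α j ^ r j = (∏ j, κ j ^ r j) * (∏ d, X d ^ ∑ j, ω j d * r j) * ∏ j, u j ^ r j := by
  have e := Step_zpow hP (fun j i => (o j i : ℤ)) r
  simp only [hr, zpow_zero, Finset.prod_const_one, zpow_natCast] at e
  simp only [hα, mul_zpow, Finset.prod_mul_distrib]
  rw [Step_zpow hX, e, mul_one]

theorem StepC_fin (h : LF p v L E) (h' : LF p v L E') (hE : E ≤ E') (hT : Tail p v L)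
    (X : Fin m → Ω) (hX : ∀ d, v (X d) = 1 ∧ L (X d) = 0) (hs : SSI v p E' X) {Q I : Type}
    [Fintype Q] [Fintype I] (P T t : Q → Ω) (tt : Q → ℕ) {ϖ : Ω} (hϖ : ϖ ∈ E ∧ Inf v (v p) ϖ)
    (hP : ∀ i, P i ≠ 0) (hT1 : SI v E (v p) T)
    (hT2 : ∀ i, v (T i) ≤ 1 ∧ t i ∈ E' ∧ Inf v (v p) (T i - t i) ∧
      p ^ tt i * T i - ϖ * L (P i) ∈ E)
    (α u κ : I → Ω) (o : I → Q → ℕ) (ω : I → Fin m → ℤ)
    (hα : ∀ k, κ k ∈ E ∧ κ k ≠ 0 ∧ Sm v p (u k - 1) ∧
      α k = κ k * (∏ d, X d ^ ω k d) * (∏ i, P i ^ o k i) * u k)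
    (hα' : ∀ k, α k ∈ Subfield.closure ((E : Set Ω) ∪ Set.range X)) :
    (∃ r : I → ℤ, r ≠ 0 ∧ ∃ ω : Fin m → ℤ, (∏ d, X d ^ ω d) * ∏ i, α i ^ r i ∈ E) ∨
      AlgebraicIndependent E (Sum.elim X fun i => L (α i)) := by
  classical
  have hp0 : (p : ℤ) ≠ 0 := Int.natCast_ne_zero.2 (Fact.out : p.Prime).ne_zero
  have hX0 : ∀ d, X d ≠ 0 := fun d e => by simpa [e] using (hX d).1
  have hu : ∀ k, u k ≠ 0 := fun k e => by simpa [e] using (hα k).2.2.1.lt h.p1
  have hXp : ∀ e : Fin m → ℤ, ∏ d, X d ^ e d ≠ 0 := fun e =>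
    Finset.prod_ne_zero_iff.2 fun d _ => zpow_ne_zero _ (hX0 d)
  have hXL : ∀ e : Fin m → ℤ, L (∏ d, X d ^ e d) = 0 := fun e => by
    simp [h.prod_zpow _ X hX0, hX]
  have hPp : ∀ k, ∏ i, P i ^ o k i ≠ 0 := fun k =>
    Finset.prod_ne_zero_iff.2 fun i _ => pow_ne_zero _ (hP i)
  have hα0 : ∀ k, α k ≠ 0 := fun k => (hα k).2.2.2 ▸
    mul_ne_zero (mul_ne_zero (mul_ne_zero (hα k).2.1 (hXp _)) (hPp k)) (hu k)
  obtain ⟨a, ha⟩ := (Filter.eventually_all.2 fun k => pow_close h.p1 (hα k).2.2.1).exists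
  obtain ⟨s, ρ, r1, r2, r3⟩ := StepC_rows (fun k j => (o k j : ℤ)) (N := (p ^ a : ℕ))
    (by exact_mod_cast pow_ne_zero a hp0)
  have hinf : ∀ k, Inf v (v p) (ϖ * L (u k)) := by
    intro k c
    have k1 := StepC_le h (ha k)
    rw [StepC_pow h (hu k), map_mul, Nat.cast_pow, map_pow] at k1
    rw [map_mul]
    refine (mul_le_mul_left (hϖ.2 (c + a)) _).trans ?_
    rw [pow_add, mul_assoc]
    exact mul_le_of_le_one_right' k1
  have hLα : ∀ k, L (α k) = L (κ k) + ∑ i, o k i * L (P i) + L (u k) := by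
    intro k
    have e := h.prod_zpow Finset.univ P hP fun i => (o k i : ℤ)
    simp only [zpow_natCast, Int.cast_natCast] at e
    rw [(hα k).2.2.2, h.mul _ _ (mul_ne_zero (mul_ne_zero (hα k).2.1 (hXp _)) (hPp k)) (hu k),
      h.mul _ _ (mul_ne_zero (hα k).2.1 (hXp _)) (hPp k), h.mul _ _ (hα k).2.1 (hXp _), hXL,
      add_zero, e]
  let T' : s → Ω := fun l => ∑ i, (o l i * p ^ tt i : ℕ) * T i + ϖ * L (u l)
  have t1 : SI v E (v p) T' := by
    refine si_lin h (fun j => (hT2 j).1) hT1 (fun (l : s) j => o l j * p ^ tt j)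
      (fun c hc => r1 c fun j => ?_) fun l => ?_
    · have := hc j
      simp only [← mul_assoc, ← Finset.sum_mul] at this
      exact (mul_eq_zero.1 this).resolve_right (pow_ne_zero _ hp0)
    · convert hinf l using 1
      simp only [T']
      push_cast
      ring
  have t2 : ∀ l, v (T' l) ≤ 1 := fun l => v.map_add_le (v.map_sum_le fun i _ => by
    rw [map_mul]
    exact mul_le_one' (Theta_nat v _) (hT2 i).1) (by simpa using hinf l 0)
  have t3 : ∀ l : s, ∑ i, (o l i * p ^ tt i : ℕ) * t i ∈ E' ∧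
      Inf v (v p) (T' l - ∑ i, (o l i * p ^ tt i : ℕ) * t i) := by
    refine fun l => ⟨sum_mem fun i _ => mul_mem (natCast_mem _ _) (hT2 i).2.1, ?_⟩
    convert StepC_inf_add (StepC_inf_sum (fun i => o l i * p ^ tt i) fun i => (hT2 i).2.2.1)
      (hinf l) using 1
    simp only [T', mul_sub, Finset.sum_sub_distrib]
    ring
  have t4 : ∀ l, T' l - ϖ * L (α l) ∈ E := by
    intro l
    have e : T' l - ϖ * L (α l) =
        ∑ i, o l i * (p ^ tt i * T i - ϖ * L (P i)) - ϖ * L (κ l) := by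
      simp only [T', hLα, mul_sub, Finset.sum_sub_distrib, mul_add, Finset.mul_sum, Nat.cast_mul,
        Nat.cast_pow, mul_assoc, mul_left_comm ϖ]
      ring
    rw [e]
    exact sub_mem (sum_mem fun i _ => mul_mem (natCast_mem _ _) (hT2 i).2.2.2)
      (mul_mem hϖ.1 (h.mem _ (hα l).1 (hα l).2.1))
  let w : {k // k ∉ s} → Ω := fun k => ∏ j, u j ^ (((p ^ a : ℕ) : ℤ) * ρ k j)
  have w0 : ∀ k, w k ≠ 0 := fun k => Finset.prod_ne_zero_iff.2 fun j _ => zpow_ne_zero _ (hu j)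
  have w1 : ∀ k, v (w k - 1) ≤ v p := fun k => by
    simpa only [w, zpow_mul, zpow_natCast] using one_prod_zpow h.p1 Finset.univ ha (ρ k)
  have hκ : ∀ r : I → ℤ, ∏ j, κ j ^ r j ∈ E ∧ ∏ j, κ j ^ r j ≠ 0 := fun r =>
    ⟨prod_mem fun j _ => zpow_mem (hα j).1 _,
      Finset.prod_ne_zero_iff.2 fun j _ => zpow_ne_zero _ (hα j).2.1⟩
  have w2 := fun k => StepC_prod hX0 hP (fun k => (hα k).2.2.2) (r2 k)
  have hXm : ∀ d, X d ∈ Subfield.closure ((E : Set Ω) ∪ Set.range X) := fun d =>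
    Subfield.subset_closure (Or.inr ⟨d, rfl⟩)
  have w3 : ∀ k, w k ∈ Subfield.closure ((E : Set Ω) ∪ Set.range X) := by
    intro k
    have e := (eq_div_iff (mul_ne_zero (hκ _).2 (hXp _))).2 ((mul_comm _ _).trans (w2 k).symm)
    simp only [w]
    rw [e]
    exact div_mem (prod_mem fun j _ => zpow_mem (hα' j) _) (mul_mem
      (Subfield.subset_closure (Or.inl (hκ _).1))
      (prod_mem fun d _ => zpow_mem (hXm d) _))
  rcases ladder h h.p0 le_rfl (Sum.elim X T') (by rintro (d | l); exacts [(hX d).1.le, t2 l]) X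
    (fun d => ⟨hX0 d, (hX d).2⟩) w (fun k => L (w k)) w0
    (fun k => ⟨StepC_le h (w1 k), by rw [sub_self]; exact zero_mem _⟩) (fun I' _ e => by
      rcases ax_top h' hE hT X (fun d => (hX d).1.le) hs (fun i => w (e i))
        fun i => ⟨w3 _, w1 _⟩ with k | ⟨r, r0, k⟩
      · have k1 := (si_join h.p0 h.p1 hE (by
          rintro (d | i); exacts [(hX d).1.le, StepC_le h (w1 _)]) k t2 t1 t3).comp
          (e := Sum.elim (Sum.map Sum.inl id) (Sum.inl ∘ Sum.inr)) (by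
            rintro ((x | x) | x) ((y | y) | y) <;> simp)
        refine Or.inl ?_
        convert k1 using 1
        funext x
        rcases x with (x | x) | x <;> rfl
      · refine Or.inr ⟨r, r0, 0, Small.rename Sum.inl_injective ?_⟩
        simpa using k) {k // k ∉ s} id with ⟨r, r0, ω', k⟩ | k
  · refine Or.inl ⟨fun j => ∑ k, ((p ^ a : ℕ) : ℤ) * ρ k j * r k, fun e => r0 (r3 r (congrFun e)),
      fun d => ω' d - ∑ j, ω j d * ∑ k, ((p ^ a : ℕ) : ℤ) * ρ k j * r k, ?_⟩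
    rw [StepC_prod hX0 hP (fun k => (hα k).2.2.2) fun i => by
      simp only [Finset.mul_sum]
      rw [Finset.sum_comm]
      refine Finset.sum_eq_zero fun k _ => ?_
      simp only [← mul_assoc _ _ (r k), ← Finset.sum_mul, r2, zero_mul]]
    simp only [w, id] at k
    rw [Step_zpow hu] at k
    convert mul_mem (hκ fun j => ∑ k, ((p ^ a : ℕ) : ℤ) * ρ k j * r k).1 k using 1
    simp only [zpow_sub₀ (hX0 _), Finset.prod_div_distrib]
    have := hXp fun d => ∑ j, ω j d * ∑ k, ((p ^ a : ℕ) : ℤ) * ρ k j * r k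
    field_simp
  · have h5 : s.card + Fintype.card {i // i ∉ s} = Fintype.card I := by
      rw [← Fintype.card_coe, ← Fintype.card_sum]
      exact Fintype.card_congr (Equiv.sumCompl (· ∈ s))
    refine Or.inr (exch k (by simp only [Fintype.card_sum, Fintype.card_coe]; omega) ?_)
    have k1 : ∀ i, L (α i) ∈ Algebra.adjoin E (Set.range (Sum.elim X fun i => L (α i))) :=
      fun i => Algebra.subset_adjoin ⟨Sum.inr i, rfl⟩
    have k2 : ∀ c ∈ E, c ∈ Algebra.adjoin E (Set.range (Sum.elim X fun i => L (α i))) :=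
      fun c hc => Subalgebra.algebraMap_mem _ (⟨c, hc⟩ : E)
    rintro ((d | l) | j)
    · exact Algebra.subset_adjoin ⟨Sum.inl d, rfl⟩
    · rw [Sum.elim_inl, Sum.elim_inr, ← sub_add_cancel (T' l) (ϖ * L (α l))]
      exact add_mem (k2 _ (t4 l)) (mul_mem (k2 _ hϖ.1) (k1 l))
    · have e := congrArg L (w2 j)
      rw [h.prod_zpow _ α hα0, h.mul _ _ (mul_ne_zero (hκ _).2 (hXp _)) (w0 j),
        h.mul _ _ (hκ _).2 (hXp _), hXL, add_zero] at e
      rw [Sum.elim_inr, id, eq_sub_of_add_eq' e.symm]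
      exact sub_mem (sum_mem fun i _ => mul_mem (intCast_mem _ _) (k1 i))
        (k2 _ (h.mem _ (hκ _).1 (hκ _).2))

theorem stepC (h : LF p v L E) (h' : LF p v L E') (hE : E ≤ E') (hT : Tail p v L) (X : Fin m → Ω)
    (hX : ∀ d, v (X d) = 1 ∧ L (X d) = 0) (hs : SSI v p E' X) {Q I : Type} [Fintype Q]
    (P T t : Q → Ω) (tt : Q → ℕ) {ϖ : Ω} (hϖ : ϖ ∈ E ∧ ϖ ≠ 0 ∧ Inf v (v p) ϖ)
    (hP : ∀ i, P i ≠ 0 ∧ P i ∈ Subfield.closure ((E : Set Ω) ∪ Set.range X))
    (hT1 : SI v E (v p) T) (hT2 : ∀ i, v (T i) ≤ 1 ∧ t i ∈ E' ∧ Inf v (v p) (T i - t i) ∧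
      p ^ tt i * T i - ϖ * L (P i) ∈ E)
    (α u κ : I → Ω) (o : I → Q → ℕ) (ω : I → Fin m → ℤ)
    (hα : ∀ k, κ k ∈ E ∧ κ k ≠ 0 ∧ Sm v p (u k - 1) ∧
      α k = κ k * (∏ d, X d ^ ω k d) * (∏ i, P i ^ o k i) * u k)
    (hα' : ∀ k, α k ∈ Subfield.closure ((E : Set Ω) ∪ Set.range X)) : Dic L E X α :=
  fun _ _ ε => StepC_fin h h' hE hT X hX hs P T t tt ⟨hϖ.1, hϖ.2.2⟩ (fun i => (hP i).1) hT1 hT2
    (fun i => α (ε i)) (fun i => u (ε i)) (fun i => κ (ε i)) (fun i => o (ε i)) (fun i => ω (ε i))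
    (fun _ => hα _) fun _ => hα' _

end Pool.Agent.Work.MP_dd0d16_nt.T
end
end

-- merged part: Pool.Agent.Work.MP_dd0d16_nt.G.GermC
section
-- merged part: Pool.Agent.Work.MP_dd0d16_nt.S.Lead
section
/-!
Leading coefficients and the elimination of dependent logarithms.

PLAN. `lead`: `ν i = MonomialOrder.lex.degree (f i)` (`f i ≠ 0` because its value is nonzero). If
`∏ x ^ ω * ∏ α ^ r = κ`, write `α i = f i x / ∏ x ^ N0`, clear denominators (`toNat` of the exponents,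
see `prod_zpow_split` in T/Core) and get by independence an identity
`monomial w 1 * ∏ f ^ r⁺ = C κ * monomial w' 1 * ∏ f ^ r⁻` of polynomials; compare leading
coefficients (`MonomialOrder.leadingCoeff_mul`, `leadingCoeff_pow`, `leadingCoeff_monomial`, a product
by induction): `κ = ∏ lc ^ r`. Apply `L` to both expressions of `κ`.
`elim2`: let `s` be of largest cardinality (or maximal) with `fun l : s => w l - c l` linearly
independent over `ℚ` (`exists_linearIndepOn_extension`, `exists_maximal_linearIndepOn`); this gives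
`q`, and `hd` for `Subtype.val` gives algebraic independence of `w` on `s`. The polynomial
`e 0 0 * e 1 1 - e 0 1 * e 1 0` over `E'` with
`e i j = C (A' i j) + ∑ l, C (B' i j l) * (X l - C (c l))` vanishes at `w`, so it is zero; evaluate it
at `Y + c`.
`dep_or_zero'`: copy the proof of `dep_or_zero` (T/Mat).
-/

set_option autoImplicit false

namespace Pool.Agent.Work.MP_dd0d16_nt.T

open MvPolynomial

variable {Ω : Type} [Field Ω] [CharZero Ω] {L : Ω → Ω} {E : Subfield Ω}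

/-- The leading coefficient as a multiplicative map. -/
noncomputable def Lead_lc {m : ℕ} (E : Subfield Ω) : MvPolynomial (Fin m) E →* E where
  toFun := MonomialOrder.lex.leadingCoeff
  map_one' := MonomialOrder.leadingCoeff_one
  map_mul' _ _ := MonomialOrder.leadingCoeff_mul

omit [CharZero Ω] in
theorem Lead_lc_ne {m : ℕ} {P : MvPolynomial (Fin m) E} (h : P ≠ 0) :
    ((Lead_lc E P : E) : Ω) ≠ 0 := by
  have : Lead_lc E P ≠ 0 := MonomialOrder.leadingCoeff_ne_zero_iff.2 h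
  exact_mod_cast this

/-- `t` is the logarithm of `a` divided by its leading coefficient. -/
def Lead_R (L : Ω → Ω) (E : Subfield Ω) {m : ℕ} (x : Fin m → Ω) (a t : Ω) : Prop :=
  a ≠ 0 ∧ ∃ P Q : MvPolynomial (Fin m) E, P ≠ 0 ∧ Q ≠ 0 ∧ a * aeval x Q = aeval x P ∧
    t = L a - L (Lead_lc E P : E) + L (Lead_lc E Q : E)

section
omit [CharZero Ω]
variable (hL : ∀ a b, a ≠ 0 → b ≠ 0 → L (a * b) = L a + L b) {m : ℕ} {x : Fin m → Ω}
include hL

theorem Lead_one : L 1 = 0 := by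
  have := hL 1 1 one_ne_zero one_ne_zero
  rw [mul_one] at this
  linear_combination -this

theorem Lead_R_one : Lead_R L E x 1 0 :=
  ⟨one_ne_zero, 1, 1, one_ne_zero, one_ne_zero, one_mul _, by rw [Lead_one hL]; ring⟩

theorem Lead_R_mul {a b t s : Ω} (h : Lead_R L E x a t) (h' : Lead_R L E x b s) :
    Lead_R L E x (a * b) (t + s) := by
  obtain ⟨ha, P, Q, hP, hQ, e, rfl⟩ := h
  obtain ⟨hb, P', Q', hP', hQ', e', rfl⟩ := h'
  refine ⟨mul_ne_zero ha hb, P * P', Q * Q', mul_ne_zero hP hP', mul_ne_zero hQ hQ', ?_, ?_⟩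
  · rw [map_mul, map_mul, ← e, ← e']
    ring
  · rw [map_mul, map_mul, Subfield.coe_mul, Subfield.coe_mul, hL _ _ ha hb,
      hL _ _ (Lead_lc_ne hP) (Lead_lc_ne hP'), hL _ _ (Lead_lc_ne hQ) (Lead_lc_ne hQ')]
    ring

theorem Lead_R_inv {a t : Ω} (h : Lead_R L E x a t) : Lead_R L E x a⁻¹ (-t) := by
  obtain ⟨ha, P, Q, hP, hQ, e, rfl⟩ := h
  refine ⟨inv_ne_zero ha, Q, P, hQ, hP, ?_, ?_⟩
  · rw [← e, inv_mul_cancel_left₀ ha]
  · have := hL a a⁻¹ ha (inv_ne_zero ha)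
    rw [mul_inv_cancel₀ ha, Lead_one hL] at this
    linear_combination this

theorem Lead_R_pow {a t : Ω} (h : Lead_R L E x a t) (n : ℕ) : Lead_R L E x (a ^ n) (n * t) := by
  induction n with
  | zero => simpa using Lead_R_one hL
  | succ n ih =>
    rw [pow_succ, Nat.cast_succ, add_mul, one_mul]
    exact Lead_R_mul hL ih h

theorem Lead_R_zpow {a t : Ω} (h : Lead_R L E x a t) (n : ℤ) : Lead_R L E x (a ^ n) (n * t) := by
  obtain ⟨k, rfl | rfl⟩ := n.eq_nat_or_neg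
  · rw [zpow_natCast, Int.cast_natCast]
    exact Lead_R_pow hL h k
  · rw [zpow_neg, zpow_natCast, Int.cast_neg, Int.cast_natCast, neg_mul]
    exact Lead_R_inv hL (Lead_R_pow hL h k)

theorem Lead_R_prod {J : Type} (s : Finset J) {a t : J → Ω} (h : ∀ j, Lead_R L E x (a j) (t j)) :
    Lead_R L E x (∏ j ∈ s, a j) (∑ j ∈ s, t j) := by
  classical
  induction s using Finset.induction_on with
  | empty => simpa using Lead_R_one hL
  | insert j s hj ih =>
    rw [Finset.prod_insert hj, Finset.sum_insert hj]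
    exact Lead_R_mul hL (h j) ih

theorem Lead_R_mem (hi : AlgebraicIndependent E x) {a t : Ω} (h : Lead_R L E x a t) (hE : a ∈ E) :
    t = 0 := by
  obtain ⟨ha, P, Q, hP, hQ, e, rfl⟩ := h
  have e1 : C (⟨a, hE⟩ : E) * Q = P := hi (by rw [map_mul, aeval_C, ← e]; rfl)
  have e2 : Lead_lc E (C (⟨a, hE⟩ : E) : MvPolynomial (Fin m) E) = ⟨a, hE⟩ :=
    MonomialOrder.leadingCoeff_C _
  rw [← e1, map_mul, e2, Subfield.coe_mul, hL _ _ ha (Lead_lc_ne hQ)]
  ring

end

theorem lead (hL : ∀ a b, a ≠ 0 → b ≠ 0 → L (a * b) = L a + L b) {m : ℕ} (x : Fin m → Ω)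
    (hx : ∀ a, x a ≠ 0 ∧ L (x a) = 0) (hi : AlgebraicIndependent E x) {I : Type}
    (f : I → MvPolynomial (Fin m) E) (α : I → Ω) (hα : ∀ i, α i ≠ 0) (N0 : ℕ)
    (hf : ∀ i, aeval x (f i) = α i * ∏ a, x a ^ N0) :
    ∃ ν : I → Fin m →₀ ℕ, (∀ i, (f i).coeff (ν i) ≠ 0) ∧
      ∀ (I' : Type) [Fintype I'] (e : I' → I) (r : I' → ℤ) (ω : Fin m → ℤ),
        (∏ a, x a ^ ω a) * ∏ i, α (e i) ^ r i ∈ E →
        ∑ i, r i * (L (α (e i)) - L ((f (e i)).coeff (ν (e i)) : E)) = 0 := by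
  have hX : ∀ a, Lead_lc E (X a : MvPolynomial (Fin m) E) = 1 := fun a =>
    MonomialOrder.leadingCoeff_X
  have hf0 : ∀ i, f i ≠ 0 := fun i h => by
    have := hf i
    rw [h, map_zero] at this
    exact mul_ne_zero (hα i) (Finset.prod_ne_zero_iff.2 fun a _ => pow_ne_zero _ (hx a).1) this.symm
  have h1 : ∀ a, Lead_R L E x (x a) 0 := fun a =>
    ⟨(hx a).1, X a, 1, X_ne_zero a, one_ne_zero, by simp, by rw [(hx a).2, hX, map_one]; ring⟩
  have h2 : ∀ i, Lead_R L E x (α i) (L (α i) - L (Lead_lc E (f i) : E)) := fun i => by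
    refine ⟨hα i, f i, ∏ a, X a ^ N0,
      hf0 i, Finset.prod_ne_zero_iff.2 fun a _ => pow_ne_zero _ (X_ne_zero a), ?_, ?_⟩
    · rw [hf i]
      simp
    · simp [hX, Lead_one hL]
  refine ⟨fun i => MonomialOrder.lex.degree (f i),
    fun i => MonomialOrder.coeff_degree_ne_zero_iff.2 (hf0 i), fun I' _ e r ω hE => ?_⟩
  have := Lead_R_mem hL hi (Lead_R_mul hL
    (Lead_R_prod hL Finset.univ fun a => Lead_R_zpow hL (h1 a) (ω a))
    (Lead_R_prod hL Finset.univ fun i => Lead_R_zpow hL (h2 (e i)) (r i))) hE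
  simp only [mul_zero, Finset.sum_const_zero, zero_add] at this
  exact this

theorem elim2 (E' : Subfield Ω) {I : Type} [Fintype I] (w c : I → Ω) (hc : ∀ k, c k ∈ E')
    (hd : ∀ (I' : Type) [Fintype I'] (e : I' → I),
      (∃ r : I' → ℤ, r ≠ 0 ∧ ∑ i, r i * (w (e i) - c (e i)) = 0) ∨
        AlgebraicIndependent E' fun i => w (e i))
    (A : Fin 2 → Fin 2 → Ω) (B : Fin 2 → Fin 2 → I → Ω) (hA : ∀ i j, A i j ∈ E')
    (hB : ∀ i j k, B i j k ∈ E')
    (h0 : (A 0 0 + ∑ k, B 0 0 k * w k) * (A 1 1 + ∑ k, B 1 1 k * w k) =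
      (A 0 1 + ∑ k, B 0 1 k * w k) * (A 1 0 + ∑ k, B 1 0 k * w k)) :
    ∃ (s : Finset I) (q : I → s → ℚ), (∀ k, w k - c k = ∑ l, q k l * (w l - c l)) ∧
      ∀ (Y : s → Ω) (e : Fin 2 → Fin 2 → Ω),
        (∀ i j, e i j = A i j + ∑ k, B i j k * c k + ∑ l, (∑ k, q k l * B i j k) * Y l) →
        e 0 0 * e 1 1 = e 0 1 * e 1 0 := by
  classical
  obtain ⟨b, -, -, hsp, hli⟩ := exists_linearIndepOn_extension (K := ℚ)
    (v := fun k => w k - c k) (s := ∅) (t := Set.univ) (linearIndepOn_empty _ _) (Set.empty_subset _)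
  obtain ⟨s, rfl⟩ : ∃ s : Finset I, (s : Set I) = b := ⟨b.toFinset, b.coe_toFinset⟩
  have hq : ∀ k, ∃ q : s → ℚ, w k - c k = ∑ l, q l * (w l - c l) := fun k => by
    have h1 := hsp ⟨k, Set.mem_univ k, rfl⟩
    rw [Set.image_eq_range] at h1
    obtain ⟨q, hq⟩ := (Submodule.mem_span_range_iff_exists_fun ℚ).1 h1
    refine ⟨q, ?_⟩
    simp only [Rat.smul_def] at hq
    exact hq.symm
  choose q hq using hq
  have hi : AlgebraicIndependent E' fun l : s => w l := by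
    refine (hd s Subtype.val).resolve_left ?_
    rintro ⟨r, hr, h⟩
    refine hr (funext fun l => ?_)
    have := Fintype.linearIndependent_iff.1 hli (fun l => (r l : ℚ))
      (by simp only [Rat.smul_def, Rat.cast_intCast]; exact h) l
    exact_mod_cast this
  refine ⟨s, q, hq, fun Y e he => ?_⟩
  let a : Fin 2 → Fin 2 → E' := fun i j => ⟨A i j + ∑ k, B i j k * c k,
    E'.add_mem (hA i j) (E'.sum_mem fun k _ => E'.mul_mem (hB i j k) (hc k))⟩
  let β : Fin 2 → Fin 2 → s → E' := fun i j l => ⟨∑ k, q k l * B i j k,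
    E'.sum_mem fun k _ => E'.mul_mem (SubfieldClass.ratCast_mem E' _) (hB i j k)⟩
  let p : Fin 2 → Fin 2 → MvPolynomial s E' := fun i j =>
    C (a i j) + ∑ l, C (β i j l) * (X l - C ⟨c l, hc l⟩)
  have hp : ∀ (y : s → Ω) i j, aeval y (p i j) =
      A i j + ∑ k, B i j k * c k + ∑ l, (∑ k, q k l * B i j k) * (y l - c l) := fun y i j => by
    simp only [p, map_add, map_sum, map_mul, map_sub, aeval_C, aeval_X]
    rfl
  have hw : ∀ i j, aeval (fun l : s => w l) (p i j) = A i j + ∑ k, B i j k * w k := fun i j => by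
    rw [hp, add_assoc]
    congr 1
    simp only [Finset.sum_mul]
    rw [Finset.sum_comm, ← Finset.sum_add_distrib]
    refine Finset.sum_congr rfl fun k _ => ?_
    have : ∑ l : s, (q k l : Ω) * B i j k * (w l - c l) = B i j k * (w k - c k) := by
      rw [hq k, Finset.mul_sum]
      exact Finset.sum_congr rfl fun l _ => by ring
    rw [this]
    ring
  have hz : p 0 0 * p 1 1 = p 0 1 * p 1 0 := hi (by rw [map_mul, map_mul, hw, hw, hw, hw, h0])
  have := congrArg (aeval fun l : s => Y l + c l) hz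
  simp only [map_mul, hp, add_sub_cancel_right] at this
  simp only [he]
  exact this

theorem dep_or_zero' {F O : Type} [Field F] [CharZero F] [Fintype O] [DecidableEq O]
    (A : Fin 2 → Fin 2 → F) (B : Fin 2 → Fin 2 → O → F) (hB : ∀ i j l, IsAlgebraic ℚ (B i j l))
    (w : O → F) (h0 : (A 0 0 + ∑ l, B 0 0 l * w l) * (A 1 1 + ∑ l, B 1 1 l * w l) =
      (A 0 1 + ∑ l, B 0 1 l * w l) * (A 1 0 + ∑ l, B 1 0 l * w l))
    (h : ∀ (l0 : O) (t : Bool) (x : O → F), x = w + Pi.single l0 (if t then 1 else -1) →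
      (A 0 0 + ∑ l, B 0 0 l * x l) * (A 1 1 + ∑ l, B 1 1 l * x l) =
      (A 0 1 + ∑ l, B 0 1 l * x l) * (A 1 0 + ∑ l, B 1 0 l * x l)) :
    Dep (fun i j => A i j + ∑ l, B i j l * w l) ∨ ∀ i j l, B i j l = 0 := by
  by_cases hz : ∀ i j l, B i j l = 0
  · exact Or.inr hz
  simp only [not_forall] at hz
  obtain ⟨i0, j0, l0, hn⟩ := hz
  have e : ∀ (t : F) i j, ∑ l, B i j l * (w + Pi.single l0 t : O → F) l =
      ∑ l, B i j l * w l + B i j l0 * t := fun t i j => by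
    simp only [Pi.add_apply, mul_add, Finset.sum_add_distrib, Pi.single_apply, mul_ite, mul_zero,
      Finset.sum_ite_eq', Finset.mem_univ, if_true]
  have h1 := h l0 true (w + Pi.single l0 1) rfl
  have h2 := h l0 false (w + Pi.single l0 (-1)) rfl
  simp only [e] at h1 h2
  refine Or.inl (Mat_dep _ (fun i j => B i j l0) (fun i j => hB i j l0) h0 ?_ ?_ hn)
  · linear_combination (1 / 2 : F) * h1 + (1 / 2 : F) * h2 - h0
  · linear_combination (1 / 2 : F) * h1 - (1 / 2 : F) * h2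

end Pool.Agent.Work.MP_dd0d16_nt.T
end

-- merged part: Pool.Agent.Work.MP_dd0d16_nt.S.Seq2
section
/-!
The determinant along an ultrafilter.

PLAN. Take `m, x, η, e, N0, K1` from `dich`, `E = GS U fun _ => K1`, `X d = gm U (x · d)`,
`w k = LG U L (α k)`. `I' = Empty` gives independence of `X` over `E`. Let
`f k = fp e fun j => (gm U (t · k j * η j) : E)` (`fp`, `ev_fp` in T/Core, T/Seq); `lead` (with
`(lf_germ hL _).mul`, `log_root`) gives `ν`; `coeff (ν k) (f k) = gm U (lc · k)` with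
`lc n k = ∑ j ∈ S k, t n k j * η j ∈ K1`, `S k = {j | e j = ν k}`; `c k = LG U L (gm U (lc · k))`.
Let `N` bound all `orderOf (η j / η j')`. Eventually `lc n k ≠ 0` and
`(∑ j ∈ S k, t n k j * ζ n j) * ∏ x ^ N0 = lc n k * ∏ x ^ ν k`, so `L (lc n k) ∈ L '' Clus ..`.
Independence over `E` gives independence over `GS U K` (`algInd_iff` twice, `ind_up K1 B0`,
`log_mem` for `Unr p ⊔ K1`), then over `E'` from `exists_up (GS U K) X` (S/Exch). `E'` contains the
class of every family in a fixed finite extension (lemma: coefficients of the minimal polynomials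
lie in `ℚ_[p]`, degree at most the `finrank`; use the third property of `E'` with
`fun i : Fin (d + 1) => gm U fun n => algebraMap _ _ ((minpoly ℚ_[p] (z n)).coeff i)`; one of them is
nonzero by `Ultrafilter.eventually_exists_iff`), so `η j`, `c k`, `gm U (ζ · j)`; it contains the class
of a family with values in the span of the `ζ n j` over `K n`
(`Submodule.mem_span_range_iff_exists_fun`), so the classes of `A`, `B`. `elim2` gives `s, q`. Use its
identity for `Y = w - c` and `Y = w - c + Pi.single l (±1)`, pass to `∀ᶠ n` (`gm_eq`,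
`eventually_all`) and apply `dep_or_zero'` to `A' = A + ∑ k, B k * L (lc n k)`,
`B' l = ∑ k, q k l * B k`, `w' l = L (α n l) - L (lc n l)`; `A'` lies in the span (see `mul_mem_Vsp` in
T/Elim).
-/

set_option autoImplicit false

namespace Pool.Agent.Work.MP_dd0d16_nt.T

open Filter MvPolynomial

variable {p : ℕ} [Fact p.Prime] {ι : Type} {L : PadicAlgCl p → PadicAlgCl p}

/-- `a` is a root of a nonzero polynomial of degree at most `B` with coefficients in the span of the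
`ζ j` over `K`. -/
def Alg' {J : Type} (K : IntermediateField ℚ_[p] (PadicAlgCl p)) (B : ℕ) (ζ : J → PadicAlgCl p)
    (a : PadicAlgCl p) : Prop :=
  ∃ f : Fin (B + 1) → PadicAlgCl p, f ≠ 0 ∧ (∀ i, f i ∈ Submodule.span K (Set.range ζ)) ∧
    ∑ i, f i * a ^ (i : ℕ) = 0

section

variable (U : Ultrafilter ι)

theorem Seq2_add (f g : ι → PadicAlgCl p) : gm U (fun n => f n + g n) = gm U f + gm U g :=
  map_add (gm U) f g

theorem Seq2_sub (f g : ι → PadicAlgCl p) : gm U (fun n => f n - g n) = gm U f - gm U g :=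
  map_sub (gm U) f g

theorem Seq2_mul (f g : ι → PadicAlgCl p) : gm U (fun n => f n * g n) = gm U f * gm U g :=
  map_mul (gm U) f g

theorem Seq2_pow (f : ι → PadicAlgCl p) (k : ℕ) : gm U (fun n => f n ^ k) = gm U f ^ k :=
  map_pow (gm U) f k

theorem Seq2_sum {J : Type} (s : Finset J) (f : ι → J → PadicAlgCl p) :
    gm U (fun n => ∑ j ∈ s, f n j) = ∑ j ∈ s, gm U fun n => f n j := by
  rw [← map_sum]
  exact congrArg _ (funext fun n => (Finset.sum_apply n s fun j n => f n j).symm)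

theorem Seq2_prod {J : Type} (s : Finset J) (f : ι → J → PadicAlgCl p) :
    gm U (fun n => ∏ j ∈ s, f n j) = ∏ j ∈ s, gm U fun n => f n j := by
  rw [← map_prod]
  exact congrArg _ (funext fun n => (Finset.prod_apply n s fun j n => f n j).symm)

theorem Seq2_rat (q : ℚ) : gm U (fun _ => (q : PadicAlgCl p)) = q :=
  map_ratCast ((gm U).comp (Pi.constRingHom ι (PadicAlgCl p))) q

variable {U} {E' : Subfield (GF p U)}
  (hE : ∀ (n : ℕ) (f : Fin (n + 1) → GF p U) (a : GF p U), f ≠ 0 → (∀ i, f i ∈ E') →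
    ∑ i, f i * a ^ (i : ℕ) = 0 → a ∈ E')
include hE

theorem Seq2_root {d : ℕ} (f : ι → Fin (d + 1) → PadicAlgCl p) (a : ι → PadicAlgCl p)
    (h0 : ∀ n, f n ≠ 0) (h1 : ∀ n, ∑ i, f n i * a n ^ (i : ℕ) = 0)
    (h2 : ∀ i, (gm U fun n => f n i) ∈ E') : gm U a ∈ E' := by
  refine hE d (fun i => gm U fun n => f n i) _ (fun h => ?_) h2 ?_
  · have h3 : ∀ i, ∀ᶠ n in U, f n i = 0 := fun i =>
      (gm_eq U).1 ((congrFun h i).trans (map_zero (gm U)).symm)
    obtain ⟨n, hn⟩ := (eventually_all.2 h3).exists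
    exact h0 n (funext hn)
  · simp only [← Seq2_pow, ← Seq2_mul, ← Seq2_sum, h1]
    exact map_zero (gm U)

theorem Seq2_fin {K : ι → IntermediateField ℚ_[p] (PadicAlgCl p)} (hK : GS U K ≤ E')
    (K1 : IntermediateField ℚ_[p] (PadicAlgCl p)) [FiniteDimensional ℚ_[p] K1] :
    (GS U fun _ => K1) ≤ E' := by
  rintro _ ⟨z, hz, rfl⟩
  have h1 : ∀ n, ∃ g : Fin (Module.finrank ℚ_[p] K1 + 1) → ℚ_[p],
      ∑ i, g i • (⟨z n, hz n⟩ : K1) ^ (i : ℕ) = 0 ∧ ∃ i, g i ≠ 0 := fun n =>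
    Fintype.not_linearIndependent_iff.1 fun h => by simpa using h.fintype_card_le_finrank
  choose g hg hg0 using h1
  refine Seq2_root hE (fun n i => algebraMap _ _ (g n i)) z (fun n h => ?_) (fun n => ?_)
    fun i => hK ⟨_, fun n => (K n).algebraMap_mem _, rfl⟩
  · obtain ⟨i, hi⟩ := hg0 n
    exact hi ((algebraMap ℚ_[p] (PadicAlgCl p)).injective ((congrFun h i).trans (map_zero _).symm))
  · have := congrArg K1.val (hg n)
    simpa only [map_sum, map_smul, map_pow, map_zero, Algebra.smul_def, map_mul, AlgHom.commutes,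
      IntermediateField.coe_val] using this

theorem Seq2_alg {K : ι → IntermediateField ℚ_[p] (PadicAlgCl p)} (hK : GS U K ≤ E') {J : Type}
    [Fintype J] {ζ : ι → J → PadicAlgCl p} (hζ : ∀ j, (gm U fun n => ζ n j) ∈ E') {B0 : ℕ}
    {a : ι → PadicAlgCl p} (ha : ∀ n, Alg' (K n) B0 (ζ n) (a n)) : gm U a ∈ E' := by
  choose f h0 h1 h2 using ha
  refine Seq2_root hE f a h0 h2 fun i => ?_
  choose c hc using fun n => (Submodule.mem_span_range_iff_exists_fun _).1 (h1 n i)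
  have e : (fun n => f n i) = fun n => ∑ j, (c n j : PadicAlgCl p) * ζ n j :=
    funext fun n => (hc n).symm
  rw [e]
  simp only [Seq2_sum, Seq2_mul]
  exact E'.sum_mem fun j _ => E'.mul_mem (hK ⟨_, fun n => (c n j).2, rfl⟩) (hζ j)

end

theorem Seq2_up (U : Ultrafilter ι) (K1 : IntermediateField ℚ_[p] (PadicAlgCl p))
    [FiniteDimensional ℚ_[p] K1] {B0 : ℕ} {K : ι → IntermediateField ℚ_[p] (PadicAlgCl p)}
    (hK : ∀ n, Module.rank ℚ_[p] ↥(K n ⊓ Unr p) ≤ B0) {σ : Type} [Fintype σ]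
    (y : ι → σ → PadicAlgCl p) (hy : ∀ n s, y n s ∈ Unr p ⊔ K1)
    (h : AlgebraicIndependent (GS U fun _ => K1) fun s => gm U fun n => y n s) :
    AlgebraicIndependent (GS U K) fun s => gm U fun n => y n s := by
  obtain ⟨C, hC⟩ := ind_up K1 B0
  exact (algInd_iff U K y).2 fun D => ((algInd_iff U _ y).1 h (C * D)).mono fun n hn =>
    hC (K n) (hK n) σ D (y n) (hy n) hn

theorem Seq2_unr {z : PadicAlgCl p} (h : Root z) : z ∈ Unr p :=
  IntermediateField.subset_adjoin ℚ_[p] _ h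

theorem Seq2_clus (hL : IsLog L) {J I : Type} [Fintype J] {m N0 N : ℕ} {ζ η : J → PadicAlgCl p}
    {x : Fin m → PadicAlgCl p} (hx : ∀ d, Root (x d)) {e : J → Fin m →₀ ℕ}
    (he : ∀ j, ζ j * ∏ d, x d ^ N0 = η j * ∏ d, x d ^ e j d)
    (hN : ∀ j j', orderOf (η j / η j') ≤ N) (t : I → J → PadicAlgCl p) (k : I) (S : Finset J)
    (ν : Fin m →₀ ℕ) (hS : ∀ j ∈ S, e j = ν) (h0 : ∑ j ∈ S, t k j * η j ≠ 0) :
    L (∑ j ∈ S, t k j * η j) ∈ L '' Clus N t fun _ => ζ := by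
  have r1 := Root.prod_pow Finset.univ hx fun _ => N0
  have r2 := Root.prod_pow Finset.univ hx ν
  have e1 : (∑ j ∈ S, t k j * ζ j) * ∏ d, x d ^ N0 = (∑ j ∈ S, t k j * η j) * ∏ d, x d ^ ν d := by
    rw [Finset.sum_mul, Finset.sum_mul]
    exact Finset.sum_congr rfl fun j hj => by rw [mul_assoc, he, hS j hj, mul_assoc]
  have h1 : ∑ j ∈ S, t k j * ζ j ≠ 0 := fun h =>
    mul_ne_zero h0 r2.ne_zero (by rw [← e1, h, zero_mul])
  refine ⟨_, ⟨h1, k, S, fun j hj j' hj' => ?_, rfl⟩, ?_⟩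
  · rw [← mul_div_mul_right _ _ r1.ne_zero, he, he, hS j hj, hS j' hj',
      mul_div_mul_right _ _ r2.ne_zero]
    exact hN j j'
  · have := congrArg L e1
    rwa [hL.1 _ _ h1 r1.ne_zero, hL.1 _ _ h0 r2.ne_zero, log_root hL r1, log_root hL r2, add_zero,
      add_zero] at this

theorem seq2 (hL : IsLog L) (U : Ultrafilter ι) {J I : Type} [Fintype J] [Fintype I]
    (ζ : ι → J → PadicAlgCl p) (hζ : ∀ n j, Root (ζ n j))
    (K0 : IntermediateField ℚ_[p] (PadicAlgCl p)) [FiniteDimensional ℚ_[p] K0]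
    (t : ι → I → J → PadicAlgCl p) (ht : ∀ n i j, t n i j ∈ K0)
    (hα0 : ∀ n i, ∑ j, t n i j * ζ n j ≠ 0) (B0 : ℕ)
    (K : ι → IntermediateField ℚ_[p] (PadicAlgCl p))
    (hK : ∀ n, Module.rank ℚ_[p] ↥(K n ⊓ Unr p) ≤ B0) (A : ι → Fin 2 → Fin 2 → PadicAlgCl p)
    (B : ι → Fin 2 → Fin 2 → I → PadicAlgCl p)
    (hA : ∀ n i i', IsAlgebraic ℚ (A n i i') ∧ Alg' (K n) B0 (ζ n) (A n i i'))
    (hB : ∀ n i i' k, IsAlgebraic ℚ (B n i i' k) ∧ Alg' (K n) B0 (ζ n) (B n i i' k))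
    (M : ι → Fin 2 → Fin 2 → PadicAlgCl p)
    (hM : ∀ n i i', M n i i' = A n i i' + ∑ k, B n i i' k * L (∑ j, t n k j * ζ n j))
    (hdet : ∀ n, M n 0 0 * M n 1 1 = M n 0 1 * M n 1 0) :
    ∃ N : ℕ, ∀ᶠ n in U, Dep (M n) ∨ ∀ i i', M n i i' ∈ Submodule.span
      (algebraicClosure ℚ (PadicAlgCl p)) (insert 1 (L '' Clus N (t n) fun _ => ζ n)) := by
  classical
  obtain ⟨m, x, η, e, N0, K1, fd, h01, -, hη1, hx, hη, hev, hd⟩ :=
    dich hL U ζ hζ K0 t ht (Eventually.of_forall hα0) (fun i => gm U fun n => ∑ j, t n i j * ζ n j) fun _ => rfl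
  have hX0 : ∀ d, (gm U fun n => x n d) ≠ 0 := fun d =>
    (gm_ne U).2 (Eventually.of_forall fun n => (hx n d).ne_zero)
  have hX : AlgebraicIndependent (GS U fun _ => K1) fun d => gm U fun n => x n d := by
    rcases hd Empty Empty.elim with ⟨r, hr, -⟩ | h
    · exact absurd (Subsingleton.elim _ _) hr
    · exact h.comp Sum.inl Sum.inl_injective
  have hm : ∀ k j n, t n k j * η j ∈ K1 := fun k j n => mul_mem (h01 (ht n k j)) (hη1 j)
  let f : I → MvPolynomial (Fin m) (GS U fun _ => K1) := fun k =>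
    fp e fun j => ⟨gm U fun n => t n k j * η j, _, hm k j, rfl⟩
  obtain ⟨ν, hν, hr⟩ := lead (lf_germ U hL fun _ => K1).mul (fun d => gm U fun n => x n d)
    (fun d => ⟨hX0 d, by
      simp only [LG_gm, log_root hL (hx _ d)]
      exact map_zero (gm U)⟩) hX f (fun i => gm U fun n => ∑ j, t n i j * ζ n j)
    (fun i => (gm_ne U).2 (Eventually.of_forall fun n => hα0 n i)) N0 (fun i => by
      have e1 : aeval (fun d => gm U fun n => x n d) (f i) =
          ∑ j, (gm U fun n => t n i j * η j) * ∏ d, (gm U fun n => x n d) ^ e j d := by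
        simp only [f, fp, map_sum, aeval_monomial, Finsupp.prod_pow]
        rfl
      rw [e1]
      simp only [← Seq2_pow, ← Seq2_prod, ← Seq2_mul, ← Seq2_sum]
      refine (gm_eq U).2 (hev.mono fun n hn => ?_)
      simp only [Finset.sum_mul, mul_assoc, hn])
  let lc : ι → I → PadicAlgCl p := fun n k =>
    ∑ j ∈ Finset.univ.filter fun j => e j = ν k, t n k j * η j
  have hlc : ∀ k, (((f k).coeff (ν k) : GS U fun _ => K1) : GF p U) = gm U fun n => lc n k := by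
    intro k
    simp only [f, fp, lc, coeff_sum, coeff_monomial, ← Finset.sum_filter, Seq2_sum,
      AddSubmonoidClass.coe_finsetSum]
  have hlc0 : ∀ᶠ n in U, ∀ k, lc n k ≠ 0 := eventually_all.2 fun k => (gm_ne U).1 (by
    rw [← hlc]
    exact_mod_cast hν k)
  simp only [hlc, LG_gm] at hr
  obtain ⟨E', hE1, hE2, hE3, hE4⟩ := exists_up (GS U K) fun d => gm U fun n => x n d
  have hE5 := Seq2_fin hE3 hE1 K1
  have hζE : ∀ j, (gm U fun n => ζ n j) ∈ E' := fun j => by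
    have e1 : (gm U fun n => ζ n j) * ∏ d, (gm U fun n => x n d) ^ N0 =
        (gm U fun _ => η j) * ∏ d, (gm U fun n => x n d) ^ e j d := by
      simp only [← Seq2_pow, ← Seq2_prod, ← Seq2_mul]
      exact (gm_eq U).2 (hev.mono fun n hn => hn j)
    rw [eq_div_of_mul_eq (Finset.prod_ne_zero_iff.2 fun d _ => pow_ne_zero _ (hX0 d)) e1]
    exact E'.div_mem (E'.mul_mem (hE5 ⟨_, fun _ => hη1 j, rfl⟩)
      (E'.prod_mem fun d _ => E'.pow_mem (hE2 d) _)) (E'.prod_mem fun d _ => E'.pow_mem (hE2 d) _)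
  obtain ⟨s, q, hq, hY⟩ := elim2 E' (fun k => gm U fun n => L (∑ j, t n k j * ζ n j))
    (fun k => gm U fun n => L (lc n k))
    (fun k => hE5 ((gm_mem U).2 (hlc0.mono fun n hn =>
      log_mem hL K1 (sum_mem fun j _ => hm k j n) (hn k))))
    (fun I' _ ε => (hd I' ε).imp (fun ⟨r, h1, ω, h2⟩ => ⟨r, h1, hr I' ε r ω h2⟩) fun h => by
      have e1 : (fun s => gm U fun n =>
          Sum.elim (x n) (fun i => L (∑ j, t n (ε i) j * ζ n j)) s) =
          Sum.elim (fun d => gm U fun n => x n d)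
            fun i => gm U fun n => L (∑ j, t n (ε i) j * ζ n j) :=
        funext fun s => by cases s <;> rfl
      have h1 := Seq2_up U K1 hK (fun n => Sum.elim (x n) fun i => L (∑ j, t n (ε i) j * ζ n j))
        (fun n => Sum.rec (fun d => le_sup_left (a := Unr p) (Seq2_unr (hx n d))) fun i =>
          log_mem hL _ (sum_mem fun j _ => mul_mem (le_sup_right (b := K1) (h01 (ht n _ j)))
            (le_sup_left (a := Unr p) (Seq2_unr (hζ n j)))) (hα0 n _))
        (by rw [e1]; exact h)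
      rw [e1] at h1
      exact hE4 I' _ h1)
    (fun i j => gm U fun n => A n i j) (fun i j k => gm U fun n => B n i j k)
    (fun i j => Seq2_alg hE3 hE1 hζE fun n => (hA n i j).2)
    (fun i j k => Seq2_alg hE3 hE1 hζE fun n => (hB n i j k).2) (by
      simp only [← Seq2_mul, ← Seq2_sum, ← Seq2_add, ← hM, hdet])
  let W : ι → I → PadicAlgCl p := fun n k => L (∑ j, t n k j * ζ n j) - L (lc n k)
  let A1 : ι → Fin 2 → Fin 2 → PadicAlgCl p := fun n i j => A n i j + ∑ k, B n i j k * L (lc n k)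
  let B1 : ι → Fin 2 → Fin 2 → s → PadicAlgCl p := fun n i j l => ∑ k, q k l * B n i j k
  have hq' : ∀ᶠ n in U, ∀ k, W n k = ∑ l : s, q k l * W n l := eventually_all.2 fun k =>
    (gm_eq U).1 (by simpa only [W, Seq2_sum, Seq2_mul, Seq2_sub, Seq2_rat] using hq k)
  have hY' : ∀ y : ι → s → PadicAlgCl p, ∀ᶠ n in U,
      (A1 n 0 0 + ∑ l, B1 n 0 0 l * y n l) * (A1 n 1 1 + ∑ l, B1 n 1 1 l * y n l) =
      (A1 n 0 1 + ∑ l, B1 n 0 1 l * y n l) * (A1 n 1 0 + ∑ l, B1 n 1 0 l * y n l) := fun y => by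
    have h1 := hY (fun l => gm U fun n => y n l)
      (fun i j => gm U fun n => A1 n i j + ∑ l, B1 n i j l * y n l) fun i j => by
        simp only [A1, B1, Seq2_add, Seq2_sum, Seq2_mul, Seq2_rat]
    simp only [← Seq2_mul] at h1
    exact (gm_eq U).1 h1
  refine ⟨Finset.univ.sup fun z : J × J => orderOf (η z.1 / η z.2), ?_⟩
  filter_upwards [hev, hlc0, hq', eventually_all.2 fun z : s × Bool =>
    hY' fun n => (fun l : s => W n l) + Pi.single z.1 (if z.2 then 1 else -1)] with n h1 h2 h3 h4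
  have e1 : ∀ i j, M n i j = A1 n i j + ∑ l, B1 n i j l * W n l := fun i j => by
    have e2 : ∑ l, B1 n i j l * W n l = ∑ k, B n i j k * W n k := by
      simp only [B1, Finset.sum_mul]
      rw [Finset.sum_comm]
      refine Finset.sum_congr rfl fun k _ => ?_
      rw [h3 k, Finset.mul_sum]
      exact Finset.sum_congr rfl fun l _ => by ring
    rw [e2, hM]
    simp only [A1, W, mul_sub, Finset.sum_sub_distrib]
    ring
  refine (dep_or_zero' (A1 n) (B1 n) (fun i j l => ?_) (fun l => W n l) (by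
    simp only [← e1, hdet]) fun l0 b y hy => hy ▸ h4 (l0, b)).imp (fun h => ?_) fun h i j => ?_
  · exact mem_algebraicClosure_iff.1 (sum_mem fun k _ => mul_mem
      (SubfieldClass.ratCast_mem _ _) (mem_algebraicClosure_iff.2 (hB n i j k).1))
  · simpa only [← e1] using h
  · rw [e1, Finset.sum_eq_zero fun l _ => by rw [h i j l, zero_mul], add_zero]
    refine add_mem ?_ (sum_mem fun k _ => Submodule.smul_mem _
      (⟨_, mem_algebraicClosure_iff.2 (hB n i j k).1⟩ : algebraicClosure ℚ (PadicAlgCl p))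
      (Submodule.subset_span (Set.mem_insert_of_mem _ (Seq2_clus hL (hx n) h1 (fun a b =>
        Finset.le_sup (f := fun z : J × J => orderOf (η z.1 / η z.2)) (Finset.mem_univ (a, b)))
        (t n) k _ (ν k) (fun a ha => (Finset.mem_filter.1 ha).2) (h2 k)))))
    rw [← mul_one (A n i j)]
    exact Submodule.smul_mem _
      (⟨_, mem_algebraicClosure_iff.2 (hA n i j).1⟩ : algebraicClosure ℚ (PadicAlgCl p))
      (Submodule.subset_span (Set.mem_insert _ _))

end Pool.Agent.Work.MP_dd0d16_nt.T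
end

-- merged part: Pool.Agent.Work.MP_dd0d16_nt.G.GermC
section
/-!
Frobenius maps and levels.

PLAN. `exists_frob`: define the map with `Filter.Germ.liftOn` (or by choosing representatives with
`gm_surj`, well defined by `gm_eq`); additivity by `exists_add_pow_prime_pow_eq` in `Ram_B p` (see
`Ram_pow` in R/Ram), `vG_le_one`, `vG_le_pow` with exponent one.
`sm_germ`: `vG_le_pow`. `slow`: `j n = Nat.findGreatest (fun j => ∀ a, p⁻¹ < ‖z a n‖ ^ p ^ (3 * j)) (G n / 3)`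
(`Nat.le_findGreatest`, `Nat.findGreatest_spec`, `Nat.findGreatest_le`). For given `q`, eventually
`q ≤ j n ≤ p ^ j n`; if `‖z a n‖ ≤ 1` then `‖z a n‖ ^ p ^ (3 j) ≤ (‖z a n‖ ^ p ^ e) ^ q`, otherwise the right
side is at least one.
`levels`: let `c` be least such that `∀ᶠ n, ∀ s, (∏ X ^ e s) ^ p ^ (N n - c) = 1` fails (exists by `hgen`;
`c ≠ 0` by `hX`), `t = c - 1`. Eventually `y s = (∏ X ^ e s) ^ p ^ (N n - t - 1)` has `y s ^ p = 1`, and
`τ = ζ n ^ p ^ (N n - 1)` is a primitive `p`-th root, so `y s = τ ^ lam s` with `lam s < p`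
(`IsPrimitiveRoot.eq_pow_of_pow_eq_one`); one function `S → Fin p` occurs eventually
(`Ultrafilter.eventually_exists_iff`); `τ ^ l = 1` and `l < p` give `l = 0`.
-/

set_option autoImplicit false

namespace Pool.Agent.Work.MP_dd0d16_nt.T

open Filter

variable {p : ℕ} [Fact p.Prime] {ι : Type} (U : Ultrafilter ι)

theorem GermC_add {x y : PadicAlgCl p} (hx : ‖x‖ ≤ 1) (hy : ‖y‖ ≤ 1) (n : ℕ) :
    ‖(x + y) ^ p ^ n - x ^ p ^ n - y ^ p ^ n‖ ≤ (p : ℝ)⁻¹ := by
  obtain ⟨r, hr⟩ := exists_add_pow_prime_pow_eq (Fact.out : p.Prime) (⟨x, hx⟩ : Ram_B p) ⟨y, hy⟩ n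
  have h := congrArg (Ram_B p).subtype hr
  simp only [map_add, map_pow, map_mul, map_natCast, Subring.subtype_apply] at h
  rw [h, show x ^ p ^ n + y ^ p ^ n + p * x * y * r - x ^ p ^ n - y ^ p ^ n = p * (x * y * r) by
    ring, norm_mul, norm_p_eq]
  exact mul_le_of_le_one_right Ram_inv_pos.le ((Ram_B p).mul_mem ((Ram_B p).mul_mem hx hy) r.2)

theorem exists_frob (e : ι → ℕ) : ∃ Φ : GF p U →*₀ GF p U,
    (∀ f, Φ (gm U f) = gm U fun n => f n ^ p ^ e n) ∧ Frl (vG U) p Φ := by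
  obtain ⟨Φ, hΦ⟩ : ∃ Φ : GF p U → GF p U, ∀ f, Φ (gm U f) = gm U fun n => f n ^ p ^ e n :=
    ⟨Germ.map' (fun f n => f n ^ p ^ e n) fun f g H => H.mono fun n h => by simp only [h],
      fun _ => rfl⟩
  refine ⟨{ toFun := Φ, map_zero' := ?_, map_one' := ?_, map_mul' := fun a b => ?_ }, hΦ,
    fun a ha => ?_, fun a b ha hb => ?_⟩
  · rw [← map_zero (gm U), hΦ]
    exact congrArg _ (funext fun n => zero_pow (pow_ne_zero _ (Fact.out : p.Prime).ne_zero))
  · rw [← map_one (gm U), hΦ]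
    exact congrArg _ (funext fun n => one_pow _)
  · obtain ⟨f, rfl⟩ := gm_surj U a
    obtain ⟨g, rfl⟩ := gm_surj U b
    rw [← map_mul, hΦ, hΦ, hΦ, ← map_mul]
    exact congrArg _ (funext fun n => mul_pow _ _ _)
  · obtain ⟨f, rfl⟩ := gm_surj U a
    change vG U (Φ (gm U f)) ≤ 1
    rw [hΦ, vG_le_one]
    refine ((vG_le_one U f).1 ha).mono fun n h => ?_
    rw [norm_pow]
    exact pow_le_one₀ (norm_nonneg _) h
  · obtain ⟨f, rfl⟩ := gm_surj U a
    obtain ⟨g, rfl⟩ := gm_surj U b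
    change vG U (Φ (gm U f + gm U g) - Φ (gm U f) - Φ (gm U g)) ≤ _
    rw [← map_add, hΦ, hΦ, hΦ, ← map_sub, ← map_sub, ← pow_one (vG U p), vG_le_pow, pow_one]
    exact (((vG_le_one U f).1 ha).and ((vG_le_one U g).1 hb)).mono fun n h => GermC_add h.1 h.2 _

theorem sm_germ (f : ι → PadicAlgCl p) :
    Sm (vG U) p (gm U f) ↔ ∃ q : ℕ, ∀ᶠ n in U, ‖f n‖ ^ q ≤ (p : ℝ)⁻¹ := by
  refine exists_congr fun q => ?_
  rw [← map_pow, ← map_pow, ← pow_one (vG U p), vG_le_pow, pow_one]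
  simp only [Pi.pow_apply, norm_pow]

theorem slow {Z : Type} [Fintype Z] (z : Z → ι → PadicAlgCl p)
    (hz : ∀ a, ¬ Sm (vG U) p (gm U (z a))) {G : ι → ℕ} (hG : Tendsto G U atTop) :
    ∃ j : ι → ℕ, Tendsto j U atTop ∧ (∀ n, 3 * j n ≤ G n) ∧ ∀ (a : Z) (e : ι → ℕ),
      (∀ n, e n ≤ 2 * j n) → ¬ Sm (vG U) p (gm U fun n => z a n ^ p ^ e n) := by
  classical
  have h1 : ∀ k : ℕ, ∀ᶠ n in U, k ≤ G n / 3 ∧ ∀ a, (p : ℝ)⁻¹ < ‖z a n‖ ^ p ^ (3 * k) := fun k =>
    ((hG.eventually_ge_atTop (k * 3)).mono fun n h => (Nat.le_div_iff_mul_le three_pos).2 h).and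
      (eventually_all.2 fun a => (Ultrafilter.eventually_not.2 fun h =>
        hz a ((sm_germ U _).2 ⟨_, h⟩)).mono fun n h => not_le.1 h)
  refine ⟨fun n => Nat.findGreatest (fun j => ∀ a, (p : ℝ)⁻¹ < ‖z a n‖ ^ p ^ (3 * j)) (G n / 3),
    tendsto_atTop.2 fun k => (h1 k).mono fun n h => Nat.le_findGreatest h.1 h.2, fun n => ?_,
    fun a e he h => ?_⟩
  · exact (Nat.mul_le_mul_left 3 (Nat.findGreatest_le _)).trans (Nat.mul_div_le _ _)
  obtain ⟨q, hq⟩ := (sm_germ U _).1 h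
  obtain ⟨n, ⟨k1, k2⟩, k3⟩ := ((h1 q).and hq).exists
  have k4 := Nat.findGreatest_spec (P := fun j => ∀ a, (p : ℝ)⁻¹ < ‖z a n‖ ^ p ^ (3 * j)) k1 k2 a
  have k5 := Nat.le_findGreatest (P := fun j => ∀ a, (p : ℝ)⁻¹ < ‖z a n‖ ^ p ^ (3 * j)) k1 k2
  have k6 := he n
  beta_reduce at k6
  generalize Nat.findGreatest (fun j => ∀ a, (p : ℝ)⁻¹ < ‖z a n‖ ^ p ^ (3 * j)) (G n / 3) = j
    at k4 k5 k6
  rw [norm_pow, ← pow_mul] at k3
  rcases le_total ‖z a n‖ 1 with k | k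
  · refine k4.not_ge ((pow_le_pow_of_le_one (norm_nonneg _) k ?_).trans k3)
    have hp := (Fact.out : p.Prime).one_lt
    rw [show 3 * j = 2 * j + j by ring, pow_add]
    exact Nat.mul_le_mul (Nat.pow_le_pow_right hp.le k6) (k5.trans (Nat.lt_pow_self hp).le)
  · exact ((one_le_pow₀ k).trans k3).not_gt Ram_inv_lt

theorem levels {σ S : Type} [Fintype σ] [Fintype S] {X : ι → σ → PadicAlgCl p} {N : ι → ℕ}
    (hX : ∀ n d, X n d ^ p ^ N n = 1) (hgen : Gen U X N) (hN : Tendsto N U atTop)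
    {ζ : ι → PadicAlgCl p} (hζ : ∀ n, IsPrimitiveRoot (ζ n) (p ^ N n)) (e : S → σ → ℤ)
    (he : ∃ s, e s ≠ 0) :
    ∃ (t : ℕ) (lam : S → ℕ), (∀ s, e s = 0 → lam s = 0) ∧ (∃ s, ¬ p ∣ lam s) ∧
      ∀ᶠ n in U, ∀ s, (∏ d, X n d ^ e s d) ^ p ^ (N n - t - 1) = (ζ n ^ p ^ (N n - 1)) ^ lam s := by
  have hp := (Fact.out : p.Prime)
  obtain ⟨s0, hs0⟩ := he
  obtain ⟨t, h1, h2⟩ := Nat.exists_not_and_succ_of_not_zero_of_exists
    (p := fun c => ¬ ∀ᶠ n in U, ∀ s, (∏ d, X n d ^ e s d) ^ p ^ (N n - c) = 1)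
    (not_not.2 (Eventually.of_forall fun n s => by
      rw [← Finset.prod_pow]
      refine Finset.prod_eq_one fun d _ => ?_
      rw [← zpow_natCast, ← zpow_mul, mul_comm, zpow_mul, zpow_natCast, Nat.sub_zero, hX,
        one_zpow]))
    ((hgen _ hs0).imp fun c hc h => by
      obtain ⟨n, k1, k2⟩ := (hc.and h).exists
      exact k1 (k2 s0))
  have hτ : ∀ᶠ n in U, IsPrimitiveRoot (ζ n ^ p ^ (N n - 1)) p :=
    (hN.eventually_ge_atTop 1).mono fun n h => (hζ n).pow (pow_pos hp.pos _) (by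
      rw [← pow_succ, Nat.sub_add_cancel h])
  have h3 : ∀ᶠ n in U, ∃ lam : S → Fin p, ∀ s,
      (∏ d, X n d ^ e s d) ^ p ^ (N n - t - 1) = (ζ n ^ p ^ (N n - 1)) ^ (lam s : ℕ) := by
    refine (((not_not.1 h1).and hτ).and (hN.eventually_ge_atTop (t + 1))).mono fun n h => ?_
    have k : ∀ s, ∃ i < p, (ζ n ^ p ^ (N n - 1)) ^ i = (∏ d, X n d ^ e s d) ^ p ^ (N n - t - 1) :=
      fun s => h.1.2.eq_pow_of_pow_eq_one (by
        rw [← pow_mul, ← pow_succ, Nat.sub_add_cancel (by have := h.2; omega), h.1.1 s])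
    choose i k1 k2 using k
    exact ⟨fun s => ⟨i s, k1 s⟩, fun s => (k2 s).symm⟩
  obtain ⟨lam, h4⟩ := Ultrafilter.eventually_exists_iff.1 h3
  refine ⟨t, fun s => lam s, fun s hs => ?_, ?_, h4⟩
  · obtain ⟨n, k1, k2⟩ := (h4.and hτ).exists
    refine Nat.eq_zero_of_dvd_of_lt (k2.dvd_of_pow_eq_one _ ?_) (lam s).2
    rw [← k1 s, hs]
    simp
  · by_contra hc
    push Not at hc
    refine h2 (h4.mono fun n h s => ?_)
    rw [← Nat.sub_sub, h s, Nat.eq_zero_of_dvd_of_lt (hc s) (lam s).2, pow_zero]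

end Pool.Agent.Work.MP_dd0d16_nt.T
end
end

-- merged part: Pool.Agent.Work.MP_dd0d16_nt.G.GermB
section
-- merged part: Pool.Agent.Work.MP_dd0d16_nt.G.Cyc2
section
/-!
The value group of a cyclotomic field.

PLAN. `norm_pi`: the product of `1 - ζ'` over the
primitive roots is `p` (`Polynomial.cyclotomic_eq_prod_X_sub_primitiveRoots`,
`Polynomial.eval_one_cyclotomic_prime_pow`, `IsPrimitiveRoot.card_primitiveRoots`) and all factors have
the same norm (`‖x ^ k - 1‖ ≤ ‖x - 1‖` for `‖x‖ = 1` by `geom_sum_mul`; each primitive root is a power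
of any other one). `val_Cyc`: every element of `Cyc p (N + 1)` lies in `adjoin (Unr p) {ζ - 1}`
(`RootS.split`, `IsPrimitiveRoot.eq_pow_of_pow_eq_one`), whose elements are polynomials in `π = ζ - 1`
over `Unr p` of degree less than the degree of the minimal polynomial, which is at most the totient
`e` (`IntermediateField.adjoin.powerBasis`, `PowerBasis.exists_eq_aeval`, `minpoly.min` or
`modByMonic`); `exists_br`, `orth` and `Br.norm_unr`, `Ram_zpow` (R/Ram): the norm of the sum is the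
largest norm of a term (`IsUltrametricDist.exists_norm_finsetSum_le`-type lemma).
-/

set_option autoImplicit false

namespace Pool.Agent.Work.MP_dd0d16_nt.T

variable {p : ℕ} [Fact p.Prime] {z w : PadicAlgCl p} {s : ℕ}

theorem Cyc2_le {n : ℕ} (hn : n ≠ 0) (h : IsPrimitiveRoot z n) (h' : w ^ n = 1) :
    ‖w - 1‖ ≤ ‖z - 1‖ := by
  have : NeZero n := ⟨hn⟩
  obtain ⟨i, -, rfl⟩ := h.eq_pow_of_pow_eq_one h'
  rw [← geom_sum_mul, norm_mul]
  exact mul_le_of_le_one_left (norm_nonneg _)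
    ((Ram_B p).sum_mem fun k _ => (Ram_B p).pow_mem (fin_norm (h.isOfFinOrder hn)).le k)

theorem norm_pi {N : ℕ} {ζ : PadicAlgCl p} (h : IsPrimitiveRoot ζ (p ^ (N + 1))) :
    ‖ζ - 1‖ ^ (p ^ N * (p - 1)) = (p : ℝ)⁻¹ := by
  have hp : p.Prime := Fact.out
  have hn : p ^ (N + 1) ≠ 0 := pow_ne_zero _ hp.ne_zero
  have h1 := Polynomial.eval_one_cyclotomic_prime_pow (R := PadicAlgCl p) (p := p) N
  rw [Polynomial.cyclotomic_eq_prod_X_sub_primitiveRoots h, Polynomial.eval_prod] at h1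
  rw [← norm_p_eq, ← h1, norm_prod, ← Nat.totient_prime_pow_succ hp, ← h.card_primitiveRoots,
    ← Finset.prod_const]
  refine Finset.prod_congr rfl fun μ hμ => ?_
  have h2 := (mem_primitiveRoots (Nat.pos_of_ne_zero hn)).1 hμ
  rw [Polynomial.eval_sub, Polynomial.eval_X, Polynomial.eval_C, norm_sub_rev 1]
  exact le_antisymm (Cyc2_le hn h2 h.pow_eq_one) (Cyc2_le hn h h2.pow_eq_one)

theorem Cyc2_poly {ζ : PadicAlgCl p} (h : IsPrimitiveRoot ζ (p ^ s)) (hz : z ∈ Cyc p s) :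
    ∃ f : Polynomial (Unr p), Polynomial.aeval ζ f = z := by
  have : NeZero (p ^ s) := ⟨pow_ne_zero _ (Fact.out : p.Prime).ne_zero⟩
  have h1 : Cyc p s ≤ (IntermediateField.adjoin (Unr p) {ζ}).restrictScalars ℚ_[p] := by
    refine IntermediateField.adjoin_le_iff.2 fun x hx => ?_
    obtain ⟨ω, ρ, o1, o2, rfl⟩ := RootS.split hx
    obtain ⟨i, -, rfl⟩ := h.eq_pow_of_pow_eq_one o2
    exact mul_mem ((IntermediateField.adjoin (Unr p) {ζ}).algebraMap_mem ⟨ω, Ram_root_mem o1⟩)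
      (pow_mem (IntermediateField.mem_adjoin_simple_self (Unr p) ζ) i)
  have h2 : IsIntegral (Unr p) ζ := (Algebra.IsIntegral.isIntegral (R := ℚ_[p]) _).tower_top
  have h3 : z ∈ (IntermediateField.adjoin (Unr p) {ζ}).toSubalgebra := h1 hz
  rwa [IntermediateField.adjoin_simple_toSubalgebra_of_isAlgebraic h2.isAlgebraic,
    Algebra.adjoin_singleton_eq_range_aeval] at h3

theorem Cyc2_sum {N : ℕ} {ζ : PadicAlgCl p} (h : IsPrimitiveRoot ζ (p ^ (N + 1)))
    (hz : z ∈ Cyc p (N + 1)) : ∃ c : Fin (p ^ N * (p - 1)) → PadicAlgCl p,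
      (∀ d, c d ∈ Unr p) ∧ z = ∑ d, c d * (ζ - 1) ^ (d : ℕ) := by
  have hp : p.Prime := Fact.out
  have hn : 0 < p ^ (N + 1) := pow_pos hp.pos _
  obtain ⟨f, rfl⟩ := Cyc2_poly h hz
  have h1 : Polynomial.aeval ζ (Polynomial.cyclotomic (p ^ (N + 1)) (Unr p)) = 0 := by
    rw [← Polynomial.eval_map_algebraMap, Polynomial.map_cyclotomic]
    exact h.isRoot_cyclotomic hn
  have h2 := Polynomial.natDegree_modByMonic_lt f
    (Polynomial.cyclotomic.monic (p ^ (N + 1)) (Unr p)) fun k => by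
      rw [k, map_one] at h1
      exact one_ne_zero h1
  rw [Polynomial.natDegree_cyclotomic, Nat.totient_prime_pow_succ hp,
    ← Polynomial.natDegree_taylor _ 1] at h2
  have h3 := Polynomial.aeval_eq_sum_range' h2 (ζ - 1)
  rw [Finset.sum_range] at h3
  refine ⟨fun d => ((Polynomial.taylor 1 (f %ₘ Polynomial.cyclotomic (p ^ (N + 1)) (Unr p))).coeff
    d : Unr p), fun d => Subtype.prop _, Eq.trans ?_ h3⟩
  rw [Polynomial.taylor_apply, Polynomial.aeval_comp, map_add, Polynomial.aeval_X, map_one,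
    map_one, sub_add_cancel, Polynomial.aeval_modByMonic_eq_self_of_root h1]

theorem val_Cyc {N : ℕ} {ζ : PadicAlgCl p} (h : IsPrimitiveRoot ζ (p ^ (N + 1)))
    (hz : z ∈ Cyc p (N + 1)) (h0 : z ≠ 0) : ∃ a : ℤ, ‖z‖ = ‖ζ - 1‖ ^ a := by
  have hπ := norm_pi h
  obtain ⟨O, j, hb⟩ := exists_br p
  obtain ⟨c, hc, rfl⟩ := Cyc2_sum h hz
  obtain ⟨d, -, hd⟩ := IsUltrametricDist.exists_norm_finsetSum_le_of_nonempty
    (Finset.nonempty_of_sum_ne_zero h0) fun d => c d * (ζ - 1) ^ (d : ℕ)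
  have h1 := le_antisymm hd (orth hb hπ c hc d)
  have h2 : c d * (ζ - 1) ^ (d : ℕ) ≠ 0 := norm_ne_zero_iff.1 (h1 ▸ norm_ne_zero_iff.2 h0)
  obtain ⟨r, hr⟩ := hb.norm_unr (hc d) (left_ne_zero_of_mul h2)
  exact ⟨_, by rw [h1, norm_mul, norm_pow, hr, Ram_zpow hπ, ← zpow_natCast,
    ← zpow_add₀ (Ram_pi hπ).1.ne']⟩

end Pool.Agent.Work.MP_dd0d16_nt.T
end

-- merged part: Pool.Agent.Work.MP_dd0d16_nt.G.Orth1
section
/-!
Near orthogonality of roots of unity of `p`-power order over cyclotomic fields.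

PLAN. `orth_poly`: `ζ` primitive of order `p ^ (N + 1 + l)`, `r = p ^ l`, `π = ζ - 1`, `ζ0 = ζ ^ r` primitive
of order `p ^ (N + 1)` (`IsPrimitiveRoot.pow`), `‖ζ0 - 1‖ = ‖π‖ ^ r` (`norm_pi` twice). Let
`Q = ∑ k, C (c k) * X ^ k` over `Cyc p (N + 1)`, `q = Polynomial.taylor 1 Q`, of degree `< r`, so
`Q ζ = ∑ k < r, q k * π ^ k`. The nonzero terms have different norms (`val_Cyc`: the exponents of `‖π‖`
differ modulo `r`), so `Ram_orth` gives `‖q k‖ * ‖π‖ ^ k ≤ ‖Q ζ‖` and `‖π‖ ^ r * ‖q k‖ ≤ ‖Q ζ‖`. Since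
`Q = taylor (-1) q = ∑ k, C (q k) * (X - 1) ^ k`, each `c j` is an integer combination of the `q k`.
`orth1`: `‖ζ0 - 1‖ ^ (p ^ N * (p - 1)) = p⁻¹` tends to one: for `0 ≤ θ < 1` eventually
`θ ^ (p ^ N * (p - 1)) ≤ p⁻¹`. All `z j` are powers `ζ ^ k j` of one primitive root of order
`p ^ (N + 1 + l)`; `z j = ζ0 ^ (k j / r) * ζ ^ (k j % r)`, and `j ↦ k j % r` is injective by hypothesis;
extend the coefficients `c j * ζ0 ^ (k j / r)` by zero (`Function.extend`, or sums over fibres).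
-/

set_option autoImplicit false

namespace Pool.Agent.Work.MP_dd0d16_nt.T

open Filter

variable {p : ℕ} [Fact p.Prime]

open Polynomial in
theorem Orth1_coeff (r : PadicAlgCl p) (f : (PadicAlgCl p)[X]) (n : ℕ) :
    (taylor r f).coeff n = ∑ i ∈ Finset.range (f.natDegree + 1),
      ((i + n).choose n : PadicAlgCl p) * f.coeff (i + n) * r ^ i := by
  rw [taylor_coeff, eval_eq_sum_range' (n := f.natDegree + 1)
    (Nat.lt_succ_of_le ((natDegree_hasseDeriv_le f n).trans (Nat.sub_le _ _)))]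
  exact Finset.sum_congr rfl fun i _ => by rw [hasseDeriv_coeff]

open Polynomial in
theorem Orth1_norm {r : PadicAlgCl p} (hr : ‖r‖ = 1) {f : (PadicAlgCl p)[X]} {B : ℝ}
    (hB : ∀ k, ‖f.coeff k‖ ≤ B) (n : ℕ) : ‖(taylor r f).coeff n‖ ≤ B := by
  rw [Orth1_coeff]
  refine IsUltrametricDist.norm_sum_le_of_forall_le_of_nonneg
    ((norm_nonneg _).trans (hB 0)) fun i _ => ?_
  rw [norm_mul, norm_mul, norm_pow, hr, one_pow, mul_one]
  exact (mul_le_of_le_one_left (norm_nonneg _)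
    (IsUltrametricDist.norm_natCast_le_one _ _)).trans (hB _)

theorem Orth1_pi {N l : ℕ} {ζ : PadicAlgCl p} (h : IsPrimitiveRoot ζ (p ^ (N + 1 + l))) :
    IsPrimitiveRoot (ζ ^ p ^ l) (p ^ (N + 1)) ∧ 0 < ‖ζ - 1‖ ∧ ‖ζ - 1‖ < 1 ∧
      ‖ζ ^ p ^ l - 1‖ = ‖ζ - 1‖ ^ p ^ l := by
  have hp : p.Prime := Fact.out
  have h0 : IsPrimitiveRoot (ζ ^ p ^ l) (p ^ (N + 1)) :=
    h.pow (pow_pos hp.pos _) (by ring)
  have e1 := norm_pi (N := N + l) (ζ := ζ) (by rwa [Nat.add_right_comm])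
  have e2 := norm_pi h0
  have n0 : ∀ k, p ^ k * (p - 1) ≠ 0 := fun k =>
    mul_ne_zero (pow_ne_zero _ hp.ne_zero) (Nat.sub_ne_zero_of_lt hp.one_lt)
  have p1 : (1 : ℝ) < p := by exact_mod_cast hp.one_lt
  refine ⟨h0, (norm_nonneg _).lt_of_ne fun k => ?_, ?_, ?_⟩
  · rw [← k, zero_pow (n0 _)] at e1
    exact (inv_pos.2 (zero_lt_one.trans p1)).ne e1
  · by_contra k
    have := one_le_pow₀ (n := p ^ (N + l) * (p - 1)) (not_lt.1 k)
    rw [e1] at this
    exact absurd this (not_le.2 (inv_lt_one_of_one_lt₀ p1))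
  · refine (pow_left_inj₀ (norm_nonneg _) (by positivity) (n0 N)).1 ?_
    rw [e2, ← pow_mul, ← e1]
    congr 1
    ring

theorem orth_poly {N l : ℕ} {ζ : PadicAlgCl p} (h : IsPrimitiveRoot ζ (p ^ (N + 1 + l)))
    (c : Fin (p ^ l) → PadicAlgCl p) (hc : ∀ k, c k ∈ Cyc p (N + 1)) (j : Fin (p ^ l)) :
    ‖ζ ^ p ^ l - 1‖ * ‖c j‖ ≤ ‖∑ k, c k * ζ ^ (k : ℕ)‖ := by
  classical
  obtain ⟨h0, r0, r1, e0⟩ := Orth1_pi h
  have hr : 0 < p ^ l := pow_pos (Fact.out : p.Prime).pos _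
  set Q : Polynomial (PadicAlgCl p) :=
    ∑ k : Fin (p ^ l), Polynomial.C (c k) * Polynomial.X ^ (k : ℕ) with hQ
  have cf : ∀ n, Q.coeff n = ∑ k : Fin (p ^ l), if n = (k : ℕ) then c k else 0 := fun n => by
    simp only [hQ, Polynomial.finsetSum_coeff, Polynomial.coeff_C_mul_X_pow]
  have cj : Q.coeff j = c j := by
    rw [cf, Finset.sum_eq_single j]
    · rw [if_pos rfl]
    · exact fun k _ hk => if_neg fun e => hk (Fin.ext e.symm)
    · exact fun k => absurd (Finset.mem_univ _) k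
  have cm : ∀ n, Q.coeff n ∈ Cyc p (N + 1) := fun n => by
    rw [cf]
    refine sum_mem fun k _ => ?_
    split_ifs
    exacts [hc k, zero_mem _]
  have dg : Q.natDegree < p ^ l := by
    by_cases k : Q = 0
    · rwa [k, Polynomial.natDegree_zero]
    · exact (Polynomial.natDegree_lt_iff_degree_lt k).2 (Polynomial.degree_sum_fin_lt c)
  have dq : (Polynomial.taylor 1 Q).natDegree < p ^ l := by rwa [Polynomial.natDegree_taylor]
  have qm : ∀ n, (Polynomial.taylor 1 Q).coeff n ∈ Cyc p (N + 1) := fun n => by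
    rw [Orth1_coeff]
    exact sum_mem fun i _ => mul_mem (mul_mem (natCast_mem _ _) (cm _)) (pow_mem (one_mem _) _)
  have ev : ∑ k, c k * ζ ^ (k : ℕ) =
      ∑ i ∈ Finset.range (p ^ l), (Polynomial.taylor 1 Q).coeff i * (ζ - 1) ^ i := by
    rw [← Polynomial.eval_eq_sum_range' dq, Polynomial.taylor_eval, sub_add_cancel, hQ,
      Polynomial.eval_finsetSum]
    simp only [Polynomial.eval_mul, Polynomial.eval_C, Polynomial.eval_pow, Polynomial.eval_X]
  have val : ∀ i, (Polynomial.taylor 1 Q).coeff i * (ζ - 1) ^ i ≠ 0 → ∃ a : ℤ,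
      ‖(Polynomial.taylor 1 Q).coeff i * (ζ - 1) ^ i‖ = ‖ζ - 1‖ ^ ((p ^ l : ℕ) * a + i : ℤ) := by
    intro i hi
    obtain ⟨a, ha⟩ := val_Cyc h0 (qm i) (left_ne_zero_of_mul hi)
    refine ⟨a, ?_⟩
    rw [norm_mul, norm_pow, ha, e0, zpow_add₀ r0.ne', zpow_mul, zpow_natCast, zpow_natCast]
  have orth : ∀ i < p ^ l, ‖(Polynomial.taylor 1 Q).coeff i * (ζ - 1) ^ i‖ ≤
      ‖∑ k, c k * ζ ^ (k : ℕ)‖ := fun i hi => by
    rw [ev]
    refine Ram_orth _ (fun i => (Polynomial.taylor 1 Q).coeff i * (ζ - 1) ^ i)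
      (fun i hi k hk h1 h2 => ?_) (Finset.mem_range.2 hi)
    obtain ⟨a, ha⟩ := val i h1
    obtain ⟨b, hb⟩ := val k (norm_ne_zero_iff.1 (h2 ▸ norm_ne_zero_iff.2 h1))
    rw [ha, hb] at h2
    have h3 := congrArg (· % ((p ^ l : ℕ) : ℤ)) (zpow_right_injective₀ r0 r1.ne h2)
    simp only [Int.mul_add_emod_self_left] at h3
    rw [Int.emod_eq_of_lt (by positivity) (by exact_mod_cast Finset.mem_range.1 hi),
      Int.emod_eq_of_lt (by positivity) (by exact_mod_cast Finset.mem_range.1 hk)] at h3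
    exact_mod_cast h3
  have bd : ∀ i, ‖(Polynomial.taylor 1 Q).coeff i‖ ≤
      ‖∑ k, c k * ζ ^ (k : ℕ)‖ / ‖ζ - 1‖ ^ p ^ l := fun i => by
    by_cases hi : i < p ^ l
    · rw [le_div_iff₀ (pow_pos r0 _)]
      refine le_trans ?_ (orth i hi)
      rw [norm_mul, norm_pow]
      exact mul_le_mul_of_nonneg_left (pow_le_pow_of_le_one r0.le r1.le hi.le) (norm_nonneg _)
    · rw [Polynomial.coeff_eq_zero_of_natDegree_lt (dq.trans_le (not_lt.1 hi)), norm_zero]
      positivity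
  have := Orth1_norm (r := -1) (by rw [norm_neg, norm_one]) bd j
  rw [Polynomial.taylor_taylor, neg_add_cancel, Polynomial.taylor_zero, cj,
    le_div_iff₀ (pow_pos r0 _)] at this
  rwa [e0, mul_comm]

theorem orth1 (p : ℕ) [Fact p.Prime] {θ : ℝ} (hθ : θ < 1) :
    ∀ᶠ N in atTop, ∀ (J : Type) [Fintype J] (z c : J → PadicAlgCl p), (∀ j, PR (z j)) →
      (∀ j j', j ≠ j' → (z j / z j') ^ p ^ N ≠ 1) → (∀ j, c j ∈ Cyc p N) →
      ∀ j, θ * ‖c j‖ ≤ ‖∑ j, c j * z j‖ := by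
  classical
  have hp : p.Prime := Fact.out
  have p0 : (0 : ℝ) < (p : ℝ)⁻¹ := inv_pos.2 (by exact_mod_cast hp.pos)
  obtain ⟨n0, hn0⟩ := eventually_atTop.1
    ((tendsto_pow_atTop_nhds_zero_of_lt_one (le_max_right θ 0) (max_lt hθ zero_lt_one)).eventually
      (gt_mem_nhds p0))
  refine eventually_atTop.2 ⟨n0 + 1, fun N' hN J _ z c hz hne hc j => ?_⟩
  obtain ⟨N, rfl⟩ : ∃ N, N' = N + 1 := ⟨N' - 1, by omega⟩
  choose a ha using hz
  set l := Finset.univ.sup a
  obtain ⟨ζ, h⟩ := exists_prim p (N + 1 + l)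
  obtain ⟨h0, -⟩ := Orth1_pi h
  have hr : 0 < p ^ l := pow_pos hp.pos _
  have : NeZero (p ^ (N + 1 + l)) := ⟨pow_ne_zero _ hp.ne_zero⟩
  have hk : ∀ i, ∃ k, ζ ^ k = z i := fun i => by
    obtain ⟨d, hd⟩ : p ^ a i ∣ p ^ (N + 1 + l) :=
      pow_dvd_pow _ ((Finset.le_sup (Finset.mem_univ i)).trans (Nat.le_add_left _ _))
    obtain ⟨k, -, hk⟩ := h.eq_pow_of_pow_eq_one (ξ := z i) (by rw [hd, pow_mul, ha, one_pow])
    exact ⟨k, hk⟩
  choose k hk using hk
  set m : J → Fin (p ^ l) := fun i => ⟨k i % p ^ l, Nat.mod_lt _ hr⟩ with hm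
  have ez : ∀ i, z i = (ζ ^ p ^ l) ^ (k i / p ^ l) * ζ ^ (m i : ℕ) := fun i => by
    rw [← pow_mul, ← pow_add, Nat.div_add_mod, hk]
  have z0 : ζ ≠ 0 := h.ne_zero (NeZero.ne _)
  have one : ∀ t : ℕ, ((ζ ^ p ^ l) ^ t) ^ p ^ (N + 1) = 1 := fun t => by
    rw [← pow_mul, mul_comm, pow_mul, h0.pow_eq_one, one_pow]
  have inj : Function.Injective m := fun i i' e => by_contra fun k' => hne i i' k' (by
    rw [ez i, ez i', e, mul_div_mul_right _ _ (pow_ne_zero _ z0), div_pow, one, one, div_one])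
  have key := orth_poly h
    (fun t => ∑ i ∈ Finset.univ.filter fun i => m i = t, c i * (ζ ^ p ^ l) ^ (k i / p ^ l))
    (fun t => sum_mem fun i _ => mul_mem (hc i) (mem_Cyc (one _))) (m j)
  have e1 : (Finset.univ.filter fun i => m i = m j) = {j} := by
    ext i
    simp only [Finset.mem_filter, Finset.mem_univ, true_and, Finset.mem_singleton, inj.eq_iff]
  have e2 : ∑ t, (∑ i ∈ Finset.univ.filter fun i => m i = t,
      c i * (ζ ^ p ^ l) ^ (k i / p ^ l)) * ζ ^ (t : ℕ) = ∑ i, c i * z i := by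
    rw [← Finset.sum_fiberwise Finset.univ m fun i => c i * z i]
    refine Finset.sum_congr rfl fun t _ => ?_
    rw [Finset.sum_mul]
    refine Finset.sum_congr rfl fun i hi => ?_
    rw [ez i, (Finset.mem_filter.1 hi).2, mul_assoc]
  have e3 : ‖(ζ ^ p ^ l) ^ (k j / p ^ l)‖ = 1 :=
    fin_norm (isOfFinOrder_iff_pow_eq_one.2 ⟨_, pow_pos hp.pos _, one _⟩)
  rw [e1, e2, Finset.sum_singleton, norm_mul, e3, mul_one] at key
  refine le_trans (mul_le_mul_of_nonneg_right ?_ (norm_nonneg _)) key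
  refine (le_max_left θ 0).trans (not_lt.1 fun k' => ?_)
  have h1 : n0 ≤ p ^ N * (p - 1) := by
    have h2 : N < p ^ N := Nat.lt_pow_self hp.one_lt
    have h3 : 1 ≤ p - 1 := Nat.le_sub_one_of_lt hp.one_lt
    calc n0 ≤ p ^ N * 1 := by omega
      _ ≤ _ := Nat.mul_le_mul_left _ h3
  have h2 := pow_le_pow_left₀ (norm_nonneg _) k'.le (p ^ N * (p - 1))
  rw [norm_pi h0] at h2
  exact absurd (hn0 _ h1) (not_lt.2 h2)

end Pool.Agent.Work.MP_dd0d16_nt.T
end

-- merged part: Pool.Agent.Work.MP_dd0d16_nt.G.Orth2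
section
/-!
Nearly orthogonal bases.

PLAN. `bdd_dual`: `M` is a finite separable extension of `W`; every functional is `x ↦ Tr (x * y)`
(`Algebra.traceForm_nondegenerate`, `LinearMap.BilinForm.toDual`); the trace is the sum of the images under the
embeddings `M →ₐ[W] PadicAlgCl p` (`trace_eq_sum_embeddings`), and conjugate elements have the same
norm (`PadicAlgCl.spectralNorm_eq`, the spectral norm depends on the minimal polynomial only;
`minpoly.algHom_eq`, `spectralNorm_eq_of_equiv`; see also PAdic and T/Norm).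
`orth2`: `M = adjoin W K0` is finite over `W`. Either Gram-Schmidt: if `ψ 1 .. ψ k` is `t ^ k`-orthogonal
and `x` is outside the span, the distance `d` from `x` to the span is positive (a functional that
vanishes on the span and is `1` at `x` is bounded); choose `y` in the span with `t * ‖x - y‖ ≤ d`; then
`t * ‖a * (x - y)‖ ≤ ‖a * (x - y) + y'‖` and `t * ‖y'‖ ≤ ‖a * (x - y) + y'‖` for `y'` in the span. Or:
choose a basis `ψ` for which `‖det ψ‖ / ∏ ‖ψ k‖` (determinant with respect to a fixed basis, bounded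
by `bdd_dual`) is at least `θ` times the supremum, and replace `ψ k` by `∑ k, c k * ψ k`.
-/

set_option autoImplicit false

namespace Pool.Agent.Work.MP_dd0d16_nt.T

variable {p : ℕ} [Fact p.Prime]

theorem Orth2_conj (W : IntermediateField ℚ_[p] (PadicAlgCl p))
    (M : IntermediateField W (PadicAlgCl p)) (σ : M →ₐ[W] PadicAlgCl p) (x : M) :
    ‖σ x‖ = ‖(x : PadicAlgCl p)‖ := by
  have h1 := minpoly.algHom_eq (σ.restrictScalars ℚ_[p]) σ.injective x
  have h2 := minpoly.algHom_eq (M.val.restrictScalars ℚ_[p]) M.val.injective x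
  rw [← PadicAlgCl.spectralNorm_eq, ← PadicAlgCl.spectralNorm_eq]
  exact congrArg spectralValue (h1.trans h2.symm)

theorem bdd_dual (W : IntermediateField ℚ_[p] (PadicAlgCl p))
    (M : IntermediateField W (PadicAlgCl p)) [FiniteDimensional W M] (f : M →ₗ[W] W) :
    ∃ C : ℝ, 0 ≤ C ∧ ∀ x : M, ‖(f x : PadicAlgCl p)‖ ≤ C * ‖(x : PadicAlgCl p)‖ := by
  obtain ⟨y, rfl⟩ := ((Algebra.traceForm W M).toDual (traceForm_nondegenerate W M)).surjective f
  refine ⟨‖(y : PadicAlgCl p)‖, norm_nonneg _, fun x => ?_⟩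
  rw [LinearMap.BilinForm.toDual_def, Algebra.traceForm_apply, ← IntermediateField.algebraMap_apply,
    trace_eq_sum_embeddings]
  refine IsUltrametricDist.norm_sum_le_of_forall_le_of_nonneg (by positivity) fun σ _ => ?_
  rw [Orth2_conj, ← norm_mul]
  exact le_rfl

theorem Orth2_sup {α : Type} (f g : α → ℝ) {C θ : ℝ} (h0 : 0 ≤ θ) (hθ : θ < 1)
    (hC : ∀ a, f a ≤ C * g a) {a0 : α} (h : 0 < f a0) :
    ∃ S, (∀ a, f a ≤ S * g a) ∧ ∃ a, θ * S * g a < f a := by
  by_contra hn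
  push Not at hn
  have h1 : ∀ n : ℕ, ∀ a, f a ≤ θ ^ n * C * g a := fun n => by
    induction n with
    | zero => simpa using hC
    | succ n ih => simpa only [pow_succ', mul_assoc] using hn _ ih
  have h2 := ge_of_tendsto' (((tendsto_pow_atTop_nhds_zero_of_lt_one h0 hθ).mul_const C).mul_const
    (g a0)) fun n => h1 n a0
  rw [zero_mul, zero_mul] at h2
  exact h2.not_gt h

theorem Orth2_det (W : IntermediateField ℚ_[p] (PadicAlgCl p))
    (M : IntermediateField W (PadicAlgCl p)) [FiniteDimensional W M] {r : ℕ}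
    (b : Module.Basis (Fin r) W M) : ∃ C : ℝ, ∀ ψ : Fin r → M,
      ‖(b.det ψ : PadicAlgCl p)‖ ≤ C * ∏ k, ‖(ψ k : PadicAlgCl p)‖ := by
  choose C h0 hC using fun i => bdd_dual W M (b.coord i)
  refine ⟨∏ i, C i, fun ψ => ?_⟩
  rw [Module.Basis.det_apply, Matrix.det_apply']
  push_cast
  refine IsUltrametricDist.norm_sum_le_of_forall_le_of_nonneg
    (mul_nonneg (Finset.prod_nonneg fun i _ => h0 i) (by positivity)) fun σ _ => ?_
  rw [norm_mul, norm_prod, ← Equiv.prod_comp σ C, ← Finset.prod_mul_distrib]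
  exact (mul_le_of_le_one_left (by positivity) (IsUltrametricDist.norm_intCast_le_one _ _)).trans
    (Finset.prod_le_prod (fun _ _ => norm_nonneg _) fun i _ => hC (σ i) (ψ i))

theorem orth2 (W K0 : IntermediateField ℚ_[p] (PadicAlgCl p)) [FiniteDimensional ℚ_[p] K0]
    {θ : ℝ} (hθ : θ < 1) :
    ∃ (r : ℕ) (ψ : Fin r → PadicAlgCl p),
      (∀ z ∈ K0, ∃ c : Fin r → PadicAlgCl p, (∀ k, c k ∈ W) ∧ z = ∑ k, c k * ψ k) ∧
      ∀ c : Fin r → PadicAlgCl p, (∀ k, c k ∈ W) → ∀ k, θ * ‖c k * ψ k‖ ≤ ‖∑ k, c k * ψ k‖ := by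
  obtain ⟨T, hT⟩ := (Module.Finite.iff_fg (N := K0.toSubalgebra.toSubmodule)).1 ‹_›
  let M := IntermediateField.adjoin W (T : Set (PadicAlgCl p))
  have : FiniteDimensional W M := IntermediateField.finiteDimensional_adjoin fun x _ =>
    (Algebra.IsIntegral.isIntegral (R := ℚ_[p]) x).tower_top
  have hK : ∀ z ∈ K0, z ∈ M := fun z hz =>
    (Submodule.span_le (p := M.toSubalgebra.toSubmodule.restrictScalars ℚ_[p])).2
      (IntermediateField.subset_adjoin W _) (hT.ge hz)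
  let b := Module.finBasis W M
  obtain ⟨C, hC⟩ := Orth2_det W M b
  obtain ⟨S, hS, ψ, hψ⟩ := Orth2_sup _ _ (le_max_right θ 0) (max_lt hθ one_pos) hC (a0 := b)
    (by rw [b.det_self]; simp)
  have h1 : 0 < S * ∏ k, ‖(ψ k : PadicAlgCl p)‖ := by
    have := hψ.trans_le (hS ψ)
    rw [mul_assoc] at this
    nlinarith [max_lt hθ one_pos]
  have h2 : b.det ψ ≠ 0 := fun e => by
    rw [e, mul_assoc] at hψ
    simpa using (mul_nonneg (le_max_right θ 0) h1.le).trans_lt hψ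
  refine ⟨_, fun k => ψ k, fun z hz => ?_, fun c hc k => ?_⟩
  · obtain ⟨c, e⟩ := (Submodule.mem_span_range_iff_exists_fun W).1
      (((b.is_basis_iff_det).2 h2.isUnit).2.ge (Submodule.mem_top (x := (⟨z, hK z hz⟩ : M))))
    refine ⟨fun k => c k, fun k => (c k).2, ?_⟩
    simpa [IntermediateField.smul_def] using (congrArg M.val e).symm
  · lift c to Fin (Module.finrank W M) → W using hc
    have e1 : ∑ j, (c j : PadicAlgCl p) * ψ j = ((∑ j, c j • ψ j : M) : PadicAlgCl p) := by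
      simp [IntermediateField.smul_def]
    have e2 : b.det (Function.update ψ k (∑ j, c j • ψ j)) = c k * b.det ψ := by
      rw [AlternatingMap.map_update_sum, Finset.sum_eq_single k
        (fun j _ hj => by rw [b.det.map_update_smul, b.det.map_update_self _ hj.symm, smul_zero])
        (by simp), b.det.map_update_smul, Function.update_eq_self, smul_eq_mul]
    have h3 := hS (Function.update ψ k (∑ j, c j • ψ j))
    rw [e2, ← Finset.mul_prod_erase _ _ (Finset.mem_univ k), Function.update_self,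
      Finset.prod_congr rfl fun j hj => by rw [Function.update_of_ne (Finset.ne_of_mem_erase hj)],
      ← e1] at h3
    push_cast at h3
    rw [← Finset.mul_prod_erase _ _ (Finset.mem_univ k)] at h1 hψ
    rw [norm_mul] at h3 ⊢
    refine (mul_le_mul_of_nonneg_right (le_max_left θ 0) (by positivity)).trans
      (le_of_mul_le_mul_right ?_ h1)
    have h4 := mul_le_mul_of_nonneg_left h3 (norm_nonneg (ψ k : PadicAlgCl p))
    have h5 := mul_le_mul_of_nonneg_left hψ.le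
      (mul_nonneg (norm_nonneg (c k : PadicAlgCl p)) (norm_nonneg (ψ k : PadicAlgCl p)))
    linarith

end Pool.Agent.Work.MP_dd0d16_nt.T
end

-- merged part: Pool.Agent.Work.MP_dd0d16_nt.G.Orth3
section
/-!
Near orthogonality over `K0 ⊔ Cyc p N`.

PLAN. `span_sup`: the span of a basis of `K0` over `W` contains `K0 ⊔ W`
(`IntermediateField.sup_toSubalgebra_of_isAlgebraic`, `Algebra.sup_def`, `Subalgebra.mul_toSubmodule`; or
the inclusion into `(adjoin W K0).restrictScalars` as in `Disj_rank` (S/Disj) and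
`IntermediateField.adjoin_toSubalgebra_of_isAlgebraic`, `Algebra.adjoin_eq_span`).
`orth3`: we may assume `0 ≤ θ`; `t = sqrt θ`. `orth2` with `W = Ab p`; the coordinates of a basis of `K0`
lie in `Cyc p N` for large `N` (`ev_Cyc`), so `c j = ∑ k, c' j k * ψ k` with `c' j k ∈ Cyc p N`, and
`∑ j, c j * z j = ∑ k, (∑ j, c' j k * z j) * ψ k`; `orth1`; `‖c j‖ ≤ ‖c' j k * ψ k‖` for some `k`.
`fin_le_Wn`: each element of `K0 ⊔ Ab p` lies in `K0 ⊔ Cyc p N` for large `N` (directed union; the set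
of such elements is an intermediate field); apply this to a basis of `K1`.
`ind_up3`: copy `ind_up` (S/Disj).
-/

set_option autoImplicit false

namespace Pool.Agent.Work.MP_dd0d16_nt.T

open Filter

variable {p : ℕ} [Fact p.Prime]

theorem span_sup (K0 W : IntermediateField ℚ_[p] (PadicAlgCl p)) {J : Type} [Fintype J]
    (b : J → PadicAlgCl p)
    (hb : ∀ z ∈ K0, ∃ c : J → PadicAlgCl p, (∀ k, c k ∈ W) ∧ z = ∑ k, c k * b k) :
    ∀ z ∈ K0 ⊔ W, ∃ c : J → PadicAlgCl p, (∀ k, c k ∈ W) ∧ z = ∑ k, c k * b k := by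
  intro z hz
  have le2 : K0 ⊔ W ≤ (IntermediateField.adjoin W (K0 : Set (PadicAlgCl p))).restrictScalars
      ℚ_[p] :=
    sup_le (fun z hz => IntermediateField.subset_adjoin W _ hz)
      fun z hz => (IntermediateField.adjoin W (K0 : Set (PadicAlgCl p))).algebraMap_mem ⟨z, hz⟩
  have h1 : z ∈ (IntermediateField.adjoin W (K0 : Set (PadicAlgCl p))).toSubalgebra := le2 hz
  rw [IntermediateField.adjoin_toSubalgebra_of_isAlgebraic fun x _ =>
    (Algebra.IsAlgebraic.isAlgebraic (R := ℚ_[p]) x).tower_top W,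
    ← Subalgebra.mem_toSubmodule, Algebra.adjoin_eq_span] at h1
  have h2 : Submodule.span W (Submonoid.closure (K0 : Set (PadicAlgCl p)) : Set (PadicAlgCl p)) ≤
      Submodule.span W (Set.range b) := by
    refine Submodule.span_le.2 fun x hx => ?_
    have hx' : x ∈ K0 :=
      (Submonoid.closure_le (S := K0.toSubfield.toSubmonoid)).2 (fun _ h => h) hx
    obtain ⟨c, hc, e⟩ := hb x hx'
    exact (Submodule.mem_span_range_iff_exists_fun W).2 ⟨fun k => ⟨c k, hc k⟩, e.symm⟩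
  obtain ⟨c, e⟩ := (Submodule.mem_span_range_iff_exists_fun W).1 (h2 h1)
  exact ⟨fun k => c k, fun k => (c k).2, e.symm⟩

theorem Orth3_basis (K0 : IntermediateField ℚ_[p] (PadicAlgCl p)) [FiniteDimensional ℚ_[p] K0] :
    ∃ (n : ℕ) (e : Fin n → PadicAlgCl p), (∀ i, e i ∈ K0) ∧ ∀ z ∈ K0, ∃ a : Fin n → ℚ_[p],
      z = ∑ i, algebraMap ℚ_[p] (PadicAlgCl p) (a i) * e i := by
  set b := Module.finBasis ℚ_[p] K0
  refine ⟨_, fun i => b i, fun i => (b i).2, fun z hz => ⟨fun i => b.repr ⟨z, hz⟩ i, ?_⟩⟩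
  have := congrArg Subtype.val (b.sum_repr ⟨z, hz⟩)
  rw [AddSubmonoidClass.coe_finsetSum] at this
  refine this.symm.trans (Finset.sum_congr rfl fun i _ => ?_)
  rw [← Algebra.smul_def]
  rfl

theorem orth3 (K0 : IntermediateField ℚ_[p] (PadicAlgCl p)) [FiniteDimensional ℚ_[p] K0] {θ : ℝ}
    (hθ : θ < 1) :
    ∀ᶠ N in atTop, ∀ (J : Type) [Fintype J] (z c : J → PadicAlgCl p), (∀ j, PR (z j)) →
      (∀ j j', j ≠ j' → (z j / z j') ^ p ^ N ≠ 1) → (∀ j, c j ∈ K0 ⊔ Cyc p N) →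
      ∀ j, θ * ‖c j‖ ≤ ‖∑ j, c j * z j‖ := by
  rcases le_total θ 0 with h0 | h0
  · exact Eventually.of_forall fun N J _ z c _ _ _ j =>
      (mul_nonpos_of_nonpos_of_nonneg h0 (norm_nonneg _)).trans (norm_nonneg _)
  have ht : √θ < 1 := by rwa [Real.sqrt_lt' one_pos, one_pow]
  have t0 := Real.sqrt_nonneg θ
  obtain ⟨r, ψ, h1, h2⟩ := orth2 (Ab p) K0 ht
  obtain ⟨n, e, he, he'⟩ := Orth3_basis K0
  choose! a ha ha' using h1
  have ev : ∀ᶠ N in atTop, ∀ i k, a (e i) k ∈ Cyc p N :=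
    eventually_all.2 fun i => eventually_all.2 fun k => ev_Cyc (ha _ (he i) k)
  filter_upwards [ev, orth1 p ht] with N hN h3 J _ z c hz hzz hc j
  have sp := span_sup K0 (Cyc p N) ψ fun x hx => by
    obtain ⟨u, rfl⟩ := he' x hx
    refine ⟨fun k => ∑ i, algebraMap ℚ_[p] (PadicAlgCl p) (u i) * a (e i) k, fun k =>
      sum_mem fun i _ => mul_mem ((Cyc p N).algebraMap_mem _) (hN i k), ?_⟩
    simp only [Finset.sum_mul]
    rw [Finset.sum_comm]
    refine Finset.sum_congr rfl fun i _ => ?_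
    conv_lhs => rw [ha' _ (he i)]
    simp only [Finset.mul_sum, mul_assoc]
  choose d hd hd' using fun j => sp _ (hc j)
  have e1 : ∑ j, c j * z j = ∑ k, (∑ j, d j k * z j) * ψ k := by
    simp only [Finset.sum_mul]
    rw [Finset.sum_comm]
    refine Finset.sum_congr rfl fun i _ => ?_
    rw [hd' i, Finset.sum_mul]
    exact Finset.sum_congr rfl fun k _ => mul_right_comm _ _ _
  have key : ∀ k, θ * ‖d j k * ψ k‖ ≤ ‖∑ j, c j * z j‖ := fun k => by
    have a1 := h2 (fun k => ∑ j, d j k * z j) (fun k => sum_mem fun i _ =>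
      mul_mem (Cyc_le_Ab N (hd i k)) (mem_Ab (hz i).fin)) k
    have a2 := h3 J z (fun i => d i k) hz hzz (fun i => hd i k) j
    rw [e1]
    refine le_trans ?_ a1
    rw [norm_mul, norm_mul]
    calc θ * (‖d j k‖ * ‖ψ k‖) = √θ * ((√θ * ‖d j k‖) * ‖ψ k‖) := by
          rw [← mul_assoc, ← mul_assoc, ← mul_assoc, Real.mul_self_sqrt h0]
      _ ≤ _ := mul_le_mul_of_nonneg_left (mul_le_mul_of_nonneg_right a2 (norm_nonneg _)) t0
  rcases isEmpty_or_nonempty (Fin r) with hr | hr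
  · rw [hd' j, Finset.univ_eq_empty, Finset.sum_empty, norm_zero, mul_zero]
    exact norm_nonneg _
  · obtain ⟨k, -, hk⟩ := IsUltrametricDist.exists_norm_finsetSum_le_of_nonempty
      (Finset.univ_nonempty (α := Fin r)) fun k => d j k * ψ k
    rw [← hd' j] at hk
    exact (mul_le_mul_of_nonneg_left hk h0).trans (key k)

theorem fin_le_Wn (K0 K1 : IntermediateField ℚ_[p] (PadicAlgCl p)) [FiniteDimensional ℚ_[p] K1]
    (h : K1 ≤ K0 ⊔ Ab p) : ∀ᶠ N in atTop, K1 ≤ K0 ⊔ Cyc p N := by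
  let S : IntermediateField ℚ_[p] (PadicAlgCl p) :=
    { carrier := {z | ∀ᶠ N in atTop, z ∈ K0 ⊔ Cyc p N}
      mul_mem' := fun h1 h2 => (h1.and h2).mono fun _ h => mul_mem h.1 h.2
      add_mem' := fun h1 h2 => (h1.and h2).mono fun _ h => add_mem h.1 h.2
      algebraMap_mem' := fun x => Eventually.of_forall fun N => (K0 ⊔ Cyc p N).algebraMap_mem x
      inv_mem' := fun _ h1 => h1.mono fun _ h => inv_mem h }
  have hS : K0 ⊔ Ab p ≤ S :=
    sup_le (fun z hz => Eventually.of_forall fun N => le_sup_left (a := K0) hz)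
      fun z hz => (ev_Cyc hz).mono fun N h => le_sup_right (b := Cyc p N) h
  obtain ⟨n, e, he, he'⟩ := Orth3_basis K1
  filter_upwards [eventually_all.2 fun i => hS (h (he i))] with N hN z hz
  obtain ⟨u, rfl⟩ := he' z hz
  exact sum_mem fun i _ => mul_mem ((K0 ⊔ Cyc p N).algebraMap_mem _) (hN i)

theorem ind_up3 (K0 : IntermediateField ℚ_[p] (PadicAlgCl p)) [FiniteDimensional ℚ_[p] K0]
    (B0 : ℕ) : ∃ C : ℕ, ∀ W K : IntermediateField ℚ_[p] (PadicAlgCl p),
      (∀ (τ : PadicAlgCl p ≃ₐ[ℚ_[p]] PadicAlgCl p), ∀ z ∈ W, τ z ∈ W) →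
      Module.rank ℚ_[p] ↥(K ⊓ W) ≤ B0 → ∀ (σ : Type) (D : ℕ) (y : σ → PadicAlgCl p),
      (∀ s, y s ∈ W ⊔ K0) → Ind K0 (C * D) y → Ind K D y := by
  set N := IntermediateField.normalClosure ℚ_[p] K0 (PadicAlgCl p)
  refine ⟨B0 * Module.finrank ℚ_[p] N, fun W K hW0 hK σ D y hy h => ?_⟩
  have hW : ∀ τ : PadicAlgCl p ≃ₐ[ℚ_[p]] PadicAlgCl p, ∀ z ∈ W ⊔ N, τ z ∈ W ⊔ N := fun τ =>
    (sup_le (fun z hz => le_sup_left (a := W) (hW0 τ z hz)) fun z hz =>
      le_sup_right (b := N) (IntermediateField.normal_iff_forall_map_le'.1 inferInstance τ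
        ⟨z, hz, rfl⟩) : W ⊔ N ≤ (W ⊔ N).comap τ.toAlgHom)
  have r : Module.rank ℚ_[p] ↥(K ⊓ (W ⊔ N)) ≤ (B0 * Module.finrank ℚ_[p] N : ℕ) :=
    (Disj_rank hW0 N).trans (by rw [Nat.cast_mul]; exact mul_le_mul_left hK _)
  have : FiniteDimensional ℚ_[p] ↥(K ⊓ (W ⊔ N)) :=
    Module.rank_lt_aleph0_iff.1 (r.trans_lt Cardinal.natCast_lt_aleph0)
  refine Disj_poly hW (fun s => sup_le_sup_left K0.le_normalClosure _ (hy s)) ?_
  by_contra q
  obtain ⟨Q, q0, q1, q2⟩ := exists_qp (K := K ⊓ (W ⊔ N)) q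
  have inj := (algebraMap ℚ_[p] K0).injective
  refine q0 (MvPolynomial.map_injective _ inj ((h _ ?_ ?_).trans (map_zero _).symm))
  · rw [MvPolynomial.totalDegree, MvPolynomial.support_map_of_injective _ inj]
    exact q1.trans (Nat.mul_le_mul_right _ (Module.finrank_le_of_rank_le r))
  · rw [MvPolynomial.aeval_map_algebraMap, q2]

end Pool.Agent.Work.MP_dd0d16_nt.T
end

-- merged part: Pool.Agent.Work.MP_dd0d16_nt.G.GermB
section
/-!
Orthogonality in the ultrapower.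

PLAN. `GS_mono`: `gm_mem`. `tail_pt`: as `log_tail` (Seq) with `ρ = sqrt p⁻¹ < 1`: the term `n` has norm at
most `(n + 1) * ρ ^ (n + 1)` (`norm_int_ge`), which tends to zero
(`tendsto_self_mul_const_pow_of_lt_one`). `tail_germ`: as the last part of `lf_germ` (S/Germ).
`vG_ineq`: write both sides as values of classes (`vG_le`, `Seq2_pow`, `Seq2_mul`, `norm_p_eq`).
`orth_germ`: choose `0 ≤ θ < 1` with `p⁻¹ ≤ θ ^ q` (continuity at `1`, or `Real.rpow`); `orth3`,
`hM.eventually`; representatives by `GS_rep`.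
`ssi_germ`: `M' n = max (M n) (N n / 2)` tends to infinity and `M' n + c ≤ N n` eventually. Apply
`orth_germ` with `J = P.support`, `z n μ = ∏ d, X n d ^ μ d`; the ratio for `μ ≠ μ'` is the monomial with
exponent `μ - μ'`; if its `p ^ M' n`-th power is one then so is its `p ^ (N n - c)`-th power.
-/

set_option autoImplicit false

namespace Pool.Agent.Work.MP_dd0d16_nt.T

open Filter

variable {p : ℕ} [Fact p.Prime] {ι : Type} {L : PadicAlgCl p → PadicAlgCl p} (U : Ultrafilter ι)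

theorem GS_mono {K K' : ι → IntermediateField ℚ_[p] (PadicAlgCl p)} (h : ∀ᶠ n in U, K n ≤ K' n) :
    GS U K ≤ GS U K' := by
  rintro _ ⟨f, hf, rfl⟩
  exact (gm_mem U).2 (h.mono fun n hn => hn (hf n))

theorem tail_pt (hL : IsLog L) (M : ℕ) : ∀ᶠ T : ℕ in atTop, ∀ s : PadicAlgCl p,
    ‖s‖ ^ 2 ≤ (p : ℝ)⁻¹ → ‖L (1 + s) - ∑ n ∈ Finset.range T, (-1 : PadicAlgCl p) ^ n * s ^ (n + 1) /
      ((n : PadicAlgCl p) + 1)‖ ≤ (p : ℝ)⁻¹ ^ M := by
  have hp : (2 : ℝ) ≤ p := by exact_mod_cast (Fact.out : p.Prime).two_le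
  have hp1 : (p : ℝ)⁻¹ < 1 := inv_lt_one_of_one_lt₀ (by linarith)
  have hp0 : (0 : ℝ) < (p : ℝ)⁻¹ := by positivity
  have hρ0 : 0 ≤ √((p : ℝ)⁻¹) := Real.sqrt_nonneg _
  have hρ1 : √((p : ℝ)⁻¹) < 1 := (Real.sqrt_lt' one_pos).2 (by rwa [one_pow])
  have h0 := (tendsto_self_mul_const_pow_of_lt_one hρ0 hρ1).eventually
    (ge_mem_nhds (pow_pos hp0 M))
  obtain ⟨T0, hT0⟩ := eventually_atTop.1 h0
  refine eventually_atTop.2 ⟨T0, fun T hT s hs => ?_⟩
  have hu : ‖s‖ ≤ √((p : ℝ)⁻¹) := Real.le_sqrt_of_sq_le hs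
  have h1 := ((hasSum_nat_add_iff' T).2 (hL.2.2 s (hu.trans_lt hρ1))).tendsto_sum_nat.norm
  refine le_of_tendsto' h1 fun m => ?_
  refine IsUltrametricDist.norm_sum_le_of_forall_le_of_nonneg (by positivity) fun j _ => ?_
  have h2 := norm_int_ge (p := p) ((j + T + 1 : ℕ) : ℤ) (by positivity)
  have e1 : (((j + T + 1 : ℕ) : ℤ) : PadicAlgCl p) = ((j + T : ℕ) : PadicAlgCl p) + 1 := by
    push_cast
    ring
  rw [e1, Int.cast_natCast, Nat.abs_cast] at h2
  have h3 : 0 < ‖((j + T : ℕ) : PadicAlgCl p) + 1‖ := by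
    refine (norm_nonneg _).lt_of_ne fun h4 => ?_
    rw [← h4] at h2
    linarith
  rw [norm_div, norm_mul, norm_pow, norm_pow, norm_neg, norm_one, one_pow, one_mul, div_le_iff₀ h3]
  have h5 : ‖s‖ ^ (j + T + 1) ≤ √((p : ℝ)⁻¹) ^ (j + T + 1) := pow_le_pow_left₀ (norm_nonneg _) hu _
  have h7 := hT0 (j + T + 1) (by omega)
  calc ‖s‖ ^ (j + T + 1) ≤ √((p : ℝ)⁻¹) ^ (j + T + 1) * 1 := by rwa [mul_one]
    _ ≤ √((p : ℝ)⁻¹) ^ (j + T + 1) *
        (((j + T + 1 : ℕ) : ℝ) * ‖((j + T : ℕ) : PadicAlgCl p) + 1‖) :=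
      mul_le_mul_of_nonneg_left h2 (pow_nonneg hρ0 _)
    _ = (((j + T + 1 : ℕ) : ℝ) * √((p : ℝ)⁻¹) ^ (j + T + 1)) *
        ‖((j + T : ℕ) : PadicAlgCl p) + 1‖ := by ring
    _ ≤ _ := mul_le_mul_of_nonneg_right h7 h3.le

theorem tail_germ (hL : IsLog L) : Tail p (vG U) (LG U L) := by
  intro M
  refine (tail_pt hL M).mono fun T hT s hs => ?_
  obtain ⟨f, rfl⟩ := gm_surj U s
  have e : LG U L (1 + gm U f) - ∑ n ∈ Finset.range T,
      (-1 : GF p U) ^ n * gm U f ^ (n + 1) / ((n : GF p U) + 1) =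
      gm U ((fun i => L ((1 + f) i)) - ∑ n ∈ Finset.range T,
        (-1) ^ n * f ^ (n + 1) * ((n : ι → PadicAlgCl p) + 1)⁻¹) := by
    rw [map_sub, map_sum, ← LG_gm, map_add, map_one]
    refine congrArg _ (Finset.sum_congr rfl fun n _ => ?_)
    rw [map_mul, gm_inv, map_mul, map_pow, map_pow, map_neg, map_one, map_add, map_one,
      map_natCast, div_eq_mul_inv]
  rw [e, vG_le_pow]
  rw [← map_pow, ← map_pow, ← pow_one (vG U (p : GF p U)), vG_le_pow] at hs
  refine hs.mono fun i hi => ?_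
  rw [pow_one, Pi.pow_apply, norm_pow] at hi
  have h1 := hT _ hi
  simp only [Pi.sub_apply, Finset.sum_apply, Pi.mul_apply, Pi.pow_apply, Pi.neg_apply,
    Pi.one_apply, Pi.inv_apply, Pi.add_apply, Pi.natCast_apply]
  simpa only [div_eq_mul_inv] using h1

theorem vG_ineq (f g : ι → PadicAlgCl p) (q : ℕ) :
    vG U (p : GF p U) * vG U (gm U f) ^ q ≤ vG U (gm U g) ^ q ↔
      ∀ᶠ n in U, (p : ℝ)⁻¹ * ‖f n‖ ^ q ≤ ‖g n‖ ^ q := by
  rw [← map_natCast (gm (p := p) U) p, ← map_pow, ← map_pow, ← map_pow, ← map_pow, ← map_mul,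
    ← map_mul, vG_le]
  simp only [Pi.mul_apply, Pi.pow_apply, Pi.natCast_apply, norm_mul, norm_pow, norm_p_eq]

theorem GermB_theta (q : ℕ) : ∃ θ : ℝ, 0 ≤ θ ∧ θ < 1 ∧ (p : ℝ)⁻¹ ≤ θ ^ q := by
  have hp : (2 : ℝ) ≤ p := by exact_mod_cast (Fact.out : p.Prime).two_le
  have hp1 : (p : ℝ)⁻¹ < 1 := inv_lt_one_of_one_lt₀ (by linarith)
  have hp0 : (0 : ℝ) ≤ (p : ℝ)⁻¹ := by positivity
  rcases Nat.eq_zero_or_pos q with rfl | hq
  · exact ⟨0, le_rfl, one_pos, by rw [pow_zero]; exact hp1.le⟩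
  · exact ⟨(p : ℝ)⁻¹ ^ ((q : ℝ)⁻¹), Real.rpow_nonneg hp0 _,
      Real.rpow_lt_one hp0 hp1 (by positivity), (Real.rpow_inv_natCast_pow hp0 hq.ne').ge⟩

theorem orth_germ (K0 : IntermediateField ℚ_[p] (PadicAlgCl p)) [FiniteDimensional ℚ_[p] K0]
    {M : ι → ℕ} (hM : Tendsto M U atTop) {J : Type} [Fintype J] (z : ι → J → PadicAlgCl p)
    (hz : ∀ n j, PR (z n j)) (hz' : ∀ j j', j ≠ j' → ∀ᶠ n in U, (z n j / z n j') ^ p ^ M n ≠ 1)
    (c : J → GF p U) (hc : ∀ j, c j ∈ GS U fun n => K0 ⊔ Cyc p (M n)) (j : J) (q : ℕ) :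
    vG U (p : GF p U) * vG U (c j) ^ q ≤ vG U (∑ j, c j * gm U fun n => z n j) ^ q := by
  obtain ⟨θ, h0, h1, h2⟩ := GermB_theta (p := p) q
  choose f hf e using fun j => GS_rep U (hc j)
  have e1 : ∑ j, c j * gm U (fun n => z n j) = gm U fun n => ∑ j, f j n * z n j := by
    rw [Seq2_sum]
    exact Finset.sum_congr rfl fun j _ => by rw [Seq2_mul, ← e j]
  rw [e1, ← e j, vG_ineq]
  have h3 : ∀ᶠ n in U, ∀ j j', j ≠ j' → (z n j / z n j') ^ p ^ M n ≠ 1 :=
    eventually_all.2 fun j => eventually_all.2 fun j' => by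
      by_cases h : j = j'
      · exact Eventually.of_forall fun n h' => absurd h h'
      · exact (hz' j j' h).mono fun n hn _ => hn
  filter_upwards [hM.eventually (orth3 K0 h1), h3] with n h4 h5
  have h6 := h4 J (z n) (fun j => f j n) (hz n) h5 (fun j => hf j n) j
  calc (p : ℝ)⁻¹ * ‖f j n‖ ^ q ≤ θ ^ q * ‖f j n‖ ^ q :=
        mul_le_mul_of_nonneg_right h2 (by positivity)
    _ = (θ * ‖f j n‖) ^ q := (mul_pow _ _ _).symm
    _ ≤ _ := pow_le_pow_left₀ (by positivity) h6 q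

theorem ssi_germ (K0 : IntermediateField ℚ_[p] (PadicAlgCl p)) [FiniteDimensional ℚ_[p] K0]
    {m : ℕ} {X : ι → Fin m → PadicAlgCl p} {N M : ι → ℕ} (hX : ∀ n d, PR (X n d))
    (hgen : Gen U X N) (hM : ∀ c, ∀ᶠ n in U, M n + c ≤ N n) :
    SSI (vG U) p (GS U fun n => K0 ⊔ Cyc p (M n)) fun d => gm U fun n => X n d := by
  classical
  intro P μ q
  have hN : ∀ c, ∀ᶠ n in U, c ≤ N n := fun c => (hM c).mono fun n hn => by omega
  have hM1 : Tendsto (fun n => max (M n) (N n / 2)) U atTop :=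
    tendsto_atTop.2 fun c => (hN (2 * c)).mono fun n hn => by omega
  have hM2 : ∀ c, ∀ᶠ n in U, max (M n) (N n / 2) ≤ N n - c := fun c =>
    ((hM c).and (hN (2 * c))).mono fun n hn => by omega
  have hle : (GS U fun n => K0 ⊔ Cyc p (M n)) ≤ GS U fun n => K0 ⊔ Cyc p (max (M n) (N n / 2)) :=
    GS_mono U (Eventually.of_forall fun n => sup_le_sup_left (Cyc_mono (le_max_left _ _)) _)
  have key := orth_germ U K0 hM1 (J := ↥(insert μ P.support))
    (fun n ν => ∏ d, X n d ^ ((ν.1 d : ℕ) : ℤ)) (fun n ν => PR.prod_zpow _ (hX n) _)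
    (fun ν ν' hν => by
      obtain ⟨c, hc⟩ := hgen (fun d => (ν.1 d : ℤ) - ν'.1 d) fun h => hν (Subtype.ext
        (Finsupp.ext fun d => by have := congrFun h d; simp only [Pi.zero_apply] at this; omega))
      filter_upwards [hc, hM2 c] with n h1 h2 h3
      refine h1 ?_
      obtain ⟨k, hk⟩ := Nat.exists_eq_add_of_le h2
      have e : ∏ d, X n d ^ ((ν.1 d : ℤ) - ν'.1 d) =
          (∏ d, X n d ^ ((ν.1 d : ℕ) : ℤ)) / ∏ d, X n d ^ ((ν'.1 d : ℕ) : ℤ) := by
        rw [← Finset.prod_div_distrib]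
        exact Finset.prod_congr rfl fun d _ => zpow_sub₀ (fin_ne (hX n d).fin) _ _
      rw [e, hk, pow_add, pow_mul, h3, one_pow])
    (fun ν => (P.coeff ν.1).1) (fun ν => hle (P.coeff ν.1).2)
    ⟨μ, Finset.mem_insert_self _ _⟩ q
  have e : MvPolynomial.aeval (fun d => gm U fun n => X n d) P =
      ∑ ν : ↥(insert μ P.support), (P.coeff ν.1).1 *
        gm U fun n => ∏ d, X n d ^ ((ν.1 d : ℕ) : ℤ) := by
    rw [Finset.sum_coe_sort (insert μ P.support) fun ν => (P.coeff ν).1 *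
        gm U fun n => ∏ d, X n d ^ ((ν d : ℕ) : ℤ), MvPolynomial.aeval_def,
      MvPolynomial.eval₂_eq']
    simp only [zpow_natCast, Seq2_prod, Seq2_pow]
    refine Finset.sum_subset (Finset.subset_insert _ _) fun ν _ hν => ?_
    rw [MvPolynomial.notMem_support_iff.1 hν, map_zero, zero_mul]
  rw [e]
  exact key

end Pool.Agent.Work.MP_dd0d16_nt.T
end
end
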