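import Pool.Agent.Work.MP_dd0d16_nt.T.ThmD
import Pool.Agent.Work.MP_dd0d16_nt.G.GermB
import Pool.Agent.Work.MP_dd0d16_nt.G.AxT1
import Pool.Agent.Work.MP_dd0d16_nt.G.Cyc
import Pool.Agent.Work.MP_dd0d16_nt.R.Top2

-- merged part: Pool.Agent.Work.MP_dd0d16_nt.G.Tower
section
-- merged part: Pool.Agent.Work.MP_dd0d16_nt.G.TaRes
section
/-!
The tower argument in the residue field.

PLAN. `ta_res`: fix `n ≥ n0`. `a i n s = a i (n + 1) s ^ p` lies in `K n`; `b = ∑ s, a i n s` is the `p`-th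
power of `b' = ∑ s, a i (n + 1) s` (`sum_pow_char`), so all these sums are nonzero. Over `K n` put
`A i s = C w * X ^ lam i s`, `φ i = C b⁻¹ * aeval (A i) Φ`,
`R = ∑ i, C (ρ i) * (φ i + ε * φ i ^ p) - C z`; `der_zero`. We have `ζ * A'(ζ) = lam * a`,
`pderiv s Φ = (∑ X) ^ (p - 1) - X s ^ (p - 1)` (apply `pderiv s` to `hΦ` and cancel `p`), chain rule
(induction on the polynomial, or `MvPolynomial.derivation_eq_of_forall_mem_vars`, `aeval_sum_elim_pderiv_inl`),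
so `ζ * φ'(ζ) = h - h ^ p` with `h i n = (∑ s, lam i s * a i n s) / ∑ s, a i n s` taken at `n + 1`, and
`h i (n + 1) ^ p = h i n`. Raise `∑ i, ρ i * (h - h ^ p) = 0` to the power `p ^ (n + 1)`, apply `moore`
with `H i = h i 0 - h i 0 ^ p`; `y = ∑ i, c i * h i 0` has `y ^ p = y`; `prime_field` for `-y`.
-/

set_option autoImplicit false

namespace Pool.Agent.Work.MP_dd0d16_nt.T

variable {k : Type} [Field k] {p : ℕ} [Fact p.Prime] [CharP k p]

theorem TaRes_chain {S A : Type} [Fintype S] [CommRing A] (f : S → Polynomial A)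
    (Φ : MvPolynomial S ℤ) : Polynomial.derivative (MvPolynomial.aeval f Φ) =
      ∑ s, MvPolynomial.aeval f (MvPolynomial.pderiv s Φ) * Polynomial.derivative (f s) := by
  classical
  induction Φ using MvPolynomial.induction_on with
  | C r => simp
  | add P Q hP hQ => simp only [map_add, hP, hQ, add_mul, Finset.sum_add_distrib]
  | mul_X P t hP =>
    simp only [map_mul, MvPolynomial.aeval_X, Polynomial.derivative_mul, hP,
      MvPolynomial.pderiv_mul, map_add, add_mul, Finset.sum_add_distrib, Finset.sum_mul]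
    refine congrArg₂ (· + ·) (Finset.sum_congr rfl fun s _ => by ring) ?_
    · rw [Finset.sum_eq_single t]
      · simp
      · intro s _ hs
        simp [MvPolynomial.pderiv_X_of_ne hs.symm]
      · simp

theorem TaRes_ev {S : Type} (K : Subfield k) (ζ : k) (f : S → Polynomial K)
    (Φ : MvPolynomial S ℤ) : Polynomial.aeval ζ (MvPolynomial.aeval f Φ) =
      MvPolynomial.aeval (fun s => Polynomial.aeval ζ (f s)) Φ := by
  induction Φ using MvPolynomial.induction_on with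
  | C r => simp
  | add P Q hP hQ => simp only [map_add, hP, hQ]
  | mul_X P t hP => simp only [map_mul, MvPolynomial.aeval_X, hP]

theorem TaRes_pd {S : Type} [Fintype S] {p : ℕ} (hp : p ≠ 0) {Φ : MvPolynomial S ℤ}
    (hΦ : (p : MvPolynomial S ℤ) * Φ = (∑ s, MvPolynomial.X s) ^ p - ∑ s, MvPolynomial.X s ^ p)
    (s : S) : MvPolynomial.pderiv s Φ =
      (∑ t, MvPolynomial.X t) ^ (p - 1) - MvPolynomial.X s ^ (p - 1) := by
  classical
  have h := congrArg (MvPolynomial.pderiv s) hΦ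
  have h1 : MvPolynomial.pderiv s (∑ t, (MvPolynomial.X t : MvPolynomial S ℤ)) = 1 := by
    rw [map_sum, Finset.sum_eq_single s]
    · simp
    · intro t _ ht
      exact MvPolynomial.pderiv_X_of_ne ht
    · simp
  have h2 : MvPolynomial.pderiv s (∑ t, (MvPolynomial.X t : MvPolynomial S ℤ) ^ p) =
      (p : MvPolynomial S ℤ) * MvPolynomial.X s ^ (p - 1) := by
    rw [map_sum, Finset.sum_eq_single s]
    · rw [MvPolynomial.pderiv_pow]
      simp
    · intro t _ ht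
      rw [MvPolynomial.pderiv_pow, MvPolynomial.pderiv_X_of_ne ht, mul_zero]
    · simp
  rw [map_sub, h2, MvPolynomial.pderiv_pow, h1, MvPolynomial.pderiv_mul,
    Derivation.map_natCast] at h
  have h3 : (p : MvPolynomial S ℤ) ≠ 0 := Nat.cast_ne_zero.2 hp
  apply mul_left_cancel₀ h3
  linear_combination h

/-- one level of the tower -/
theorem TaRes_step {Q S : Type} [Fintype Q] [Fintype S] (K : Subfield k) (ζ : k)
    (hζ : ζ ^ p ∈ K)
    (hli : ∀ c : Fin p → k, (∀ j, c j ∈ K) → ∑ j, c j * ζ ^ (j : ℕ) = 0 → c = 0)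
    (a : Q → S → k) (lam : Q → S → ℕ) (hw : ∀ i s, ∃ w ∈ K, a i s = w * ζ ^ lam i s)
    (hb : ∀ i, ∑ s, a i s ≠ 0) (Φ : MvPolynomial S ℤ)
    (hΦ : (p : MvPolynomial S ℤ) * Φ = (∑ s, MvPolynomial.X s) ^ p - ∑ s, MvPolynomial.X s ^ p)
    (φ : Q → k) (hφ : ∀ i, φ i * (∑ s, a i s) ^ p = MvPolynomial.aeval (a i) Φ)
    (ε : ℤ) (ρ : Q → k) (h1 : ∀ i, ρ i ∈ K) (h2 : ∑ i, ρ i * (φ i + ε * φ i ^ p) ∈ K) :
    ∑ i, ρ i * ((∑ s, lam i s * a i s) / ∑ s, a i s -
      (∑ s, lam i s * a i s ^ p) / (∑ s, a i s) ^ p) = 0 := by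
  have hp : p ≠ 0 := (Fact.out : p.Prime).ne_zero
  choose w hw1 hw2 using hw
  have hK : ∀ i, (∑ s, a i s) ^ p ∈ K := fun i => by
    rw [sum_pow_char]
    refine sum_mem fun s _ => ?_
    rw [hw2, mul_pow, ← pow_mul, mul_comm (lam i s), pow_mul]
    exact mul_mem (pow_mem (hw1 i s) _) (pow_mem hζ _)
  let A : Q → S → Polynomial K := fun i s => Polynomial.C ⟨w i s, hw1 i s⟩ * Polynomial.X ^ lam i s
  let P : Q → Polynomial K := fun i =>
    Polynomial.C (⟨_, hK i⟩ : K)⁻¹ * MvPolynomial.aeval (A i) Φ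
  have hA : ∀ i, (fun s => Polynomial.aeval ζ (A i s)) = a i := fun i => by
    funext s
    simp only [A, hw2, map_mul, map_pow, Polynomial.aeval_C, Polynomial.aeval_X]
    rfl
  have hA' : ∀ i s, ζ * Polynomial.aeval ζ (Polynomial.derivative (A i s)) = lam i s * a i s := by
    intro i s
    rw [hw2]
    simp only [A, Polynomial.derivative_C_mul, Polynomial.derivative_X_pow, map_mul, map_pow,
      Polynomial.aeval_C, Polynomial.aeval_X, map_natCast]
    change ζ * (w i s * _) = _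
    rcases Nat.eq_zero_or_pos (lam i s) with e | e
    · simp [e]
    · obtain ⟨l, hl⟩ := Nat.exists_eq_add_of_lt e
      rw [hl, Nat.add_sub_cancel]
      ring
  have hP : ∀ i, Polynomial.aeval ζ (P i) = φ i := fun i => by
    simp only [P, map_mul, Polynomial.aeval_C, TaRes_ev, hA, ← hφ, map_inv₀]
    change ((∑ s, a i s) ^ p)⁻¹ * _ = _
    rw [mul_comm (φ i), inv_mul_cancel_left₀ (pow_ne_zero p (hb i))]
  have hP' : ∀ i, ζ * Polynomial.aeval ζ (Polynomial.derivative (P i)) =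
      (∑ s, lam i s * a i s) / ∑ s, a i s -
        (∑ s, lam i s * a i s ^ p) / (∑ s, a i s) ^ p := fun i => by
    simp only [P, Polynomial.derivative_C_mul, TaRes_chain, map_mul, map_sum, Polynomial.aeval_C,
      map_inv₀, TaRes_pd hp hΦ, map_sub, map_pow, MvPolynomial.aeval_X]
    change ζ * (((∑ s, a i s) ^ p)⁻¹ * _) = _
    have e1 : ∀ s, Polynomial.aeval ζ (A i s) = a i s := fun s => congrFun (hA i) s
    simp only [e1]
    have e2 : ζ * ∑ s, ((∑ t, a i t) ^ (p - 1) - a i s ^ (p - 1)) *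
        Polynomial.aeval ζ (Polynomial.derivative (A i s)) =
        (∑ t, a i t) ^ (p - 1) * (∑ s, lam i s * a i s) - ∑ s, lam i s * a i s ^ p := by
      rw [Finset.mul_sum, Finset.mul_sum, ← Finset.sum_sub_distrib]
      refine Finset.sum_congr rfl fun s _ => ?_
      rw [mul_left_comm, hA', ← pow_sub_one_mul hp (a i s)]
      ring
    rw [mul_left_comm, e2, ← pow_sub_one_mul hp (∑ s, a i s)]
    have e3 := hb i
    have e4 := pow_ne_zero (p - 1) (hb i)
    field_simp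
  have h3 := der_zero K hζ hli (∑ i, Polynomial.C (⟨ρ i, h1 i⟩ : K) *
    (P i + (ε : Polynomial K) * P i ^ p) - Polynomial.C ⟨_, h2⟩) (by
      simp only [map_sub, map_sum, map_mul, map_add, map_pow, Polynomial.aeval_C, hP, map_intCast]
      exact sub_self _)
  have h4 : ∀ i, Polynomial.aeval ζ (Polynomial.derivative
      (Polynomial.C (⟨ρ i, h1 i⟩ : K) * (P i + (ε : Polynomial K) * P i ^ p))) =
      ρ i * Polynomial.aeval ζ (Polynomial.derivative (P i)) := fun i => by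
    simp only [Polynomial.derivative_C_mul, map_add, Polynomial.derivative_intCast_mul,
      Polynomial.derivative_pow, map_mul, Polynomial.aeval_C, map_zero, CharP.cast_eq_zero,
      zero_mul, mul_zero, add_zero]
    rfl
  simp only [map_sub, map_sum, h4, Polynomial.derivative_C, sub_zero] at h3
  rw [← mul_zero ζ, ← h3, Finset.mul_sum]
  exact Finset.sum_congr rfl fun i _ => by rw [← hP', mul_left_comm]

theorem ta_res {Q S : Type} [Fintype Q] [Fintype S] (K : ℕ → Subfield k) (ζ : ℕ → k)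
    (hζ : ∀ n, ζ n ^ p ∈ K n)
    (hli : ∀ n (c : Fin p → k), (∀ j, c j ∈ K n) → ∑ j, c j * ζ n ^ (j : ℕ) = 0 → c = 0)
    (a : Q → ℕ → S → k) (lam : Q → S → ℕ) (ha : ∀ i n s, a i (n + 1) s ^ p = a i n s)
    (hw : ∀ i n s, ∃ w ∈ K n, a i (n + 1) s = w * ζ n ^ lam i s) (hb : ∀ i, ∑ s, a i 0 s ≠ 0)
    (Φ : MvPolynomial S ℤ)
    (hΦ : (p : MvPolynomial S ℤ) * Φ = (∑ s, MvPolynomial.X s) ^ p - ∑ s, MvPolynomial.X s ^ p)
    (φ : Q → ℕ → k) (hφ : ∀ i n, φ i n * ∑ s, a i n s = MvPolynomial.aeval (a i (n + 1)) Φ)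
    (ε : ℤ) (ρ : Q → k) (hρ : ρ ≠ 0) (n0 : ℕ)
    (h : ∀ n, n0 ≤ n → (∀ i, ρ i ∈ K n) ∧ ∑ i, ρ i * (φ i n + ε * φ i n ^ p) ∈ K n) :
    ∃ c0 < p, ∃ c : Q → ℕ, (∀ i, c i < p) ∧ c ≠ 0 ∧
      ((c0 : ℕ) : k) + ∑ i, c i * ((∑ s, lam i s * a i 0 s) / ∑ s, a i 0 s) = 0 := by
  have hbp : ∀ i n, (∑ s, a i (n + 1) s) ^ p = ∑ s, a i n s := fun i n => by
    simp only [sum_pow_char, ha]
  have hp : p ≠ 0 := (Fact.out : p.Prime).ne_zero
  have hb' : ∀ i n, ∑ s, a i n s ≠ 0 := fun i n => by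
    induction n with
    | zero => exact hb i
    | succ n ih => exact fun e => ih (by rw [← hbp, e, zero_pow hp])
  have hnat : ∀ c : ℕ, (c : k) ^ p = c := fun c => map_natCast (frobenius k p) c
  obtain ⟨g, hg⟩ : ∃ g : Q → ℕ → k, ∀ i n, g i n = (∑ s, lam i s * a i n s) / ∑ s, a i n s :=
    ⟨_, fun _ _ => rfl⟩
  have hgp : ∀ i n, g i (n + 1) ^ p = g i n := fun i n => by
    simp only [hg, div_pow, sum_pow_char, mul_pow, hnat, ha]
  have hgn : ∀ i n, g i n ^ p ^ n = g i 0 := fun i n => by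
    induction n with
    | zero => simp
    | succ n ih => rw [pow_succ', pow_mul, hgp, ih]
  obtain ⟨c, c1, c2, c3⟩ := moore (p := p) ρ (fun i => g i 0 - g i 0 ^ p) hρ (n0 + 1) fun m hm => by
    obtain ⟨n, rfl⟩ : ∃ n, m = n + 1 := ⟨m - 1, by omega⟩
    obtain ⟨h1, h2⟩ := h n (by omega)
    have h3 := TaRes_step (K n) (ζ n) (hζ n) (hli n) (fun i => a i (n + 1)) lam
      (fun i s => hw i n s) (fun i => hb' i (n + 1)) Φ hΦ (fun i => φ i n)
      (fun i => by rw [hbp, hφ]) ε ρ h1 h2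
    simp only [hbp, ha, ← hg] at h3
    have h4 := congrArg (· ^ p ^ (n + 1)) h3
    simp only [sum_pow_char_pow, mul_pow, sub_pow_char_pow, hgn,
      zero_pow (pow_ne_zero _ hp)] at h4
    simpa only [pow_succ p n, pow_mul, hgn] using h4
  have hy : (-∑ i, (c i : k) * g i 0) ^ p = -∑ i, (c i : k) * g i 0 := by
    have e : (-∑ i, (c i : k) * g i 0) ^ p = -(∑ i, (c i : k) * g i 0) ^ p :=
      map_neg (frobenius k p) _
    simp only [mul_sub, Finset.sum_sub_distrib] at c3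
    rw [e, sum_pow_char, sub_eq_zero.1 c3]
    simp only [mul_pow, hnat]
  obtain ⟨c0, d1, d2⟩ := prime_field hy
  refine ⟨c0, d1, c, c1, c2, ?_⟩
  simp only [← hg]
  rw [← d2, neg_add_cancel]

end Pool.Agent.Work.MP_dd0d16_nt.T
end

-- merged part: Pool.Agent.Work.MP_dd0d16_nt.G.Ta
section
/-!
Independence of logarithms along a tower of purely inseparable residue extensions.

PLAN. `b i n = ∑ s, a i n s ∈ F n` (each `a i n s = a i (n + 1) s ^ p = w ^ p * (ζ n ^ p) ^ lam`);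
`b i (n + 1) ^ p = b i n + p * Φ (a i (n + 1))` (`exists_Phi`, apply `aeval` to the identity; the
value of `Φ` is integral), so no `b i n` is `Sm` (induction). `T i n = L (u i n / b i n)`;
`u / b = 1 + p * y` with `y = ((u - b) / p) * b⁻¹` in `Bd`, so `T i n / p` is `Bd` (`log_bd`),
`v (T i n) ≤ 1`, `T i n` is `Sm`; `1 + p * y ≠ 0` (`Bd.p_mul`). With `φ i n = Φ (a i (n + 1)) / b i n`:
`T i n = p * T i (n + 1) + L (1 + p * φ i n)`, `1 + p * φ i n = b i (n + 1) ^ p / b i n ∈ F (n + 1)`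
(`LF.mul`, `LF.prod_zpow`, `LF.mem`), so `T i 0 - p ^ n * T i n ∈ F n`. If `SI` fails take `g, i0, n0`
(`ta_lin`), `k, A, res` (`exists_res0`), `K n` the subfield attached to `F n`, `ε` (`log_res`), and apply
`ta_res` to the residues (`w` has value at most one because `v (ζ n) = 1`; independence of the powers
of `res (ζ n)` from `Ort` and `Sm.of_orth`; `res` commutes with `aeval` of an integer polynomial:
`map_aeval`, `MvPolynomial.comp_aeval_apply` or induction). The conclusion contradicts `hind`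
(`(b i 0)⁻¹ ∈ A` by `Bd.inv_of_not_sm`).
-/

set_option autoImplicit false

namespace Pool.Agent.Work.MP_dd0d16_nt.T

open MvPolynomial

variable {Ω Γ : Type} [Field Ω] [CharZero Ω] [LinearOrderedCommGroupWithZero Γ]
  {v : Valuation Ω Γ} {L : Ω → Ω} {p : ℕ} [Fact p.Prime]

theorem Ta_aeval {R R' S : Type} [CommRing R] [CommRing R'] (f : R →+* R') (x : S → R)
    (Φ : MvPolynomial S ℤ) : f (aeval x Φ) = aeval (fun s => f (x s)) Φ :=
  comp_aeval_apply x f.toIntAlgHom Φ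

omit [CharZero Ω] [Fact p.Prime] in
theorem Ta_ne (h1 : v p < 1) {y : Ω} (hy : Bd v p y) : 1 + p * y ≠ 0 := fun e => by
  have k := hy.p_mul
  rw [eq_neg_of_add_eq_zero_right e, v.map_neg, v.map_one, one_pow] at k
  exact k.not_gt h1

theorem Ta_sm (h0 : v p ≠ 0) (h1 : v p < 1) (hT : Tail p v L) {y : Ω} (hy : Bd v p y) :
    Sm v p (L (1 + p * y)) := by
  have hp : (p : Ω) ≠ 0 := fun e => h0 (by rw [e, v.map_zero])
  have k := Sm.mul_bd h0 (Sm.of_le le_rfl) (log_bd h0 h1 hT hy)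
  rwa [mul_div_cancel₀ _ hp] at k

theorem ta (F : ℕ → Subfield Ω) (h : ∀ n, LF p v L (F n)) (hF : Monotone F) (hT : Tail p v L)
    (ζ : ℕ → Ω) (hζ : ∀ n, v (ζ n) = 1 ∧ ζ n ^ p ∈ F n ∧ Ort v p (F n) (ζ n)) {Q S : Type}
    [Fintype Q] [Fintype S] (a : Q → ℕ → S → Ω) (u : Q → ℕ → Ω) (lam : Q → S → ℕ)
    (ha : ∀ i n s, v (a i n s) ≤ 1 ∧ a i (n + 1) s ^ p = a i n s ∧
      ∃ w ∈ F n, a i (n + 1) s = w * ζ n ^ lam i s)
    (hu : ∀ i n, u i (n + 1) ^ p = u i n ∧ v (u i n - ∑ s, a i n s) ≤ v p)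
    (hb : ∀ i, ¬ Sm v p (∑ s, a i 0 s))
    (hind : ∀ c0 < p, ∀ c : Q → ℕ, (∀ i, c i < p) → c ≠ 0 →
      ¬ Sm v p ((c0 : ℕ) + ∑ i, c i * ((∑ s, lam i s * a i 0 s) / ∑ s, a i 0 s))) :
    SI v (F 0) (v p) (fun i => L (u i 0 / ∑ s, a i 0 s)) ∧
      ∀ i, v (L (u i 0 / ∑ s, a i 0 s)) ≤ 1 := by
  have h0 := (h 0).p0
  have h1 := (h 0).p1
  have hp : (p : Ω) ≠ 0 := fun e => h0 (by rw [e, v.map_zero])
  have pp : p.Prime := Fact.out
  obtain ⟨Φ, hΦ⟩ := exists_Phi p S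
  have bF : ∀ i n, ∑ s, a i n s ∈ F n := fun i n => sum_mem fun s _ => by
    obtain ⟨-, k, w, k1, k2⟩ := ha i n s
    rw [← k, k2, mul_pow, ← pow_mul, mul_comm (lam i s), pow_mul]
    exact mul_mem (pow_mem k1 _) (pow_mem (hζ n).2.1 _)
  have vΦ : ∀ i n, v (aeval (a i n) Φ) ≤ 1 := fun i n => by
    have k := Ta_aeval v.integer.subtype (fun s => ⟨a i n s, (ha i n s).1⟩) Φ
    exact (congrArg v k).symm.trans_le (aeval _ Φ : v.integer).2
  have eΦ : ∀ i n, (∑ s, a i (n + 1) s) ^ p = ∑ s, a i n s + p * aeval (a i (n + 1)) Φ :=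
    fun i n => by
      have k := congrArg (aeval (a i (n + 1))) hΦ
      simp only [map_mul, map_natCast, map_sub, map_pow, map_sum, aeval_X, (ha i n _).2.1] at k
      rw [k, add_sub_cancel]
  have nb : ∀ i n, ¬ Sm v p (∑ s, a i n s) := fun i n => by
    induction n with
    | zero => exact hb i
    | succ n ih =>
      refine fun k => ih ?_
      have k1 := Sm.mul_bd h0 k ((k.bd h1).pow h1 (p - 1))
      rw [mul_pow_sub_one pp.ne_zero] at k1
      rw [← sub_eq_iff_eq_add.2 (eΦ i n)]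
      refine k1.sub (Sm.of_le ?_)
      rw [v.map_mul]
      exact mul_le_of_le_one_right' (vΦ i _)
  have b0 := fun i n => not_sm_ne (nb i n)
  have hy : ∀ i n, ∃ y, Bd v p y ∧ u i n / ∑ s, a i n s = 1 + p * y := fun i n => by
    refine ⟨(u i n - ∑ s, a i n s) / p * (∑ s, a i n s)⁻¹,
      (Bd.of_le h1 ?_).mul (Bd.inv_of_not_sm (nb i n)), ?_⟩
    · rw [v.map_div]
      exact div_le_one_of_le₀ (hu i n).2 zero_le
    · have := b0 i n
      field_simp
      ring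
  obtain ⟨T, eT⟩ : ∃ T : Q → ℕ → Ω, ∀ i n, T i n = L (u i n / ∑ s, a i n s) := ⟨_, fun _ _ => rfl⟩
  obtain ⟨φ, eφ⟩ : ∃ φ : Q → ℕ → Ω, ∀ i n, φ i n = aeval (a i (n + 1)) Φ * (∑ s, a i n s)⁻¹ :=
    ⟨_, fun _ _ => rfl⟩
  have sT : ∀ i n, Sm v p (T i n) := fun i n => by
    obtain ⟨y, k1, k2⟩ := hy i n
    rw [eT, k2]
    exact Ta_sm h0 h1 hT k1
  have bφ : ∀ i n, Bd v p (φ i n) := fun i n =>
    eφ i n ▸ (Bd.of_le h1 (vΦ i _)).mul (Bd.inv_of_not_sm (nb i n))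
  have e1 : ∀ i n, 1 + p * φ i n = (∑ s, a i (n + 1) s) ^ p / ∑ s, a i n s := fun i n => by
    have := b0 i n
    rw [eφ, eΦ]
    field_simp
  have e2 : ∀ i n, T i n = p * T i (n + 1) + L (1 + p * φ i n) := fun i n => by
    obtain ⟨y, k1, k2⟩ := hy i (n + 1)
    have k3 : u i (n + 1) / ∑ s, a i (n + 1) s ≠ 0 := k2 ▸ Ta_ne h1 k1
    have k4 := (h 0).prod_zpow (Finset.univ : Finset Unit) _ (fun _ => k3) fun _ => (p : ℤ)
    simp only [Finset.univ_unique, Finset.prod_singleton, Finset.sum_singleton, zpow_natCast,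
      Int.cast_natCast] at k4
    rw [eT, eT, ← k4, ← (h 0).mul _ _ (pow_ne_zero _ k3) (Ta_ne h1 (bφ i n)), e1, div_pow,
      (hu i n).1, div_mul_div_cancel₀ (pow_ne_zero _ (b0 i _))]
  have hH : ∀ i n, T i 0 - p ^ n * T i n ∈ F n := fun i n => by
    induction n with
    | zero => simp
    | succ n ih =>
      have k : L (1 + p * φ i n) ∈ F (n + 1) := (h _).mem _
        (e1 i n ▸ div_mem (pow_mem (bF i _) _) (hF n.le_succ (bF i n))) (Ta_ne h1 (bφ i n))
      have k2 := add_mem (hF n.le_succ ih) (mul_mem (pow_mem (natCast_mem _ p) n) k)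
      convert k2 using 1
      rw [e2 i n]
      ring
  simp only [← eT]
  refine ⟨by_contra fun hn => ?_, fun i => ((sT i 0).lt h1).le⟩
  obtain ⟨g, i0, n0, g1, g2, g3⟩ := ta_lin F (h 0) hF T (fun i n => ((sT i n).lt h1).le) hH hn
  obtain ⟨k, _, _, A, res, hA, hr, hK⟩ := exists_res0 h0 h1
  choose K hK using fun n => hK (F n)
  obtain ⟨ε, hε⟩ := log_res h0 h1 hT
  have mA : ∀ {z}, v z ≤ 1 → z ∈ A := fun k => (hA _).2 (Bd.of_le h1 k)
  let a' : Q → ℕ → S → A := fun i n s => ⟨a i n s, mA (ha i n s).1⟩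
  let ζ' : ℕ → A := fun n => ⟨ζ n, mA (hζ n).1.le⟩
  let g' : Q → A := fun i => ⟨g i, mA (g2 i)⟩
  let φ' : Q → ℕ → A := fun i n => ⟨φ i n, (hA _).2 (bφ i n)⟩
  let β : Q → A := fun i => ⟨(∑ s, a i 0 s)⁻¹, (hA _).2 (Bd.inv_of_not_sm (hb i))⟩
  have eβ : ∀ i, res (β i) = (∑ s, res (a' i 0 s))⁻¹ := fun i => by
    refine eq_inv_of_mul_eq_one_left ?_
    rw [← map_sum, ← map_mul, ← map_one res]
    exact congrArg res (Subtype.ext (by simpa [β, a'] using inv_mul_cancel₀ (b0 i 0)))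
  obtain ⟨c0, c1, c, c2, c3, c4⟩ := ta_res K (fun n => res (ζ' n))
    (fun n => (hK n _).2 ⟨ζ' n ^ p, (hζ n).2.1, map_pow _ _ _⟩)
    (fun n c k1 k2 => by
      choose x x1 x2 using fun j => (hK n _).1 (k1 j)
      have k3 : Sm v p (∑ j, (x j : Ω) * ζ n ^ (j : ℕ)) := by
        have k4 := (hr (∑ j, x j * ζ' n ^ (j : ℕ))).1 (by simpa [x2] using k2)
        simpa [ζ'] using k4
      funext j
      exact (x2 j).symm.trans ((hr _).2 (Sm.of_orth h0 ((hζ n).2.2 _ x1 j) k3)))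
    (fun i n s => res (a' i n s)) lam
    (fun i n s => by rw [← map_pow]; exact congrArg res (Subtype.ext (ha i n s).2.1))
    (fun i n s => by
      obtain ⟨w, k1, k2⟩ := (ha i n s).2.2
      have k3 : v w ≤ 1 := by simpa [k2, (hζ n).1] using (ha i (n + 1) s).1
      refine ⟨_, (hK n _).2 ⟨⟨w, mA k3⟩, k1, rfl⟩, ?_⟩
      rw [← map_pow, ← map_mul]
      exact congrArg res (Subtype.ext k2))
    (fun i k1 => hb i (by simpa [a'] using (hr (∑ s, a' i 0 s)).1 (by rwa [map_sum])))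
    Φ hΦ (fun i n => res (φ' i n))
    (fun i n => by
      rw [← map_sum, ← map_mul, ← Ta_aeval]
      refine congrArg res (Subtype.ext ?_)
      refine Eq.trans ?_ (Ta_aeval A.subtype _ Φ).symm
      simpa [φ', a', eφ] using inv_mul_cancel_right₀ (b0 i n) _)
    ε (fun i => res (g' i))
    (fun k1 => by
      have k2 : res (g' i0) = 0 := congrFun k1 i0
      rw [show g' i0 = 1 from Subtype.ext g1, map_one] at k2
      exact one_ne_zero k2)
    n0 (fun n hn => by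
      obtain ⟨k1, z, z1, z2⟩ := g3 n hn
      refine ⟨fun i => (hK n _).2 ⟨g' i, k1 i, rfl⟩, ?_⟩
      obtain ⟨x, hx⟩ : ∃ x : A, x = ∑ i, g' i * (φ' i n + ε * φ' i n ^ p) := ⟨_, rfl⟩
      have k2 : Sm v p (z - x) := by
        have k3 := (Sm.of_le z2).add (Sm.sum Finset.univ fun i _ => Sm.mul_bd h0
          ((sT i (n + 1)).add (hε _ (bφ i n))) (Bd.of_le h1 (g2 i)))
        convert k3 using 1
        simp only [hx, g', φ']
        push_cast
        rw [sub_add, ← Finset.sum_sub_distrib]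
        refine congrArg _ (Finset.sum_congr rfl fun i _ => ?_)
        rw [e2 i n]
        field_simp
        ring
      have k4 : z - x ∈ A := (hA _).2 (k2.bd h1)
      refine (hK n _).2 ⟨⟨_, k4⟩ + x, by simpa using z1, ?_⟩
      rw [map_add, (hr ⟨_, k4⟩).2 k2, zero_add, hx]
      simp)
  refine hind c0 c1 c c2 c3 ?_
  have k := (hr ((c0 : ℕ) + ∑ i, c i * ((∑ s, lam i s * a' i 0 s) * β i))).1 (by
    simpa [eβ, div_eq_mul_inv] using c4)
  simpa [a', β, div_eq_mul_inv] using k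

end Pool.Agent.Work.MP_dd0d16_nt.T
end

-- merged part: Pool.Agent.Work.MP_dd0d16_nt.G.StepB1
section
/-!
The tower attached to iterated Frobenius maps.

PLAN. `P i = ∑ s, a i s`. Apply `ta` to `a' i n s = Fr (n + tt i) (a i s)`, `u i n = Fr (n + tt i) (P i)`
(`Frl.sum`; `n + 1 + tt i = (n + tt i) + 1`). `Fr n z ^ p ^ n = Fr 0 z` (more generally
`Fr (n + l) z ^ p ^ l = Fr n z`), so `Fr n z` is not `Sm` when `Fr 0 z` is not (if `x` is `Sm` then so
is `x ^ p ^ n`: `Sm.mul_bd`, `Sm.bd`, `Bd.pow`); `b i = ∑ s, a' i 0 s` is not `Sm`. For `hind`: with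
`σ i = t - tt i`, `Fr t (z ^ p ^ σ i) = Fr (tt i) z`, so `Fr t (zc ..)` differs from
`c0 * ∏ j, b j + ∑ i, c i * (d i * ∏ j ∈ univ.erase i, b j)` by an element of value at most `v p`
(`Frl.add`, `Frl.sum`, `Frl.nat`; it is convenient to work in the quotient of `v.integer` by the ideal
of elements of value at most `v p`, or with the relation `v (x - y) ≤ v p` on integral elements, which
is compatible with sums and products); this is `(∏ j, b j) * (c0 + ∑ i, c i * (d i / b i))`.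
`T i = L (u i 0 / b i)`, `b i ∈ F 0`, `p ^ tt i * L (u i 0) = L (Fr 0 (P i)) = ϖ * L (P i)`.
With `u' = Fi (P i)`, `b' = ∑ s, Fi (a i s) ∈ E'` (not `Sm`), `u' / b' = 1 + p * y` with `y` in `Bd`, so
`v (L (u' / b')) ≤ 1` (`log_bd`, `Bd.p_mul`); `t' i = ϖ' * L b' / p ^ tt i - L (b i)` and
`T i - t' i = ϖ' * L (u' / b') / p ^ tt i`.
-/

set_option autoImplicit false

namespace Pool.Agent.Work.MP_dd0d16_nt.T

variable {Ω Γ : Type} [Field Ω] [CharZero Ω] [LinearOrderedCommGroupWithZero Γ]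
  {v : Valuation Ω Γ} {L : Ω → Ω} {p : ℕ} [Fact p.Prime]

/-- `Φ z` and `y` agree modulo `p`. -/
def StepB1_R (v : Valuation Ω Γ) (p : ℕ) (Φ : Ω →*₀ Ω) (z y : Ω) : Prop :=
  v z ≤ 1 ∧ v y ≤ 1 ∧ v (Φ z - y) ≤ v p

section

omit [Fact p.Prime]

variable {Φ : Ω →*₀ Ω} {z y z' y' : Ω}

omit [CharZero Ω] in
theorem StepB1_self (hΦ : Frl v p Φ) (h : v z ≤ 1) : StepB1_R v p Φ z (Φ z) :=
  ⟨h, hΦ.le z h, by simp⟩

omit [CharZero Ω] in
theorem StepB1_nat (hΦ : Frl v p Φ) (n : ℕ) : StepB1_R v p Φ n n :=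
  ⟨Theta_nat v n, Theta_nat v n, hΦ.nat n⟩

omit [CharZero Ω] in
theorem StepB1_add (hΦ : Frl v p Φ) (h : StepB1_R v p Φ z y) (h' : StepB1_R v p Φ z' y') :
    StepB1_R v p Φ (z + z') (y + y') := by
  refine ⟨v.map_add_le h.1 h'.1, v.map_add_le h.2.1 h'.2.1, ?_⟩
  have e : Φ (z + z') - (y + y') = (Φ (z + z') - Φ z - Φ z') + ((Φ z - y) + (Φ z' - y')) := by
    ring
  rw [e]
  exact v.map_add_le (hΦ.add _ _ h.1 h'.1) (v.map_add_le h.2.2 h'.2.2)

omit [CharZero Ω] in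
theorem StepB1_mul (hΦ : Frl v p Φ) (h : StepB1_R v p Φ z y) (h' : StepB1_R v p Φ z' y') :
    StepB1_R v p Φ (z * z') (y * y') := by
  refine ⟨by rw [map_mul]; exact mul_le_one' h.1 h'.1,
    by rw [map_mul]; exact mul_le_one' h.2.1 h'.2.1, ?_⟩
  have e : Φ (z * z') - y * y' = Φ z * (Φ z' - y') + (Φ z - y) * y' := by
    rw [map_mul]
    ring
  rw [e]
  refine v.map_add_le ?_ ?_ <;> rw [map_mul]
  · exact (mul_le_mul' (hΦ.le _ h.1) h'.2.2).trans (one_mul _).le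
  · exact (mul_le_mul' h.2.2 h'.2.1).trans (mul_one _).le

omit [CharZero Ω] in
theorem StepB1_sum (hΦ : Frl v p Φ) {I : Type} (s : Finset I) {f g : I → Ω}
    (h : ∀ i, StepB1_R v p Φ (f i) (g i)) : StepB1_R v p Φ (∑ i ∈ s, f i) (∑ i ∈ s, g i) := by
  classical
  induction s using Finset.induction_on with
  | empty => simpa using StepB1_nat hΦ 0
  | insert i s hi ih =>
    rw [Finset.sum_insert hi, Finset.sum_insert hi]
    exact StepB1_add hΦ (h i) ih

omit [CharZero Ω] in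
theorem StepB1_prod (hΦ : Frl v p Φ) {I : Type} (s : Finset I) {f g : I → Ω}
    (h : ∀ i, StepB1_R v p Φ (f i) (g i)) : StepB1_R v p Φ (∏ i ∈ s, f i) (∏ i ∈ s, g i) := by
  classical
  induction s using Finset.induction_on with
  | empty => simpa using StepB1_nat hΦ 1
  | insert i s hi ih =>
    rw [Finset.prod_insert hi, Finset.prod_insert hi]
    exact StepB1_mul hΦ (h i) ih

omit [CharZero Ω] in
theorem StepB1_ns (h : StepB1_R v p Φ z y) (hz : ¬ Sm v p (Φ z)) : ¬ Sm v p y := fun k =>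
  hz (by simpa using (Sm.of_le h.2.2).add k)

omit [CharZero Ω] in
theorem StepB1_div {E : Subfield Ω} (h : LF p v L E) (hz : z ≠ 0) (hy : y ≠ 0) :
    L (z / y) = L z - L y := by
  have := h.mul _ _ (div_ne_zero hz hy) hy
  rw [div_mul_cancel₀ _ hy] at this
  rw [this, add_sub_cancel_right]

omit [CharZero Ω] in
theorem StepB1_pow {E : Subfield Ω} (h : LF p v L E) (hz : z ≠ 0) (n : ℕ) :
    L (z ^ n) = n * L z := by
  induction n with
  | zero => simp [h.one]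
  | succ n ih =>
    rw [pow_succ, h.mul _ _ (pow_ne_zero _ hz) hz, ih]
    push_cast
    ring

end

theorem StepB1_log (h0 : v p ≠ 0) (h1 : v p < 1) (hT : Tail p v L) {x y : Ω}
    (h : v (x - y) ≤ v p) (hy : ¬ Sm v p y) : v (L (x / y)) ≤ 1 := by
  have hp : (p : Ω) ≠ 0 := (Valuation.ne_zero_iff v).1 h0
  have hy0 := not_sm_ne hy
  have k1 : Bd v p ((x - y) / p * y⁻¹) := (Bd.of_le h1 (by
    rw [map_div₀]
    exact div_le_one_of_le₀ h zero_le)).mul (Bd.inv_of_not_sm hy)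
  have k2 := (log_bd h0 h1 hT k1).p_mul
  have e : 1 + p * ((x - y) / p * y⁻¹) = x / y := by
    field_simp
    ring
  rw [e, mul_div_cancel₀ _ hp] at k2
  exact (Sm.lt h1 ⟨2, k2⟩).le

theorem stepB1 (F : ℕ → Subfield Ω) (h : ∀ n, LF p v L (F n)) (hF : Monotone F) (hT : Tail p v L)
    {E' : Subfield Ω} (h' : LF p v L E') (hE : F 0 ≤ E') (ζ : ℕ → Ω)
    (hζ : ∀ n, v (ζ n) = 1 ∧ ζ n ^ p ∈ F n ∧ Ort v p (F n) (ζ n)) (Fr : ℕ → Ω →*₀ Ω)
    (hFr : ∀ n, Frl v p (Fr n)) (hFp : ∀ n z, Fr (n + 1) z ^ p = Fr n z) (Fi : Ω →*₀ Ω)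
    (hFi : Frl v p Fi) {ϖ ϖ' : Ω}
    (hϖ : ∀ z, z ≠ 0 → L (Fr 0 z) = ϖ * L z ∧ ϖ' * L (Fi z) = ϖ * L z)
    (hϖ' : ϖ' ∈ E' ∧ Inf v (v p) ϖ') {Q S : Type} [Fintype Q] [Fintype S] (a : Q → S → Ω)
    (ha : ∀ i s, v (a i s) ≤ 1) (tt : Q → ℕ) (lam : Q → S → ℕ)
    (hw : ∀ i s n, ∃ w ∈ F n, Fr (n + 1 + tt i) (a i s) = w * ζ n ^ lam i s)
    (hi : ∀ i s, Fi (a i s) ∈ E')
    (hP : ∀ i, ¬ Sm v p (Fr 0 (∑ s, a i s)) ∧ ¬ Sm v p (Fi (∑ s, a i s))) (t : ℕ)
    (ht : ∀ i, tt i ≤ t) (hz : ∀ c0 < p, ∀ c : Q → ℕ, (∀ i, c i < p) → c ≠ 0 →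
      ¬ Sm v p (Fr 0 (zc p a lam (fun i => t - tt i) c0 c))) :
    ∃ T t' : Q → Ω, SI v (F 0) (v p) T ∧ ∀ i, v (T i) ≤ 1 ∧ t' i ∈ E' ∧
      Inf v (v p) (T i - t' i) ∧ p ^ tt i * T i - ϖ * L (∑ s, a i s) ∈ F 0 := by
  classical
  have h0 := h'.p0
  have h1 := h'.p1
  have hp : (p : Ω) ≠ 0 := (Valuation.ne_zero_iff v).1 h0
  have hpow : ∀ l n z, Fr (n + l) z ^ p ^ l = Fr n z := by
    intro l n z
    induction l with
    | zero => simp
    | succ l ih => rw [pow_succ', pow_mul, ← add_assoc, hFp, ih]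
  have hns : ∀ n z, ¬ Sm v p (Fr 0 z) → ¬ Sm v p (Fr n z) := by
    rintro n z k ⟨q, hq⟩
    refine k ⟨q, ?_⟩
    rw [← hpow n 0 z, zero_add, map_pow, ← pow_mul, mul_comm, pow_mul]
    exact (pow_le_pow_left₀ zero_le hq _).trans
      (pow_le_of_le_one zero_le h1.le (pow_ne_zero _ (Fact.out : p.Prime).ne_zero))
  have hR : ∀ {Φ : Ω →*₀ Ω}, Frl v p Φ → ∀ i, StepB1_R v p Φ (∑ s, a i s) (∑ s, Φ (a i s)) :=
    fun hΦ i => StepB1_sum hΦ _ fun s => StepB1_self hΦ (ha i s)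
  have hb : ∀ i, ¬ Sm v p (∑ s, Fr (tt i) (a i s)) := fun i =>
    StepB1_ns (hR (hFr _) i) (hns _ _ (hP i).1)
  have hup : ∀ i z y, StepB1_R v p (Fr (tt i)) z y →
      StepB1_R v p (Fr t) (z ^ p ^ (t - tt i)) y := fun i z y k => by
    refine ⟨by rw [map_pow]; exact pow_le_one' k.1 _, k.2.1, ?_⟩
    have := hpow (t - tt i) (tt i) z
    rw [Nat.add_sub_cancel' (ht i)] at this
    rw [map_pow, this]
    exact k.2.2
  have hw' : ∀ i s n, ∃ w ∈ F n, Fr (tt i + (n + 1)) (a i s) = w * ζ n ^ lam i s := fun i s n => by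
    rw [add_comm]
    exact hw i s n
  obtain ⟨k1, k2⟩ := ta F h hF hT ζ hζ (fun i n s => Fr (tt i + n) (a i s))
    (fun i n => Fr (tt i + n) (∑ s, a i s)) lam
    (fun i n s => ⟨(hFr _).le _ (ha i s), hFp _ _, hw' i s n⟩)
    (fun i n => ⟨hFp _ _, (hR (hFr _) i).2.2⟩) hb (fun c0 hc0 c hc hc' k => by
      have r1 : StepB1_R v p (Fr t) (zc p a lam (fun i => t - tt i) c0 c)
          (c0 * ∏ j, (∑ s, Fr (tt j) (a j s)) + ∑ i, c i * ((∑ s, lam i s * Fr (tt i) (a i s)) *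
            ∏ j ∈ Finset.univ.erase i, ∑ s, Fr (tt j) (a j s))) :=
        StepB1_add (hFr t) (StepB1_mul (hFr t) (StepB1_nat (hFr t) c0)
          (StepB1_prod (hFr t) _ fun j => hup j _ _ (hR (hFr _) j)))
          (StepB1_sum (hFr t) _ fun i => StepB1_mul (hFr t) (StepB1_nat (hFr t) _)
            (StepB1_mul (hFr t) (hup i _ _ (StepB1_sum (hFr _) _ fun s => StepB1_mul (hFr _)
              (StepB1_nat (hFr _) _) (StepB1_self (hFr _) (ha i s))))
              (StepB1_prod (hFr t) _ fun j => hup j _ _ (hR (hFr _) j))))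
      refine StepB1_ns r1 (hns t _ (hz c0 hc0 c hc hc')) ?_
      have r2 := k.mul_bd h0 (Bd.prod h1 Finset.univ
        (f := fun j => ∑ s, Fr (tt j) (a j s)) fun j _ => Bd.of_le h1 (hR (hFr _) j).2.1)
      convert r2 using 1
      rw [add_mul, Finset.sum_mul]
      refine congrArg _ (Finset.sum_congr rfl fun i _ => ?_)
      have r3 := not_sm_ne (hb i)
      rw [← Finset.mul_prod_erase _ _ (Finset.mem_univ i)]
      simp only [add_zero]
      field_simp)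
  simp only [add_zero] at k1 k2
  refine ⟨_, fun i => ϖ' * L (∑ s, Fi (a i s)) / p ^ tt i - L (∑ s, Fr (tt i) (a i s)), k1,
    fun i => ?_⟩
  have b0 := not_sm_ne (hb i)
  have u0 := not_sm_ne (hns (tt i) _ (hP i).1)
  have P0 : ∑ s, a i s ≠ 0 := fun k => u0 (by rw [k, map_zero])
  have hb' := StepB1_ns (hR hFi i) (hP i).2
  have bF : L (∑ s, Fr (tt i) (a i s)) ∈ F 0 := by
    refine (h 0).mem _ (sum_mem fun s _ => ?_) b0
    obtain ⟨w, w1, w2⟩ := hw' i s 0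
    rw [← hFp, w2, mul_pow, ← pow_mul, mul_comm (lam i s), pow_mul]
    exact mul_mem (pow_mem w1 _) (pow_mem (hζ 0).2.1 _)
  have e1 : (p : Ω) ^ tt i * L (Fr (tt i) (∑ s, a i s)) = ϖ * L (∑ s, a i s) := by
    rw [← (hϖ _ P0).1, ← hpow (tt i) 0, zero_add, StepB1_pow h' u0, Nat.cast_pow]
  have hpt : (p : Ω) ^ tt i ≠ 0 := pow_ne_zero _ hp
  refine ⟨k2 i, sub_mem (div_mem (mul_mem hϖ'.1 (h'.mem _ (sum_mem fun s _ => hi i s)
    (not_sm_ne hb'))) (pow_mem (natCast_mem _ _) _)) (hE bF), fun c => ?_, ?_⟩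
  · have e2 : L (Fr (tt i) (∑ s, a i s) / ∑ s, Fr (tt i) (a i s)) -
        (ϖ' * L (∑ s, Fi (a i s)) / p ^ tt i - L (∑ s, Fr (tt i) (a i s))) =
        ϖ' * L (Fi (∑ s, a i s) / ∑ s, Fi (a i s)) / p ^ tt i := by
      rw [StepB1_div h' u0 b0, StepB1_div h' (not_sm_ne (hP i).2) (not_sm_ne hb'), mul_sub,
        (hϖ _ P0).2, ← e1]
      field_simp
      ring
    rw [e2, map_div₀, map_mul, map_pow, div_le_iff₀ (zero_lt_iff.2 (pow_ne_zero _ h0)), ← pow_add]
    exact (mul_le_mul' (hϖ'.2 _) (StepB1_log h0 h1 hT (hR hFi i).2.2 hb')).trans (mul_one _).le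
  · rw [StepB1_div h' u0 b0, mul_sub, e1, sub_sub_cancel_left]
    exact neg_mem (mul_mem (pow_mem (natCast_mem _ _) _) bF)

end Pool.Agent.Work.MP_dd0d16_nt.T
end

-- merged part: Pool.Agent.Work.MP_dd0d16_nt.G.Mono
section
/-!
The dichotomy passes to monomials.

PLAN. `max_sub`: follow the first part of `step` (S/Step): `s` of largest cardinality with
independent `(X, L α on s)` (the empty family is independent by `hd`); for `i ∉ s` use `hd` for
`Option s`; if the exponent of `α i` vanishes then `LF.prod_zpow` and `LF.mem` give a relation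
`∑ l : s, ρ l * L (α l) ∈ E` with `ρ ≠ 0`, against independence.
`Dic.mono`: take `s, r, ω` for `β`. With `D = ∏ i ∉ s, r i i` every `D * L (β i)` is
`∑ l : s, B i l * L (β l)` plus an element of `E`, more precisely
`β i ^ D = κ i * ∏ X ^ ω' i * ∏ l : s, β l ^ B i l` with `κ i ∈ E` nonzero; the same holds for the monomials,
with the matrix `A * B`. If the rows (for the subfamily) satisfy a nontrivial integer relation `c`, take the
exponents `D * c`. Otherwise `algInd_lin` gives independence of `(X, D * L γ)`; `exch`.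
-/

set_option autoImplicit false

namespace Pool.Agent.Work.MP_dd0d16_nt.T

variable {Ω Γ : Type} [Field Ω] [LinearOrderedCommGroupWithZero Γ]
  {v : Valuation Ω Γ} {L : Ω → Ω} {E : Subfield Ω} {p : ℕ} {τ I : Type} [Fintype τ] {X : τ → Ω}

theorem Dic.comp {α : I → Ω} (h : Dic L E X α) {J : Type} (e : J → I) :
    Dic L E X fun j => α (e j) := fun I' _ ε => h I' fun i => e (ε i)

theorem Dic.algInd {α : I → Ω} (h : Dic L E X α) : AlgebraicIndependent E X := by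
  rcases h Empty Empty.elim with ⟨r, r0, -⟩ | k
  · exact absurd (Subsingleton.elim _ _) r0
  · exact k.comp Sum.inl Sum.inl_injective

theorem Dic.reindex {α : I → Ω} (h : Dic L E X α) {τ' : Type} [Fintype τ'] (e : τ' ≃ τ) :
    Dic L E (fun d => X (e d)) α := by
  intro I' _ ε
  rcases h I' ε with ⟨r, r0, ω, k⟩ | k
  · refine Or.inl ⟨r, r0, fun d => ω (e d), ?_⟩
    rwa [e.prod_comp fun d => X d ^ ω d]
  · refine Or.inr ?_
    have k1 := k.comp (Sum.map e id) (e.injective.sumMap Function.injective_id)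
    rwa [Sum.elim_comp_map] at k1

theorem Mono_prod {K S : Type} [Fintype K] [Fintype S] (hX : ∀ d, X d ≠ 0) {w : S → Ω}
    (hw : ∀ l, w l ≠ 0) (a : K → Ω) (N : ℤ) (ω : K → τ → ℤ) (b : K → S → ℤ) (c : K → ℤ) :
    ∏ k, ((∏ d, X d ^ ω k d) * (a k ^ N * ∏ l, w l ^ b k l)) ^ c k =
      (∏ d, X d ^ ∑ k, ω k d * c k) * ((∏ k, a k ^ c k) ^ N * ∏ l, w l ^ ∑ k, b k l * c k) := by
  simp only [mul_zpow, Finset.prod_mul_distrib]
  rw [Step_zpow hX, Step_zpow hw, ← Finset.prod_zpow]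
  simp only [← zpow_mul, mul_comm N]

theorem Mono_log {S : Type} [Fintype S] (h : LF p v L E) (hX : ∀ d, X d ≠ 0 ∧ L (X d) = 0)
    {w : S → Ω} (hw : ∀ l, w l ≠ 0) {a : Ω} (ha : a ≠ 0) {N : ℤ} {ω : τ → ℤ} {b : S → ℤ}
    (k : (∏ d, X d ^ ω d) * (a ^ N * ∏ l, w l ^ b l) ∈ E) :
    N * L a + ∑ l, b l * L (w l) ∈ E := by
  have k1 := h.prod_zpow Finset.univ (Sum.elim X (Sum.elim (fun _ : Unit => a) w))
    (by rintro (d | d | d) <;> simp [hX, ha, hw]) (Sum.elim ω (Sum.elim (fun _ => N) b))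
  have k2 : L ((∏ d, X d ^ ω d) * (a ^ N * ∏ l, w l ^ b l)) = N * L a + ∑ l, b l * L (w l) := by
    simpa [Fintype.prod_sum_type, Fintype.sum_sum_type, hX] using k1
  rw [← k2]
  exact h.mem _ k (mul_ne_zero (Finset.prod_ne_zero_iff.2 fun d _ => zpow_ne_zero _ (hX d).1)
    (mul_ne_zero (zpow_ne_zero _ ha) (Finset.prod_ne_zero_iff.2 fun l _ => zpow_ne_zero _ (hw l))))

variable [CharZero Ω]

open MvPolynomial in
theorem Mono_lin {κ : Type} [Fintype κ] {z : κ → Ω} (hz : AlgebraicIndependent E z) (ρ : κ → ℤ)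
    (hc : ∑ l, ρ l * z l ∈ E) : ρ = 0 := by
  classical
  funext l
  have e0 : (∑ l, C (ρ l : E) * MvPolynomial.X l - C ⟨_, hc⟩ : MvPolynomial κ E) = 0 := by
    refine hz.eq_zero_of_aeval_eq_zero _ ?_
    simp only [map_sub, map_sum, map_mul, aeval_C, aeval_X, map_intCast]
    exact sub_self _
  have e1 : (∑ l, C (ρ l : E) * MvPolynomial.X l - C ⟨_, hc⟩ : MvPolynomial κ E).coeff
      (Finsupp.single l 1) = ρ l := by
    rw [coeff_sub, coeff_sum, coeff_C, if_neg (Finsupp.single_ne_zero.2 one_ne_zero).symm, sub_zero,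
      Finset.sum_eq_single l (fun j _ hj => by
        rw [coeff_C_mul, coeff_X, if_neg (by
          rwa [Finsupp.single_left_inj one_ne_zero]), mul_zero]) (by simp),
      coeff_C_mul, coeff_X, if_pos rfl, mul_one]
  rw [e0, coeff_zero] at e1
  exact_mod_cast e1.symm

omit [CharZero Ω] in
theorem Mono_split [Fintype I] (s : Finset I) (α : I → Ω) (r : I → ℤ) {i : I} (hi : i ∉ s)
    (hr : ∀ j ∉ s, j ≠ i → r j = 0) : ∏ j, α j ^ r j = α i ^ r i * ∏ l : s, α l ^ r l := by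
  classical
  rw [Finset.prod_coe_sort s fun l => α l ^ r l, ← Finset.prod_insert (f := fun l => α l ^ r l) hi]
  refine (Finset.prod_subset (Finset.subset_univ _) fun j _ hj => ?_).symm
  rw [Finset.mem_insert, not_or] at hj
  rw [hr j hj.2 hj.1, zpow_zero]

theorem max_sub (h : LF p v L E) (hX : ∀ d, X d ≠ 0 ∧ L (X d) = 0) [Fintype I] {α : I → Ω}
    (hα : ∀ i, α i ≠ 0) (hd : Dic L E X α) :
    ∃ (s : Finset I) (r : I → I → ℤ) (ω : I → τ → ℤ),
      AlgebraicIndependent E (Sum.elim X fun l : s => L (α l)) ∧ ∀ i ∉ s, r i i ≠ 0 ∧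
        (∀ j ∉ s, j ≠ i → r i j = 0) ∧ (∏ d, X d ^ ω i d) * ∏ j, α j ^ r i j ∈ E := by
  classical
  obtain ⟨s, hs, hm⟩ := Finset.exists_max_image
    (Finset.univ.filter fun s : Finset I =>
      AlgebraicIndependent E (Sum.elim X fun l : s => L (α l))) Finset.card
    ⟨∅, Finset.mem_filter.2 ⟨Finset.mem_univ _, (hd (∅ : Finset I) Subtype.val).resolve_left
      fun ⟨_, r0, _⟩ => r0 (Subsingleton.elim _ _)⟩⟩
  simp only [Finset.mem_filter, Finset.mem_univ, true_and] at hs hm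
  have h1 : ∀ i, ∃ (r : I → ℤ) (ω : τ → ℤ), i ∉ s → r i ≠ 0 ∧
      (∀ j ∉ s, j ≠ i → r j = 0) ∧ (∏ d, X d ^ ω d) * ∏ j, α j ^ r j ∈ E := by
    intro i
    by_cases hi : i ∈ s
    · exact ⟨0, 0, fun k => absurd hi k⟩
    rcases hd (Option s) (fun o => o.elim i Subtype.val) with ⟨r, r0, ω, k⟩ | k
    · rw [Fintype.prod_option] at k
      have n0 : r none ≠ 0 := fun e => by
        have k1 := Mono_log h hX (fun l : s => hα l) (hα i) k
        rw [e, Int.cast_zero, zero_mul, zero_add] at k1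
        have k2 := Mono_lin (hs.comp Sum.inr Sum.inr_injective) (fun l => r (some l)) k1
        refine r0 (funext fun o => ?_)
        cases o with
        | none => exact e
        | some l => exact congrFun k2 l
      refine ⟨fun j => if hj : j ∈ s then r (some ⟨j, hj⟩) else if j = i then r none else 0, ω,
        fun _ => ⟨by simpa only [dif_neg hi, if_true] using n0,
          fun j hj e => by simp only [dif_neg hj, if_neg e], ?_⟩⟩
      rw [Mono_split s α _ hi fun j hj e => by rw [dif_neg hj, if_neg e], dif_neg hi, if_pos rfl]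
      convert k using 4 with l
      · rfl
      · exact congrArg _ (dif_pos l.2)
    · exfalso
      have e : ∀ j : ↥(insert i s), ∃ o : Option s, o.elim i Subtype.val = j.1 := fun j =>
        (Finset.mem_insert.1 j.2).elim (fun k => ⟨none, k.symm⟩) fun k => ⟨some ⟨_, k⟩, rfl⟩
      choose f hf using e
      have k1 := k.comp (Sum.map id f) (Function.injective_id.sumMap fun j j' e =>
        Subtype.ext (by rw [← hf j, e, hf]))
      rw [Sum.elim_comp_map] at k1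
      have k2 := hm (insert i s) (by simpa only [Function.comp_def, hf, id_eq] using k1)
      rw [Finset.card_insert_of_notMem hi] at k2
      omega
  choose r ω h1 using h1
  exact ⟨s, r, ω, hs, h1⟩

theorem Dic.mono (h : LF p v L E) (hX : ∀ d, X d ≠ 0 ∧ L (X d) = 0) [Fintype I] {β : I → Ω}
    (hβ : ∀ i, β i ≠ 0) (hd : Dic L E X β) {J : Type} (A : J → I → ℤ) :
    Dic L E X fun j => ∏ i, β i ^ A j i := by
  classical
  intro I' _ ε
  obtain ⟨s, r, ω, hs, hr⟩ := max_sub h hX hβ hd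
  obtain ⟨N, N0, hN⟩ : ∃ N : ℤ, N ≠ 0 ∧ ∀ i ∉ s, r i i ∣ N :=
    ⟨∏ i ∈ sᶜ, r i i, Finset.prod_ne_zero_iff.2 fun i hi => (hr i (Finset.mem_compl.1 hi)).1,
      fun i hi => Finset.dvd_prod_of_mem _ (Finset.mem_compl.2 hi)⟩
  have h1 : ∀ i, ∃ (ω' : τ → ℤ) (b : s → ℤ),
      (∏ d, X d ^ ω' d) * (β i ^ N * ∏ l : s, β l ^ b l) ∈ E := by
    intro i
    by_cases hi : i ∈ s
    · refine ⟨0, Pi.single ⟨i, hi⟩ (-N), ?_⟩
      rw [Finset.prod_eq_single (⟨i, hi⟩ : s) (fun j _ hj => by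
        rw [Pi.single_eq_of_ne hj, zpow_zero]) (by simp), Pi.single_eq_same, zpow_neg,
        mul_inv_cancel₀ (zpow_ne_zero _ (hβ i))]
      simp
    · obtain ⟨t, rfl⟩ := hN i hi
      have k := E.zpow_mem (hr i hi).2.2 t
      rw [Mono_split s β _ hi (hr i hi).2.1] at k
      refine ⟨fun d => ω i d * t, fun l => r i l * t, ?_⟩
      simpa only [mul_zpow, ← Finset.prod_zpow, ← zpow_mul] using k
  choose ω' b h1 using h1
  have hX' : ∀ d, X d ≠ 0 := fun d => (hX d).1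
  have hw : ∀ l : s, β l ≠ 0 := fun l => hβ l
  have h2 : ∀ j : I', (∏ d, X d ^ ∑ i, ω' i d * A (ε j) i) *
      ((∏ i, β i ^ A (ε j) i) ^ N * ∏ l : s, β l ^ ∑ i, b i l * A (ε j) i) ∈ E := fun j => by
    rw [← Mono_prod hX' hw]
    exact prod_mem fun i _ => E.zpow_mem (h1 i) _
  by_cases hc : ∀ c : I' → ℤ, (∀ l : s, ∑ j, c j * ∑ i, b i l * A (ε j) i = 0) → c = 0
  · refine Or.inr (exch (algInd_lin hs (fun j l => ∑ i, b i l * A (ε j) i) hc
      (z := fun j => -(N * L (∏ i, β i ^ A (ε j) i))) fun j => ?_) le_rfl ?_)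
    · have k := neg_mem (Mono_log h hX hw
        (Finset.prod_ne_zero_iff.2 fun i _ => zpow_ne_zero _ (hβ i)) (h2 j))
      rwa [neg_add'] at k
    · rintro (a | a)
      · exact Algebra.subset_adjoin ⟨Sum.inl a, rfl⟩
      · exact neg_mem (mul_mem (intCast_mem _ _) (Algebra.subset_adjoin ⟨Sum.inr a, rfl⟩))
  · obtain ⟨c, hc⟩ := not_forall.1 hc
    obtain ⟨c1, c2⟩ := Classical.not_imp.1 hc
    have k : _ ∈ E := prod_mem fun j (_ : j ∈ Finset.univ) => E.zpow_mem (h2 j) (c j)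
    rw [Mono_prod hX' hw] at k
    refine Or.inl ⟨fun j => c j * N, fun e => c2 (funext fun j =>
      (mul_eq_zero.1 (congrFun e j)).resolve_right N0),
      fun d => ∑ j, (∑ i, ω' i d * A (ε j) i) * c j, ?_⟩
    have c3 : ∀ l : s, ∑ j, (∑ i, b i l * A (ε j) i) * c j = 0 := fun l => by
      simpa only [mul_comm (c _)] using c1 l
    simp only [c3, zpow_zero, Finset.prod_const_one, mul_one] at k
    rw [← Finset.prod_zpow] at k
    simpa only [zpow_mul] using k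

end Pool.Agent.Work.MP_dd0d16_nt.T
end

-- merged part: Pool.Agent.Work.MP_dd0d16_nt.G.Tower
section
/-!
Gluing the dichotomies of two levels.

PLAN. `lead2`: multiplicative version of `lead` (S/Lead): the set of pairs `(a, t)` with `a ≠ 0` and
`a * Q x = P x`, `t * lc Q = lc P` for some nonzero `P`, `Q` is closed under products, inverses and
integer powers (`Lead_lc`, `Lead_lc_ne`); if `a ∈ E` then `a = t`.
`tower`: for `I'`, `ε` apply `max_sub` over `E` to `α ∘ ε`: `s, r, ω`. For `i ∉ s` the element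
`γ i = ∏ X1 ^ ω i * ∏ j, α (ε j) ^ r i j` of `E` equals `∏ j, β (ε j) ^ r i j` by `hl`. `Dic.mono` for
`β ∘ ε` and the family `γ` on `{i // i ∉ s}`. First case: substitute; the exponent of `α (ε i)`, `i ∉ s`, is
`r' i * r i i`. Second case: `(X2, L γ)` is independent over `E0` and lies in `E`, `(X1, L α on s)` is
independent over `E`, so the union is independent over `E0` (`AlgebraicIndependent.sumElim_of_tower`,
or `AlgebraicIndependent.sumElim_iff` with `AlgebraicIndependent.restrictScalars`; the inclusion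
`Subfield.inclusion` as algebra map); `exch` with `L (γ i) = ∑ j, r i j * L (α (ε j))`.
-/

set_option autoImplicit false

namespace Pool.Agent.Work.MP_dd0d16_nt.T

open MvPolynomial

variable {Ω Γ : Type} [Field Ω] [LinearOrderedCommGroupWithZero Γ]
  {v : Valuation Ω Γ} {L : Ω → Ω} {E E0 : Subfield Ω} {p : ℕ}

/-- The values of rational functions together with their leading coefficients. -/
noncomputable def Tower_S (E : Subfield Ω) {m : ℕ} (x : Fin m → Ω) : Submonoid (Ω × Ω) where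
  carrier := {z | z.1 ≠ 0 ∧ ∃ P Q : MvPolynomial (Fin m) E, P ≠ 0 ∧ Q ≠ 0 ∧
    z.1 * aeval x Q = aeval x P ∧ z.2 * (Lead_lc E Q : E) = (Lead_lc E P : E)}
  one_mem' := ⟨one_ne_zero, 1, 1, one_ne_zero, one_ne_zero, one_mul _, one_mul _⟩
  mul_mem' := by
    rintro a b ⟨ha, P, Q, hP, hQ, e, f⟩ ⟨hb, P', Q', hP', hQ', e', f'⟩
    refine ⟨mul_ne_zero ha hb, P * P', Q * Q', mul_ne_zero hP hP', mul_ne_zero hQ hQ', ?_, ?_⟩
    · rw [map_mul, map_mul, ← e, ← e', Prod.fst_mul]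
      ring
    · rw [map_mul, map_mul, Subfield.coe_mul, Subfield.coe_mul, ← f, ← f', Prod.snd_mul]
      ring

theorem Tower_zpow {m : ℕ} {x : Fin m → Ω} {z : Ω × Ω} (h : z ∈ Tower_S E x) (n : ℤ) :
    z ^ n ∈ Tower_S E x := by
  obtain ⟨k, rfl | rfl⟩ := n.eq_nat_or_neg
  · exact zpow_natCast z k ▸ pow_mem h k
  · obtain ⟨ha, P, Q, hP, hQ, e, f⟩ := pow_mem h k
    rw [zpow_neg, zpow_natCast]
    refine ⟨inv_ne_zero ha, Q, P, hQ, hP, ?_, ?_⟩
    · rw [← e, Prod.fst_inv, inv_mul_cancel_left₀ ha]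
    · rw [← f, Prod.snd_inv, inv_mul_cancel_left₀ (left_ne_zero_of_mul (f ▸ Lead_lc_ne hP))]

theorem Tower_mem {m : ℕ} {x : Fin m → Ω} (hi : AlgebraicIndependent E x) {z : Ω × Ω}
    (h : z ∈ Tower_S E x) (hE : z.1 ∈ E) : z.1 = z.2 := by
  obtain ⟨-, P, Q, -, hQ, e, f⟩ := h
  have e1 : C (⟨z.1, hE⟩ : E) * Q = P := hi (by rw [map_mul, aeval_C, ← e]; rfl)
  have e2 : Lead_lc E (C (⟨z.1, hE⟩ : E) : MvPolynomial (Fin m) E) = ⟨z.1, hE⟩ :=
    MonomialOrder.leadingCoeff_C _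
  rw [← e1, map_mul, e2, Subfield.coe_mul] at f
  exact (mul_right_cancel₀ (Lead_lc_ne hQ) f).symm

theorem lead2 {m : ℕ} (x : Fin m → Ω) (hx : ∀ a, x a ≠ 0) (hi : AlgebraicIndependent E x)
    {I : Type} (f : I → MvPolynomial (Fin m) E) (α : I → Ω) (hα : ∀ i, α i ≠ 0) (N0 : ℕ)
    (hf : ∀ i, aeval x (f i) = α i * ∏ a, x a ^ N0) :
    ∃ ν : I → Fin m →₀ ℕ, (∀ i, (f i).coeff (ν i) ≠ 0) ∧
      ∀ (I' : Type) [Fintype I'] (e : I' → I) (r : I' → ℤ) (ω : Fin m → ℤ),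
        (∏ a, x a ^ ω a) * ∏ i, α (e i) ^ r i ∈ E →
        (∏ a, x a ^ ω a) * ∏ i, α (e i) ^ r i =
          ∏ i, (((f (e i)).coeff (ν (e i)) : E) : Ω) ^ r i := by
  have hX : ∀ a, Lead_lc E (X a : MvPolynomial (Fin m) E) = 1 := fun a =>
    MonomialOrder.leadingCoeff_X
  have hf0 : ∀ i, f i ≠ 0 := fun i h => by
    have := hf i
    rw [h, map_zero] at this
    exact mul_ne_zero (hα i) (Finset.prod_ne_zero_iff.2 fun a _ => pow_ne_zero _ (hx a)) this.symm
  have h1 : ∀ a, (x a, 1) ∈ Tower_S E x := fun a =>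
    ⟨hx a, X a, 1, X_ne_zero a, one_ne_zero, by simp, by simp [hX]⟩
  have h2 : ∀ i, (α i, ((Lead_lc E (f i) : E) : Ω)) ∈ Tower_S E x := fun i =>
    ⟨hα i, f i, ∏ a, X a ^ N0, hf0 i,
      Finset.prod_ne_zero_iff.2 fun a _ => pow_ne_zero _ (X_ne_zero a), by simp [hf], by simp [hX]⟩
  refine ⟨fun i => MonomialOrder.lex.degree (f i),
    fun i => MonomialOrder.coeff_degree_ne_zero_iff.2 (hf0 i), fun I' _ e r ω hE => ?_⟩
  have h3 := Tower_mem hi (mul_mem (prod_mem (t := Finset.univ) fun a _ => Tower_zpow (h1 a) (ω a))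
    (prod_mem (t := Finset.univ) fun i _ => Tower_zpow (h2 (e i)) (r i)))
  simp only [Prod.fst_mul, Prod.snd_mul, Prod.fst_prod, Prod.snd_prod, Prod.pow_fst, Prod.pow_snd,
    one_zpow, Finset.prod_const_one, one_mul] at h3
  exact h3 hE

theorem algInd_tower (hE : E0 ≤ E) {σ τ : Type} {x : σ → Ω} {y : τ → Ω} (hx : ∀ s, x s ∈ E)
    (h0 : AlgebraicIndependent E0 x) (h1 : AlgebraicIndependent E y) :
    AlgebraicIndependent E0 (Sum.elim x y) := by
  let _ : Algebra E0 E := (Subfield.inclusion hE).toAlgebra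
  have : IsScalarTower E0 E Ω := .of_algebraMap_eq fun _ => rfl
  have h2 := (h0.sumElim_of_tower (S := E) (by rintro _ ⟨s, rfl⟩; exact ⟨⟨_, hx s⟩, rfl⟩) h1).comp
    Sum.swap Sum.swap_leftInverse.injective
  convert h2 using 1
  ext (_ | _) <;> rfl

theorem tower [CharZero Ω] (h0 : LF p v L E0) (h : LF p v L E) (hE : E0 ≤ E) {τ1 τ2 I : Type}
    [Fintype τ1] [Fintype τ2] {X1 : τ1 → Ω} {X2 : τ2 → Ω} (hX1 : ∀ d, X1 d ≠ 0 ∧ L (X1 d) = 0)
    (hX2 : ∀ d, X2 d ≠ 0 ∧ L (X2 d) = 0) (hX2' : ∀ d, X2 d ∈ E) {α β : I → Ω}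
    (hα : ∀ i, α i ≠ 0) (hβ : ∀ i, β i ≠ 0) (h1 : Dic L E X1 α)
    (hl : ∀ (I' : Type) [Fintype I'] (e : I' → I) (r : I' → ℤ) (ω : τ1 → ℤ),
      (∏ a, X1 a ^ ω a) * ∏ i, α (e i) ^ r i ∈ E →
      (∏ a, X1 a ^ ω a) * ∏ i, α (e i) ^ r i = ∏ i, β (e i) ^ r i)
    (h2 : Dic L E0 X2 β) : Dic L E0 (Sum.elim X1 X2) α := by
  classical
  intro I' _ ε
  obtain ⟨s, r, ω, hs, hr⟩ := max_sub h hX1 (fun i => hα (ε i)) (h1.comp ε)
  have hm := Dic.mono h0 hX2 (fun i => hβ (ε i)) (h2.comp ε) (fun j : {i // i ∉ s} => r j) _ id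
  simp only [id, fun j : {i // i ∉ s} => (hl I' ε (r j) (ω j) (hr j j.2).2.2).symm] at hm
  rcases hm with ⟨r', h3, ω', h4⟩ | h3
  · refine Or.inl ⟨fun i => ∑ j : {i // i ∉ s}, r j i * r' j, fun h5 => h3 (funext fun j => ?_),
      Sum.elim (fun d => ∑ j : {i // i ∉ s}, ω j d * r' j) ω', ?_⟩
    · have h6 := congrFun h5 j
      rw [Finset.sum_eq_single j (fun k _ hk => by
        rw [(hr k k.2).2.1 j j.2 fun e => hk (Subtype.ext e.symm), zero_mul])
        fun e => absurd (Finset.mem_univ j) e] at h6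
      exact (mul_eq_zero.1 h6).resolve_left (hr j j.2).1
    · simp only [mul_zpow, Finset.prod_mul_distrib, Step_zpow fun d => (hX1 d).1,
        Step_zpow fun i => hα (ε i)] at h4
      simpa only [Fintype.prod_sum_type, Sum.elim_inl, Sum.elim_inr, mul_assoc, mul_left_comm]
        using h4
  have h4 : ∀ j, (∏ d, X1 d ^ ω j d) ≠ 0 ∧ ∏ i, α (ε i) ^ r j i ≠ 0 := fun j =>
    ⟨Finset.prod_ne_zero_iff.2 fun d _ => zpow_ne_zero _ (hX1 d).1,
      Finset.prod_ne_zero_iff.2 fun i _ => zpow_ne_zero _ (hα _)⟩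
  refine Or.inr (exch (algInd_tower hE ?_ h3 hs) ?_ ?_)
  · rintro (d | j)
    exacts [hX2' d, h.mem _ (hr j j.2).2.2 (mul_ne_zero (h4 j).1 (h4 j).2)]
  · have := Fintype.card_subtype_le fun i => i ∈ s
    simp only [Fintype.card_sum, Fintype.card_subtype_compl]
    omega
  · rintro ((d | j) | d | l)
    · exact Algebra.subset_adjoin ⟨Sum.inl (Sum.inr d), rfl⟩
    · simp only [Sum.elim_inl, Sum.elim_inr, h.mul _ _ (h4 j).1 (h4 j).2,
        h.prod_zpow _ _ fun d => (hX1 d).1, h.prod_zpow _ _ fun i => hα (ε i), hX1, mul_zero,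
        Finset.sum_const_zero, zero_add]
      exact sum_mem fun i _ => mul_mem (intCast_mem _ _) (Algebra.subset_adjoin ⟨Sum.inr i, rfl⟩)
    · exact Algebra.subset_adjoin ⟨Sum.inl (Sum.inl d), rfl⟩
    · exact Algebra.subset_adjoin ⟨Sum.inr l, rfl⟩

end Pool.Agent.Work.MP_dd0d16_nt.T
end
end

-- merged part: Pool.Agent.Work.MP_dd0d16_nt.G.Factor
section
-- merged part: Pool.Agent.Work.MP_dd0d16_nt.G.Red
section
/-!
Reduction of polynomials modulo small elements.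

PLAN. `exists_red`: `exists_res0`, `R = A.comap E.subtype`, the field is the subfield `K` attached to
`E`. The equivalence: if all coefficients are `Sm` then so is the value (`aeval_def`, `eval₂_eq`,
`Sm.sum`, `Sm.mul_bd`); conversely `SSI` and `Sm.of_orth`.
`lift_norm`: lift the coefficients on the support of `π` (zero elsewhere), divide by a largest
coefficient `c` (`exists_max_coeff`); `c` is not `Sm`, so `c⁻¹ ∈ R` (`Bd.inv_of_not_sm`).
-/

set_option autoImplicit false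

namespace Pool.Agent.Work.MP_dd0d16_nt.T

open MvPolynomial

variable {Ω Γ : Type} [Field Ω] [LinearOrderedCommGroupWithZero Γ] {v : Valuation Ω Γ}
  {E : Subfield Ω} {p : ℕ} [Fact p.Prime] {σ : Type}

theorem exists_red (h0 : v p ≠ 0) (h1 : v p < 1) {X : σ → Ω} (hX : ∀ d, v (X d) ≤ 1)
    (hs : SSI v p E X) :
    ∃ (k : Type) (_ : Field k) (_ : CharP k p) (R : Subring E) (ρ : R →+* k),
      Function.Surjective ρ ∧ (∀ c : E, c ∈ R ↔ Bd v p (c : Ω)) ∧
      (∀ c : R, ρ c = 0 ↔ Sm v p ((c : E) : Ω)) ∧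
      ∀ P : MvPolynomial σ R, map ρ P = 0 ↔ Sm v p (aeval X (map R.subtype P)) := by
  obtain ⟨k, _, _, A, res, hA, hres, hK⟩ := exists_res0 (v := v) h0 h1
  obtain ⟨K, hK⟩ := hK E
  let R : Subring E := A.comap E.subtype
  let ι : R →+* A := (E.subtype.comp R.subtype).codRestrict A fun c => c.2
  let ρ : R →+* K := (res.comp ι).codRestrict K fun c => (hK _).2 ⟨ι c, (c : E).2, rfl⟩
  have hρ : ∀ c : R, ρ c = 0 ↔ Sm v p ((c : E) : Ω) := fun c =>
    Subtype.ext_iff.trans (hres (ι c))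
  refine ⟨K, inferInstance, inferInstance, R, ρ, fun y => ?_, fun c => hA _, hρ, fun P => ?_⟩
  · obtain ⟨x, hx, e⟩ := (hK y).1 y.2
    exact ⟨⟨⟨x, hx⟩, x.2⟩, Subtype.ext e⟩
  · have e : map ρ P = 0 ↔ ∀ μ, Sm v p (((map R.subtype P).coeff μ : E) : Ω) := by
      simp only [MvPolynomial.ext_iff, coeff_map, coeff_zero, hρ]
      rfl
    rw [e]
    refine ⟨fun h => ?_, fun h μ => Sm.of_orth h0 (hs _ μ) h⟩
    rw [aeval_def, eval₂_eq]
    exact Sm.sum _ fun μ _ => Sm.mul_bd h0 (h μ)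
      (Bd.prod h1 _ fun d _ => Bd.pow h1 (Bd.of_le h1 (hX d)) _)

theorem lift_norm (h1 : v p < 1) {k : Type} [Field k] {R : Subring E} {ρ : R →+* k}
    (hρ : Function.Surjective ρ) (hR : ∀ c : E, c ∈ R ↔ Bd v p (c : Ω))
    (hk : ∀ c : R, ρ c = 0 ↔ Sm v p ((c : E) : Ω)) {π : MvPolynomial σ k} (hπ : π ≠ 0) :
    ∃ (P : MvPolynomial σ R) (a : k), a ≠ 0 ∧ map ρ P = C a * π ∧
      (∀ μ, v (((P.coeff μ : R) : E) : Ω) ≤ 1) ∧ ∀ μ, π.coeff μ = 0 → P.coeff μ = 0 := by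
  classical
  choose l hl using hρ
  let Q : MvPolynomial σ R := ∑ μ ∈ π.support, monomial μ (l (π.coeff μ))
  have hQ : ∀ μ, Q.coeff μ = if π.coeff μ = 0 then 0 else l (π.coeff μ) := fun μ => by
    simp only [Q, coeff_sum, coeff_monomial, Finset.sum_ite_eq', mem_support_iff, ne_eq, ite_not]
  have hm : map ρ Q = π := by
    ext μ
    rw [coeff_map, hQ]
    split_ifs with h
    · rw [map_zero, h]
    · exact hl _
  have hQ0 : map R.subtype Q ≠ 0 := fun h => hπ (by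
    rw [← hm, (map_injective R.subtype Subtype.val_injective).eq_iff' (map_zero _) |>.1 h,
      map_zero])
  obtain ⟨ν, h2, h3⟩ := exists_max_coeff v hQ0
  simp only [coeff_map, Subring.coe_subtype] at h2 h3
  have h4 : π.coeff ν ≠ 0 := fun h => h2 (by rw [hQ, if_pos h]; rfl)
  have h5 : ρ (Q.coeff ν) ≠ 0 := by rwa [← coeff_map, hm]
  have h6 : ((Q.coeff ν : R) : E)⁻¹ ∈ R :=
    (hR _).2 (by simpa using Bd.inv_of_not_sm (mt (hk _).2 h5))
  have h7 : 0 < v (((Q.coeff ν : R) : E) : Ω) :=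
    zero_lt_iff.2 ((v.ne_zero_iff).2 (by exact_mod_cast h2))
  refine ⟨C ⟨_, h6⟩ * Q, ρ ⟨_, h6⟩, fun h => ?_, by rw [map_mul, map_C, hm], fun μ => ?_,
    fun μ h => by rw [coeff_C_mul, hQ μ, if_pos h, mul_zero]⟩
  · have : (⟨_, h6⟩ : R) * Q.coeff ν = 1 := Subtype.ext (inv_mul_cancel₀ h2)
    have h8 := congrArg ρ this
    rw [map_mul, h, zero_mul, map_one] at h8
    exact zero_ne_one h8
  · rw [coeff_C_mul]
    push_cast
    rw [map_mul, map_inv₀, inv_mul_le_iff₀ h7, mul_one]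
    exact h3 μ

end Pool.Agent.Work.MP_dd0d16_nt.T
end

-- merged part: Pool.Agent.Work.MP_dd0d16_nt.G.Factor
section
/-!
Factorisation modulo small elements.

PLAN. `exists_red` (G/Red). `factor`: divide `f k` by a largest coefficient, lift it to `R` (`AxCore_lift`), `factor1` for the
reductions, `lift_norm` for the primes: `Pi q` with reduction `C (a q) * π q`. `S` is the union of the
supports (as a subtype), `μ0 q` one of the two monomials, `c q s = coeff s (Pi q)`,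
`e q s d = s d - μ0 q d` if `coeff s (π q) ≠ 0` and `0` otherwise, so
`(∑ s, c q s * ∏ d, X d ^ e q s d) * ∏ d, X d ^ μ0 q d = Pi q (X)`. Define `u k` as the quotient;
`u k - 1` is the value of a polynomial over `R` with zero reduction divided by an element that is not
`Sm` (`not_sm_prod`, `not_sm_pow`). Last part: `D q = ∑ s, monomial s (lam q s * coeff s (Pi q))`;
`zc ..` times `∏ q, (∏ d, X d ^ μ0 q d) ^ p ^ σ q` (value one) is the value of a polynomial over `R`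
whose reduction is nonzero by `factor2` (for the primes `C (a q) * π q`, `not_dvd_of_lam`,
`CharP.cast_eq_zero_iff`).
-/

set_option autoImplicit false

namespace Pool.Agent.Work.MP_dd0d16_nt.T

open MvPolynomial

variable {Ω Γ : Type} [Field Ω] [LinearOrderedCommGroupWithZero Γ] {v : Valuation Ω Γ}
  {E : Subfield Ω} {p : ℕ} [Fact p.Prime] {σ : Type}

/-- the value of a monomial -/
def Factor_mon {m : ℕ} (X : Fin m → Ω) (μ : Fin m →₀ ℕ) : Ω := ∏ d, X d ^ μ d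

omit [Fact p.Prime] in
theorem Factor_bd (h1 : v p < 1) {m : ℕ} {X : Fin m → Ω} (hX : ∀ d, v (X d) = 1)
    (μ : Fin m →₀ ℕ) : Bd v p (Factor_mon X μ) :=
  Bd.of_le h1 (by simp [Factor_mon, hX])

theorem Factor_ev {R : Type} [CommRing R] (ι : R →+* Ω) {m : ℕ} (X : Fin m → Ω)
    (μ : Fin m →₀ ℕ) (r : R) : eval₂Hom ι X (monomial μ r) = ι r * Factor_mon X μ := by
  rw [eval₂Hom_monomial, Finsupp.prod_fintype _ _ fun _ => pow_zero _, Factor_mon]

theorem Factor_sum {m : ℕ} (X : Fin m → Ω) {Q : Type} [Fintype Q] (ω : Fin m →₀ ℕ)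
    (μ : Q → Fin m →₀ ℕ) (o : Q → ℕ) :
    ∏ d, X d ^ (((ω + ∑ q, o q • μ q) d : ℕ) : ℤ) =
      Factor_mon X ω * ∏ q, Factor_mon X (μ q) ^ o q := by
  simp only [Factor_mon, zpow_natCast, Finsupp.add_apply, Finsupp.finsetSum_apply,
    Finsupp.smul_apply, smul_eq_mul, pow_add, Finset.prod_mul_distrib,
    ← Finset.prod_pow_eq_pow_sum, pow_mul', ← Finset.prod_pow]
  rw [Finset.prod_comm]

theorem Factor_sub {m : ℕ} {X : Fin m → Ω} (hX : ∀ d, X d ≠ 0) (μ ν : Fin m →₀ ℕ) :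
    (∏ d, X d ^ ((μ d : ℤ) - ν d)) * Factor_mon X ν = Factor_mon X μ := by
  rw [Factor_mon, Factor_mon, ← Finset.prod_mul_distrib]
  refine Finset.prod_congr rfl fun d _ => ?_
  rw [zpow_sub₀ (hX d), zpow_natCast, zpow_natCast, div_mul_cancel₀ _ (pow_ne_zero _ (hX d))]

theorem Factor_coeff {R τ : Type} [CommRing R] (T : Finset (τ →₀ ℕ)) (r : T → R) (s : T) :
    (∑ t : T, monomial t.1 (r t) : MvPolynomial τ R).coeff s.1 = r s := by
  classical
  rw [coeff_sum, Finset.sum_eq_single s (fun t _ ht => by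
    rw [coeff_monomial, if_neg fun k => ht (Subtype.ext k)]) (by simp), coeff_monomial, if_pos rfl]

theorem Factor_coeff0 {R τ : Type} [CommRing R] (T : Finset (τ →₀ ℕ)) (r : T → R) {μ : τ →₀ ℕ}
    (h : μ ∉ T) : (∑ t : T, monomial t.1 (r t) : MvPolynomial τ R).coeff μ = 0 := by
  classical
  rw [coeff_sum]
  exact Finset.sum_eq_zero fun t _ => by
    rw [coeff_monomial, if_neg fun k : t.1 = μ => h (k ▸ t.2)]

omit [Fact p.Prime] in
theorem Factor_lift (h1 : v p < 1) {k : Type} [Field k] {R : Subring E} (ρ : R →+* k)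
    (hR : ∀ c : E, c ∈ R ↔ Bd v p (c : Ω)) {f : MvPolynomial σ E} (hf : f ≠ 0) :
    ∃ (b : E) (F : MvPolynomial σ R), b ≠ 0 ∧ map ρ F ≠ 0 ∧ f = C b * map R.subtype F := by
  obtain ⟨ν, h2, h3⟩ := exists_max_coeff v hf
  have h4 : ((f.coeff ν : E) : Ω) ≠ 0 := by simpa using h2
  obtain ⟨F, hF⟩ := AxCore_lift R (C (f.coeff ν)⁻¹ * f) fun μ => (hR _).2 (Bd.of_le h1 (by
    rw [coeff_C_mul, Subfield.coe_mul, Subfield.coe_inv, map_mul, map_inv₀]
    exact inv_mul_le_one_of_le₀ (h3 μ) zero_le))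
  refine ⟨f.coeff ν, F, h2, fun k' => ?_, by
    rw [hF, ← mul_assoc, ← map_mul, mul_inv_cancel₀ h2, map_one, one_mul]⟩
  have h5 : F.coeff ν = 1 := Subtype.ext (by
    have := congrArg (coeff ν) hF
    rwa [coeff_map, coeff_C_mul, inv_mul_cancel₀ h2] at this)
  have := congrArg (coeff ν) k'
  rw [coeff_map, h5, map_one, coeff_zero] at this
  exact one_ne_zero this

theorem factor (h0 : v p ≠ 0) (h1 : v p < 1) {m : ℕ} {X : Fin m → Ω} (hX : ∀ d, v (X d) = 1)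
    (hs : SSI v p E X) {I : Type} [Fintype I] (f : I → MvPolynomial (Fin m) E)
    (hf : ∀ k, f k ≠ 0) :
    ∃ (Q S : Type) (_ : Fintype Q) (_ : Fintype S) (c a : Q → S → Ω) (e : Q → S → Fin m → ℤ)
      (o : I → Q → ℕ) (κ u : I → Ω) (ω : I → Fin m → ℤ),
      (∀ i s, c i s ∈ E ∧ v (c i s) ≤ 1 ∧ a i s = c i s * ∏ d, X d ^ e i s d) ∧
      (∀ i, ∃ s, e i s ≠ 0) ∧ (∀ i, ¬ Sm v p (∑ s, a i s)) ∧
      (∀ k, κ k ∈ E ∧ κ k ≠ 0 ∧ Sm v p (u k - 1) ∧
        aeval X (f k) = κ k * (∏ d, X d ^ ω k d) * (∏ i, (∑ s, a i s) ^ o k i) * u k) ∧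
      ∀ (lam : Q → S → ℕ) (σ : Q → ℕ), (∀ i s, e i s = 0 → lam i s = 0) →
        (∀ i, ∃ s, ¬ p ∣ lam i s) → ∀ c0 < p, ∀ c' : Q → ℕ, (∀ i, c' i < p) → c' ≠ 0 →
        ¬ Sm v p (zc p a lam σ c0 c') := by
  classical
  obtain ⟨k, _, _, R, ρ, hρ, hR, hk, hP⟩ := exists_red h0 h1 (fun d => (hX d).le) hs
  have hX0 : ∀ d, X d ≠ 0 := fun d k' => by simpa [k'] using hX d
  set ι : R →+* Ω := E.subtype.comp R.subtype with hι
  set ψ := eval₂Hom ι X with hψ
  have eψ : ∀ P, aeval X (map R.subtype P) = ψ P := fun P => by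
    rw [aeval_def, eval₂_map]
    rfl
  simp only [eψ] at hP
  choose b F hb hF ef using fun i => Factor_lift h1 ρ hR (hf i)
  obtain ⟨Q, _, π, o, κ, ω, p1, p2, p3, p4⟩ := factor1 (fun i => map ρ (F i)) hF
  choose P a a0 eP vP sP using fun q => lift_norm h1 hρ hR hk (p1 q).ne_zero
  choose μ ν hμν hμ hν using p3
  set T : Finset (Fin m →₀ ℕ) := Finset.univ.biUnion fun q => (π q).support with hT
  have mT : ∀ q s, (π q).coeff s ≠ 0 → s ∈ T := fun q s h =>
    Finset.mem_biUnion.2 ⟨q, Finset.mem_univ _, mem_support_iff.2 h⟩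
  set e : Q → T → Fin m → ℤ := fun q s d =>
    if (π q).coeff s.1 ≠ 0 then (s.1 d : ℤ) - μ q d else 0 with he
  set A : Q → T → Ω := fun q s => ι ((P q).coeff s.1) * ∏ d, X d ^ e q s d with hA
  set D : Q → (T → ℕ) → MvPolynomial (Fin m) R := fun q l =>
    ∑ s : T, monomial s.1 ((l s : R) * (P q).coeff s.1) with hD
  have eD : ∀ q l, ψ (D q l) = (∑ s, l s * A q s) * Factor_mon X (μ q) := fun q l => by
    simp only [hD, map_sum, Finset.sum_mul]
    refine Finset.sum_congr rfl fun s _ => ?_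
    rw [hψ, Factor_ev, map_mul, map_natCast, mul_assoc, mul_assoc]
    congr 1
    by_cases h : (π q).coeff s.1 = 0
    · simp [hA, sP q _ h]
    · simp only [hA, he, ne_eq, h, not_false_eq_true, if_true]
      rw [mul_assoc, Factor_sub hX0]
  have eP1 : ∀ q, ψ (P q) = (∑ s, A q s) * Factor_mon X (μ q) := fun q => by
    have : D q 1 = P q := MvPolynomial.ext _ _ fun s => by
      by_cases h : s ∈ T
      · exact (Factor_coeff T _ ⟨s, h⟩).trans (by simp)
      · rw [Factor_coeff0 T _ h, sP q s (by_contra fun k' => h (mT q s k'))]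
    rw [← this, eD]
    simp
  have uC : ∀ q, IsUnit (C (a q) : MvPolynomial (Fin m) k) := fun q => (a0 q).isUnit.map C
  have nP : ∀ q, map ρ (P q) ≠ 0 := fun q => by
    rw [eP]
    exact mul_ne_zero (uC q).ne_zero (p1 q).ne_zero
  choose r hr using fun i => hρ (κ i * ∏ q, (a q)⁻¹ ^ o i q)
  have eG : ∀ i, map ρ (monomial (ω i) (r i) * ∏ q, P q ^ o i q) = map ρ (F i) := fun i => by
    have h2 : (∏ q, a q ^ o i q) * ∏ q, (a q)⁻¹ ^ o i q = 1 := by
      rw [← Finset.prod_mul_distrib]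
      exact Finset.prod_eq_one fun q _ => by rw [← mul_pow, mul_inv_cancel₀ (a0 q), one_pow]
    have h3 : map ρ (∏ q, P q ^ o i q) = C (∏ q, a q ^ o i q) * ∏ q, π q ^ o i q := by
      simp only [map_prod, map_pow, eP, mul_pow, Finset.prod_mul_distrib]
    rw [(p4 i).2, map_mul, h3, map_monomial, hr, ← mul_assoc, mul_comm (monomial _ _),
      C_mul_monomial, mul_left_comm, h2, mul_one]
  have nG : ∀ i, ¬ Sm v p (ψ (monomial (ω i) (r i) * ∏ q, P q ^ o i q)) := fun i k' =>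
    hF i ((eG i).symm.trans ((hP _).2 k'))
  refine ⟨Q, T, inferInstance, inferInstance, fun q s => ι ((P q).coeff s.1), A, e, o,
    fun i => b i * ι (r i), fun i => ψ (F i) / ψ (monomial (ω i) (r i) * ∏ q, P q ^ o i q),
    fun i d => ((ω i + ∑ q, o i q • μ q) d : ℕ), fun q s => ⟨Subtype.prop _, vP q _, rfl⟩,
    fun q => ⟨⟨ν q, mT q _ (hν q)⟩, fun k' => hμν q (Finsupp.ext fun d => ?_)⟩, fun q k' => ?_,
    fun i => ⟨mul_mem (b i).2 (r i).1.2, mul_ne_zero (by simpa using hb i) fun k' => ?_, ?_, ?_⟩,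
    fun lam n l0 l1 c0 _ c hc c1 k' => c1 ?_⟩
  · have := congrFun k' d
    simp only [he, ne_eq, hν q, not_false_eq_true, if_true, Pi.zero_apply] at this
    omega
  · exact nP q ((hP _).2 (eP1 q ▸ k'.mul_bd h0 (Factor_bd h1 hX _)))
  · refine nG i ?_
    rw [map_mul, hψ, Factor_ev, k', zero_mul, zero_mul]
    exact Sm.of_le (by simp)
  · rw [div_sub_one (not_sm_ne (nG i)), div_eq_mul_inv, ← map_sub]
    exact ((hP _).1 (by rw [map_sub, eG, sub_self])).mul_bd h0 (Bd.inv_of_not_sm (nG i))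
  · have h2 := not_sm_ne (nG i)
    have h3 : ψ (monomial (ω i) (r i) * ∏ q, P q ^ o i q) = ι (r i) *
        (Factor_mon X (ω i) * ∏ q, Factor_mon X (μ q) ^ o i q) * ∏ q, (∑ s, A q s) ^ o i q := by
      simp only [map_mul, map_prod, map_pow, eP1, mul_pow, Finset.prod_mul_distrib]
      rw [hψ, Factor_ev]
      ring
    rw [ef i, map_mul, eψ, aeval_C, Factor_sum, mul_assoc (b i : Ω), mul_assoc (b i : Ω), ← h3,
      mul_assoc, mul_div_cancel₀ _ h2]
    rfl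
  · have h2 : map ρ ((c0 : MvPolynomial (Fin m) R) * ∏ j, P j ^ p ^ n j + ∑ i, (c i : _) *
        (D i (lam i) ^ p ^ n i * ∏ j ∈ Finset.univ.erase i, P j ^ p ^ n j)) = 0 := by
      refine (hP _).2 ?_
      convert k'.mul_bd h0 (Bd.prod h1 Finset.univ fun q _ =>
        (Factor_bd h1 hX (μ q)).pow h1 (p ^ n q)) using 1
      rw [zc, add_mul, Finset.sum_mul]
      simp only [map_add, map_mul, map_sum, map_prod, map_pow, map_natCast, eD, eP1, mul_pow,
        Finset.prod_mul_distrib]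
      refine congrArg₂ _ (by ring) (Finset.sum_congr rfl fun i _ => ?_)
      rw [← Finset.mul_prod_erase Finset.univ (fun q => Factor_mon X (μ q) ^ p ^ n q)
        (Finset.mem_univ i)]
      ring
    have h3 := factor2 (fun q => map ρ (P q)) (fun q => map ρ (D q (lam q)))
      (fun q => by rw [eP]; exact (prime_isUnit_mul (uC q)).2 (p1 q))
      (fun q q' h => p2 q q' (by rwa [eP, eP, (uC q).mul_left_dvd, (uC q').dvd_mul_left] at h))
      (fun q => ?_) (fun q => p ^ n q) (fun q => pow_ne_zero _ (Fact.out : p.Prime).ne_zero)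
      (c0 : k) (fun i => (c i : k)) (by simpa using h2)
    · funext i
      exact Nat.eq_zero_of_dvd_of_lt ((CharP.cast_eq_zero_iff k p _).1 (congrFun h3 i)) (hc i)
    obtain ⟨s, hs'⟩ := l1 q
    have h4 : (π q).coeff s.1 ≠ 0 := fun h => hs' (by
      rw [l0 q s (funext fun d => by simp [he, h])]
      exact dvd_zero p)
    have h5 : ∀ t, (π q).coeff t ≠ 0 → (map ρ (P q)).coeff t ≠ 0 := fun t h => by
      rw [eP, coeff_C_mul]
      exact mul_ne_zero (a0 q) h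
    refine not_dvd_of_lam (fun t => if h : t ∈ T then (lam q ⟨t, h⟩ : k) else 0) (fun t => ?_)
      (h5 _ h4) (h5 _ (hμ q)) ?_
    · rw [coeff_map, coeff_map]
      by_cases h : t ∈ T
      · rw [dif_pos h, Factor_coeff T _ ⟨t, h⟩, map_mul, map_natCast]
      · rw [dif_neg h, Factor_coeff0 T _ h, map_zero, zero_mul]
    · rw [dif_pos s.2, dif_pos (mT q _ (hμ q)), l0 q ⟨μ q, _⟩ (funext fun d => by simp [he]),
        Nat.cast_zero]
      exact fun h => hs' ((CharP.cast_eq_zero_iff k p _).1 h)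

end Pool.Agent.Work.MP_dd0d16_nt.T
end
end

-- merged part: Pool.Agent.Work.MP_dd0d16_nt.G.Final3
section
-- merged part: Pool.Agent.Work.MP_dd0d16_nt.G.StepB
section
/-!
The logarithms of the irreducible factors.

PLAN. `N` tends to infinity. `ζ0 n` primitive of order `p ^ N n` (`exists_prim`); `levels` for each `i` gives
`tt i`, `lam i`; `t = Finset.univ.sup tt`. Apply `slow` with `G n = N n - m0 n` to representatives
(`gm_surj`) of the finite family of the `∑ s, a i s` and of the `zc p a lam (t - tt ·) c0 c'` for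
`c0 : Fin p`, `c' : Q → Fin p` nonzero (index type `Q ⊕ {x : Fin p × (Q → Fin p) // ..}`). Put
`M n = N n - 2 * j n`, `M' n = N n - j n`, `ϖ = gm U (p ^ (2 * j ·))`, `ϖ' = gm U (p ^ j ·)`,
`F k = GS U fun n => K0 ⊔ Cyc p (M n + k)`, `Fr k` from `exists_frob` with exponent `2 * j n - k`, `Fi` with
exponent `j n`, `ζ k = gm U fun n => ζ0 n ^ p ^ (2 * j n - k - 1)` (eventually primitive of order
`p ^ (M n + k + 1)`; `Ort` by `orth_germ` with `J = Fin p`: the `p ^ (M n + k)`-th power of a ratio is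
`τ ^ a / τ ^ b` with `τ = ζ0 n ^ p ^ (N n - 1)` primitive of order `p`). For `hw`: with `y n = ∏ d, X n d ^ e i s d`,
`x = 2 * j n - (k + 1 + tt i)`, the element `y n ^ p ^ x / (ζ0 n ^ p ^ (2 * j n - k - 1)) ^ lam i s` has
`p ^ (M n + k)`-th power one (`mem_Cyc`). `stepB1` with `lf_germ`, `tail_germ`, `GS_mono`, `Cyc_mono`,
`log_pow`, `vG_le_pow`; `Seq2_*` (S/Seq2) for classes of sums, products and powers.
-/

set_option autoImplicit false

namespace Pool.Agent.Work.MP_dd0d16_nt.T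

open Filter

variable {p : ℕ} [Fact p.Prime] {ι : Type} {L : PadicAlgCl p → PadicAlgCl p}

theorem StepB_zpow (U : Ultrafilter ι) (f : ι → PadicAlgCl p) (k : ℤ) :
    gm U (fun n => f n ^ k) = gm U f ^ k := by
  rcases k with k | k
  · simp only [Int.ofNat_eq_natCast, zpow_natCast]
    exact Seq2_pow U f k
  · simp only [zpow_negSucc]
    rw [← Seq2_pow, ← gm_inv]
    rfl

theorem StepB_one (U : Ultrafilter ι) {f : ι → PadicAlgCl p} (h : ∀ n, ‖f n‖ = 1) :
    vG U (gm U f) = 1 := by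
  refine le_antisymm ((vG_le_one U f).2 (Eventually.of_forall fun n => (h n).le)) ?_
  have h1 := (vG_le U 1 f).2 (Eventually.of_forall fun n => by rw [h n, Pi.one_apply, norm_one])
  rwa [map_one, map_one] at h1

theorem StepB_inf (U : Ultrafilter ι) {j : ι → ℕ} (hj : Tendsto j U atTop) :
    Inf (vG U) (vG U (p : GF p U)) (gm U fun n => (p : PadicAlgCl p) ^ j n) := fun c => by
  have hp : (1 : ℝ) ≤ p := by exact_mod_cast (Fact.out : p.Prime).one_le
  refine (vG_le_pow U _ c).2 ((hj.eventually_ge_atTop c).mono fun n hn => ?_)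
  rw [norm_pow, norm_p_eq]
  exact pow_le_pow_of_le_one (by positivity) (inv_le_one_of_one_le₀ hp) hn

theorem StepB_pow (z : PadicAlgCl p) {a b c : ℕ} (h : a + b = c) :
    (z ^ p ^ a) ^ p ^ b = z ^ p ^ c := by
  rw [← pow_mul, ← pow_add, h]

theorem StepB_prim {ζ : PadicAlgCl p} {N : ℕ} (h : IsPrimitiveRoot ζ (p ^ N)) (hN : 1 ≤ N) :
    IsPrimitiveRoot (ζ ^ p ^ (N - 1)) p :=
  h.pow (pow_pos (Fact.out : p.Prime).pos N) (by rw [← pow_succ, Nat.sub_add_cancel hN])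

theorem StepB_zeta (U : Ultrafilter ι) (K0 : IntermediateField ℚ_[p] (PadicAlgCl p))
    [FiniteDimensional ℚ_[p] K0] {N M x : ι → ℕ} {ζ : ι → PadicAlgCl p}
    (hζ : ∀ n, IsPrimitiveRoot (ζ n) (p ^ N n)) (hM : Tendsto M U atTop)
    (h : ∀ᶠ n in U, x n + 1 + M n = N n) :
    vG U (gm U fun n => ζ n ^ p ^ x n) = 1 ∧
      ((gm U fun n => ζ n ^ p ^ x n) ^ p ∈ GS U fun n => K0 ⊔ Cyc p (M n)) ∧
      Ort (vG U) p (GS U fun n => K0 ⊔ Cyc p (M n)) (gm U fun n => ζ n ^ p ^ x n) := by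
  have h0 (n : ι) (i : ℕ) : PR ((ζ n ^ p ^ x n) ^ i) := ⟨N n, by
    rw [← pow_mul, ← pow_mul, mul_comm, mul_comm i, mul_assoc, pow_mul, (hζ n).pow_eq_one, one_pow]⟩
  refine ⟨StepB_one U fun n => fin_norm (by simpa using (h0 n 1).fin), ?_, fun c hc i q => ?_⟩
  · rw [← Seq2_pow, gm_mem]
    refine h.mono fun n hn => (le_sup_right : _ ≤ K0 ⊔ Cyc p (M n)) (mem_Cyc ?_)
    rw [← pow_mul (ζ n), ← pow_succ, StepB_pow _ hn, (hζ n).pow_eq_one]
  · have h1 := orth_germ U K0 hM (fun n (i : Fin p) => (ζ n ^ p ^ x n) ^ (i : ℕ))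
      (fun n i => h0 n i) (fun i i' hi => h.mono fun n hn k => hi ?_) c hc i q
    · simpa only [Seq2_pow] using h1
    · have h2 := StepB_prim (hζ n) (by omega)
      have h3 (l : ℕ) : ((ζ n ^ p ^ x n) ^ l) ^ p ^ M n = (ζ n ^ p ^ (N n - 1)) ^ l := by
        rw [pow_right_comm, StepB_pow _ (show x n + M n = N n - 1 by omega)]
      rw [div_pow, h3, h3, div_eq_one_iff_eq (pow_ne_zero _ (h2.ne_zero
        (Fact.out : p.Prime).ne_zero))] at k
      exact Fin.ext (h2.pow_inj i.2 i'.2 k)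

theorem stepB (hL : IsLog L) (U : Ultrafilter ι) (K0 : IntermediateField ℚ_[p] (PadicAlgCl p))
    [FiniteDimensional ℚ_[p] K0] {m : ℕ} {X : ι → Fin m → PadicAlgCl p} {N m0 : ι → ℕ}
    (hX : ∀ n d, X n d ^ p ^ N n = 1) (hgen : Gen U X N) (hgap : ∀ c, ∀ᶠ n in U, m0 n + c ≤ N n)
    {Q S : Type} [Fintype Q] [Fintype S] (c a : Q → S → GF p U) (e : Q → S → Fin m → ℤ)
    (hc : ∀ i s, (c i s ∈ GS U fun n => K0 ⊔ Cyc p (m0 n)) ∧ vG U (c i s) ≤ 1 ∧
      a i s = c i s * ∏ d, (gm U fun n => X n d) ^ e i s d)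
    (he : ∀ i, ∃ s, e i s ≠ 0) (hP : ∀ i, ¬ Sm (vG U) p (∑ s, a i s))
    (hz : ∀ (lam : Q → S → ℕ) (σ : Q → ℕ), (∀ i s, e i s = 0 → lam i s = 0) →
      (∀ i, ∃ s, ¬ p ∣ lam i s) → ∀ c0 < p, ∀ c' : Q → ℕ, (∀ i, c' i < p) → c' ≠ 0 →
      ¬ Sm (vG U) p (zc p a lam σ c0 c')) :
    ∃ (M M' : ι → ℕ) (ϖ : GF p U) (T t : Q → GF p U) (tt : Q → ℕ),
      (∀ᶠ n in U, m0 n ≤ M n ∧ M n ≤ M' n) ∧ Tendsto M U atTop ∧
      (∀ c, ∀ᶠ n in U, M' n + c ≤ N n) ∧
      ((ϖ ∈ GS U fun n => K0 ⊔ Cyc p (M n)) ∧ ϖ ≠ 0 ∧ Inf (vG U) (vG U (p : GF p U)) ϖ) ∧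
      SI (vG U) (GS U fun n => K0 ⊔ Cyc p (M n)) (vG U (p : GF p U)) T ∧
      ∀ i, vG U (T i) ≤ 1 ∧ (t i ∈ GS U fun n => K0 ⊔ Cyc p (M' n)) ∧
        Inf (vG U) (vG U (p : GF p U)) (T i - t i) ∧
        p ^ tt i * T i - ϖ * LG U L (∑ s, a i s) ∈ GS U fun n => K0 ⊔ Cyc p (M n) := by
  classical
  have hN : Tendsto N U atTop := tendsto_atTop.2 fun c => (hgap c).mono fun n h => by omega
  have hG : Tendsto (fun n => N n - m0 n) U atTop :=
    tendsto_atTop.2 fun c => (hgap c).mono fun n h => by omega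
  choose ζ0 hζ0 using fun n => exists_prim p (N n)
  choose tt lam hl0 hl1 hl2 using fun i => levels U hX hgen hN hζ0 (e i) (he i)
  let w : Q ⊕ {x : Fin p × (Q → Fin p) // (fun i => (x.2 i : ℕ)) ≠ 0} → GF p U :=
    Sum.elim (fun i => ∑ s, a i s) fun x =>
      zc p a lam (fun i => Finset.univ.sup tt - tt i) x.1.1 fun i => x.1.2 i
  choose z hzw using fun b => gm_surj U (w b)
  obtain ⟨j, hj, hj3, hjs⟩ := slow U z (fun b => by
    rw [hzw]
    rcases b with i | x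
    · exact hP i
    · exact hz lam _ hl0 hl1 _ x.1.1.2 _ (fun i => (x.1.2 i).2) x.2) hG
  have ev (k : ℕ) : ∀ᶠ n in U, m0 n + 3 * j n ≤ N n ∧ k ≤ j n :=
    ((hgap 0).and (hj.eventually_ge_atTop k)).mono fun n h =>
      ⟨by have := hj3 n; omega, h.2⟩
  have hM (k : ℕ) : Tendsto (fun n => N n - 2 * j n + k) U atTop :=
    tendsto_atTop.2 fun c => (ev c).mono fun n h => by omega
  choose Fr hFr1 hFr2 using fun k => exists_frob (p := p) U fun n => 2 * j n - k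
  obtain ⟨Fi, hFi1, hFi2⟩ := exists_frob (p := p) U j
  choose f hf1 hf2 using fun i s => GS_rep U (hc i s).1
  have ha (i s) : a i s = gm U fun n => f i s n * ∏ d, X n d ^ e i s d := by
    rw [(hc i s).2.2, Seq2_mul, hf2, Seq2_prod]
    simp only [StepB_zpow]
  have hy (i s n) : (∏ d, X n d ^ e i s d) ^ p ^ N n = 1 := prod_zpow_pow _ (hX n) _
  have hle {n k : ℕ} (h : n ≤ k) : K0 ⊔ Cyc p n ≤ K0 ⊔ Cyc p k := sup_le_sup_left (Cyc_mono h) _
  have hp0 : (p : PadicAlgCl p) ≠ 0 := Nat.cast_ne_zero.2 (Fact.out : p.Prime).ne_zero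
  obtain ⟨T, t', h1, h2⟩ := stepB1 (fun k => GS U fun n => K0 ⊔ Cyc p (N n - 2 * j n + k))
    (fun k => lf_germ U hL _)
    (fun k k' h => GS_mono U (Eventually.of_forall fun n => hle (by omega))) (tail_germ U hL)
    (lf_germ U hL fun n => K0 ⊔ Cyc p (N n - j n))
    (GS_mono U (Eventually.of_forall fun n => hle (by omega)))
    (fun k => gm U fun n => ζ0 n ^ p ^ (2 * j n - k - 1))
    (fun k => StepB_zeta U K0 hζ0 (hM k) ((ev (k + 1)).mono fun n h => by omega)) Fr hFr2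
    (fun k y => by
      obtain ⟨g, rfl⟩ := gm_surj U y
      rw [hFr1, hFr1, ← Seq2_pow, gm_eq]
      refine (ev (k + 1)).mono fun n h => ?_
      rw [← pow_mul, ← pow_succ, show 2 * j n - (k + 1) + 1 = 2 * j n - k by omega])
    Fi hFi2 (ϖ := gm U fun n => (p : PadicAlgCl p) ^ (2 * j n))
    (ϖ' := gm U fun n => (p : PadicAlgCl p) ^ j n)
    (fun y hy => by
      obtain ⟨g, rfl⟩ := gm_surj U y
      rw [hFr1, hFi1, LG_gm, LG_gm, LG_gm, ← Seq2_mul, ← Seq2_mul, gm_eq, gm_eq]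
      refine ⟨((gm_ne U).1 hy).mono fun n h => ?_, ((gm_ne U).1 hy).mono fun n h => ?_⟩
      · rw [log_pow hL h, Nat.cast_pow, Nat.sub_zero]
      · rw [log_pow hL h, Nat.cast_pow, ← mul_assoc, ← pow_add, two_mul])
    ⟨(gm_mem U).2 (Eventually.of_forall fun n => pow_mem (natCast_mem _ p) _), StepB_inf U hj⟩ a
    (fun i s => by
      rw [ha, Seq2_mul, map_mul, hf2, StepB_one U fun n =>
        fin_norm (PR.fin ⟨_, hy i s n⟩), mul_one]
      exact (hc i s).2.1)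
    tt lam
    (fun i s k => by
      refine ⟨gm U fun n => f i s n ^ p ^ (2 * j n - (k + 1 + tt i)) *
        ((∏ d, X n d ^ e i s d) ^ p ^ (2 * j n - (k + 1 + tt i)) /
          (ζ0 n ^ p ^ (2 * j n - k - 1)) ^ lam i s), (gm_mem U).2 ?_, ?_⟩
      · refine ((ev (k + 1 + tt i)).and (hl2 i)).mono fun n h => mul_mem
          (pow_mem (hle (by omega) (hf1 i s n)) _)
          ((le_sup_right : _ ≤ K0 ⊔ Cyc p _) (mem_Cyc ?_))
        rw [div_pow, StepB_pow _ (c := N n - tt i - 1) (by omega), h.2 s,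
          pow_right_comm _ (lam i s) (p ^ _), StepB_pow _ (c := N n - 1) (by omega)]
        exact div_self (pow_ne_zero _ (pow_ne_zero _ ((hζ0 n).ne_zero
          (pow_ne_zero _ (Fact.out : p.Prime).ne_zero))))
      · rw [ha, hFr1, ← Seq2_pow, ← Seq2_mul]
        refine congrArg _ (funext fun n => ?_)
        rw [mul_assoc, div_mul_cancel₀ _ (pow_ne_zero _ (pow_ne_zero _ ((hζ0 n).ne_zero
          (pow_ne_zero _ (Fact.out : p.Prime).ne_zero)))), mul_pow])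
    (fun i s => by
      rw [ha, hFi1, gm_mem]
      refine (ev 0).mono fun n h => ?_
      rw [mul_pow]
      refine mul_mem (pow_mem (hle (by omega) (hf1 i s n)) _)
        ((le_sup_right : _ ≤ K0 ⊔ Cyc p _) (mem_Cyc ?_))
      rw [StepB_pow _ (c := N n) (by omega), hy])
    (fun i => by
      have h0 : ∑ s, a i s = gm U (z (.inl i)) := (hzw (.inl i)).symm
      rw [h0, hFr1, hFi1]
      exact ⟨hjs _ _ fun n => by omega, hjs _ _ fun n => by omega⟩)
    (Finset.univ.sup tt) (fun i => Finset.le_sup (Finset.mem_univ i))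
    (fun c0 h0 c' h1 h2 => by
      have h3 : zc p a lam (fun i => Finset.univ.sup tt - tt i) c0 c' =
          gm U (z (.inr ⟨(⟨c0, h0⟩, fun i => ⟨c' i, h1 i⟩), h2⟩)) :=
        (hzw (.inr ⟨(⟨c0, h0⟩, fun i => ⟨c' i, h1 i⟩), h2⟩)).symm
      rw [h3, hFr1]
      exact hjs _ _ fun n => by omega)
  refine ⟨fun n => N n - 2 * j n, fun n => N n - j n, _, T, t', tt,
    (ev 0).mono fun n h => by beta_reduce; omega, hM 0,
    fun c => (ev c).mono fun n h => by beta_reduce; omega,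
    ⟨(gm_mem U).2 (Eventually.of_forall fun n => pow_mem (natCast_mem _ p) _),
      (gm_ne U).2 (Eventually.of_forall fun n => pow_ne_zero _ hp0),
      StepB_inf U (tendsto_atTop.2 fun c => (ev c).mono fun n h => by omega)⟩, h1, h2⟩

end Pool.Agent.Work.MP_dd0d16_nt.T
end

-- merged part: Pool.Agent.Work.MP_dd0d16_nt.G.Lev
section
/-!
The dichotomy for the top level.
-/

set_option autoImplicit false

namespace Pool.Agent.Work.MP_dd0d16_nt.T

open Filter MvPolynomial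

variable {p : ℕ} [Fact p.Prime] {ι : Type} {L : PadicAlgCl p → PadicAlgCl p}

theorem germ_fin (hL : IsLog L) (U : Ultrafilter ι) {x : ι → PadicAlgCl p}
    (hx : ∀ n, IsOfFinOrder (x n)) :
    gm U x ≠ 0 ∧ vG U (gm U x) = 1 ∧ LG U L (gm U x) = 0 := by
  refine ⟨(gm_ne U).2 (Eventually.of_forall fun n => fin_ne (hx n)), le_antisymm
    ((vG_le_one U _).2 (Eventually.of_forall fun n => (fin_norm (hx n)).le)) ?_, ?_⟩
  · have h := (vG_le U 1 x).2 (Eventually.of_forall fun n => by simp [fin_norm (hx n)])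
    rwa [map_one, map_one] at h
  · rw [LG_gm]
    simp only [log_fin hL (hx _)]
    exact map_zero (gm U)

theorem lev (hL : IsLog L) (U : Ultrafilter ι) (K0 : IntermediateField ℚ_[p] (PadicAlgCl p))
    [FiniteDimensional ℚ_[p] K0] {m : ℕ} {X : ι → Fin m → PadicAlgCl p} {N m0 : ι → ℕ}
    (hX : ∀ n d, X n d ^ p ^ N n = 1) (hgen : Gen U X N) (hgap : ∀ c, ∀ᶠ n in U, m0 n + c ≤ N n)
    {I : Type} [Fintype I] (α : I → GF p U) (hα : ∀ k, α k ≠ 0)
    (f : I → MvPolynomial (Fin m) (GS U fun n => K0 ⊔ Cyc p (m0 n))) (N0 : ℕ)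
    (hf : ∀ k, aeval (fun d => gm U fun n => X n d) (f k) =
      α k * ∏ d, (gm U fun n => X n d) ^ N0) :
    ∃ M : ι → ℕ, (∀ᶠ n in U, m0 n ≤ M n) ∧ Tendsto M U atTop ∧
      Dic (LG U L) (GS U fun n => K0 ⊔ Cyc p (M n)) (fun d => gm U fun n => X n d) α := by
  have hX' : ∀ n d, PR (X n d) := fun n d => ⟨_, hX n d⟩
  have hG := fun d => germ_fin hL U fun n => (hX' n d).fin
  have hF := lf_germ U hL fun n => K0 ⊔ Cyc p (m0 n)
  have hN : ∏ d, (gm U fun n => X n d) ^ N0 ≠ 0 :=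
    Finset.prod_ne_zero_iff.2 fun d _ => pow_ne_zero _ (hG d).1
  obtain ⟨Q, S, _, _, c, a, e, o, κ, u, ω, h1, h2, h3, h4, h5⟩ := factor hF.p0 hF.p1
    (fun d => (hG d).2.1) (ssi_germ U K0 hX' hgen hgap) f fun k hk =>
      mul_ne_zero (hα k) hN (by rw [← hf, hk, map_zero])
  obtain ⟨M, M', ϖ, T, t, tt, k1, k2, k3, k4, k5, k6⟩ :=
    stepB hL U K0 hX hgen hgap c a e h1 h2 h3 h5
  have l1 : (GS U fun n => K0 ⊔ Cyc p (m0 n)) ≤ GS U fun n => K0 ⊔ Cyc p (M n) :=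
    GS_mono U (k1.mono fun n hn => sup_le_sup_left (Cyc_mono hn.1) _)
  have l2 : (GS U fun n => K0 ⊔ Cyc p (M n)) ≤ GS U fun n => K0 ⊔ Cyc p (M' n) :=
    GS_mono U (k1.mono fun n hn => sup_le_sup_left (Cyc_mono hn.2) _)
  set C := Subfield.closure (((GS U fun n => K0 ⊔ Cyc p (M n) : Subfield (GF p U)) :
    Set (GF p U)) ∪ Set.range fun d => gm U fun n => X n d)
  have c1 : ∀ z ∈ GS U fun n => K0 ⊔ Cyc p (m0 n), z ∈ C := fun z hz =>
    Subfield.subset_closure (Or.inl (l1 hz))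
  have c2 : ∀ d, (gm U fun n => X n d) ∈ C := fun d => Subfield.subset_closure (Or.inr ⟨d, rfl⟩)
  refine ⟨M, k1.mono fun n hn => hn.1, k2, stepC (lf_germ U hL _) (lf_germ U hL _) l2
    (tail_germ U hL) _ (fun d => (hG d).2) (ssi_germ U K0 hX' hgen k3) (fun i => ∑ s, a i s) T t tt
    k4 (fun i => ⟨not_sm_ne (h3 i), sum_mem fun s _ => ?_⟩) k5 k6 α u κ o
    (fun k d => ω k d - N0) (fun k => ⟨l1 (h4 k).1, (h4 k).2.1, (h4 k).2.2.1, ?_⟩) fun k => ?_⟩
  · rw [(h1 i s).2.2]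
    exact mul_mem (c1 _ (h1 i s).1) (prod_mem fun d _ => zpow_mem (c2 d) _)
  · refine mul_right_cancel₀ hN ?_
    rw [← hf, (h4 k).2.2.2]
    simp only [zpow_sub₀ (hG _).1, zpow_natCast, Finset.prod_div_distrib]
    field_simp
  · rw [eq_div_of_mul_eq hN (hf k).symm]
    refine div_mem ?_ (prod_mem fun d _ => pow_mem (c2 d) _)
    rw [aeval_def]
    exact eval₂_mem (fun μ _ => c1 _ ((f k).coeff μ).2) c2

end Pool.Agent.Work.MP_dd0d16_nt.T
end

-- merged part: Pool.Agent.Work.MP_dd0d16_nt.G.Split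
section
/-!
The splitting of the lattice of exponents.

PLAN. `split`: `N n` is least with `∀ d, g n d ^ p ^ N n = 1`. If the first case fails then `N` tends to
infinity. `Λ` is the lattice of `ω` with `∀ c, ∀ᶠ n, (∏ d, g n d ^ ω d) ^ p ^ (N n - c) = 1`; it is saturated
(`k = ± p ^ a * b`, use `c + a`; if `y ^ b = 1` and `y ^ p ^ N = 1` then `y = 1`) and proper (`c = 1`, unit
vectors, minimality of `N n`). `lat_split`; `X1 n k = ∏ d, g n d ^ A k d`, `X2 n k = ∏ d, g n d ^ B k d`,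
`m0 n` least with `∀ k, X2 n k ^ p ^ m0 n = 1` (`Step_zpow` in S/Step for products of powers).
In the bounded case `g n` takes finitely many values (`Polynomial.nthRootsFinset`,
`Ultrafilter.eventually_exists_mem_iff`).
-/

set_option autoImplicit false

namespace Pool.Agent.Work.MP_dd0d16_nt.T

open Filter

variable {p : ℕ} [Fact p.Prime] {ι : Type} (U : Ultrafilter ι)

omit [Fact p.Prime] in
theorem Split_mono {Ω : Type} [Monoid Ω] {z : Ω} {a b : ℕ} (h : z ^ p ^ a = 1) (hab : a ≤ b) :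
    z ^ p ^ b = 1 := by
  obtain ⟨c, rfl⟩ := Nat.exists_eq_add_of_le hab
  rw [pow_add, pow_mul, h, one_pow]

section

variable {Ω τ : Type} [Field Ω] [Fintype τ] {x : τ → Ω}

theorem Split_add (hx : ∀ d, x d ≠ 0) (ω ω' : τ → ℤ) :
    ∏ d, x d ^ (ω + ω') d = (∏ d, x d ^ ω d) * ∏ d, x d ^ ω' d := by
  rw [← Finset.prod_mul_distrib]
  exact Finset.prod_congr rfl fun d _ => zpow_add₀ (hx d) _ _

theorem Split_smul (k : ℤ) (ω : τ → ℤ) : ∏ d, x d ^ (k • ω) d = (∏ d, x d ^ ω d) ^ k := by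
  rw [← Finset.prod_zpow]
  exact Finset.prod_congr rfl fun d _ => by rw [Pi.smul_apply, smul_eq_mul, mul_comm, zpow_mul]

theorem Split_sum {κ : Type} [Fintype κ] (hx : ∀ d, x d ≠ 0) (A : κ → τ → ℤ) (r : κ → ℤ) :
    ∏ d, x d ^ (∑ k, r k • A k) d = ∏ k, (∏ d, x d ^ A k d) ^ r k := by
  rw [Step_zpow hx]
  refine Finset.prod_congr rfl fun d _ => ?_
  rw [Finset.sum_apply]
  exact congrArg _ (Finset.sum_congr rfl fun k _ => mul_comm _ _)

theorem Split_single [DecidableEq τ] (d : τ) : ∏ e, x e ^ (Pi.single d 1 : τ → ℤ) e = x d := by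
  rw [Finset.prod_eq_single d (fun e _ he => by rw [Pi.single_eq_of_ne he, zpow_zero])
    fun h => absurd (Finset.mem_univ d) h, Pi.single_eq_same, zpow_one]

theorem Split_comm (z : Ω) (k : ℤ) (q : ℕ) : (z ^ k) ^ q = (z ^ q) ^ k := by
  rw [← zpow_natCast, ← zpow_mul, mul_comm, zpow_mul, zpow_natCast]

theorem Split_sat {z : Ω} {k : ℤ} {a b c N : ℕ} (hk : k.natAbs = p ^ a * b) (hb : ¬ p ∣ b)
    (hN : c + a ≤ N) (h1 : z ^ p ^ N = 1) (h2 : (z ^ k) ^ p ^ (N - (c + a)) = 1) :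
    z ^ p ^ (N - c) = 1 := by
  rw [Split_comm] at h2
  have h3 : (z ^ p ^ (N - (c + a))) ^ k.natAbs = 1 := by
    rcases Int.natAbs_eq k with e | e <;> rw [e] at h2
    · exact (zpow_natCast _ _).symm.trans h2
    · rwa [zpow_neg, inv_eq_one, zpow_natCast] at h2
  rw [hk, pow_mul, ← pow_mul z, ← pow_add, show N - (c + a) + a = N - c by omega] at h3
  have h4 : (z ^ p ^ (N - c)) ^ p ^ N = 1 := by rw [pow_right_comm, h1, one_pow]
  exact (pow_eq_one_iff_of_coprime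
    (((Nat.Prime.coprime_iff_not_dvd Fact.out).2 hb).pow_left N)).1 ⟨h4, h3⟩

end

theorem split {m : ℕ} (g : ι → Fin m → PadicAlgCl p) (hg : ∀ n d, PR (g n d)) :
    (∃ g0 : Fin m → PadicAlgCl p, (∀ d, PR (g0 d)) ∧ ∀ᶠ n in U, g n = g0) ∨
    ∃ (m1 m2 : ℕ) (N m0 : ι → ℕ) (X1 : ι → Fin m1 → PadicAlgCl p) (X2 : ι → Fin m2 → PadicAlgCl p)
      (A : Fin m → Fin m1 → ℤ) (B : Fin m → Fin m2 → ℤ), m2 < m ∧
      (∀ n k, X1 n k ^ p ^ N n = 1) ∧ (∀ n k, X2 n k ^ p ^ m0 n = 1) ∧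
      (∀ c, ∀ᶠ n in U, m0 n + c ≤ N n) ∧ Gen U X1 N ∧
      (∀ n d, g n d = (∏ k, X1 n k ^ A d k) * ∏ k, X2 n k ^ B d k) ∧
      ∀ (n : ι) (F : IntermediateField ℚ_[p] (PadicAlgCl p)), (∀ d, g n d ∈ F) →
        (∀ k, X1 n k ∈ F) ∧ ∀ k, X2 n k ∈ F := by
  classical
  have hp : p.Prime := Fact.out
  have g0 : ∀ n d, g n d ≠ 0 := fun n d => fin_ne (hg n d).fin
  have hex : ∀ n, ∃ a, ∀ d, g n d ^ p ^ a = 1 := fun n => by
    choose a ha using hg n
    exact ⟨Finset.univ.sup a, fun d => Split_mono (ha d) (Finset.le_sup (Finset.mem_univ d))⟩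
  obtain ⟨N, hN, hmin⟩ : ∃ N : ι → ℕ, (∀ n d, g n d ^ p ^ N n = 1) ∧
      ∀ n a, (∀ d, g n d ^ p ^ a = 1) → N n ≤ a :=
    ⟨fun n => Nat.find (hex n), fun n => Nat.find_spec (hex n), fun n _ => Nat.find_min' (hex n)⟩
  by_cases hb : ∃ K, ∀ᶠ n in U, N n ≤ K
  · obtain ⟨K, hK⟩ := hb
    have h1 : ∀ᶠ n in U, ∃ y ∈ (Fintype.piFinset fun _ : Fin m =>
        Polynomial.nthRootsFinset (p ^ K) (1 : PadicAlgCl p) : Set _), g n = y :=
      hK.mono fun n hn => ⟨g n, Finset.mem_coe.2 (Fintype.mem_piFinset.2 fun d =>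
        (Polynomial.mem_nthRootsFinset (pow_pos hp.pos K) 1).2 (Split_mono (hN n d) hn)), rfl⟩
    obtain ⟨y, -, hy⟩ := (Ultrafilter.eventually_exists_mem_iff (Finset.finite_toSet _)).1 h1
    obtain ⟨n, hn⟩ := hy.exists
    exact Or.inl ⟨y, hn ▸ hg n, hy⟩
  have big : ∀ K, ∀ᶠ n in U, K ≤ N n := fun K =>
    (Ultrafilter.eventually_not.2 fun h => hb ⟨K, h⟩).mono fun n hn => (not_le.1 hn).le
  let Λ : Submodule ℤ (Fin m → ℤ) :=
    { carrier := {ω | ∀ c, ∀ᶠ n in U, (∏ d, g n d ^ ω d) ^ p ^ (N n - c) = 1}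
      add_mem' := fun {ω ω'} h h' c => ((h c).and (h' c)).mono fun n hn => by
        rw [Split_add (g0 n), mul_pow, hn.1, hn.2, one_mul]
      zero_mem' := fun c => Eventually.of_forall fun n => by simp
      smul_mem' := fun k ω h c => (h c).mono fun n hn => by
        rw [Split_smul, Split_comm, hn, one_zpow] }
  have mem : ∀ ω, ω ∈ Λ ↔ ∀ c, ∀ᶠ n in U, (∏ d, g n d ^ ω d) ^ p ^ (N n - c) = 1 :=
    fun _ => Iff.rfl
  have hsat : ∀ (k : ℤ) (x : Fin m → ℤ), k ≠ 0 → k • x ∈ Λ → x ∈ Λ := fun k x hk h c => by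
    obtain ⟨a, b, hb', e⟩ := Nat.exists_eq_pow_mul_and_not_dvd (Int.natAbs_ne_zero.2 hk) p hp.ne_one
    filter_upwards [(mem _).1 h (c + a), big (c + a)] with n h1 h2
    rw [Split_smul] at h1
    exact Split_sat e hb' h2 (prod_zpow_pow _ (hN n) x) h1
  have hne : Λ ≠ ⊤ := fun h => by
    have h1 : ∀ d, ∀ᶠ n in U, g n d ^ p ^ (N n - 1) = 1 := fun d =>
      ((mem (Pi.single d 1)).1 (h ▸ Submodule.mem_top) 1).mono fun n hn => by
        rwa [Split_single] at hn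
    obtain ⟨n, h2, h3⟩ := ((eventually_all.2 h1).and (big 1)).exists
    have := hmin n _ h2
    omega
  obtain ⟨m1, m2, A, B, hm, hB, hA, hx⟩ := lat_split Λ hsat hne
  choose a b hab using fun d : Fin m => hx (Pi.single d 1)
  have hex' : ∀ n, ∃ e, ∀ k, (∏ d, g n d ^ B k d) ^ p ^ e = 1 := fun n =>
    ⟨N n, fun k => prod_zpow_pow _ (hN n) _⟩
  refine Or.inr ⟨m1, m2, N, fun n => Nat.find (hex' n), fun n k => ∏ d, g n d ^ A k d,
    fun n k => ∏ d, g n d ^ B k d, a, b, hm, fun n k => prod_zpow_pow _ (hN n) _,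
    fun n => Nat.find_spec (hex' n), fun c => ?_, fun ω hω => ?_, fun n d => ?_, fun n F hF =>
      ⟨fun k => prod_mem fun d _ => zpow_mem (hF d) _, fun k => prod_mem fun d _ =>
        zpow_mem (hF d) _⟩⟩
  · filter_upwards [eventually_all.2 fun k => (mem _).1 (hB k) c, big c] with n h1 h2
    have := Nat.find_min' (hex' n) h1
    omega
  · obtain ⟨c, hc⟩ := not_forall.1 fun h => hω (hA ω ((mem _).2 h))
    exact ⟨c, (Ultrafilter.eventually_not.2 hc).mono fun n hn => by rwa [Split_sum (g0 n)] at hn⟩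
  · rw [← Split_sum (g0 n), ← Split_sum (g0 n), ← Split_add (g0 n), ← hab, Split_single]

end Pool.Agent.Work.MP_dd0d16_nt.T
end

-- merged part: Pool.Agent.Work.MP_dd0d16_nt.G.Dich3
section
/-!
The dichotomy for arbitrary roots of unity.
-/

set_option autoImplicit false

namespace Pool.Agent.Work.MP_dd0d16_nt.T

open Filter MvPolynomial

variable {p : ℕ} [Fact p.Prime] {ι : Type} {L : PadicAlgCl p → PadicAlgCl p}

theorem shift_exp {J σ : Type} [Fintype J] [Fintype σ] (e : J → σ → ℤ) :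
    ∃ (N0 : ℕ) (e' : J → σ →₀ ℕ), ∀ j d, (e' j d : ℤ) = e j d + N0 := by
  obtain ⟨N, hN⟩ := (Set.finite_range fun q : J × σ => (e q.1 q.2).natAbs).bddAbove
  refine ⟨N, fun j => Finsupp.equivFunOnFinite.symm fun d => (e j d + N).toNat, fun j d => ?_⟩
  have := hN ⟨(j, d), rfl⟩
  simp only [Finsupp.equivFunOnFinite_symm_apply_apply] at this ⊢
  omega

theorem shift_prod {K σ : Type} [Field K] [Fintype σ] {x : σ → K} (hx : ∀ d, x d ≠ 0) {e : σ → ℤ}
    {e' : σ → ℕ} {N0 : ℕ} (h : ∀ d, (e' d : ℤ) = e d + N0) :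
    (∏ d, x d ^ e d) * ∏ d, x d ^ N0 = ∏ d, x d ^ e' d := by
  rw [← Finset.prod_mul_distrib]
  exact Finset.prod_congr rfl fun d _ => by
    rw [← zpow_natCast, ← zpow_natCast, ← zpow_add₀ (hx d), h]

/-- The conclusion of the dichotomy. -/
def Concl (L : PadicAlgCl p → PadicAlgCl p) (U : Ultrafilter ι)
    (K0 : IntermediateField ℚ_[p] (PadicAlgCl p)) {J I : Type} [Fintype J] {m : ℕ}
    (g : ι → Fin m → PadicAlgCl p) (ζ : ι → J → PadicAlgCl p) (t : ι → I → J → PadicAlgCl p) :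
    Prop :=
  ∃ (τ : Type) (_ : Fintype τ) (x : ι → τ → PadicAlgCl p) (η : J → PadicAlgCl p)
    (e : J → τ → ℤ) (K1 : IntermediateField ℚ_[p] (PadicAlgCl p)), FiniteDimensional ℚ_[p] K1 ∧
    K0 ≤ K1 ∧ K1 ≤ K0 ⊔ Ab p ∧ (∀ j, η j ∈ K1) ∧ (∀ n d, IsOfFinOrder (x n d)) ∧
    (∀ (n : ι) (F : IntermediateField ℚ_[p] (PadicAlgCl p)), Unr p ≤ F → (∀ d, g n d ∈ F) →
      ∀ d, x n d ∈ F) ∧
    (∀ᶠ n in U, ∀ j, ζ n j = η j * ∏ d, x n d ^ e j d) ∧
    Dic (LG U L) (GS U fun _ => K1) (fun d => gm U fun n => x n d)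
      fun i => gm U fun n => ∑ j, t n i j * ζ n j

theorem dich3_base (hL : IsLog L) (U : Ultrafilter ι) (K0 : IntermediateField ℚ_[p] (PadicAlgCl p))
    [FiniteDimensional ℚ_[p] K0] {J I : Type} [Fintype J] [Fintype I] {m : ℕ}
    (g : ι → Fin m → PadicAlgCl p) (ω : ι → J → PadicAlgCl p) (hω : ∀ n j, Root (ω n j))
    (η0 : J → PadicAlgCl p) (hη0 : ∀ j, IsOfFinOrder (η0 j)) (ζ : ι → J → PadicAlgCl p)
    (hζ : ∀ᶠ n in U, ∀ j, ζ n j = ω n j * η0 j) (t : ι → I → J → PadicAlgCl p)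
    (ht : ∀ n i j, t n i j ∈ K0) (hα0 : ∀ᶠ n in U, ∀ i, ∑ j, t n i j * ζ n j ≠ 0) :
    Concl L U K0 g ζ t := by
  have := IntermediateField.finiteDimensional_adjoin (K := ℚ_[p]) (S := Set.range η0)
    fun x _ => Algebra.IsIntegral.isIntegral x
  have h1 : ∀ j, η0 j ∈ K0 ⊔ IntermediateField.adjoin ℚ_[p] (Set.range η0) := fun j =>
    (le_sup_right : IntermediateField.adjoin ℚ_[p] (Set.range η0) ≤ _)
      (IntermediateField.subset_adjoin _ _ ⟨j, rfl⟩)
  have h2 : ∀ᶠ n in U, ∀ i, ∑ j, t n i j * ζ n j = ∑ j, t n i j * η0 j * ω n j :=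
    hζ.mono fun n hn i => Finset.sum_congr rfl fun j _ => by rw [hn]; ring
  obtain ⟨m', x, η, e, N0, K1, fd, k1, k2, k3, k4, -, k5, k6⟩ := dich hL U ω hω
    (K0 ⊔ IntermediateField.adjoin ℚ_[p] (Set.range η0)) (fun n i j => t n i j * η0 j)
    (fun n i j => mul_mem (le_sup_left (a := K0) (ht n i j)) (h1 j))
    ((h2.and hα0).mono fun n hn i => hn.1 i ▸ hn.2 i)
    (fun i => gm U fun n => ∑ j, t n i j * ζ n j) fun i => (gm_eq U).2 (h2.mono fun n hn => hn i)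
  refine ⟨Fin m', inferInstance, x, fun j => η j * η0 j, fun j d => e j d - N0, K1, fd,
    le_sup_left.trans k1, k2.trans (sup_le (le_sup_of_le_right
      ((Unr_le_Cyc 0).trans (Cyc_le_Ab 0))) (sup_le_sup_left ?_ _)),
    fun j => mul_mem (k3 j) (k1 (h1 j)), fun n d => (k4 n d).fin,
    fun n F hF _ d => hF (Seq2_unr (k4 n d)), (hζ.and k5).mono fun n hn j => ?_, k6⟩
  · refine IntermediateField.adjoin_le_iff.2 ?_
    rintro _ ⟨j, rfl⟩
    exact mem_Ab (hη0 j)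
  · refine mul_right_cancel₀ (Root.prod_pow Finset.univ (k4 n) fun _ => N0).ne_zero ?_
    rw [hn.1, mul_right_comm, hn.2, mul_assoc (η j * η0 j),
      shift_prod (fun d => (k4 n d).ne_zero) (e' := e j) fun d => by ring, mul_right_comm]

theorem dich3 (hL : IsLog L) (U : Ultrafilter ι) (K0 : IntermediateField ℚ_[p] (PadicAlgCl p))
    [FiniteDimensional ℚ_[p] K0] {J I : Type} [Fintype J] [Fintype I] (m : ℕ)
    (g : ι → Fin m → PadicAlgCl p) (hg : ∀ n d, PR (g n d)) (ω : ι → J → PadicAlgCl p)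
    (hω : ∀ n j, Root (ω n j)) (e0 : J → Fin m → ℤ) (ζ : ι → J → PadicAlgCl p)
    (hζ : ∀ n j, ζ n j = ω n j * ∏ d, g n d ^ e0 j d) (t : ι → I → J → PadicAlgCl p)
    (ht : ∀ n i j, t n i j ∈ K0) (hα0 : ∀ᶠ n in U, ∀ i, ∑ j, t n i j * ζ n j ≠ 0) :
    Concl L U K0 g ζ t := by
  classical
  induction m using Nat.strong_induction_on generalizing ζ t with
  | _ m ih =>
  rcases split U g hg with ⟨g0, h1, h2⟩ | ⟨m1, m2, N, m0, X1, X2, A, B, hm, h1, h2, h3, h4, h5, h6⟩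
  · exact dich3_base hL U K0 g ω hω (fun j => ∏ d, g0 d ^ e0 j d)
      (fun j => (PR.prod_zpow _ h1 _).fin) ζ (h2.mono fun n hn j => by rw [hζ, hn]) t ht hα0
  have p1 : ∀ n k, PR (X1 n k) := fun n k => ⟨_, h1 n k⟩
  have p2 : ∀ n k, PR (X2 n k) := fun n k => ⟨_, h2 n k⟩
  let ζ' : ι → J → PadicAlgCl p := fun n j => ω n j * ∏ k, X2 n k ^ ∑ d, B d k * e0 j d
  have z1 : ∀ n j, ζ n j = ζ' n j * ∏ k, X1 n k ^ ∑ d, A d k * e0 j d := fun n j => by
    simp only [hζ, h5 n, mul_zpow, Finset.prod_mul_distrib, ζ',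
      Step_zpow fun k => fin_ne (p1 n k).fin, Step_zpow fun k => fin_ne (p2 n k).fin]
    ring
  obtain ⟨N0, e1, he1⟩ := shift_exp fun j k => ∑ d, A d k * e0 j d
  have z2 : ∀ n j, ζ n j * ∏ k, X1 n k ^ N0 = ζ' n j * ∏ k, X1 n k ^ e1 j k := fun n j => by
    rw [z1, mul_assoc, shift_prod (fun k => fin_ne (p1 n k).fin) (he1 j)]
  have z3 : ∀ i j n, t n i j * ζ' n j ∈ K0 ⊔ Cyc p (m0 n) := fun i j n =>
    mul_mem (le_sup_left (a := K0) (ht n i j)) (le_sup_right (b := Cyc p (m0 n))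
      (mul_mem (Unr_le_Cyc _ (Seq2_unr (hω n j)))
        (prod_mem fun k _ => zpow_mem (mem_Cyc (h2 n k)) _)))
  have z4 : ∀ (E : Subfield (GF p U)) (i : I) (c : J → E),
      (∀ j, (c j : GF p U) = gm U fun n => t n i j * ζ' n j) →
      aeval (fun d => gm U fun n => X1 n d) (fp e1 c) =
        (gm U fun n => ∑ j, t n i j * ζ n j) * ∏ d, (gm U fun n => X1 n d) ^ N0 :=
    fun E i c hc => by
      simp only [fp, map_sum, aeval_monomial, Finsupp.prod_pow]
      change ∑ j, (c j : GF p U) * _ = _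
      simp only [hc, ← Seq2_pow, ← Seq2_prod, ← Seq2_mul, ← Seq2_sum, Finset.sum_mul, mul_assoc, z2]
  have a0 : ∀ i, (gm U fun n => ∑ j, t n i j * ζ n j) ≠ 0 := fun i =>
    (gm_ne U).2 (hα0.mono fun n hn => hn i)
  obtain ⟨M, k1, k2, k3⟩ := lev hL U K0 h1 h4 h3 _ a0
    (fun i => fp e1 fun j => ⟨gm U fun n => t n i j * ζ' n j, _, z3 i j, rfl⟩) N0
    fun i => z4 _ i _ fun _ => rfl
  have l1 : (GS U fun n => K0 ⊔ Cyc p (m0 n)) ≤ GS U fun n => K0 ⊔ Cyc p (M n) :=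
    GS_mono U (k1.mono fun n hn => sup_le_sup_left (Cyc_mono hn) _)
  have g1 := fun d => germ_fin hL U fun n => (p1 n d).fin
  obtain ⟨ν, k4, k5⟩ := lead2 _ (fun d => (g1 d).1) k3.algInd
    (fun i => fp e1 fun j => ⟨gm U fun n => t n i j * ζ' n j, l1 ⟨_, z3 i j, rfl⟩⟩) _ a0 N0
    fun i => z4 _ i _ fun _ => rfl
  let t' : ι → I → J → PadicAlgCl p := fun n i j => if e1 j = ν i then t n i j else 0
  have z5 : ∀ i, (((fp e1 fun j => ⟨gm U fun n => t n i j * ζ' n j, l1 ⟨_, z3 i j, rfl⟩⟩ :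
      MvPolynomial (Fin m1) (GS U fun n => K0 ⊔ Cyc p (M n))).coeff (ν i) :
      GS U fun n => K0 ⊔ Cyc p (M n)) : GF p U) = gm U fun n => ∑ j, t' n i j * ζ' n j := by
    intro i
    simp only [fp, t', coeff_sum, coeff_monomial, ite_mul, zero_mul, ← Finset.sum_filter, Seq2_sum,
      AddSubmonoidClass.coe_finsetSum]
  have b0 : ∀ i, (gm U fun n => ∑ j, t' n i j * ζ' n j) ≠ 0 := fun i => by
    rw [← z5]
    exact_mod_cast k4 i
  simp only [z5] at k5
  obtain ⟨τ, _, x, η, e, K1, fd, q1, q2, q3, q4, q5, q6, q7⟩ := ih m2 hm X2 p2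
    (fun j k => ∑ d, B d k * e0 j d) ζ' (fun _ _ => rfl) t' (fun n i j => by
      simp only [t']
      split_ifs
      exacts [ht n i j, zero_mem _]) (eventually_all.2 fun i => (gm_ne U).1 (b0 i))
  have g2 := fun d => germ_fin hL U fun n => q4 n d
  refine ⟨Fin m1 ⊕ τ, inferInstance, fun n => Sum.elim (X1 n) (x n), η,
    fun j => Sum.elim (fun k => ∑ d, A d k * e0 j d) (e j), K1, fd, q1, q2, q3, ?_, ?_,
    q6.mono fun n hn j => ?_, ?_⟩
  · rintro n (d | d)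
    exacts [(p1 n d).fin, q4 n d]
  · rintro n F hF hF' (d | d)
    exacts [(h6 n F hF').1 d, q5 n F hF (h6 n F hF').2 d]
  · rw [z1, hn, Fintype.prod_sum_type]
    simp only [Sum.elim_inl, Sum.elim_inr]
    ring
  · have h7 := tower (lf_germ U hL fun _ => K1) (lf_germ U hL _)
      (GS_mono U (k2.eventually (fin_le_Wn K0 K1 q2))) (fun d => ⟨(g1 d).1, (g1 d).2.2⟩)
      (fun d => ⟨(g2 d).1, (g2 d).2.2⟩) (fun d => (gm_mem U).2 (k1.mono fun n hn => q5 n _
        (le_sup_of_le_right (Unr_le_Cyc _)) (fun k => le_sup_right (b := Cyc p (M n))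
          (Cyc_mono hn (mem_Cyc (h2 n k)))) d)) a0 b0 k3 k5 q7
    convert h7 using 1
    funext d
    cases d <;> rfl

theorem dich4 (hL : IsLog L) (U : Ultrafilter ι) {J I : Type} [Fintype J] [Fintype I] (s : ι → ℕ)
    (ζ : ι → J → PadicAlgCl p) (hζ : ∀ n j, RootS (s n) (ζ n j))
    (K0 : IntermediateField ℚ_[p] (PadicAlgCl p)) [FiniteDimensional ℚ_[p] K0]
    (t : ι → I → J → PadicAlgCl p) (ht : ∀ n i j, t n i j ∈ K0)
    (hα0 : ∀ n i, ∑ j, t n i j * ζ n j ≠ 0) :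
    ∃ (m : ℕ) (x : ι → Fin m → PadicAlgCl p) (η : J → PadicAlgCl p) (e : J → Fin m →₀ ℕ) (N0 : ℕ)
      (K1 : IntermediateField ℚ_[p] (PadicAlgCl p)), FiniteDimensional ℚ_[p] K1 ∧ K0 ≤ K1 ∧
      (∀ j, η j ∈ K1) ∧ (∀ n d, IsOfFinOrder (x n d) ∧ x n d ∈ Cyc p (s n)) ∧
      (∀ᶠ n in U, ∀ j, ζ n j * ∏ d, x n d ^ N0 = η j * ∏ d, x n d ^ e j d) ∧
      Dic (LG U L) (GS U fun _ => K1) (fun d => gm U fun n => x n d)
        fun i => gm U fun n => ∑ j, t n i j * ζ n j := by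
  classical
  choose ω ρ h1 h2 h3 using fun n j => (hζ n j).split
  let a := Fintype.equivFin J
  obtain ⟨τ, _, x, η, e, K1, fd, q1, -, q3, q4, q5, q6, q7⟩ := dich3 hL U K0 _
    (fun n d => ρ n (a.symm d)) (fun n d => ⟨_, h2 n _⟩) ω h1 (fun j => Pi.single (a j) 1) ζ
    (fun n j => by
      rw [h3, Finset.prod_eq_single (a j) (fun d _ hd => by rw [Pi.single_eq_of_ne hd, zpow_zero])
        (by simp), Pi.single_eq_same, zpow_one, a.symm_apply_apply]) t ht
    (Eventually.of_forall hα0)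
  let b := (Fintype.equivFin τ).symm
  obtain ⟨N0, e1, he1⟩ := shift_exp fun j d => e j (b d)
  refine ⟨_, fun n d => x n (b d), η, e1, N0, K1, fd, q1, q3,
    fun n d => ⟨q4 n _, q5 n _ (Unr_le_Cyc _) (fun d => mem_Cyc (h2 n _)) _⟩,
    q6.mono fun n hn j => ?_, q7.reindex b⟩
  rw [hn, mul_assoc, ← b.prod_comp fun d => x n d ^ e j d,
    shift_prod (fun d => fin_ne (q4 n (b d))) (he1 j)]

end Pool.Agent.Work.MP_dd0d16_nt.T
end

-- merged part: Pool.Agent.Work.MP_dd0d16_nt.G.Seq3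
section
/-!
The determinant along an ultrafilter, arbitrary roots of unity.
-/

set_option autoImplicit false

namespace Pool.Agent.Work.MP_dd0d16_nt.T

open Filter MvPolynomial

variable {p : ℕ} [Fact p.Prime] {ι : Type} {L : PadicAlgCl p → PadicAlgCl p}

theorem Seq3_prod {σ : Type} [Fintype σ] {x : σ → PadicAlgCl p} (hx : ∀ d, IsOfFinOrder (x d))
    (e : σ → ℕ) : IsOfFinOrder (∏ d, x d ^ e d) :=
  Finset.prod_induction _ IsOfFinOrder (fun _ _ => IsOfFinOrder.mul) IsOfFinOrder.one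
    fun d _ => (hx d).pow

theorem Seq3_up (U : Ultrafilter ι) (K1 : IntermediateField ℚ_[p] (PadicAlgCl p))
    [FiniteDimensional ℚ_[p] K1] {B0 : ℕ} {s : ι → ℕ} {K : ι → IntermediateField ℚ_[p] (PadicAlgCl p)}
    (hK : ∀ n, Module.rank ℚ_[p] ↥(K n ⊓ Cyc p (s n)) ≤ B0) {σ : Type} [Fintype σ]
    (y : ι → σ → PadicAlgCl p) (hy : ∀ n d, y n d ∈ Cyc p (s n) ⊔ K1)
    (h : AlgebraicIndependent (GS U fun _ => K1) fun s => gm U fun n => y n s) :
    AlgebraicIndependent (GS U K) fun s => gm U fun n => y n s := by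
  obtain ⟨C, hC⟩ := ind_up3 K1 B0
  exact (algInd_iff U K y).2 fun D => ((algInd_iff U _ y).1 h (C * D)).mono fun n hn =>
    hC _ (K n) (Cyc_normal _) (hK n) σ D (y n) (hy n) hn

theorem Seq3_clus (hL : IsLog L) {J I : Type} [Fintype J] {m N0 N : ℕ} {ζ η : J → PadicAlgCl p}
    {x : Fin m → PadicAlgCl p} (hx : ∀ d, IsOfFinOrder (x d)) {e : J → Fin m →₀ ℕ}
    (he : ∀ j, ζ j * ∏ d, x d ^ N0 = η j * ∏ d, x d ^ e j d)
    (hN : ∀ j j', orderOf (η j / η j') ≤ N) (t : I → J → PadicAlgCl p) (k : I) (S : Finset J)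
    (ν : Fin m →₀ ℕ) (hS : ∀ j ∈ S, e j = ν) (h0 : ∑ j ∈ S, t k j * η j ≠ 0) :
    L (∑ j ∈ S, t k j * η j) ∈ L '' Clus N t fun _ => ζ := by
  have r1 := Seq3_prod hx fun _ => N0
  have r2 := Seq3_prod hx ν
  have e1 : (∑ j ∈ S, t k j * ζ j) * ∏ d, x d ^ N0 = (∑ j ∈ S, t k j * η j) * ∏ d, x d ^ ν d := by
    rw [Finset.sum_mul, Finset.sum_mul]
    exact Finset.sum_congr rfl fun j hj => by rw [mul_assoc, he, hS j hj, mul_assoc]
  have h1 : ∑ j ∈ S, t k j * ζ j ≠ 0 := fun h =>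
    mul_ne_zero h0 (fin_ne r2) (by rw [← e1, h, zero_mul])
  refine ⟨_, ⟨h1, k, S, fun j hj j' hj' => ?_, rfl⟩, ?_⟩
  · rw [← mul_div_mul_right _ _ (fin_ne r1), he, he, hS j hj, hS j' hj',
      mul_div_mul_right _ _ (fin_ne r2)]
    exact hN j j'
  · have := congrArg L e1
    rwa [hL.1 _ _ h1 (fin_ne r1), hL.1 _ _ h0 (fin_ne r2), log_fin hL r1, log_fin hL r2, add_zero,
      add_zero] at this

theorem seq3 (hL : IsLog L) (U : Ultrafilter ι) {J I : Type} [Fintype J] [Fintype I] (s : ι → ℕ)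
    (ζ : ι → J → PadicAlgCl p) (hζ : ∀ n j, RootS (s n) (ζ n j))
    (K0 : IntermediateField ℚ_[p] (PadicAlgCl p)) [FiniteDimensional ℚ_[p] K0]
    (t : ι → I → J → PadicAlgCl p) (ht : ∀ n i j, t n i j ∈ K0)
    (hα0 : ∀ n i, ∑ j, t n i j * ζ n j ≠ 0) (B0 : ℕ)
    (K : ι → IntermediateField ℚ_[p] (PadicAlgCl p))
    (hK : ∀ n, Module.rank ℚ_[p] ↥(K n ⊓ Cyc p (s n)) ≤ B0) (A : ι → Fin 2 → Fin 2 → PadicAlgCl p)
    (B : ι → Fin 2 → Fin 2 → I → PadicAlgCl p)
    (hA : ∀ n i i', IsAlgebraic ℚ (A n i i') ∧ Alg' (K n) B0 (ζ n) (A n i i'))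
    (hB : ∀ n i i' k, IsAlgebraic ℚ (B n i i' k) ∧ Alg' (K n) B0 (ζ n) (B n i i' k))
    (M : ι → Fin 2 → Fin 2 → PadicAlgCl p)
    (hM : ∀ n i i', M n i i' = A n i i' + ∑ k, B n i i' k * L (∑ j, t n k j * ζ n j))
    (hdet : ∀ n, M n 0 0 * M n 1 1 = M n 0 1 * M n 1 0) :
    ∃ N : ℕ, ∀ᶠ n in U, Dep (M n) ∨ ∀ i i', M n i i' ∈ Submodule.span
      (algebraicClosure ℚ (PadicAlgCl p)) (insert 1 (L '' Clus N (t n) fun _ => ζ n)) := by
  classical
  obtain ⟨m, x, η, e, N0, K1, fd, h01, hη1, hx, hev, hd⟩ :=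
    dich4 hL U s ζ hζ K0 t ht hα0
  have hX0 : ∀ d, (gm U fun n => x n d) ≠ 0 := fun d =>
    (gm_ne U).2 (Eventually.of_forall fun n => fin_ne (hx n d).1)
  have hX : AlgebraicIndependent (GS U fun _ => K1) fun d => gm U fun n => x n d := by
    rcases hd Empty Empty.elim with ⟨r, hr, -⟩ | h
    · exact absurd (Subsingleton.elim _ _) hr
    · exact h.comp Sum.inl Sum.inl_injective
  have hm : ∀ k j n, t n k j * η j ∈ K1 := fun k j n => mul_mem (h01 (ht n k j)) (hη1 j)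
  let f : I → MvPolynomial (Fin m) (GS U fun _ => K1) := fun k =>
    fp e fun j => ⟨gm U fun n => t n k j * η j, _, hm k j, rfl⟩
  obtain ⟨ν, hν, hr⟩ := lead (lf_germ U hL fun _ => K1).mul (fun d => gm U fun n => x n d)
    (fun d => ⟨hX0 d, by
      simp only [LG_gm, log_fin hL (hx _ d).1]
      exact map_zero (gm U)⟩) hX f (fun i => gm U fun n => ∑ j, t n i j * ζ n j)
    (fun i => (gm_ne U).2 (Eventually.of_forall fun n => hα0 n i)) N0 (fun i => by
      have e1 : aeval (fun d => gm U fun n => x n d) (f i) =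
          ∑ j, (gm U fun n => t n i j * η j) * ∏ d, (gm U fun n => x n d) ^ e j d := by
        simp only [f, fp, map_sum, aeval_monomial, Finsupp.prod_pow]
        rfl
      rw [e1]
      simp only [← Seq2_pow, ← Seq2_prod, ← Seq2_mul, ← Seq2_sum]
      refine (gm_eq U).2 (hev.mono fun n hn => ?_)
      simp only [Finset.sum_mul, mul_assoc, hn])
  let lc : ι → I → PadicAlgCl p := fun n k =>
    ∑ j ∈ Finset.univ.filter fun j => e j = ν k, t n k j * η j
  have hlc : ∀ k, (((f k).coeff (ν k) : GS U fun _ => K1) : GF p U) = gm U fun n => lc n k := by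
    intro k
    simp only [f, fp, lc, coeff_sum, coeff_monomial, ← Finset.sum_filter, Seq2_sum,
      AddSubmonoidClass.coe_finsetSum]
  have hlc0 : ∀ᶠ n in U, ∀ k, lc n k ≠ 0 := eventually_all.2 fun k => (gm_ne U).1 (by
    rw [← hlc]
    exact_mod_cast hν k)
  simp only [hlc, LG_gm] at hr
  obtain ⟨E', hE1, hE2, hE3, hE4⟩ := exists_up (GS U K) fun d => gm U fun n => x n d
  have hE5 := Seq2_fin hE3 hE1 K1
  have hζE : ∀ j, (gm U fun n => ζ n j) ∈ E' := fun j => by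
    have e1 : (gm U fun n => ζ n j) * ∏ d, (gm U fun n => x n d) ^ N0 =
        (gm U fun _ => η j) * ∏ d, (gm U fun n => x n d) ^ e j d := by
      simp only [← Seq2_pow, ← Seq2_prod, ← Seq2_mul]
      exact (gm_eq U).2 (hev.mono fun n hn => hn j)
    rw [eq_div_of_mul_eq (Finset.prod_ne_zero_iff.2 fun d _ => pow_ne_zero _ (hX0 d)) e1]
    exact E'.div_mem (E'.mul_mem (hE5 ⟨_, fun _ => hη1 j, rfl⟩)
      (E'.prod_mem fun d _ => E'.pow_mem (hE2 d) _)) (E'.prod_mem fun d _ => E'.pow_mem (hE2 d) _)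
  obtain ⟨S, q, hq, hY⟩ := elim2 E' (fun k => gm U fun n => L (∑ j, t n k j * ζ n j))
    (fun k => gm U fun n => L (lc n k))
    (fun k => hE5 ((gm_mem U).2 (hlc0.mono fun n hn =>
      log_mem hL K1 (sum_mem fun j _ => hm k j n) (hn k))))
    (fun I' _ ε => (hd I' ε).imp (fun ⟨r, h1, ω, h2⟩ => ⟨r, h1, hr I' ε r ω h2⟩) fun h => by
      have e1 : (fun s => gm U fun n =>
          Sum.elim (x n) (fun i => L (∑ j, t n (ε i) j * ζ n j)) s) =
          Sum.elim (fun d => gm U fun n => x n d)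
            fun i => gm U fun n => L (∑ j, t n (ε i) j * ζ n j) :=
        funext fun s => by cases s <;> rfl
      have h1 := Seq3_up U K1 hK (fun n => Sum.elim (x n) fun i => L (∑ j, t n (ε i) j * ζ n j))
        (fun n => Sum.rec (fun d => le_sup_left (a := Cyc p (s n)) (hx n d).2) fun i =>
          log_mem hL _ (sum_mem fun j _ => mul_mem (le_sup_right (b := K1) (h01 (ht n _ j)))
            (le_sup_left (a := Cyc p (s n)) (hζ n j).mem)) (hα0 n _))
        (by rw [e1]; exact h)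
      rw [e1] at h1
      exact hE4 I' _ h1)
    (fun i j => gm U fun n => A n i j) (fun i j k => gm U fun n => B n i j k)
    (fun i j => Seq2_alg hE3 hE1 hζE fun n => (hA n i j).2)
    (fun i j k => Seq2_alg hE3 hE1 hζE fun n => (hB n i j k).2) (by
      simp only [← Seq2_mul, ← Seq2_sum, ← Seq2_add, ← hM, hdet])
  let W : ι → I → PadicAlgCl p := fun n k => L (∑ j, t n k j * ζ n j) - L (lc n k)
  let A1 : ι → Fin 2 → Fin 2 → PadicAlgCl p := fun n i j => A n i j + ∑ k, B n i j k * L (lc n k)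
  let B1 : ι → Fin 2 → Fin 2 → S → PadicAlgCl p := fun n i j l => ∑ k, q k l * B n i j k
  have hq' : ∀ᶠ n in U, ∀ k, W n k = ∑ l : S, q k l * W n l := eventually_all.2 fun k =>
    (gm_eq U).1 (by simpa only [W, Seq2_sum, Seq2_mul, Seq2_sub, Seq2_rat] using hq k)
  have hY' : ∀ y : ι → S → PadicAlgCl p, ∀ᶠ n in U,
      (A1 n 0 0 + ∑ l, B1 n 0 0 l * y n l) * (A1 n 1 1 + ∑ l, B1 n 1 1 l * y n l) =
      (A1 n 0 1 + ∑ l, B1 n 0 1 l * y n l) * (A1 n 1 0 + ∑ l, B1 n 1 0 l * y n l) := fun y => by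
    have h1 := hY (fun l => gm U fun n => y n l)
      (fun i j => gm U fun n => A1 n i j + ∑ l, B1 n i j l * y n l) fun i j => by
        simp only [A1, B1, Seq2_add, Seq2_sum, Seq2_mul, Seq2_rat]
    simp only [← Seq2_mul] at h1
    exact (gm_eq U).1 h1
  refine ⟨Finset.univ.sup fun z : J × J => orderOf (η z.1 / η z.2), ?_⟩
  filter_upwards [hev, hlc0, hq', eventually_all.2 fun z : S × Bool =>
    hY' fun n => (fun l : S => W n l) + Pi.single z.1 (if z.2 then 1 else -1)] with n h1 h2 h3 h4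
  have e1 : ∀ i j, M n i j = A1 n i j + ∑ l, B1 n i j l * W n l := fun i j => by
    have e2 : ∑ l, B1 n i j l * W n l = ∑ k, B n i j k * W n k := by
      simp only [B1, Finset.sum_mul]
      rw [Finset.sum_comm]
      refine Finset.sum_congr rfl fun k _ => ?_
      rw [h3 k, Finset.mul_sum]
      exact Finset.sum_congr rfl fun l _ => by ring
    rw [e2, hM]
    simp only [A1, W, mul_sub, Finset.sum_sub_distrib]
    ring
  refine (dep_or_zero' (A1 n) (B1 n) (fun i j l => ?_) (fun l => W n l) (by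
    simp only [← e1, hdet]) fun l0 b y hy => hy ▸ h4 (l0, b)).imp (fun h => ?_) fun h i j => ?_
  · exact mem_algebraicClosure_iff.1 (sum_mem fun k _ => mul_mem
      (SubfieldClass.ratCast_mem _ _) (mem_algebraicClosure_iff.2 (hB n i j k).1))
  · simpa only [← e1] using h
  · rw [e1, Finset.sum_eq_zero fun l _ => by rw [h i j l, zero_mul], add_zero]
    refine add_mem ?_ (sum_mem fun k _ => Submodule.smul_mem _
      (⟨_, mem_algebraicClosure_iff.2 (hB n i j k).1⟩ : algebraicClosure ℚ (PadicAlgCl p))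
      (Submodule.subset_span (Set.mem_insert_of_mem _ (Seq3_clus hL (fun d => (hx n d).1) h1 (fun a b =>
        Finset.le_sup (f := fun z : J × J => orderOf (η z.1 / η z.2)) (Finset.mem_univ (a, b)))
        (t n) k _ (ν k) (fun a ha => (Finset.mem_filter.1 ha).2) (h2 k)))))
    rw [← mul_one (A n i j)]
    exact Submodule.smul_mem _
      (⟨_, mem_algebraicClosure_iff.2 (hA n i j).1⟩ : algebraicClosure ℚ (PadicAlgCl p))
      (Submodule.subset_span (Set.mem_insert _ _))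

end Pool.Agent.Work.MP_dd0d16_nt.T
end

-- merged part: Pool.Agent.Work.MP_dd0d16_nt.G.Final3
section
/-!
The compactness argument, arbitrary roots of unity.
-/

set_option autoImplicit false

namespace Pool.Agent.Work.MP_dd0d16_nt.T

open Filter

variable {p : ℕ} [Fact p.Prime] {L : PadicAlgCl p → PadicAlgCl p}

theorem AlgS.alg' {s : ℕ} {K : IntermediateField ℚ_[p] (PadicAlgCl p)} {B : ℕ} {a : PadicAlgCl p}
    (h : AlgS s K B a) : ∃ z : Fin (B + 1) × Fin B → PadicAlgCl p, (∀ q, RootS s (z q)) ∧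
      ∀ {J : Type} (ζ : J → PadicAlgCl p), (∀ q, z q ∈ Set.range ζ) → Alg' K B ζ a := by
  obtain ⟨f, h0, h1, h2⟩ := h
  choose t z hz e using h1
  refine ⟨fun q => z q.1 q.2, fun q => (hz _ _).2, fun ζ hζ => ⟨f, h0, fun i => ?_, h2⟩⟩
  rw [e]
  exact Submodule.sum_mem _ fun l _ => Submodule.smul_mem _ (⟨_, (hz i l).1⟩ : K)
    (Submodule.subset_span (hζ (i, l)))

theorem final3 (hL : IsLog L) (K1 : IntermediateField ℚ_[p] (PadicAlgCl p))
    [FiniteDimensional ℚ_[p] K1] (n B : ℕ) :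
    ∃ N : ℕ, ∀ (s : ℕ) (K : IntermediateField ℚ_[p] (PadicAlgCl p)),
      Module.rank ℚ_[p] ↥(K ⊓ Cyc p s) ≤ B →
      ∀ (t z : Fin n → Fin B → PadicAlgCl p) (a : Fin 2 → Fin 2 → PadicAlgCl p)
        (c : Fin 2 → Fin 2 → Fin n → PadicAlgCl p), (∀ k j, t k j ∈ K1 ∧ RootS s (z k j)) →
        (∀ k, ∑ j, t k j * z k j ≠ 0) → (∀ i j, IsAlgebraic ℚ (a i j) ∧ AlgS s K B (a i j)) →
        (∀ i j k, IsAlgebraic ℚ (c i j k) ∧ AlgS s K B (c i j k)) →
        FourExp (Matrix.of fun i j => a i j + ∑ k, c i j k * L (∑ l, t k l * z k l)) ∨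
          ∀ i j, a i j + ∑ k, c i j k * L (∑ l, t k l * z k l) ∈
            Submodule.span (algebraicClosure ℚ (PadicAlgCl p)) (insert 1 (L '' Clus N t z)) := by
  classical
  by_contra hh
  simp only [not_exists, not_forall, not_or] at hh
  choose s K hK t z a c hz hx ha hc h1 h2 using hh
  choose za hza ea using fun m i j => (ha m i j).2.alg'
  choose zc hzc ec using fun m i j k => (hc m i j k).2.alg'
  let Q := Fin (B + 1) × Fin B
  let ζ : ℕ → (Fin n × Fin B) ⊕ (Fin 2 × Fin 2 × Q) ⊕ (Fin 2 × Fin 2 × Fin n × Q) →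
      PadicAlgCl p := fun m => Sum.elim (fun q => z m q.1 q.2) (Sum.elim
        (fun q => za m q.1 q.2.1 q.2.2) fun q => zc m q.1 q.2.1 q.2.2.1 q.2.2.2)
  let b : ℕ → Fin n → (Fin n × Fin B) ⊕ (Fin 2 × Fin 2 × Q) ⊕ (Fin 2 × Fin 2 × Fin n × Q) →
      PadicAlgCl p := fun m k => Sum.elim (fun q => if q.1 = k then t m k q.2 else 0) 0
  have e : ∀ m k, ∑ i, b m k i * ζ m i = ∑ l, t m k l * z m k l := fun m k => by
    simp [b, ζ, Fintype.sum_prod_type]
  obtain ⟨N, h⟩ := seq3 hL (Ultrafilter.of atTop) s ζ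
    (by rintro m (q | q | q); exacts [(hz _ _ _).2, hza _ _ _ _, hzc _ _ _ _ _]) K1 b
    (by
      rintro m k (q | q)
      · simp only [b, Sum.elim_inl]
        split_ifs
        exacts [(hz _ _ _).1, zero_mem _]
      · exact zero_mem _)
    (fun m k => e m k ▸ hx m k) B K hK a c
    (fun m i j => ⟨(ha m i j).1, ea m i j _ fun q => ⟨.inr (.inl (i, j, q)), rfl⟩⟩)
    (fun m i j k => ⟨(hc m i j k).1, ec m i j k _ fun q => ⟨.inr (.inr (i, j, k, q)), rfl⟩⟩)
    (fun m i j => a m i j + ∑ k, c m i j k * L (∑ l, t m k l * z m k l))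
    (fun m i j => by simp only [e]) fun m => det_of_not (h1 m)
  obtain ⟨m, h3, h4⟩ := (h.and ((Ultrafilter.of_le atTop) (eventually_ge_atTop N))).exists
  rcases h3 with h3 | h3
  · exact h1 m (fourExp_of_dep h3)
  · obtain ⟨i, j, h5⟩ := h2 m
    refine h5 (Submodule.span_mono (Set.insert_subset_insert (Set.image_mono ?_)) (h3 i j))
    rintro y ⟨h6, k, S, h7, rfl⟩
    refine ⟨h6, k, Finset.univ.filter fun l => Sum.inl (k, l) ∈ S, fun l hl l' hl' =>
      (h7 _ (Finset.mem_filter.1 hl).2 _ (Finset.mem_filter.1 hl').2).trans h4, ?_⟩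
    rw [← Finset.sum_ite_mem_eq S, Finset.sum_filter]
    simp only [b, ζ, Fintype.sum_sum_type, Sum.elim_inl, Sum.elim_inr, Pi.zero_apply, zero_mul,
      ite_self, Finset.sum_const_zero, add_zero, Fintype.sum_prod_type]
    rw [Finset.sum_eq_single k]
    · simp
    · intro k' _ hk
      simp [hk]
    · simp

end Pool.Agent.Work.MP_dd0d16_nt.T
end
end
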